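import Pool.Agent.Lib_MP_d358f8_ne.Defs

/-!
# MP_d358f8_nt: the Jacobian of `Y ↦ gᵀ Y g` is `|det g|⁴`

`actL g` is the linear map `Y ↦ gᵀ Y g` of `ℝ⁶` (the symmetric matrices). PROOF of `abs_det_actL`.
`actL (g h) = actL h ∘ actL g`, so `δ(g) = LinearMap.det (actL g)` is multiplicative (`LinearMap.det_comp`), `δ(1) = 1`. Use
`Matrix.diagonal_transvection_induction_of_det_ne_zero` for the statement `|δ(g)| = |det g| ^ 4` (multiplicative in `g`):
for `g = diagonal d` the map `actL g` is diagonal, it multiplies the entries by `d₁², d₁ d₂, d₁ d₃, d₂², d₂ d₃, d₃²`, product `(d₁ d₂ d₃)⁴`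
(`LinearMap.det` of a map on a product; `LinearMap.det_prodMap` or `LinearMap.det_toLin'`-type lemmas with a basis); for a transvection
`t(c) = 1 + c E_{ij}`, `i ≠ j`: let `D` be the diagonal matrix with `D_ii = 2` and `1` elsewhere; `D t(c) D⁻¹ = t(2 c) = t(c) t(c)`; so
`δ(t(c)) = δ(D) δ(t(c)) δ(D⁻¹) = δ(t(c))²`, and `δ(t(c)) ≠ 0` (invertible), so `δ(t(c)) = 1`.

`lintegral_act`: `MeasureTheory.Measure.map_linearMap_addHaar_eq_smul_addHaar` for the linear map `actL g` and the Lebesgue measure of `ℝ⁶`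
(`volume` on `Frm` is by definition the product measure; it is an additive Haar measure).
-/

namespace AQ3

open MeasureTheory Matrix
open scoped ENNReal MatrixGroups

private theorem mat_add_Act6 (x y : ℝ × ℝ × ℝ × ℝ × ℝ × ℝ) :
    Frm.mat (x + y) = Frm.mat x + Frm.mat y := by
  ext i j
  fin_cases i <;> fin_cases j <;> simp [Frm.mat]

private theorem mat_smul_Act6 (c : ℝ) (x : ℝ × ℝ × ℝ × ℝ × ℝ × ℝ) :
    Frm.mat (c • x) = c • Frm.mat x := by
  ext i j
  fin_cases i <;> fin_cases j <;> simp [Frm.mat]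

/-- The linear map `Y ↦ gᵀ Y g`. -/
noncomputable def actL (g : Matrix (Fin 3) (Fin 3) ℝ) :
    (ℝ × ℝ × ℝ × ℝ × ℝ × ℝ) →ₗ[ℝ] (ℝ × ℝ × ℝ × ℝ × ℝ × ℝ) where
  toFun y := act g y
  map_add' x y := by
    unfold act
    rw [mat_add_Act6, Matrix.mul_add, Matrix.add_mul]
    rfl
  map_smul' c x := by
    unfold act
    rw [mat_smul_Act6, Matrix.mul_smul, Matrix.smul_mul]
    rfl

theorem actL_apply (g : Matrix (Fin 3) (Fin 3) ℝ) (y : ℝ × ℝ × ℝ × ℝ × ℝ × ℝ) : actL g y = act g y := rfl

private theorem actL_mul_Act6 (g h : Matrix (Fin 3) (Fin 3) ℝ) :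
    actL (g * h) = actL h ∘ₗ actL g := by
  apply LinearMap.ext
  intro y
  exact (act_act g h y).symm

private theorem det_mul_Act6 (g h : Matrix (Fin 3) (Fin 3) ℝ) :
    LinearMap.det (actL (g * h)) = LinearMap.det (actL h) * LinearMap.det (actL g) := by
  rw [actL_mul_Act6, LinearMap.det_comp]

private theorem det_one_Act6 : LinearMap.det (actL 1) = 1 := by
  have : actL 1 = LinearMap.id := by
    apply LinearMap.ext
    intro y
    exact act_one y
  rw [this, LinearMap.det_id]

private theorem det_diag_Act6 (d : Fin 3 → ℝ) :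
    LinearMap.det (actL (diagonal d)) = (d 0 * d 1 * d 2) ^ 4 := by
  have h1 : actL (diagonal d) =
      (LinearMap.prodMap ((d 0 * d 0) • LinearMap.id)
        (LinearMap.prodMap ((d 0 * d 1) • LinearMap.id)
          (LinearMap.prodMap ((d 0 * d 2) • LinearMap.id)
            (LinearMap.prodMap ((d 1 * d 1) • LinearMap.id)
              (LinearMap.prodMap ((d 1 * d 2) • LinearMap.id) ((d 2 * d 2) • LinearMap.id))))) :
        (ℝ × ℝ × ℝ × ℝ × ℝ × ℝ) →ₗ[ℝ] (ℝ × ℝ × ℝ × ℝ × ℝ × ℝ)) := by
    apply LinearMap.ext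
    rintro ⟨a, b, c, e, f, h⟩
    rw [actL_apply]
    unfold act
    rw [Matrix.diagonal_transpose]
    simp only [Frm.of, Matrix.mul_diagonal, Matrix.diagonal_mul, Frm.mat, LinearMap.prodMap_apply,
      LinearMap.smul_apply, LinearMap.id_apply, smul_eq_mul]
    refine Prod.ext ?_ (Prod.ext ?_ (Prod.ext ?_ (Prod.ext ?_ (Prod.ext ?_ ?_)))) <;>
      simp <;> ring
  rw [h1]
  simp only [LinearMap.det_prodMap, LinearMap.det_smul, LinearMap.det_id, Module.finrank_self]
  ring

private theorem diag_transvection_Act6 (i j : Fin 3) (hij : i ≠ j) (c : ℝ) :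
    diagonal (fun k : Fin 3 => if k = i then (2 : ℝ) else 1) * transvection i j c =
      transvection i j (c + c) * diagonal (fun k : Fin 3 => if k = i then (2 : ℝ) else 1) := by
  ext a b
  rw [Matrix.diagonal_mul, Matrix.mul_diagonal, transvection, transvection, Matrix.add_apply,
    Matrix.add_apply, Matrix.single_apply, Matrix.single_apply]
  by_cases h1 : i = a ∧ j = b
  · obtain ⟨rfl, rfl⟩ := h1
    rw [Matrix.one_apply_ne hij]
    simp [hij.symm]
    ring
  · rw [if_neg h1, if_neg h1]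
    by_cases h2 : a = b
    · subst h2
      simp
    · rw [Matrix.one_apply_ne h2]
      simp

private theorem det_transvection_Act6 (t : TransvectionStruct (Fin 3) ℝ) :
    LinearMap.det (actL t.toMatrix) = 1 := by
  obtain ⟨i, j, hij, c⟩ := t
  change LinearMap.det (actL (transvection i j c)) = 1
  have h1 : LinearMap.det (actL (transvection i j (c + c))) =
      LinearMap.det (actL (transvection i j c)) * LinearMap.det (actL (transvection i j c)) := by
    rw [← transvection_mul_transvection_same i j hij, det_mul_Act6]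
  have h2 := congrArg (fun M => LinearMap.det (actL M)) (diag_transvection_Act6 i j hij c)
  rw [det_mul_Act6, det_mul_Act6, h1] at h2
  have h3 : LinearMap.det (actL (diagonal (fun k : Fin 3 => if k = i then (2 : ℝ) else 1))) ≠ 0 := by
    rw [det_diag_Act6]
    apply pow_ne_zero
    apply mul_ne_zero (mul_ne_zero _ _) _
    all_goals split_ifs <;> norm_num
  have h4 : LinearMap.det (actL (transvection i j c)) *
      LinearMap.det (actL (transvection i j (-c))) = 1 := by
    rw [← det_mul_Act6, transvection_mul_transvection_same i j hij, neg_add_cancel,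
      transvection_zero, det_one_Act6]
  have h5 : LinearMap.det (actL (transvection i j c)) ≠ 0 := left_ne_zero_of_mul_eq_one h4
  have h6 : LinearMap.det (actL (transvection i j c)) =
      LinearMap.det (actL (transvection i j c)) * LinearMap.det (actL (transvection i j c)) := by
    apply mul_right_cancel₀ h3
    rw [h2]
    ring
  have h7 : LinearMap.det (actL (transvection i j c)) * 1 =
      LinearMap.det (actL (transvection i j c)) * LinearMap.det (actL (transvection i j c)) := by
    rw [mul_one]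
    exact h6
  exact (mul_left_cancel₀ h5 h7).symm

theorem abs_det_actL {g : Matrix (Fin 3) (Fin 3) ℝ} (hg : g.det ≠ 0) : |LinearMap.det (actL g)| = |g.det| ^ 4 := by
  apply Matrix.diagonal_transvection_induction_of_det_ne_zero
    (fun g => |LinearMap.det (actL g)| = |g.det| ^ 4) g hg
  · intro D _
    rw [det_diag_Act6, Matrix.det_diagonal, Fin.prod_univ_three, abs_pow]
  · intro t
    rw [det_transvection_Act6, TransvectionStruct.det]
    simp
  · intro A B _ _ hA hB
    rw [det_mul_Act6, abs_mul, hA, hB, Matrix.det_mul, abs_mul]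
    ring

theorem continuous_act (g : Matrix (Fin 3) (Fin 3) ℝ) : Continuous (act g) :=
  (actL g).continuous_of_finiteDimensional

theorem measurable_act (g : Matrix (Fin 3) (Fin 3) ℝ) : Measurable (act g) :=
  (continuous_act g).measurable

theorem lintegral_act {g : Matrix (Fin 3) (Fin 3) ℝ} (hg : g.det ≠ 0) (G : Frm → ℝ≥0∞) :
    ENNReal.ofReal (|g.det| ^ 4) * ∫⁻ y, G (act g y) = ∫⁻ y, G y := by
  have hdet : LinearMap.det (actL g) ≠ 0 := by
    intro h
    have h1 := abs_det_actL hg
    rw [h, abs_zero] at h1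
    exact (pow_ne_zero 4 (abs_ne_zero.mpr hg)) h1.symm
  have hemb : MeasurableEmbedding (actL g) :=
    ((actL g).equivOfDetNeZero hdet).toContinuousLinearEquiv.toHomeomorph.measurableEmbedding
  have i2 : Measure.IsAddHaarMeasure (volume : Measure (ℝ × ℝ)) :=
    Measure.prod.instIsAddHaarMeasure _ _
  have i3 : Measure.IsAddHaarMeasure (volume : Measure (ℝ × ℝ × ℝ)) :=
    Measure.prod.instIsAddHaarMeasure _ _
  have i4 : Measure.IsAddHaarMeasure (volume : Measure (ℝ × ℝ × ℝ × ℝ)) :=
    Measure.prod.instIsAddHaarMeasure _ _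
  have i5 : Measure.IsAddHaarMeasure (volume : Measure (ℝ × ℝ × ℝ × ℝ × ℝ)) :=
    Measure.prod.instIsAddHaarMeasure _ _
  have i6 : Measure.IsAddHaarMeasure (volume : Measure (ℝ × ℝ × ℝ × ℝ × ℝ × ℝ)) :=
    Measure.prod.instIsAddHaarMeasure _ _
  have h1 := Measure.map_linearMap_addHaar_eq_smul_addHaar
    (volume : Measure (ℝ × ℝ × ℝ × ℝ × ℝ × ℝ)) hdet
  have h2 : ∫⁻ y : ℝ × ℝ × ℝ × ℝ × ℝ × ℝ, G (actL g y) =
      ∫⁻ y, G y ∂(Measure.map (actL g) (volume : Measure (ℝ × ℝ × ℝ × ℝ × ℝ × ℝ))) :=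
    (hemb.lintegral_map G).symm
  rw [h1, lintegral_smul_measure, smul_eq_mul] at h2
  change ENNReal.ofReal (|g.det| ^ 4) * ∫⁻ y : ℝ × ℝ × ℝ × ℝ × ℝ × ℝ, G (actL g y) =
    ∫⁻ y : ℝ × ℝ × ℝ × ℝ × ℝ × ℝ, G y
  rw [h2, ← mul_assoc, ← ENNReal.ofReal_mul (by positivity), abs_inv, abs_det_actL hg,
    mul_inv_cancel₀ (pow_ne_zero 4 (abs_ne_zero.mpr hg)), ENNReal.ofReal_one, one_mul]

end AQ3
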