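import Pool.Agent.Lib_MP_d358f8_ne.Defs

/-!
# MP_d358f8_nt: the binary forms and `GL₂(ℝ)`

PROOFS. The algebraic statements are immediate (`Matrix.det_fin_two`, `ring`).
* `pd_iff`: `z₁₁ bq z b c = (z₁₁ b + z₁₂ c)² + (bdet z) c²`.
* `lintegral_bact`: `nu` is `1_{pd}(z) (bdet z)⁻² dz`. `bact A` is a linear bijection of `ℝ³` with the determinant `(det A)³` (in the
  coordinates `(z₁₁, z₁₂, z₂₂)` the matrix is `!![a², 2 a c, c²; a b, a d + b c, c d; b², 2 b d, d²]`), so
  `∫ G(bact A z) dz = |det A|⁻³ ∫ G(z) dz` (`MeasureTheory.Measure.map_linearMap_addHaar_eq_smul_addHaar` or `addHaar_preimage_linearMap`; the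
  determinant of the linear map of `ℝ × ℝ × ℝ`: conjugate with `ℝ³ = Fin 3 → ℝ`, or write `bact A` as a product of simple maps), and
  `bdet (bact A z) = (det A)² bdet z` gives the factor `(det A)⁴`.
* `lintegral_sc`: `sc_eq`.
* `lintegral_up`: `∫_{strip} g(up p z) dnu = p ∫_{0 ≤ w₁₂ < p w₁₁} g(w) dnu` (`lintegral_bact` for the function `1_{0 ≤ w₁₂ < p w₁₁} g(w)`:
  `z ∈ strip` iff `0 ≤ (up p z)₁₂ < p (up p z)₁₁`); the set `0 ≤ w₁₂ < p w₁₁` is the disjoint union of the `p` translates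
  `shr^j strip = {j w₁₁ ≤ w₁₂ < (j + 1) w₁₁}`, `0 ≤ j < p`, and the integrals over them are equal (`lintegral_bact` for the matrix
  `!![1, j; 0, 1]`, `g` invariant).
* `lintegral_dn`: `z ∈ strip` iff `w = dn p j z` satisfies `j w₁₁ ≤ p w₁₂ < (j + 1) w₁₁`; the union of these sets over `0 ≤ j < p` is the strip;
  `lintegral_bact` gives the factor `p`.
-/

namespace AQ3

open MeasureTheory Matrix
open scoped ENNReal MatrixGroups

theorem bq_bact (A : Matrix (Fin 2) (Fin 2) ℝ) (z : Bin) (b c : ℝ) :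
    bq (bact A z) b c = bq z (A 0 0 * b + A 0 1 * c) (A 1 0 * b + A 1 1 * c) := by
  unfold bact bq
  simp only
  ring

theorem bdet_bact (A : Matrix (Fin 2) (Fin 2) ℝ) (z : Bin) : bdet (bact A z) = A.det ^ 2 * bdet z := by
  rw [Matrix.det_fin_two]
  unfold bdet bact bq
  simp only
  ring

theorem pd_iff (z : Bin) : pd z ↔ ∀ b c : ℝ, (b ≠ 0 ∨ c ≠ 0) → 0 < bq z b c := by
  constructor
  · rintro ⟨h1, h2⟩ b c hbc
    have key : z.1 * bq z b c = (z.1 * b + z.2.1 * c) ^ 2 + bdet z * c ^ 2 := by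
      unfold bq bdet; ring
    by_cases hc : c = 0
    · have hb : b ≠ 0 := hbc.resolve_right (fun h => h hc)
      have : bq z b c = z.1 * b ^ 2 := by unfold bq; rw [hc]; ring
      rw [this]; positivity
    · have h3 : 0 < z.1 * bq z b c := by
        rw [key]
        have : 0 < bdet z * c ^ 2 := by positivity
        have : 0 ≤ (z.1 * b + z.2.1 * c) ^ 2 := sq_nonneg _
        linarith
      exact (mul_pos_iff_of_pos_left h1).1 h3
  · intro h
    have h1 : 0 < z.1 := by
      have := h 1 0 (Or.inl one_ne_zero)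
      unfold bq at this
      simpa using this
    have h2 := h (-z.2.1) z.1 (Or.inr h1.ne')
    have h3 : bq z (-z.2.1) z.1 = z.1 * bdet z := by unfold bq bdet; ring
    rw [h3] at h2
    exact ⟨h1, (mul_pos_iff_of_pos_left h1).1 h2⟩

theorem bact_bact (A B : Matrix (Fin 2) (Fin 2) ℝ) (z : Bin) : bact B (bact A z) = bact (A * B) z := by
  unfold bact bq
  simp only [Matrix.mul_apply, Fin.sum_univ_two]
  refine Prod.ext ?_ (Prod.ext ?_ ?_) <;> simp only <;> ring

theorem bact_one (z : Bin) : bact 1 z = z := by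
  obtain ⟨x, y, w⟩ := z
  unfold bact bq
  simp

private lemma lin2_pd_of {A : Matrix (Fin 2) (Fin 2) ℝ} (hA : A.det ≠ 0) {z : Bin} (h : pd z) :
    pd (bact A z) := by
  refine ⟨?_, ?_⟩
  · refine (pd_iff z).1 h _ _ ?_
    by_contra hc
    rw [not_or, not_not, not_not] at hc
    exact hA (by rw [Matrix.det_fin_two, hc.1, hc.2]; ring)
  · rw [bdet_bact]
    have := h.2
    positivity

private lemma lin2_inv {A : Matrix (Fin 2) (Fin 2) ℝ} (hA : A.det ≠ 0) (z : Bin) :
    bact A⁻¹ (bact A z) = z := by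
  rw [bact_bact, Matrix.mul_nonsing_inv _ (isUnit_iff_ne_zero.2 hA), bact_one]

private lemma lin2_inv' {A : Matrix (Fin 2) (Fin 2) ℝ} (hA : A.det ≠ 0) (z : Bin) :
    bact A (bact A⁻¹ z) = z := by
  rw [bact_bact, Matrix.nonsing_inv_mul _ (isUnit_iff_ne_zero.2 hA), bact_one]

theorem pd_bact {A : Matrix (Fin 2) (Fin 2) ℝ} (hA : A.det ≠ 0) (z : Bin) : pd (bact A z) ↔ pd z := by
  refine ⟨fun h => ?_, lin2_pd_of hA⟩
  have hA' : A⁻¹.det ≠ 0 := by
    rw [Matrix.det_nonsing_inv, Ring.inverse_eq_inv']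
    exact inv_ne_zero hA
  have := lin2_pd_of hA' h
  rwa [lin2_inv hA] at this

theorem continuous_bact (A : Matrix (Fin 2) (Fin 2) ℝ) : Continuous (bact A) := by
  have : Continuous (fun z : ℝ × ℝ × ℝ =>
      ((z.1 * A 0 0 ^ 2 + 2 * z.2.1 * A 0 0 * A 1 0 + z.2.2 * A 1 0 ^ 2,
        z.1 * A 0 0 * A 0 1 + z.2.1 * (A 0 0 * A 1 1 + A 1 0 * A 0 1) + z.2.2 * A 1 0 * A 1 1,
        z.1 * A 0 1 ^ 2 + 2 * z.2.1 * A 0 1 * A 1 1 + z.2.2 * A 1 1 ^ 2) : ℝ × ℝ × ℝ)) := by
    fun_prop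
  exact this

theorem measurable_bact (A : Matrix (Fin 2) (Fin 2) ℝ) : Measurable (bact A) :=
  (continuous_bact A).measurable

theorem sc_eq (c : ℝ) (hc : 0 ≤ c) (z : Bin) : sc c z = bact !![√c, 0; 0, √c] z := by
  have h := Real.mul_self_sqrt hc
  unfold sc bact bq
  simp only [Matrix.of_apply, Matrix.cons_val', Matrix.cons_val_zero, Matrix.cons_val_one,
    Matrix.cons_val_fin_one]
  refine Prod.ext ?_ (Prod.ext ?_ ?_) <;> simp only
  · linear_combination -(z.1) * h
  · linear_combination -(z.2.1) * h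
  · linear_combination -(z.2.2) * h

theorem up_eq (p : ℝ) (z : Bin) : up p z = bact !![1, 0; 0, p] z := by
  unfold up bact bq
  simp only [Matrix.of_apply, Matrix.cons_val', Matrix.cons_val_zero, Matrix.cons_val_one,
    Matrix.cons_val_fin_one]
  refine Prod.ext ?_ (Prod.ext ?_ ?_) <;> simp only <;> ring

theorem dn_eq (p j : ℝ) (z : Bin) : dn p j z = bact !![p, j; 0, 1] z := by
  unfold dn bact bq
  simp only [Matrix.of_apply, Matrix.cons_val', Matrix.cons_val_zero, Matrix.cons_val_one,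
    Matrix.cons_val_fin_one]
  refine Prod.ext ?_ (Prod.ext ?_ ?_) <;> simp only <;> ring

theorem shr_eq (z : Bin) : shr z = bact !![1, 1; 0, 1] z := by
  unfold shr bact bq
  simp only [Matrix.of_apply, Matrix.cons_val', Matrix.cons_val_zero, Matrix.cons_val_one,
    Matrix.cons_val_fin_one]
  refine Prod.ext ?_ (Prod.ext ?_ ?_) <;> simp only <;> ring

private lemma lin2_c1 : Continuous fun z : Bin => z.1 := by
  have : Continuous (fun z : ℝ × ℝ × ℝ => z.1) := by fun_prop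
  exact this

private lemma lin2_c2 : Continuous fun z : Bin => z.2.1 := by
  have : Continuous (fun z : ℝ × ℝ × ℝ => z.2.1) := by fun_prop
  exact this

private lemma lin2_c3 : Continuous fun z : Bin => z.2.2 := by
  have : Continuous (fun z : ℝ × ℝ × ℝ => z.2.2) := by fun_prop
  exact this

private lemma lin2_cdet : Continuous bdet :=
  (lin2_c1.mul lin2_c3).sub (lin2_c2.pow 2)

theorem measurableSet_pd : MeasurableSet {z : Bin | pd z} :=
  ((isOpen_lt continuous_const lin2_c1).inter (isOpen_lt continuous_const lin2_cdet)).measurableSet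

theorem measurableSet_hgt (V : ℝ) : MeasurableSet {z : Bin | Hgt V z} := by
  have h : {z : Bin | Hgt V z} = ⋂ (b : ℤ) (c : ℤ) (_ : b ≠ 0 ∨ c ≠ 0), {z : Bin | V ^ 2 ≤ bq z b c} := by
    ext z
    simp only [Hgt, Set.mem_ofPred_eq, Set.mem_iInter]
  rw [h]
  refine MeasurableSet.iInter fun b => MeasurableSet.iInter fun c => MeasurableSet.iInter fun _ => ?_
  have hc : Continuous fun z : Bin => bq z b c :=
    ((lin2_c1.mul continuous_const).add (((continuous_const.mul lin2_c2).mul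
      continuous_const).mul continuous_const)).add (lin2_c3.mul continuous_const)
  exact (isClosed_le continuous_const hc).measurableSet

/-! ### Lebesgue measure -/

/-- Coordinates. -/
private def lin2_phi : (ℝ × ℝ × ℝ) ≃ₗ[ℝ] (Fin 3 → ℝ) where
  toFun z := ![z.1, z.2.1, z.2.2]
  invFun v := (v 0, v 1, v 2)
  map_add' z w := by ext i; fin_cases i <;> simp
  map_smul' c z := by ext i; fin_cases i <;> simp
  left_inv z := rfl
  right_inv v := by ext i; fin_cases i <;> rfl

/-- The matrix of `bact A`. -/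
private def lin2_mat (A : Matrix (Fin 2) (Fin 2) ℝ) : Matrix (Fin 3) (Fin 3) ℝ :=
  !![A 0 0 ^ 2, 2 * A 0 0 * A 1 0, A 1 0 ^ 2;
    A 0 0 * A 0 1, A 0 0 * A 1 1 + A 1 0 * A 0 1, A 1 0 * A 1 1;
    A 0 1 ^ 2, 2 * A 0 1 * A 1 1, A 1 1 ^ 2]

private lemma lin2_det_mat (A : Matrix (Fin 2) (Fin 2) ℝ) : (lin2_mat A).det = A.det ^ 3 := by
  rw [Matrix.det_fin_three, Matrix.det_fin_two]
  simp only [lin2_mat, Matrix.of_apply, Matrix.cons_val', Matrix.cons_val_zero,
    Matrix.cons_val_one, Matrix.cons_val_fin_one, Matrix.cons_val]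
  ring

/-- `bact A` as a linear map. -/
private noncomputable def lin2_lin (A : Matrix (Fin 2) (Fin 2) ℝ) : (ℝ × ℝ × ℝ) →ₗ[ℝ] (ℝ × ℝ × ℝ) :=
  (lin2_phi.symm : (Fin 3 → ℝ) →ₗ[ℝ] (ℝ × ℝ × ℝ)) ∘ₗ (Matrix.toLin' (lin2_mat A)) ∘ₗ
    (lin2_phi : (ℝ × ℝ × ℝ) →ₗ[ℝ] (Fin 3 → ℝ))

private lemma lin2_lin_det (A : Matrix (Fin 2) (Fin 2) ℝ) : LinearMap.det (lin2_lin A) = A.det ^ 3 := by
  have h := LinearMap.det_conj (Matrix.toLin' (lin2_mat A)) lin2_phi.symm
  rw [LinearEquiv.symm_symm] at h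
  rw [← lin2_det_mat, ← LinearMap.det_toLin', ← h]
  rfl

private lemma lin2_lin_apply (A : Matrix (Fin 2) (Fin 2) ℝ) (z : ℝ × ℝ × ℝ) :
    lin2_lin A z = bact A z := by
  have h : lin2_lin A z = lin2_phi.symm ((lin2_mat A) *ᵥ (![z.1, z.2.1, z.2.2])) := rfl
  have h2 : ∀ v : Fin 3 → ℝ, lin2_phi.symm v = (v 0, v 1, v 2) := fun v => rfl
  rw [h, h2]
  unfold bact bq
  simp only [lin2_mat, Matrix.mulVec, dotProduct, Fin.sum_univ_three, Matrix.of_apply,
    Matrix.cons_val', Matrix.cons_val_zero, Matrix.cons_val_one, Matrix.cons_val_fin_one,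
    Matrix.cons_val]
  refine Prod.ext ?_ (Prod.ext ?_ ?_) <;> simp only <;> ring

private lemma lin2_map_volume {A : Matrix (Fin 2) (Fin 2) ℝ} (hA : A.det ≠ 0) :
    Measure.map (bact A) (volume : Measure Bin)
      = ENNReal.ofReal |(A.det ^ 3)⁻¹| • (volume : Measure Bin) := by
  have h1 : LinearMap.det (lin2_lin A) ≠ 0 := by
    rw [lin2_lin_det]; exact pow_ne_zero _ hA
  have : (volume : Measure (ℝ × ℝ)).IsAddHaarMeasure := Measure.prod.instIsAddHaarMeasure _ _
  have : (volume : Measure (ℝ × ℝ × ℝ)).IsAddHaarMeasure := Measure.prod.instIsAddHaarMeasure _ _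
  have h := Measure.map_linearMap_addHaar_eq_smul_addHaar (volume : Measure (ℝ × ℝ × ℝ)) h1
  rw [lin2_lin_det, show ((lin2_lin A : (ℝ × ℝ × ℝ) →ₗ[ℝ] (ℝ × ℝ × ℝ)) : (ℝ × ℝ × ℝ) → (ℝ × ℝ × ℝ))
    = bact A from funext (lin2_lin_apply A)] at h
  exact h

/-- `bact A` as a measurable equivalence. -/
private noncomputable def lin2_equiv {A : Matrix (Fin 2) (Fin 2) ℝ} (hA : A.det ≠ 0) : Bin ≃ᵐ Bin where
  toFun := bact A
  invFun := bact A⁻¹
  left_inv := lin2_inv hA
  right_inv := lin2_inv' hA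
  measurable_toFun := measurable_bact A
  measurable_invFun := measurable_bact _

/-- The density. -/
private noncomputable def lin2_dens (z : Bin) : ℝ≥0∞ := ENNReal.ofReal (1 / bdet z ^ 2)

private lemma lin2_nu_apply {B : Set Bin} (hB : MeasurableSet B) :
    nu B = ∫⁻ z, (B ∩ {z | pd z}).indicator lin2_dens z := by
  rw [nu, withDensity_apply _ hB, Measure.restrict_restrict hB,
    lintegral_indicator (hB.inter measurableSet_pd)]
  rfl

private lemma lin2_map_nu {A : Matrix (Fin 2) (Fin 2) ℝ} (hA : A.det ≠ 0) :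
    Measure.map (bact A) nu = ENNReal.ofReal |A.det| • nu := by
  have hm := measurable_bact A
  ext B hB
  rw [Measure.map_apply hm hB, lin2_nu_apply (hm hB), Measure.smul_apply, smul_eq_mul,
    lin2_nu_apply hB]
  set H : Bin → ℝ≥0∞ := fun w => ENNReal.ofReal (A.det ^ 4) * (B ∩ {z | pd z}).indicator lin2_dens w
    with hH
  have e1 : ∀ z, (bact A ⁻¹' B ∩ {z | pd z}).indicator lin2_dens z = H (bact A z) := by
    intro z
    by_cases hz : pd z
    · by_cases hzB : bact A z ∈ B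
      · rw [Set.indicator_of_mem (show z ∈ bact A ⁻¹' B ∩ {z | pd z} from ⟨hzB, hz⟩)]
        simp only [hH]
        rw [Set.indicator_of_mem (show bact A z ∈ B ∩ {z | pd z} from ⟨hzB, (pd_bact hA z).2 hz⟩)]
        unfold lin2_dens
        rw [← ENNReal.ofReal_mul (by positivity), bdet_bact]
        congr 1
        have h2 := hz.2.ne'
        field_simp
      · rw [Set.indicator_of_notMem (fun h => hzB h.1)]
        simp only [hH]
        rw [Set.indicator_of_notMem (fun h => hzB h.1), mul_zero]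
    · rw [Set.indicator_of_notMem (fun h => hz h.2)]
      simp only [hH]
      rw [Set.indicator_of_notMem (fun h => hz ((pd_bact hA z).1 h.2)), mul_zero]
  have e2 : ∫⁻ z, H (bact A z) = ENNReal.ofReal |(A.det ^ 3)⁻¹| * ∫⁻ z, H z := by
    have h1 : ∫⁻ z, H z ∂(Measure.map (lin2_equiv hA) (volume : Measure Bin)) = ∫⁻ z, H (lin2_equiv hA z) :=
      lintegral_map_equiv H (lin2_equiv hA)
    have h2 : Measure.map (lin2_equiv hA) (volume : Measure Bin)
        = ENNReal.ofReal |(A.det ^ 3)⁻¹| • (volume : Measure Bin) := lin2_map_volume hA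
    rw [h2, lintegral_smul_measure] at h1
    exact h1.symm
  have hdm : Measurable lin2_dens := by
    have : Measurable fun z : Bin => 1 / bdet z ^ 2 := measurable_const.div ((lin2_cdet.pow 2).measurable)
    exact this.ennreal_ofReal
  rw [lintegral_congr e1, e2]
  simp only [hH]
  rw [lintegral_const_mul _ (hdm.indicator (hB.inter measurableSet_pd)), ← mul_assoc,
    ← ENNReal.ofReal_mul (abs_nonneg _)]
  congr 2
  rw [abs_inv, abs_pow]
  have h3 : A.det ^ 4 = |A.det| ^ 4 := by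
    rw [← abs_pow, abs_of_nonneg (by positivity)]
  rw [h3]
  have h4 : |A.det| ≠ 0 := abs_ne_zero.2 hA
  field_simp

/-- The measure `nu` under a linear substitution. -/
theorem lintegral_bact {A : Matrix (Fin 2) (Fin 2) ℝ} (hA : A.det ≠ 0) (g : Bin → ℝ≥0∞) :
    ∫⁻ z, g (bact A z) ∂nu = ENNReal.ofReal |A.det| * ∫⁻ z, g z ∂nu := by
  have h1 : ∫⁻ z, g z ∂(Measure.map (lin2_equiv hA) nu) = ∫⁻ z, g (lin2_equiv hA z) ∂nu :=
    lintegral_map_equiv g (lin2_equiv hA)
  have h2 : Measure.map (lin2_equiv hA) nu = ENNReal.ofReal |A.det| • nu := lin2_map_nu hA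
  rw [h2, lintegral_smul_measure] at h1
  exact h1.symm

theorem lintegral_sc {c : ℝ} (hc : 0 < c) (g : Bin → ℝ≥0∞) :
    ∫⁻ z, g (sc c z) ∂nu = ENNReal.ofReal c * ∫⁻ z, g z ∂nu := by
  have hd : (!![√c, 0; 0, √c] : Matrix (Fin 2) (Fin 2) ℝ).det = c := by
    rw [Matrix.det_fin_two_of, Real.mul_self_sqrt hc.le]; ring
  have h := lintegral_bact (A := !![√c, 0; 0, √c]) (by rw [hd]; exact hc.ne') g
  rw [hd, abs_of_pos hc] at h
  rw [← h]
  exact lintegral_congr fun z => by rw [sc_eq c hc.le]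

/-- The strip `0 ≤ u < 1`. -/
def strip : Set Bin := {z | 0 ≤ z.2.1 ∧ z.2.1 < z.1}

private lemma lin2_setLIntegral {A : Matrix (Fin 2) (Fin 2) ℝ} (hA : A.det ≠ 0) {Z W : Set Bin}
    (hZ : MeasurableSet Z) (hW : MeasurableSet W) (h : ∀ z, z ∈ Z ↔ bact A z ∈ W) (g : Bin → ℝ≥0∞) :
    ∫⁻ z in Z, g (bact A z) ∂nu = ENNReal.ofReal |A.det| * ∫⁻ w in W, g w ∂nu := by
  rw [← lintegral_indicator hZ, ← lintegral_indicator hW, ← lintegral_bact hA]
  refine lintegral_congr fun z => ?_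
  by_cases hz : z ∈ Z
  · rw [Set.indicator_of_mem hz, Set.indicator_of_mem ((h z).1 hz)]
  · rw [Set.indicator_of_notMem hz, Set.indicator_of_notMem (fun h' => hz ((h z).2 h'))]

private lemma lin2_strip_ms : MeasurableSet strip :=
  ((isClosed_le continuous_const lin2_c2).measurableSet).inter
    ((isOpen_lt lin2_c2 lin2_c1).measurableSet)

/-- The set `0 ≤ r w₁₂ < k w₁₁`. -/
private def lin2_U (r k : ℝ) : Set Bin := {w | 0 ≤ r * w.2.1 ∧ r * w.2.1 < k * w.1}

/-- The set `j w₁₁ ≤ r w₁₂ < (j + 1) w₁₁`. -/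
private def lin2_S (r j : ℝ) : Set Bin := {w | j * w.1 ≤ r * w.2.1 ∧ r * w.2.1 < (j + 1) * w.1}

private lemma lin2_U_ms (r k : ℝ) : MeasurableSet (lin2_U r k) :=
  ((isClosed_le continuous_const (continuous_const.mul lin2_c2)).measurableSet).inter
    ((isOpen_lt (continuous_const.mul lin2_c2) (continuous_const.mul lin2_c1)).measurableSet)

private lemma lin2_S_ms (r j : ℝ) : MeasurableSet (lin2_S r j) :=
  ((isClosed_le (continuous_const.mul lin2_c1) (continuous_const.mul lin2_c2)).measurableSet).inter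
    ((isOpen_lt (continuous_const.mul lin2_c2) (continuous_const.mul lin2_c1)).measurableSet)

private lemma lin2_sum (r : ℝ) (g : Bin → ℝ≥0∞) (k : ℕ) :
    ∫⁻ w in lin2_U r k, g w ∂nu = ∑ j ∈ Finset.range k, ∫⁻ w in lin2_S r j, g w ∂nu := by
  induction k with
  | zero =>
    have : lin2_U r ((0 : ℕ) : ℝ) = ∅ := by
      ext w
      simp only [lin2_U, Set.mem_ofPred_eq, Nat.cast_zero, zero_mul, Set.mem_empty_iff_false,
        iff_false, not_and, not_lt]
      exact fun h => h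
    rw [this]; simp
  | succ k ih =>
    have hk : (0 : ℝ) ≤ k := Nat.cast_nonneg k
    have hU : lin2_U r ((k + 1 : ℕ) : ℝ) = lin2_U r k ∪ lin2_S r k := by
      ext w
      simp only [lin2_U, lin2_S, Set.mem_ofPred_eq, Set.mem_union, Nat.cast_add, Nat.cast_one]
      constructor
      · rintro ⟨h1, h2⟩
        rcases lt_or_ge (r * w.2.1) (k * w.1) with h | h
        · exact Or.inl ⟨h1, h⟩
        · exact Or.inr ⟨h, h2⟩
      · rintro (⟨h1, h2⟩ | ⟨h1, h2⟩)
        · refine ⟨h1, ?_⟩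
          have h3 : 0 < w.1 := by
            by_contra h4
            have : (k : ℝ) * w.1 ≤ 0 := mul_nonpos_of_nonneg_of_nonpos hk (not_lt.1 h4)
            linarith
          nlinarith
        · refine ⟨?_, h2⟩
          have h3 : 0 < w.1 := by nlinarith
          have := mul_nonneg hk h3.le
          linarith
    have hd : Disjoint (lin2_U r k) (lin2_S r k) := by
      rw [Set.disjoint_left]
      rintro w ⟨_, h2⟩ ⟨h3, _⟩
      exact absurd h2 (not_lt.2 h3)
    rw [hU, lintegral_union (lin2_S_ms r k) hd, ih, Finset.sum_range_succ]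

theorem lintegral_up {p : ℕ} (hp : 1 ≤ p) {g : Bin → ℝ≥0∞} (hg : Measurable g) (hs : ∀ z, g (shr z) = g z) :
    ∫⁻ z in strip, g (up p z) ∂nu = p ^ 2 * ∫⁻ z in strip, g z ∂nu := by
  have hp0 : (0 : ℝ) < p := by exact_mod_cast (by omega : 0 < p)
  have hd : (!![1, 0; 0, (p : ℝ)] : Matrix (Fin 2) (Fin 2) ℝ).det = p := by
    rw [Matrix.det_fin_two_of]; ring
  have h1 : ∫⁻ z in strip, g (up p z) ∂nu = ENNReal.ofReal p * ∫⁻ w in lin2_U 1 p, g w ∂nu := by
    have h := lin2_setLIntegral (A := !![1, 0; 0, (p : ℝ)]) (by rw [hd]; exact hp0.ne') (Z := strip)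
      (W := lin2_U 1 p) lin2_strip_ms (lin2_U_ms _ _) (fun z => by
        rw [← up_eq]
        simp only [strip, lin2_U, up, Set.mem_ofPred_eq, one_mul]
        constructor
        · rintro ⟨h1, h2⟩
          exact ⟨by positivity, by nlinarith⟩
        · rintro ⟨h1, h2⟩
          exact ⟨(mul_nonneg_iff_of_pos_left hp0).1 h1, lt_of_mul_lt_mul_left h2 hp0.le⟩) g
    rw [hd, abs_of_pos hp0] at h
    rw [← h]
    exact lintegral_congr fun z => by rw [up_eq]
  have hsj : ∀ (j : ℕ) (z : Bin), g (bact !![1, (j : ℝ); 0, 1] z) = g z := by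
    intro j
    induction j with
    | zero =>
      intro z
      have : (!![1, ((0 : ℕ) : ℝ); 0, 1] : Matrix (Fin 2) (Fin 2) ℝ) = 1 := by
        rw [Nat.cast_zero, Matrix.one_fin_two]
      rw [this, bact_one]
    | succ j ih =>
      intro z
      have h2 : (!![1, ((j + 1 : ℕ) : ℝ); 0, 1] : Matrix (Fin 2) (Fin 2) ℝ)
          = !![1, (j : ℝ); 0, 1] * !![1, 1; 0, 1] := by
        rw [Matrix.mul_fin_two]
        ext i k
        fin_cases i <;> fin_cases k <;> simp [add_comm]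
      rw [h2, ← bact_bact, ← shr_eq, hs, ih]
  have h2 : ∀ j ∈ Finset.range p, ∫⁻ w in lin2_S 1 j, g w ∂nu = ∫⁻ w in strip, g w ∂nu := by
    intro j _
    have hd1 : (!![1, (j : ℝ); 0, 1] : Matrix (Fin 2) (Fin 2) ℝ).det = 1 := by
      rw [Matrix.det_fin_two_of]; ring
    have h := lin2_setLIntegral (A := !![1, (j : ℝ); 0, 1]) (by rw [hd1]; exact one_ne_zero)
      (Z := strip) (W := lin2_S 1 j) lin2_strip_ms (lin2_S_ms _ _) (fun z => by
        simp only [strip, lin2_S, bact, bq, Set.mem_ofPred_eq, one_mul, Matrix.of_apply,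
          Matrix.cons_val', Matrix.cons_val_zero, Matrix.cons_val_one, Matrix.cons_val_fin_one]
        constructor
        · rintro ⟨h1, h2⟩
          exact ⟨by linarith, by linarith⟩
        · rintro ⟨h1, h2⟩
          exact ⟨by linarith, by linarith⟩) g
    rw [hd1, abs_one, ENNReal.ofReal_one, one_mul] at h
    rw [← h]
    exact lintegral_congr fun z => hsj j z
  rw [h1, lin2_sum, Finset.sum_congr rfl h2, Finset.sum_const, Finset.card_range, nsmul_eq_mul,
    ENNReal.ofReal_natCast, ← mul_assoc, sq]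

theorem lintegral_dn {p : ℕ} (hp : 1 ≤ p) {g : Bin → ℝ≥0∞} (hg : Measurable g) :
    ∑ j ∈ Finset.range p, ∫⁻ z in strip, g (dn p j z) ∂nu = p * ∫⁻ z in strip, g z ∂nu := by
  have hp0 : (0 : ℝ) < p := by exact_mod_cast (by omega : 0 < p)
  have h1 : ∀ j ∈ Finset.range p, ∫⁻ z in strip, g (dn p j z) ∂nu
      = ENNReal.ofReal p * ∫⁻ w in lin2_S p j, g w ∂nu := by
    intro j _
    have hd : (!![(p : ℝ), (j : ℝ); 0, 1] : Matrix (Fin 2) (Fin 2) ℝ).det = p := by
      rw [Matrix.det_fin_two_of]; ring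
    have h := lin2_setLIntegral (A := !![(p : ℝ), (j : ℝ); 0, 1]) (by rw [hd]; exact hp0.ne')
      (Z := strip) (W := lin2_S p j) lin2_strip_ms (lin2_S_ms _ _) (fun z => by
        rw [← dn_eq]
        simp only [strip, lin2_S, dn, Set.mem_ofPred_eq]
        have hpp : (0 : ℝ) < p ^ 2 := by positivity
        constructor
        · rintro ⟨h1, h2⟩
          exact ⟨by nlinarith, by nlinarith⟩
        · rintro ⟨h1, h2⟩
          have h3 : 0 ≤ (p : ℝ) ^ 2 * z.2.1 := by nlinarith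
          have h4 : (p : ℝ) ^ 2 * z.2.1 < p ^ 2 * z.1 := by nlinarith
          exact ⟨(mul_nonneg_iff_of_pos_left hpp).1 h3, lt_of_mul_lt_mul_left h4 hpp.le⟩) g
    rw [hd, abs_of_pos hp0] at h
    rw [← h]
    exact lintegral_congr fun z => by rw [dn_eq]
  have h2 : lin2_U p p = strip := by
    ext w
    simp only [lin2_U, strip, Set.mem_ofPred_eq]
    constructor
    · rintro ⟨h1, h2⟩
      exact ⟨(mul_nonneg_iff_of_pos_left hp0).1 h1, lt_of_mul_lt_mul_left h2 hp0.le⟩
    · rintro ⟨h1, h2⟩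
      exact ⟨mul_nonneg hp0.le h1, mul_lt_mul_of_pos_left h2 hp0⟩
  rw [Finset.sum_congr rfl h1, ← Finset.mul_sum, ← lin2_sum, h2, ENNReal.ofReal_natCast]

end AQ3
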