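import Pool.Agent.Lib_MP_d358f8_ne.Defs

/-!
# MP_d358f8_nt: representatives of the Hecke double coset of `diag(1, p, p)`

`reps2`: the sublattices of type `(p, p)`: the same with `g = diag(1, p, p)`; for (iii) use in addition that all the `2 × 2` minors of
`M = γ g δ` are divisible by `p` (equivalently `p M⁻¹ = δ⁻¹ diag(p, 1, 1) γ⁻¹` is integral), and that `M` is not divisible by `p`, which excludes the
diagonals `(p², 1, 1)` etc. and restricts the other entries: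
`!![p, k, l; 0, 1, m; 0, 0, p]` needs `p ∣ l - k m`-type conditions, after the reduction `m = 0` and `l = 0`. (Or reduce `reps2` to `reps1`
with the map `M ↦ p (M⁻¹)ᵀ`, which takes `Γ diag(p, 1, 1) Γ` to `Γ diag(1, p, p) Γ`.)
-/

namespace AQ3

open MeasureTheory Matrix
open scoped ENNReal MatrixGroups

/-- `γ g = N ε` if the first column of `γ` is in the lattice spanned by the columns of `N`. -/
private theorem Rp2_lem {p : ℕ} (hp0 : (p : ℤ) ≠ 0) (N N' : Matrix (Fin 3) (Fin 3) ℤ)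
    (hN : N * N' = (p : ℤ) • (1 : Matrix (Fin 3) (Fin 3) ℤ)) (hdet : N.det = (p : ℤ) ^ 2)
    (γ : SL(3, ℤ)) (w : Fin 3 → ℤ) (hw : N *ᵥ w = fun i => γ.1 i 0) :
    ∃ ε : SL(3, ℤ), γ.1 * !![1, 0, 0; 0, (p : ℤ), 0; 0, 0, (p : ℤ)] = N * ε.1 := by
  set E : Matrix (Fin 3) (Fin 3) ℤ := Matrix.of fun i j => if j = 0 then w i else (N' * γ.1) i j
    with hEdef
  have hE : γ.1 * !![1, 0, 0; 0, (p : ℤ), 0; 0, 0, (p : ℤ)] = N * E := by
    ext i j
    have h1 : (N * (N' * γ.1)) i j = p * γ.1 i j := by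
      rw [← Matrix.mul_assoc, hN, Matrix.smul_mul, Matrix.one_mul, Matrix.smul_apply, smul_eq_mul]
    fin_cases j
    · have h2 := congrFun hw i
      simp only [Matrix.mulVec, dotProduct, Fin.sum_univ_three] at h2
      simp [Matrix.mul_apply, Fin.sum_univ_three, hEdef]
      linarith
    · rw [Matrix.mul_apply, Fin.sum_univ_three] at h1
      simp [Matrix.mul_apply (M := γ.1), Fin.sum_univ_three]
      rw [Matrix.mul_apply, Fin.sum_univ_three]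
      simp only [hEdef, Matrix.of_apply]
      simp only [Fin.mk_one, Fin.isValue, one_ne_zero, ↓reduceIte] at h1 ⊢
      linarith
    · rw [Matrix.mul_apply, Fin.sum_univ_three] at h1
      simp [Matrix.mul_apply (M := γ.1), Fin.sum_univ_three]
      rw [Matrix.mul_apply, Fin.sum_univ_three]
      simp only [hEdef, Matrix.of_apply]
      have h20 : (2 : Fin 3) ≠ 0 := by decide
      simp only [Fin.reduceFinMk, Fin.isValue, h20, ↓reduceIte] at h1 ⊢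
      linarith
  have hg : (!![1, 0, 0; 0, (p : ℤ), 0; 0, 0, (p : ℤ)] : Matrix (Fin 3) (Fin 3) ℤ).det = (p : ℤ) ^ 2 := by
    simp [Matrix.det_fin_three]
    ring
  have hdE : E.det = 1 := by
    have h1 := congrArg Matrix.det hE
    rw [Matrix.det_mul, Matrix.det_mul, γ.2, hg, hdet, one_mul] at h1
    have h2 : (p : ℤ) ^ 2 ≠ 0 := pow_ne_zero 2 hp0
    have h3 : (p : ℤ) ^ 2 * 1 = (p : ℤ) ^ 2 * E.det := by rw [mul_one]; exact h1
    exact (mul_left_cancel₀ h2 h3).symm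
  exact ⟨⟨E, hdE⟩, hE⟩

private theorem Rp2_lem' {p : ℕ} (hp0 : (p : ℤ) ≠ 0) (N N' : Matrix (Fin 3) (Fin 3) ℤ)
    (hN : N * N' = (p : ℤ) • (1 : Matrix (Fin 3) (Fin 3) ℤ)) (hdet : N.det = (p : ℤ) ^ 2)
    (γ : SL(3, ℤ)) (w : Fin 3 → ℤ) (hw : N *ᵥ w = fun i => γ.1 i 0) :
    ∃ γ δ : SL(3, ℤ), N = γ.1 * !![1, 0, 0; 0, (p : ℤ), 0; 0, 0, (p : ℤ)] * δ.1 := by
  obtain ⟨ε, hε⟩ := Rp2_lem hp0 N N' hN hdet γ w hw
  refine ⟨γ, ε⁻¹, ?_⟩
  rw [hε, Matrix.mul_assoc, ← Matrix.SpecialLinearGroup.coe_mul, mul_inv_cancel,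
    Matrix.SpecialLinearGroup.coe_one, Matrix.mul_one]

private theorem Rp2_A (p : ℕ) : (!![1, 0, 0; 0, (p : ℤ), 0; 0, 0, (p : ℤ)] : Matrix (Fin 3) (Fin 3) ℤ) *
    !![(p : ℤ), 0, 0; 0, 1, 0; 0, 0, 1] = (p : ℤ) • (1 : Matrix (Fin 3) (Fin 3) ℤ) ∧
    (!![1, 0, 0; 0, (p : ℤ), 0; 0, 0, (p : ℤ)] : Matrix (Fin 3) (Fin 3) ℤ).det = (p : ℤ) ^ 2 := by
  constructor
  · ext i j
    fin_cases i <;> fin_cases j <;> simp [Matrix.mul_apply, Fin.sum_univ_three]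
  · simp [Matrix.det_fin_three]
    ring

private theorem Rp2_B (p k : ℕ) : (!![(p : ℤ), (k : ℤ), 0; 0, 1, 0; 0, 0, (p : ℤ)] : Matrix (Fin 3) (Fin 3) ℤ) *
    !![1, -(k : ℤ), 0; 0, (p : ℤ), 0; 0, 0, 1] = (p : ℤ) • (1 : Matrix (Fin 3) (Fin 3) ℤ) ∧
    (!![(p : ℤ), (k : ℤ), 0; 0, 1, 0; 0, 0, (p : ℤ)] : Matrix (Fin 3) (Fin 3) ℤ).det = (p : ℤ) ^ 2 := by
  constructor
  · ext i j
    fin_cases i <;> fin_cases j <;> simp [Matrix.mul_apply, Fin.sum_univ_three]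
    ring
  · simp [Matrix.det_fin_three]
    ring

private theorem Rp2_C (p j k : ℕ) : (!![(p : ℤ), 0, (k : ℤ); 0, (p : ℤ), (j : ℤ); 0, 0, 1] : Matrix (Fin 3) (Fin 3) ℤ) *
    !![1, 0, -(k : ℤ); 0, 1, -(j : ℤ); 0, 0, (p : ℤ)] = (p : ℤ) • (1 : Matrix (Fin 3) (Fin 3) ℤ) ∧
    (!![(p : ℤ), 0, (k : ℤ); 0, (p : ℤ), (j : ℤ); 0, 0, 1] : Matrix (Fin 3) (Fin 3) ℤ).det = (p : ℤ) ^ 2 := by
  constructor
  · ext i j
    fin_cases i <;> fin_cases j <;> simp [Matrix.mul_apply, Fin.sum_univ_three] <;> ring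
  · simp [Matrix.det_fin_three]
    ring

private theorem Rp2_mem {p : ℕ} {h : Matrix (Fin 3) (Fin 3) ℤ} : h ∈ R2 p ↔
    h = !![1, 0, 0; 0, (p : ℤ), 0; 0, 0, (p : ℤ)] ∨
    (∃ k < p, h = !![(p : ℤ), (k : ℤ), 0; 0, 1, 0; 0, 0, (p : ℤ)]) ∨
    ∃ j < p, ∃ k < p, h = !![(p : ℤ), 0, (k : ℤ); 0, (p : ℤ), (j : ℤ); 0, 0, 1] := by
  unfold R2
  simp only [Finset.mem_union, Finset.mem_singleton, Finset.mem_image, Finset.mem_range,
    Finset.mem_product, Prod.exists]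
  constructor
  · rintro (h1 | ⟨k, hk, rfl⟩ | ⟨j, k, ⟨hj, hk⟩, rfl⟩)
    · exact Or.inl h1
    · exact Or.inr (Or.inl ⟨k, hk, rfl⟩)
    · exact Or.inr (Or.inr ⟨j, hj, k, hk, rfl⟩)
  · rintro (h1 | ⟨k, hk, rfl⟩ | ⟨j, hj, k, hk, rfl⟩)
    · exact Or.inl h1
    · exact Or.inr (Or.inl ⟨k, hk, rfl⟩)
    · exact Or.inr (Or.inr ⟨j, k, ⟨hj, hk⟩, rfl⟩)

/-- A residue `k` with `a = k c` modulo `p`. -/
private theorem Rp2_res {p : ℕ} (hp : p.Prime) (a c : ℤ) (hc : ¬ (p : ℤ) ∣ c) :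
    ∃ k < p, ∃ x : ℤ, (p : ℤ) * x + k * c = a := by
  have hcop : IsCoprime c (p : ℤ) :=
    ((Nat.prime_iff_prime_int.1 hp).coprime_iff_not_dvd.2 hc).symm
  obtain ⟨u, v, huv⟩ := hcop
  have hp0 : (p : ℤ) ≠ 0 := Int.natCast_ne_zero.2 hp.ne_zero
  have h1 : 0 ≤ (u * a) % p := Int.emod_nonneg _ hp0
  have h2 : (u * a) % p < p := Int.emod_lt_of_pos _ (by exact_mod_cast hp.pos)
  refine ⟨((u * a) % p).toNat, ?_, ?_⟩
  · have h3 : (((u * a) % p).toNat : ℤ) < p := by rw [Int.toNat_of_nonneg h1]; exact h2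
    exact_mod_cast h3
  · rw [Int.toNat_of_nonneg h1]
    have h4 : (p : ℤ) * ((u * a) / p) + (u * a) % p = u * a := Int.mul_ediv_add_emod _ _
    refine ⟨v * a + ((u * a) / p) * c, ?_⟩
    linear_combination c * h4 + a * huv

private theorem Rp2_uniq {p a b : ℕ} (ha : a < p) (hb : b < p) (x : ℤ)
    (h : (a : ℤ) = p * x + b) : a = b := by
  have h1 : (a : ℤ) % p = (b : ℤ) % p := by
    rw [h, Int.mul_add_emod_self_left]
  have h2 : a % p = b % p := by exact_mod_cast h1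
  rwa [Nat.mod_eq_of_lt ha, Nat.mod_eq_of_lt hb] at h2

theorem reps2 {p : ℕ} (hp : p.Prime) : IsReps !![1, 0, 0; 0, (p : ℤ), 0; 0, 0, (p : ℤ)] (R2 p) := by
  have hp0 : (p : ℤ) ≠ 0 := Int.natCast_ne_zero.2 hp.ne_zero
  have hp1 : ∀ x : ℤ, (p : ℤ) * x ≠ 1 := by
    intro x hx
    have h1 : (p : ℤ) ∣ 1 := ⟨x, hx.symm⟩
    have h2 : p ∣ 1 := by exact_mod_cast h1
    exact hp.one_lt.ne' (Nat.dvd_one.1 h2)
  refine ⟨?_, ?_, ?_⟩
  · intro h hh
    rcases Rp2_mem.1 hh with rfl | ⟨k, hk, rfl⟩ | ⟨j, hj, k, hk, rfl⟩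
    · refine Rp2_lem' hp0 _ _ (Rp2_A p).1 (Rp2_A p).2 1 ![1, 0, 0] ?_
      ext i
      fin_cases i <;> simp [Matrix.mulVec, dotProduct, Fin.sum_univ_three]
    · refine Rp2_lem' hp0 _ _ (Rp2_B p k).1 (Rp2_B p k).2
        ⟨!![(k : ℤ), -1, 0; 1, 0, 0; 0, 0, 1], by simp [Matrix.det_fin_three]⟩ ![0, 1, 0] ?_
      ext i
      fin_cases i <;> simp [Matrix.mulVec, dotProduct, Fin.sum_univ_three]
    · refine Rp2_lem' hp0 _ _ (Rp2_C p j k).1 (Rp2_C p j k).2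
        ⟨!![(k : ℤ), 1, 0; (j : ℤ), 0, 1; 1, 0, 0], by simp [Matrix.det_fin_three]⟩ ![0, 0, 1] ?_
      ext i
      fin_cases i <;> simp [Matrix.mulVec, dotProduct, Fin.sum_univ_three]
  · intro h hh h' hh' ⟨γ, hγ⟩
    have e : ∀ i j, h' i j = h i 0 * γ.1 0 j + h i 1 * γ.1 1 j + h i 2 * γ.1 2 j := by
      intro i j
      rw [hγ, Matrix.mul_apply, Fin.sum_univ_three]
    rcases Rp2_mem.1 hh with rfl | ⟨k, hk, rfl⟩ | ⟨j, hj, k, hk, rfl⟩
    · rcases Rp2_mem.1 hh' with rfl | ⟨k', hk', rfl⟩ | ⟨j', hj', k', hk', rfl⟩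
      · rfl
      · have h1 := e 1 1
        simp at h1
        exact absurd h1.symm (hp1 _)
      · have h1 := e 2 2
        simp at h1
        exact absurd h1.symm (hp1 _)
    · rcases Rp2_mem.1 hh' with rfl | ⟨k', hk', rfl⟩ | ⟨j', hj', k', hk', rfl⟩
      · have h1 := e 0 0
        have h2 := e 1 0
        simp at h1 h2
        rw [← h2] at h1
        simp at h1
        exact absurd h1.symm (hp1 _)
      · have h1 := e 0 1
        have h2 := e 1 1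
        simp at h1 h2
        rw [← h2, mul_one] at h1
        rw [Rp2_uniq hk' hk _ h1]
      · have h1 := e 2 2
        simp at h1
        exact absurd h1.symm (hp1 _)
    · rcases Rp2_mem.1 hh' with rfl | ⟨k', hk', rfl⟩ | ⟨j', hj', k', hk', rfl⟩
      · have h1 := e 0 0
        have h2 := e 2 0
        simp at h1 h2
        rw [← h2] at h1
        simp at h1
        exact absurd h1.symm (hp1 _)
      · have h1 := e 1 1
        have h2 := e 2 1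
        simp at h1 h2
        rw [← h2] at h1
        simp at h1
        exact absurd h1.symm (hp1 _)
      · have h1 := e 0 2
        have h2 := e 1 2
        have h3 := e 2 2
        simp at h1 h2 h3
        rw [← h3, mul_one] at h1 h2
        rw [Rp2_uniq hk' hk _ h1, Rp2_uniq hj' hj _ h2]
  · intro γ δ
    suffices H : ∃ h ∈ R2 p, ∃ ε : SL(3, ℤ),
        γ.1 * !![1, 0, 0; 0, (p : ℤ), 0; 0, 0, (p : ℤ)] = h * ε.1 by
      obtain ⟨h, hh, ε, hε⟩ := H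
      exact ⟨h, hh, ε * δ, by rw [hε, Matrix.mul_assoc, Matrix.SpecialLinearGroup.coe_mul]⟩
    by_cases hc : (p : ℤ) ∣ γ.1 2 0
    · obtain ⟨c, hc⟩ := hc
      by_cases hb : (p : ℤ) ∣ γ.1 1 0
      · obtain ⟨b, hb⟩ := hb
        refine ⟨_, Rp2_mem.2 (Or.inl rfl), ?_⟩
        refine Rp2_lem hp0 _ _ (Rp2_A p).1 (Rp2_A p).2 γ ![γ.1 0 0, b, c] ?_
        ext i
        fin_cases i
        · simp [Matrix.mulVec, dotProduct, Fin.sum_univ_three]
        · simp [Matrix.mulVec, dotProduct, Fin.sum_univ_three]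
          exact hb.symm
        · simp [Matrix.mulVec, dotProduct, Fin.sum_univ_three]
          exact hc.symm
      · obtain ⟨k, hk, x, hx⟩ := Rp2_res hp (γ.1 0 0) (γ.1 1 0) hb
        refine ⟨_, Rp2_mem.2 (Or.inr (Or.inl ⟨k, hk, rfl⟩)), ?_⟩
        refine Rp2_lem hp0 _ _ (Rp2_B p k).1 (Rp2_B p k).2 γ ![x, γ.1 1 0, c] ?_
        ext i
        fin_cases i
        · simp [Matrix.mulVec, dotProduct, Fin.sum_univ_three]
          exact hx
        · simp [Matrix.mulVec, dotProduct, Fin.sum_univ_three]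
        · simp [Matrix.mulVec, dotProduct, Fin.sum_univ_three]
          exact hc.symm
    · obtain ⟨k, hk, x, hx⟩ := Rp2_res hp (γ.1 0 0) (γ.1 2 0) hc
      obtain ⟨j, hj, y, hy⟩ := Rp2_res hp (γ.1 1 0) (γ.1 2 0) hc
      refine ⟨_, Rp2_mem.2 (Or.inr (Or.inr ⟨j, hj, k, hk, rfl⟩)), ?_⟩
      refine Rp2_lem hp0 _ _ (Rp2_C p j k).1 (Rp2_C p j k).2 γ ![x, y, γ.1 2 0] ?_
      ext i
      fin_cases i
      · simp [Matrix.mulVec, dotProduct, Fin.sum_univ_three]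
        exact hx
      · simp [Matrix.mulVec, dotProduct, Fin.sum_univ_three]
        exact hy
      · simp [Matrix.mulVec, dotProduct, Fin.sum_univ_three]

end AQ3
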