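import Pool.Agent.Lib_MP_d358f8_ne.Rp1
import Pool.Agent.Lib_MP_d358f8_ne.Rp2
import Pool.Agent.Lib_MP_d358f8_ne.Lin2

/-!
# MP_d358f8_nt: from eigenfunctions to `HecF`
-/

namespace AQ3

open MeasureTheory Matrix
open scoped ENNReal MatrixGroups

private theorem cos_val (x₁ x₂ : ℝ) (z : Bin) (v : Fin 3 → ℝ) :
    v ⬝ᵥ (frm3 x₁ x₂ z).mat.mulVec v = (v 0 + x₁ * v 1 + x₂ * v 2) ^ 2 + bq z (v 1) (v 2) := by
  simp [dotProduct, Matrix.mulVec, Fin.sum_univ_three, Frm.mat, frm3, bq]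
  ring

theorem posDef_frm3 (x₁ x₂ : ℝ) (z : Bin) : (frm3 x₁ x₂ z).mat.PosDef ↔ pd z := by
  constructor
  · intro h
    rw [pd_iff]
    intro b c hbc
    have h1 := h.dotProduct_mulVec_pos (x := ![-(x₁ * b + x₂ * c), b, c]) (by
      intro h0
      have h2 := congrFun h0 1
      have h3 := congrFun h0 2
      simp at h2 h3
      rcases hbc with h | h
      · exact h h2
      · exact h h3)
    rw [star_trivial, cos_val] at h1
    simpa using h1
  · intro h
    refine Matrix.PosDef.of_dotProduct_mulVec_pos ?_ ?_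
    · have : (frm3 x₁ x₂ z).matᴴ = (frm3 x₁ x₂ z).mat := by
        rw [Matrix.conjTranspose_eq_transpose_of_trivial, Frm.mat_transpose]
      exact this
    · intro v hv
      rw [star_trivial, cos_val]
      by_cases hbc : v 1 ≠ 0 ∨ v 2 ≠ 0
      · have := (pd_iff z).1 h _ _ hbc
        positivity
      · push Not at hbc
        have h0 : v 0 ≠ 0 := by
          intro h0
          apply hv
          ext i
          fin_cases i
          · exact h0
          · exact hbc.1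
          · exact hbc.2
        rw [hbc.1, hbc.2]
        simp [bq]
        positivity

theorem det_frm3 (x₁ x₂ : ℝ) (z : Bin) : (frm3 x₁ x₂ z).mat.det = bdet z := by
  rw [Matrix.det_fin_three]
  simp [Frm.mat, frm3, bdet]
  ring

open Classical in
/-- The function of the coordinates. -/
noncomputable def fof (φ : Frm → ℂ) (x₁ x₂ : ℝ) (z : Bin) : ℂ := if pd z then φ (frm3 x₁ x₂ z) else 0

private theorem fof_pd {φ : Frm → ℂ} {x₁ x₂ : ℝ} {z : Bin} (h : pd z) : fof φ x₁ x₂ z = φ (frm3 x₁ x₂ z) := if_pos h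

private theorem fof_npd {φ : Frm → ℂ} {x₁ x₂ : ℝ} {z : Bin} (h : ¬ pd z) : fof φ x₁ x₂ z = 0 := if_neg h

private theorem mem_pos_frm3 {x₁ x₂ : ℝ} {z : Bin} (h : pd z) : frm3 x₁ x₂ z ∈ Pos := (posDef_frm3 x₁ x₂ z).2 h

/-- The action of a matrix with entries. -/
private theorem cos_act (g : Matrix (Fin 3) (Fin 3) ℝ) (x₁ x₂ : ℝ) (z : Bin) (t y₁ y₂ : ℝ) (w : Bin)
    (h : ∀ i j, (gᵀ * (frm3 x₁ x₂ z).mat * g) i j = t * (frm3 y₁ y₂ w).mat i j) :
    act g (frm3 x₁ x₂ z) = Frm.of (t • (frm3 y₁ y₂ w).mat) := by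
  unfold act
  congr 1
  ext i j
  rw [h, Matrix.smul_apply, smul_eq_mul]

private theorem cos_inv {φ : Frm → ℂ} (hφ : IsCuspEigen φ) (γ : SL(3, ℤ)) {g : Matrix (Fin 3) (Fin 3) ℝ}
    (hg : (rl γ.1)ᵀ = g) {x₁ x₂ y₁ y₂ : ℝ} {z w : Bin} (hz : pd z)
    (h : ∀ i j, (gᵀ * (frm3 x₁ x₂ z).mat * g) i j = (frm3 y₁ y₂ w).mat i j) :
    φ (frm3 y₁ y₂ w) = φ (frm3 x₁ x₂ z) := by
  rw [← hφ.inv γ _ (mem_pos_frm3 hz), smul_def, hg]
  congr 1
  unfold act
  rw [← Frm.of_mat (frm3 y₁ y₂ w)]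
  congr 1
  ext i j
  rw [h]

private theorem cos_h {φ : Frm → ℂ} (hφ : IsCuspEigen φ) {g : Matrix (Fin 3) (Fin 3) ℝ} {x₁ x₂ t y₁ y₂ : ℝ} {z w : Bin}
    (hw : pd w) (ht : 0 < t) (h : ∀ i j, (gᵀ * (frm3 x₁ x₂ z).mat * g) i j = t * (frm3 y₁ y₂ w).mat i j) :
    φ (act g (frm3 x₁ x₂ z)) = fof φ y₁ y₂ w := by
  rw [cos_act g x₁ x₂ z t y₁ y₂ w h, hφ.scale t ht _ (mem_pos_frm3 hw), fof_pd hw]

private theorem pd_sc {c : ℝ} (hc : 0 < c) {z : Bin} (hz : pd z) : pd (sc c z) := by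
  rw [sc_eq c hc.le]
  refine (pd_bact ?_ z).2 hz
  rw [Matrix.det_fin_two]
  simp
  exact (Real.sqrt_pos.2 hc).ne'

private theorem pd_up {p : ℝ} (hp : p ≠ 0) {z : Bin} (hz : pd z) : pd (up p z) := by
  rw [up_eq]
  refine (pd_bact ?_ z).2 hz
  rw [Matrix.det_fin_two]
  simpa using hp

private theorem pd_dn {p : ℝ} (hp : p ≠ 0) (j : ℝ) {z : Bin} (hz : pd z) : pd (dn p j z) := by
  rw [dn_eq]
  refine (pd_bact ?_ z).2 hz
  rw [Matrix.det_fin_two]
  simpa using hp

private theorem sum_R1 {p : ℕ} (hp : p.Prime) (F : Matrix (Fin 3) (Fin 3) ℤ → ℂ) :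
    ∑ h ∈ R1 p, F h = (∑ i ∈ Finset.range p, ∑ j ∈ Finset.range p, F !![(p : ℤ), (i : ℤ), (j : ℤ); 0, 1, 0; 0, 0, 1]) +
      F !![1, 0, 0; 0, 1, 0; 0, 0, (p : ℤ)] + ∑ j ∈ Finset.range p, F !![1, 0, 0; 0, (p : ℤ), (j : ℤ); 0, 0, 1] := by
  have hp1 : (p : ℤ) ≠ 1 := by exact_mod_cast hp.one_lt.ne'
  unfold R1
  rw [Finset.sum_union, Finset.sum_union, Finset.sum_image, Finset.sum_product, Finset.sum_singleton, Finset.sum_image,
    add_assoc]
  · intro a _ b _ h
    have h1 := congrFun (congrFun h 1) 2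
    simpa using h1
  · intro a _ b _ h
    have h1 := congrFun (congrFun h 0) 1
    have h2 := congrFun (congrFun h 0) 2
    simp at h1 h2
    exact Prod.ext h1 h2
  · rw [Finset.disjoint_singleton_left, Finset.mem_image]
    rintro ⟨a, -, h⟩
    have h1 := congrFun (congrFun h 1) 1
    simp at h1
    exact hp1 (by exact_mod_cast h1)
  · rw [Finset.disjoint_left]
    rintro M hM hM'
    obtain ⟨a, -, rfl⟩ := Finset.mem_image.1 hM
    rcases Finset.mem_union.1 hM' with h | h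
    · have h1 := congrFun (congrFun (Finset.mem_singleton.1 h) 0) 0
      simp at h1
      exact hp1 (by exact_mod_cast h1)
    · obtain ⟨b, -, h⟩ := Finset.mem_image.1 h
      have h1 := congrFun (congrFun h 0) 0
      simp at h1
      exact hp1 (by exact_mod_cast h1.symm)

private theorem sum_R2 {p : ℕ} (hp : p.Prime) (F : Matrix (Fin 3) (Fin 3) ℤ → ℂ) :
    ∑ h ∈ R2 p, F h = F !![1, 0, 0; 0, (p : ℤ), 0; 0, 0, (p : ℤ)] +
      (∑ k ∈ Finset.range p, F !![(p : ℤ), (k : ℤ), 0; 0, 1, 0; 0, 0, (p : ℤ)]) +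
      ∑ j ∈ Finset.range p, ∑ k ∈ Finset.range p, F !![(p : ℤ), 0, (k : ℤ); 0, (p : ℤ), (j : ℤ); 0, 0, 1] := by
  have hp1 : (p : ℤ) ≠ 1 := by exact_mod_cast hp.one_lt.ne'
  unfold R2
  rw [Finset.sum_union, Finset.sum_union, Finset.sum_image, Finset.sum_image, Finset.sum_product, Finset.sum_singleton,
    add_assoc]
  · intro a _ b _ h
    have h1 := congrFun (congrFun h 1) 2
    have h2 := congrFun (congrFun h 0) 2
    simp at h1 h2
    exact Prod.ext h1 h2
  · intro a _ b _ h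
    have h1 := congrFun (congrFun h 0) 1
    simpa using h1
  · rw [Finset.disjoint_left]
    rintro M hM hM'
    obtain ⟨a, -, rfl⟩ := Finset.mem_image.1 hM
    obtain ⟨b, -, h⟩ := Finset.mem_image.1 hM'
    have h1 := congrFun (congrFun h 1) 1
    simp at h1
    exact hp1 (by exact_mod_cast h1)
  · rw [Finset.disjoint_singleton_left, Finset.mem_union]
    rintro (h | h)
    · obtain ⟨b, -, h⟩ := Finset.mem_image.1 h
      have h1 := congrFun (congrFun h 0) 0
      simp at h1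
      exact hp1 (by exact_mod_cast h1)
    · obtain ⟨b, -, h⟩ := Finset.mem_image.1 h
      have h1 := congrFun (congrFun h 0) 0
      simp at h1
      exact hp1 (by exact_mod_cast h1)

theorem hecF_of_eigen {φ : Frm → ℂ} (hφ : IsCuspEigen φ) : HecF (fof φ) where
  zero x₁ x₂ z hz := fof_npd hz
  cont := by
    have h1 : Continuous fun q : ℝ × ℝ × Bin => frm3 q.1 q.2.1 q.2.2 := by
      have : Continuous fun q : ℝ × ℝ × ℝ × ℝ × ℝ => ((1, q.1, q.2.1, q.1 ^ 2 + q.2.2.1, q.1 * q.2.1 + q.2.2.2.1,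
          q.2.1 ^ 2 + q.2.2.2.2) : ℝ × ℝ × ℝ × ℝ × ℝ × ℝ) := by fun_prop
      exact this
    have h2 : ContinuousOn (fun q : ℝ × ℝ × Bin => φ (frm3 q.1 q.2.1 q.2.2)) {q | pd q.2.2} :=
      hφ.cont.comp h1.continuousOn fun q hq => mem_pos_frm3 hq
    refine h2.congr fun q hq => ?_
    exact fof_pd hq
  per1 x₁ x₂ z := by
    by_cases hz : pd z
    · rw [fof_pd hz, fof_pd hz]
      refine cos_inv hφ ⟨!![1, 0, 0; 1, 1, 0; 0, 0, 1], by simp [Matrix.det_fin_three]⟩
        (g := !![1, 1, 0; 0, 1, 0; 0, 0, 1]) ?_ hz ?_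
      · ext i j; fin_cases i <;> fin_cases j <;> simp [rl]
      · intro i j
        fin_cases i <;> fin_cases j <;>
          simp [Matrix.mul_apply, Fin.sum_univ_three, Frm.mat, frm3] <;> ring
    · rw [fof_npd hz, fof_npd hz]
  per2 x₁ x₂ z := by
    by_cases hz : pd z
    · rw [fof_pd hz, fof_pd hz]
      refine cos_inv hφ ⟨!![1, 0, 0; 0, 1, 0; 1, 0, 1], by simp [Matrix.det_fin_three]⟩
        (g := !![1, 0, 1; 0, 1, 0; 0, 0, 1]) ?_ hz ?_
      · ext i j; fin_cases i <;> fin_cases j <;> simp [rl]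
      · intro i j
        fin_cases i <;> fin_cases j <;>
          simp [Matrix.mul_apply, Fin.sum_univ_three, Frm.mat, frm3] <;> ring
    · rw [fof_npd hz, fof_npd hz]
  eqv A x₁ x₂ z := by
    have hA : (rl2 A.1).det ≠ 0 := by
      have h1 := A.2
      rw [Matrix.det_fin_two] at h1
      rw [Matrix.det_fin_two]
      simp only [rl2, Matrix.map_apply]
      have : ((A.1 0 0 : ℝ) * A.1 1 1 - A.1 0 1 * A.1 1 0) = 1 := by exact_mod_cast h1
      rw [this]
      exact one_ne_zero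
    by_cases hz : pd z
    · rw [fof_pd hz, fof_pd ((pd_bact hA z).2 hz)]
      refine cos_inv hφ ⟨!![1, 0, 0; 0, A.1 0 0, A.1 1 0; 0, A.1 0 1, A.1 1 1], ?_⟩
        (g := !![1, 0, 0; 0, (A.1 0 0 : ℝ), A.1 0 1; 0, A.1 1 0, A.1 1 1]) ?_ hz ?_
      · have h1 := A.2
        rw [Matrix.det_fin_two] at h1
        rw [Matrix.det_fin_three]
        simp
        linarith
      · ext i j; fin_cases i <;> fin_cases j <;> simp [rl]
      · intro i j
        fin_cases i <;> fin_cases j <;>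
          simp [Matrix.mul_apply, Fin.sum_univ_three, Frm.mat, frm3, bact, bq, rl2] <;> ring
    · rw [fof_npd hz, fof_npd fun h => hz ((pd_bact hA z).1 h)]
  hecke p hp := by
    have hp0 : (p : ℝ) ≠ 0 := by exact_mod_cast hp.ne_zero
    have hpc : (p : ℂ) ≠ 0 := by exact_mod_cast hp.ne_zero
    have hpz : (p : ℤ) ≠ 0 := by exact_mod_cast hp.ne_zero
    have hp2 : (0 : ℝ) < (p : ℝ) ^ 2 := by positivity
    have hp2' : (0 : ℝ) < 1 / (p : ℝ) ^ 2 := by positivity
    obtain ⟨l₁, h₁⟩ := hφ.hecke !![(p : ℤ), 0, 0; 0, 1, 0; 0, 0, 1] (by rw [Matrix.det_fin_three]; simpa using hpz)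
    obtain ⟨l₂, h₂⟩ := hφ.hecke !![1, 0, 0; 0, (p : ℤ), 0; 0, 0, (p : ℤ)] (by rw [Matrix.det_fin_three]; simpa using hpz)
    refine ⟨l₁ / p, l₂ / p, fun x₁ x₂ z hz => ⟨?_, ?_⟩⟩
    · have e1 := h₁ (R1 p) (reps1 hp) _ (mem_pos_frm3 (x₁ := x₁) (x₂ := x₂) hz)
      rw [sum_R1 hp] at e1
      rw [mul_div_cancel₀ _ hpc, fof_pd hz, ← e1]
      congr 1
      · congr 1
        · refine Finset.sum_congr rfl fun i _ => Finset.sum_congr rfl fun j _ => ?_
          refine (cos_h hφ (t := (p : ℝ) ^ 2) (pd_sc hp2' hz) hp2 fun a b => ?_)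
          fin_cases a <;> fin_cases b <;>
            simp [Matrix.mul_apply, Fin.sum_univ_three, Frm.mat, frm3, rl, sc] <;> field_simp <;> ring
        · refine (cos_h hφ (t := 1) (pd_up hp0 hz) one_pos fun a b => ?_)
          fin_cases a <;> fin_cases b <;>
            simp [Matrix.mul_apply, Fin.sum_univ_three, Frm.mat, frm3, rl, up] <;> ring
      · refine Finset.sum_congr rfl fun j _ => ?_
        refine (cos_h hφ (t := 1) (pd_dn hp0 j hz) one_pos fun a b => ?_)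
        fin_cases a <;> fin_cases b <;>
          simp [Matrix.mul_apply, Fin.sum_univ_three, Frm.mat, frm3, rl, dn] <;> ring
    · have e1 := h₂ (R2 p) (reps2 hp) _ (mem_pos_frm3 (x₁ := x₁) (x₂ := x₂) hz)
      rw [sum_R2 hp] at e1
      rw [mul_div_cancel₀ _ hpc, fof_pd hz, ← e1]
      congr 1
      · congr 1
        · refine (cos_h hφ (t := 1) (pd_sc hp2 hz) one_pos fun a b => ?_)
          fin_cases a <;> fin_cases b <;>
            simp [Matrix.mul_apply, Fin.sum_univ_three, Frm.mat, frm3, rl, sc] <;> ring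
        · refine Finset.sum_congr rfl fun k _ => ?_
          refine (cos_h hφ (t := (p : ℝ) ^ 2) (pd_sc hp2' (pd_up hp0 hz)) hp2 fun a b => ?_)
          fin_cases a <;> fin_cases b <;>
            simp [Matrix.mul_apply, Fin.sum_univ_three, Frm.mat, frm3, rl, sc, up] <;> field_simp <;> ring
      · refine Finset.sum_congr rfl fun j _ => Finset.sum_congr rfl fun k _ => ?_
        refine (cos_h hφ (t := (p : ℝ) ^ 2) (pd_sc hp2' (pd_dn hp0 j hz)) hp2 fun a b => ?_)
        fin_cases a <;> fin_cases b <;>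
          simp [Matrix.mul_apply, Fin.sum_univ_three, Frm.mat, frm3, rl, sc, dn] <;> field_simp <;> ring
  cusp z := by
    by_cases hz : pd z
    · have h1 := hφ.cusp1 _ (mem_pos_frm3 (x₁ := 0) (x₂ := 0) hz)
      rw [← h1]
      refine intervalIntegral.integral_congr fun x₁ _ => intervalIntegral.integral_congr fun x₂ _ => ?_
      show fof φ x₁ x₂ z = _
      rw [fof_pd hz]
      congr 1
      unfold act
      rw [← Frm.of_mat (frm3 x₁ x₂ z)]
      congr 1
      ext i j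
      fin_cases i <;> fin_cases j <;>
        simp [Matrix.mul_apply, Fin.sum_univ_three, Frm.mat, frm3] <;> ring
    · simp [fof_npd hz]

end AQ3
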