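import Pool.Agent.Lib_MP_d358f8_ne.Rdc

/-!
# MP_d358f8_nt: compactness

* `cpt`: let `y ∈ slab`, not in `Short R`, `y' = γ • y` as in `reduce3`. Then `t³ bdet z < e`, `t ≥ R⁻²` (as `det > 1`),
  `t (x₁² + z₁₁) = y'₂₂ ≥ t` with `|x₁| ≤ 1/2`: `z₁₁ ≥ 3/4`; `z₂₂ ≥ z₁₁`, so `bdet z ≥ (3/4) z₁₁² ≥ 27/64`; so `t` is bounded above,
  `bdet z ≤ e R⁶`, `z₁₁` is bounded above, and `z₂₂ = (bdet z + z₁₂²) / z₁₁` too. `K` = the set of all `t • frm3 x₁ x₂ z` with these bounds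
  (`t ∈ [R⁻², 3]`, `|x_i| ≤ 1/2`, `z₁₁ ∈ [3/4, C]`, `|z₁₂| ≤ C`, `z₂₂ ∈ [3/4, C]`, `bdet z ≥ 27/64`), the image of a compact set.
-/

namespace AQ3

open MeasureTheory Matrix
open scoped ENNReal MatrixGroups

/-- The form `t • frm3 x₁ x₂ z` as a function of the six coordinates. -/
private noncomputable def cptG (q : ℝ × ℝ × ℝ × ℝ × ℝ × ℝ) : Frm :=
  (q.1, q.1 * q.2.1, q.1 * q.2.2.1, q.1 * (q.2.1 ^ 2 + q.2.2.2.1),
    q.1 * (q.2.1 * q.2.2.1 + q.2.2.2.2.1), q.1 * (q.2.2.1 ^ 2 + q.2.2.2.2.2))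

private theorem cptG_eq (t x₁ x₂ : ℝ) (z : Bin) :
    cptG (t, x₁, x₂, z) = Frm.of (t • (frm3 x₁ x₂ z).mat) := by
  obtain ⟨a, b, c⟩ := z
  simp [cptG, Frm.of, frm3, Frm.mat] <;> rfl

private theorem cptG_mat (t x₁ x₂ : ℝ) (z : Bin) :
    (cptG (t, x₁, x₂, z)).mat = t • (frm3 x₁ x₂ z).mat := by
  rw [cptG_eq]
  apply Frm.mat_of
  rw [Matrix.transpose_smul, Frm.mat_transpose]

private theorem continuous_cptG : Continuous cptG := by
  have h : Continuous fun q : ℝ × ℝ × ℝ × ℝ × ℝ × ℝ =>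
      ((q.1, q.1 * q.2.1, q.1 * q.2.2.1, q.1 * (q.2.1 ^ 2 + q.2.2.2.1),
        q.1 * (q.2.1 * q.2.2.1 + q.2.2.2.2.1), q.1 * (q.2.2.1 ^ 2 + q.2.2.2.2.2)) :
        ℝ × ℝ × ℝ × ℝ × ℝ × ℝ) := by
    fun_prop
  exact h

private theorem smul_fst (γ : SL(3, ℤ)) (y : Frm) :
    (γ • y).1 = (fun i => ((γ.1 0 i : ℤ) : ℝ)) ⬝ᵥ y.mat.mulVec fun i => ((γ.1 0 i : ℤ) : ℝ) := by
  rw [smul_def]
  show (((rl γ.1)ᵀᵀ * y.mat * (rl γ.1)ᵀ) 0 0) = _
  rw [Matrix.transpose_transpose, Matrix.mul_assoc]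
  simp only [Matrix.mul_apply, dotProduct, Matrix.mulVec, Matrix.transpose_apply, rl,
    Matrix.map_apply]

theorem cpt {R : ℝ} (hR : 1 ≤ R) : ∃ K : Set Frm, IsCompact K ∧ K ⊆ Pos ∧
    ∀ y ∈ slab, y ∉ Short R → ∃ γ : SL(3, ℤ), γ • y ∈ K := by
  have hR0 : 0 < R := lt_of_lt_of_le one_pos hR
  have hR6 : 1 ≤ R ^ 6 := one_le_pow₀ hR
  let D : Set (ℝ × ℝ × ℝ × ℝ × ℝ × ℝ) :=
    Set.Icc ((R ^ 2)⁻¹, -(1 / 2), -(1 / 2), 3 / 4, -(6 * R ^ 6), 3 / 4)
      (3, 1 / 2, 1 / 2, 6 * R ^ 6, 6 * R ^ 6, 6 * R ^ 6) ∩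
      {q | 27 / 64 ≤ q.2.2.2.1 * q.2.2.2.2.2 - q.2.2.2.2.1 ^ 2}
  have hDc : IsCompact D := by
    apply isCompact_Icc.inter_right
    apply isClosed_le continuous_const
    fun_prop
  refine ⟨cptG '' D, hDc.image continuous_cptG, ?_, ?_⟩
  · rintro y ⟨⟨t, x₁, x₂, z⟩, ⟨hq, hq'⟩, rfl⟩
    have ht : 0 < t := lt_of_lt_of_le (by positivity) hq.1.1
    have hz : pd z := by
      obtain ⟨a, b, c⟩ := z
      refine ⟨?_, ?_⟩
      · have : (3 : ℝ) / 4 ≤ a := hq.1.2.2.2.1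
        show 0 < a
        linarith
      · have h1 : (27 : ℝ) / 64 ≤ a * c - b ^ 2 := hq'
        show 0 < a * c - b ^ 2
        linarith
    have hm := cptG_mat t x₁ x₂ z
    have hp := ((posDef_frm3 x₁ x₂ z).mpr hz).smul ht
    rw [← hm] at hp
    exact hp
  · intro y hy hyS
    obtain ⟨γ, h1, h2, h3, h4, h5⟩ := reduce3 hy.1
    refine ⟨γ, ?_⟩
    have hy' : γ • y ∈ slab := (smul_mem_slab γ).mpr hy
    have hfst := smul_fst γ y
    set y' : Frm := γ • y with hy'def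
    obtain ⟨ht, hz⟩ := pd_zof (show y' ∈ Pos from hy'.1)
    set t : ℝ := y'.1 with htdef
    -- the lower bound for `t`
    have htR : 1 ≤ R ^ 2 * t := by
      have hne : (fun i => γ.1 0 i) ≠ 0 := by
        intro h0
        have hd : γ.1.det = 0 := Matrix.det_eq_zero_of_row_eq_zero 0 (fun j => congrFun h0 j)
        rw [γ.2] at hd
        exact one_ne_zero hd
      have h6 : ¬ (R ^ 2 * ((fun i => ((γ.1 0 i : ℤ) : ℝ)) ⬝ᵥ
          y.mat.mulVec fun i => ((γ.1 0 i : ℤ) : ℝ)) < y.mat.det ^ (1 / 3 : ℝ)) := by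
        intro hlt
        exact hyS ⟨hy.1, fun i => γ.1 0 i, hne, hlt⟩
      rw [← hfst, not_lt] at h6
      have h7 : (1 : ℝ) ≤ y.mat.det ^ (1 / 3 : ℝ) :=
        Real.one_le_rpow hy.2.1.le (by norm_num)
      exact h7.trans h6
    set x₁ : ℝ := y'.2.1 / t with hx₁def
    set x₂ : ℝ := y'.2.2.1 / t with hx₂def
    have hyeq : y' = cptG (t, x₁, x₂, zof y') := by
      rw [cptG_eq]
      exact frm_eq ht.ne'
    have hdet : y'.mat.det = t ^ 3 * bdet (zof y') := by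
      conv_lhs => rw [hyeq]
      rw [cptG_mat, Matrix.det_smul, det_frm3]
      simp
    have hx₁ : |x₁| ≤ 1 / 2 := by
      rw [hx₁def, abs_div, abs_of_pos ht, div_le_iff₀ ht]
      rw [abs_mul, abs_two] at h4
      linarith
    have hx₂ : |x₂| ≤ 1 / 2 := by
      rw [hx₂def, abs_div, abs_of_pos ht, div_le_iff₀ ht]
      rw [abs_mul, abs_two] at h5
      linarith
    have hz11 : 3 / 4 ≤ (zof y').1 := by
      have h6 := h1 ![0, 1, 0] (by
        intro h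
        have := congrFun h 1
        simp at this)
      have h7 : ((fun i => ((![0, 1, 0] : Fin 3 → ℤ) i : ℝ)) ⬝ᵥ
          y'.mat.mulVec fun i => ((![0, 1, 0] : Fin 3 → ℤ) i : ℝ)) = y'.2.2.2.1 := by
        simp [dotProduct, Matrix.mulVec, Fin.sum_univ_three, Frm.mat]
      rw [h7] at h6
      have h8 : y'.2.2.2.1 = t * ((zof y').1 + x₁ ^ 2) := by
        show y'.2.2.2.1 = t * ((y'.2.2.2.1 / t - (y'.2.1 / t) ^ 2) + (y'.2.1 / t) ^ 2)
        field_simp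
        ring
      rw [h8] at h6
      have h9 : 1 ≤ (zof y').1 + x₁ ^ 2 := by
        by_contra hcon
        push Not at hcon
        have := mul_lt_mul_of_pos_left hcon ht
        linarith
      have h10 : x₁ ^ 2 ≤ 1 / 4 := by
        have := abs_le.mp hx₁
        nlinarith [this.1, this.2]
      linarith
    have hz22 : (zof y').1 ≤ (zof y').2.2 := by
      have h6 := h2 0 1 (Or.inr one_ne_zero)
      have h7 : bq (zof y') ((0 : ℤ) : ℝ) ((1 : ℤ) : ℝ) = (zof y').2.2 := by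
        simp [bq]
      rw [h7] at h6
      exact h6
    have hz12 : |(zof y').2.1| ≤ (zof y').1 / 2 := by
      rw [abs_mul, abs_two] at h3
      linarith
    generalize hzz : zof y' = z at *
    obtain ⟨a, b, c⟩ := z
    simp only at hz11 hz22 hz12
    have hb : b ^ 2 ≤ a ^ 2 / 4 := by
      have h6 := abs_le.mp hz12
      nlinarith [h6.1, h6.2]
    have hbd : bdet (a, b, c) = a * c - b ^ 2 := rfl
    have hb1 : 3 / 4 * a ^ 2 ≤ a * c - b ^ 2 := by nlinarith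
    have hb2 : 27 / 64 ≤ a * c - b ^ 2 := by nlinarith
    have hd3 : t ^ 3 * (a * c - b ^ 2) < 3 := by
      rw [← hbd, ← hdet]
      have := hy'.2.2
      have h6 := Real.exp_one_lt_d9
      linarith
    have hb3 : a * c - b ^ 2 ≤ 3 * R ^ 6 := by
      have h6 : 1 ≤ (R ^ 2 * t) ^ 3 := one_le_pow₀ htR
      have h7 : (a * c - b ^ 2) ≤ (a * c - b ^ 2) * (R ^ 2 * t) ^ 3 := by
        have h8 : 0 ≤ a * c - b ^ 2 := by linarith
        nlinarith
      have h9 : (a * c - b ^ 2) * (R ^ 2 * t) ^ 3 = R ^ 6 * (t ^ 3 * (a * c - b ^ 2)) := by ring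
      rw [h9] at h7
      have h10 : R ^ 6 * (t ^ 3 * (a * c - b ^ 2)) ≤ R ^ 6 * 3 :=
        mul_le_mul_of_nonneg_left hd3.le (by positivity)
      linarith
    have ha2 : a ^ 2 ≤ 4 * R ^ 6 := by nlinarith
    have ha6 : a ≤ 6 * R ^ 6 := by nlinarith
    have hc6 : c ≤ 6 * R ^ 6 := by
      have h6 : a * c ≤ 4 * R ^ 6 := by nlinarith
      have hc0 : 0 ≤ c := by linarith
      nlinarith
    have ht3 : t ≤ 3 := by
      by_contra hcon
      push Not at hcon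
      have h6 : (27 : ℝ) < t ^ 3 := by
        have : (3 : ℝ) ^ 3 < t ^ 3 := pow_lt_pow_left₀ hcon (by norm_num) (by norm_num)
        linarith
      nlinarith
    refine ⟨(t, x₁, x₂, (a, b, c)), ⟨⟨?_, ?_⟩, ?_⟩, hyeq.symm⟩
    · refine ⟨?_, ?_, ?_, ?_, ?_, ?_⟩
      · show (R ^ 2)⁻¹ ≤ t
        rw [inv_le_iff_one_le_mul₀ (by positivity)]
        linarith
      · exact (abs_le.mp hx₁).1
      · exact (abs_le.mp hx₂).1
      · exact hz11
      · show -(6 * R ^ 6) ≤ b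
        have := (abs_le.mp hz12).1
        linarith
      · show 3 / 4 ≤ c
        linarith
    · refine ⟨ht3, ?_, ?_, ?_, ?_, ?_⟩
      · exact (abs_le.mp hx₁).2
      · exact (abs_le.mp hx₂).2
      · exact ha6
      · show b ≤ 6 * R ^ 6
        have := (abs_le.mp hz12).2
        linarith
      · exact hc6
    · exact hb2

end AQ3
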