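import Pool.Agent.Lib_MP_d358f8_ne.Prm

/-!
# MP_d358f8_nt: the decay estimate
-/

namespace AQ3

open MeasureTheory Matrix
open scoped ENNReal MatrixGroups

/-- (H): every prime has a weight. -/
theorem dq_hecke {Q : ℝ → ℕ → ℝ} {T : ℝ} (hQ : DQ Q T) : ∀ p : ℕ, p.Prime → ∃ w : ℝ, 1 ≤ w ∧
    ∀ V : ℝ, 1 ≤ V / p ^ 3 → ∃ i : ℕ, 1 ≤ i ∧ i ≤ 3 ∧
      w * Q V 1 ≤ 40000 * Q (V / p ^ i) (p ^ i) ∧
      ∀ V' : ℝ, ∀ d : ℕ, 1 ≤ d → Nat.Coprime p d → 1 ≤ V' / p ^ i →
        Q (V' / p ^ i) (p ^ i * d) ≤ 1200000 * w * Q V' d := by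
  intro p hp
  obtain ⟨e₁, e₂, h1, h2, H⟩ := hQ.six p hp
  have hp1 : (1 : ℝ) ≤ p := by exact_mod_cast hp.one_lt.le
  have hp0 : (0 : ℝ) < p := by linarith
  have hnn := hQ.nonneg
  -- levels
  have lev32 : ∀ V : ℝ, 1 ≤ V / (p : ℝ) ^ 3 → 1 ≤ V / (p : ℝ) ^ 2 := by
    intro V hV
    rw [le_div_iff₀ (by positivity)] at hV ⊢
    nlinarith [pow_pos hp0 2, pow_pos hp0 3, mul_le_mul_of_nonneg_left hp1 (pow_pos hp0 2).le]
  have lev21 : ∀ V : ℝ, 1 ≤ V / (p : ℝ) ^ 2 → 1 ≤ V / (p : ℝ) := by
    intro V hV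
    rw [le_div_iff₀ (by positivity)] at hV ⊢
    nlinarith
  by_cases hA : 16 ≤ e₁ ^ 2
  · refine ⟨e₁ ^ 2, by linarith, fun V hV => ⟨1, le_rfl, by norm_num, ?_, ?_⟩⟩
    · have hV1 := lev21 V (lev32 V hV)
      have h := ((H V 1 le_rfl (Nat.coprime_one_right p)).1 hV1).2
      rw [mul_one] at h
      rw [pow_one, pow_one]
      have := hnn V 1
      have := hnn (V / p) p
      nlinarith
    · intro V' d hd hpd hV'
      rw [pow_one] at hV' ⊢
      rw [pow_one]
      have h := ((H V' d hd hpd).1 hV').1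
      have := hnn V' d
      nlinarith
  · push Not at hA
    have key1 : ∀ V' : ℝ, ∀ d : ℕ, 1 ≤ d → Nat.Coprime p d → 1 ≤ V' / p → Q (V' / p) (p * d) ≤ 40 * Q V' d := by
      intro V' d hd hpd hV'
      have h := ((H V' d hd hpd).1 hV').1
      have := hnn V' d
      nlinarith
    by_cases hB : 3846 ≤ e₂ ^ 2
    · refine ⟨e₂ ^ 2, by linarith, fun V hV => ⟨2, by norm_num, by norm_num, ?_, ?_⟩⟩
      · have hV2 := lev32 V hV
        have hV1 := lev21 V hV2
        have h := ((H V 1 le_rfl (Nat.coprime_one_right p)).2.1 hV2).2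
        have k1 := key1 V 1 le_rfl (Nat.coprime_one_right p) hV1
        rw [mul_one] at h k1
        rw [mul_one] at h
        have a1 := hnn V 1
        have a2 := hnn (V / p) p
        have a3 := hnn (V / p ^ 2) (p ^ 2)
        have b1 : e₁ ^ 2 * Q (V / p) p ≤ 16 * (40 * Q V 1) := by
          refine mul_le_mul hA.le k1 a2 (by norm_num)
        have b2 : 3846 * Q V 1 ≤ e₂ ^ 2 * Q V 1 := mul_le_mul_of_nonneg_right hB a1
        linarith
      · intro V' d hd hpd hV'
        have hV1 := lev21 V' hV'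
        have h := ((H V' d hd hpd).2.1 hV').1
        have k1 := key1 V' d hd hpd hV1
        have a1 := hnn V' d
        have a2 := hnn (V' / p) (p * d)
        have b1 : e₁ ^ 2 * Q (V' / p) (p * d) ≤ 16 * (40 * Q V' d) := by
          refine mul_le_mul hA.le k1 a2 (by norm_num)
        have b2 : 3846 * Q V' d ≤ e₂ ^ 2 * Q V' d := mul_le_mul_of_nonneg_right hB a1
        nlinarith
    · push Not at hB
      have key2 : ∀ V' : ℝ, ∀ d : ℕ, 1 ≤ d → Nat.Coprime p d → 1 ≤ V' / p ^ 2 →
          Q (V' / p ^ 2) (p ^ 2 * d) ≤ 13461 * Q V' d := by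
        intro V' d hd hpd hV'
        have h := ((H V' d hd hpd).2.1 hV').1
        have k1 := key1 V' d hd hpd (lev21 V' hV')
        have a1 := hnn V' d
        have a2 := hnn (V' / p) (p * d)
        have b1 : e₁ ^ 2 * Q (V' / p) (p * d) ≤ 16 * (40 * Q V' d) := by
          refine mul_le_mul hA.le k1 a2 (by norm_num)
        have b2 : e₂ ^ 2 * Q V' d ≤ 3846 * Q V' d := mul_le_mul_of_nonneg_right hB.le a1
        nlinarith
      have key3 : ∀ V' : ℝ, ∀ d : ℕ, 1 ≤ d → Nat.Coprime p d → 1 ≤ V' / p ^ 3 →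
          Q (V' / p ^ 3) (p ^ 3 * d) ≤ 1107651 * Q V' d := by
        intro V' d hd hpd hV'
        have h := ((H V' d hd hpd).2.2 hV').1
        have k1 := key1 V' d hd hpd (lev21 V' (lev32 V' hV'))
        have k2 := key2 V' d hd hpd (lev32 V' hV')
        have a1 := hnn V' d
        have a2 := hnn (V' / p) (p * d)
        have a3 := hnn (V' / p ^ 2) (p ^ 2 * d)
        have b1 : e₁ ^ 2 * Q (V' / p ^ 2) (p ^ 2 * d) ≤ 16 * (13461 * Q V' d) := by
          refine mul_le_mul hA.le k2 a3 (by norm_num)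
        have b2 : e₂ ^ 2 * Q (V' / p) (p * d) ≤ 3846 * (40 * Q V' d) := by
          refine mul_le_mul hB.le k1 a2 (by norm_num)
        linarith
      refine ⟨1, le_rfl, fun V hV => ?_⟩
      have hV2 := lev32 V hV
      have hV1 := lev21 V hV2
      have h := ((H V 1 le_rfl (Nat.coprime_one_right p)).2.2 hV).2
      rw [mul_one, mul_one, mul_one] at h
      have a0 := hnn V 1
      have a1 := hnn (V / p) p
      have a2 := hnn (V / p ^ 2) (p ^ 2)
      have a3 := hnn (V / p ^ 3) (p ^ 3)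
      have b1 : e₁ ^ 2 * Q (V / p ^ 2) (p ^ 2) ≤ 16 * Q (V / p ^ 2) (p ^ 2) := mul_le_mul_of_nonneg_right hA.le a2
      have b2 : e₂ ^ 2 * Q (V / p) p ≤ 3846 * Q (V / p) p := mul_le_mul_of_nonneg_right hB.le a1
      by_cases c1 : Q V 1 ≤ 40000 * Q (V / p) p
      · refine ⟨1, le_rfl, by norm_num, by rw [pow_one, pow_one]; linarith, ?_⟩
        intro V' d hd hpd hV'
        rw [pow_one] at hV' ⊢
        rw [pow_one]
        have := key1 V' d hd hpd hV'
        have := hnn V' d
        linarith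
      by_cases c2 : Q V 1 ≤ 40000 * Q (V / p ^ 2) (p ^ 2)
      · refine ⟨2, by norm_num, by norm_num, by linarith, ?_⟩
        intro V' d hd hpd hV'
        have := key2 V' d hd hpd hV'
        have := hnn V' d
        linarith
      · refine ⟨3, by norm_num, by norm_num, by linarith, ?_⟩
        intro V' d hd hpd hV'
        have := key3 V' d hd hpd hV'
        have := hnn V' d
        linarith

private theorem esymm_le (S : Finset ℕ) (x : ℕ → ℝ) (hx : ∀ p ∈ S, 0 ≤ x p) (K : ℕ) :
    ∑ D ∈ S.powersetCard K, ∏ p ∈ D, x p ≤ (∑ p ∈ S, x p) ^ K := by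
  induction S using Finset.induction_on generalizing K with
  | empty =>
    rcases K with _ | K
    · simp
    · rw [Finset.powersetCard_eq_empty.2 (by simp)]
      simp
  | insert a s ha ih =>
    have hs : ∀ p ∈ s, 0 ≤ x p := fun p hp => hx p (Finset.mem_insert_of_mem hp)
    have hxa : 0 ≤ x a := hx a (Finset.mem_insert_self a s)
    have h0 : 0 ≤ ∑ p ∈ s, x p := Finset.sum_nonneg hs
    rcases K with _ | K
    · simp
    · rw [Finset.powersetCard_succ_insert ha, Finset.sum_union, Finset.sum_image, Finset.sum_insert ha]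
      · have h1 : ∑ D ∈ s.powersetCard K, ∏ p ∈ insert a D, x p = x a * ∑ D ∈ s.powersetCard K, ∏ p ∈ D, x p := by
          rw [Finset.mul_sum]
          refine Finset.sum_congr rfl fun D hD => ?_
          rw [Finset.prod_insert]
          intro h
          exact ha ((Finset.mem_powersetCard.1 hD).1 h)
        rw [h1]
        have e1 := ih hs (K + 1)
        have e2 := ih hs K
        have e3 : (∑ p ∈ s, x p) ^ K ≤ (x a + ∑ p ∈ s, x p) ^ K := pow_le_pow_left₀ h0 (by linarith) K
        calc _ ≤ (∑ p ∈ s, x p) ^ (K + 1) + x a * (∑ p ∈ s, x p) ^ K :=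
              add_le_add e1 (mul_le_mul_of_nonneg_left e2 hxa)
          _ = (x a + ∑ p ∈ s, x p) * (∑ p ∈ s, x p) ^ K := by ring
          _ ≤ (x a + ∑ p ∈ s, x p) * (x a + ∑ p ∈ s, x p) ^ K :=
              mul_le_mul_of_nonneg_left e3 (by linarith)
          _ = (x a + ∑ p ∈ s, x p) ^ (K + 1) := by ring
      · intro D hD D' hD' h
        have h2 : a ∉ D := fun h => ha ((Finset.mem_powersetCard.1 hD).1 h)
        have h3 : a ∉ D' := fun h => ha ((Finset.mem_powersetCard.1 hD').1 h)
        have h : insert a D = insert a D' := h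
        rw [← Finset.erase_insert h2, ← Finset.erase_insert h3, h]
      · rw [Finset.disjoint_left]
        intro D hD hD'
        obtain ⟨D', -, rfl⟩ := Finset.mem_image.1 hD'
        exact ha ((Finset.mem_powersetCard.1 hD).1 (Finset.mem_insert_self a D'))

private theorem iter_le {Q : ℝ → ℕ → ℝ} {i : ℕ} {w : ℕ → ℝ} (D : Finset ℕ) (hD : ∀ p ∈ D, p.Prime)
    (hw : ∀ p ∈ D, 0 ≤ w p)
    (h : ∀ p ∈ D, ∀ V' : ℝ, ∀ d : ℕ, 1 ≤ d → Nat.Coprime p d → 1 ≤ V' / p ^ i →
      Q (V' / p ^ i) (p ^ i * d) ≤ w p * Q V' d) :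
    ∀ U : ℝ, 1 ≤ U → Q U (∏ p ∈ D, p ^ i) ≤ (∏ p ∈ D, w p) * Q (U * ∏ p ∈ D, (p : ℝ) ^ i) 1 := by
  induction D using Finset.induction_on with
  | empty => intro U _; simp
  | insert a s ha ih =>
    intro U hU
    have hs : ∀ p ∈ s, p.Prime := fun p hp => hD p (Finset.mem_insert_of_mem hp)
    have ha' : a.Prime := hD a (Finset.mem_insert_self a s)
    have ha0 : (0 : ℝ) < (a : ℝ) ^ i := by
      have : (0 : ℝ) < a := by exact_mod_cast ha'.pos
      positivity
    have ha1 : (1 : ℝ) ≤ (a : ℝ) ^ i := one_le_pow₀ (by exact_mod_cast ha'.one_lt.le)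
    rw [Finset.prod_insert ha, Finset.prod_insert ha, Finset.prod_insert ha]
    have e1 := h a (Finset.mem_insert_self a s) (U * a ^ i) (∏ p ∈ s, p ^ i)
      (Finset.one_le_prod' fun p hp => Nat.one_le_pow _ _ (hs p hp).pos)
      (Nat.Coprime.prod_right fun p hp => Nat.Coprime.pow_right _ ((Nat.coprime_primes ha' (hs p hp)).2
        fun h => ha (h ▸ hp)))
      (by rw [mul_div_assoc, div_self ha0.ne', mul_one]; exact hU)
    rw [mul_div_assoc, div_self ha0.ne', mul_one] at e1
    have e2 := ih hs (fun p hp => hw p (Finset.mem_insert_of_mem hp))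
      (fun p hp => h p (Finset.mem_insert_of_mem hp)) (U * a ^ i) (by nlinarith)
    calc _ ≤ _ := e1
      _ ≤ w a * ((∏ p ∈ s, w p) * Q (U * a ^ i * ∏ p ∈ s, (p : ℝ) ^ i) 1) :=
        mul_le_mul_of_nonneg_left e2 (hw a (Finset.mem_insert_self a s))
      _ = _ := by rw [← mul_assoc, mul_assoc U]

private theorem exists_sub {w : ℕ → ℝ} {τ : ℝ} (S : Finset ℕ) (hw : ∀ p ∈ S, w p < τ)
    (h : τ ≤ ∑ p ∈ S, w p) (hτ : 0 < τ) : ∃ S' ⊆ S, τ ≤ ∑ p ∈ S', w p ∧ ∑ p ∈ S', w p ≤ 2 * τ := by
  induction S using Finset.induction_on with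
  | empty => simp at h; linarith
  | insert a s ha ih =>
    by_cases h1 : τ ≤ ∑ p ∈ s, w p
    · obtain ⟨S', h2, h3⟩ := ih (fun p hp => hw p (Finset.mem_insert_of_mem hp)) h1
      exact ⟨S', h2.trans (Finset.subset_insert a s), h3⟩
    · push Not at h1
      refine ⟨insert a s, subset_rfl, h, ?_⟩
      rw [Finset.sum_insert ha]
      have := hw a (Finset.mem_insert_self a s)
      linarith

/-- The primes in `(P / 4, P]`. -/
noncomputable def prs (P : ℝ) : Finset ℕ := (Finset.range (⌊P⌋₊ + 1)).filter fun p : ℕ => p.Prime ∧ P / 4 < (p : ℝ)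

private theorem step {Q : ℝ → ℕ → ℝ} {T : ℝ} (hQ : DQ Q T) {K : ℕ} (hK : 2 ≤ K) {V₁ P : ℝ} (hP : 4 ≤ P)
    (hV : P ^ 3 ≤ V₁) (τ : ℕ → ℝ) (hτ : ∀ i, 1 ≤ i → i ≤ 3 → 0 < τ i)
    (hcard : ∀ i, 1 ≤ i → i ≤ 3 → 3 * τ i ≤ (prs P).card)
    (hgrow : ∀ i, 1 ≤ i → i ≤ 3 →
      40000 * (2400000 * τ i) ^ K * Q (V₁ / P ^ i * ((P / 4) ^ i) ^ K) 1 ≤ τ i / 2 * Q V₁ 1) :
    ∃ i, 1 ≤ i ∧ i ≤ 3 ∧ τ i * Q V₁ 1 ≤ 160000 * K * Q (V₁ / P ^ i) 1 := by
  have hP0 : (0 : ℝ) < P := by linarith
  have hmem : ∀ p ∈ prs P, p.Prime ∧ P / 4 < (p : ℝ) ∧ (p : ℝ) ≤ P := by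
    intro p hp
    obtain ⟨h1, h2, h3⟩ := Finset.mem_filter.1 hp
    refine ⟨h2, h3, ?_⟩
    have h4 : p ≤ ⌊P⌋₊ := by
      have := Finset.mem_range.1 h1
      omega
    exact (Nat.le_floor_iff hP0.le).1 h4
  have hH := dq_hecke hQ
  choose! w hw1 hw using hH
  have hlev : ∀ p ∈ prs P, 1 ≤ V₁ / (p : ℝ) ^ 3 := by
    intro p hp
    obtain ⟨h1, h2, h3⟩ := hmem p hp
    have hp0 : (0 : ℝ) < p := by exact_mod_cast h1.pos
    rw [le_div_iff₀ (by positivity), one_mul]
    exact (pow_le_pow_left₀ hp0.le h3 3).trans hV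
  have hchoice : ∀ p ∈ prs P, ∃ i : ℕ, 1 ≤ i ∧ i ≤ 3 ∧
      w p * Q V₁ 1 ≤ 40000 * Q (V₁ / p ^ i) (p ^ i) ∧
      ∀ V' : ℝ, ∀ d : ℕ, 1 ≤ d → Nat.Coprime p d → 1 ≤ V' / p ^ i →
        Q (V' / p ^ i) (p ^ i * d) ≤ 1200000 * w p * Q V' d :=
    fun p hp => hw p (hmem p hp).1 V₁ (hlev p hp)
  choose! ii h1 h2 h3 h4 using hchoice
  -- a large class
  obtain ⟨i, hi1, hi3, hcl⟩ : ∃ i, 1 ≤ i ∧ i ≤ 3 ∧ τ i ≤ ((prs P).filter fun p => ii p = i).card := by
    by_contra hcon
    push Not at hcon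
    have e1 := hcon 1 le_rfl (by norm_num)
    have e2 := hcon 2 (by norm_num) (by norm_num)
    have e3 := hcon 3 (by norm_num) (by norm_num)
    have f1 := hcard 1 le_rfl (by norm_num)
    have f2 := hcard 2 (by norm_num) (by norm_num)
    have f3 := hcard 3 (by norm_num) (by norm_num)
    have hsum : (prs P).card = ((prs P).filter fun p => ii p = 1).card +
        ((prs P).filter fun p => ii p = 2).card + ((prs P).filter fun p => ii p = 3).card := by
      have hfib : (prs P).card = ∑ b ∈ ({1, 2, 3} : Finset ℕ), ((prs P).filter fun p => ii p = b).card := by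
        refine Finset.card_eq_sum_card_fiberwise fun p hp => ?_
        have a1 := h1 p hp
        have a2 := h2 p hp
        simp only [Finset.coe_insert, Finset.coe_singleton, Set.mem_insert_iff, Set.mem_singleton_iff]
        omega
      rw [hfib]
      simp [add_assoc]
    have hsum' : ((prs P).card : ℝ) = (((prs P).filter fun p => ii p = 1).card : ℝ) +
        (((prs P).filter fun p => ii p = 2).card : ℝ) + (((prs P).filter fun p => ii p = 3).card : ℝ) := by
      exact_mod_cast hsum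
    linarith
  have hτi := hτ i hi1 hi3
  set C := (prs P).filter fun p => ii p = i with hC
  have hCm : ∀ p ∈ C, p ∈ prs P ∧ ii p = i := fun p hp => Finset.mem_filter.1 hp
  have hPi : (1 : ℝ) ≤ P ^ i := one_le_pow₀ (by linarith)
  have hPi0 : (0 : ℝ) < P ^ i := by linarith
  have hPi3 : P ^ i ≤ V₁ := (pow_le_pow_right₀ (by linarith) hi3).trans hV
  have hU : 1 ≤ V₁ / P ^ i := by rw [le_div_iff₀ hPi0, one_mul]; exact hPi3
  have hV0 : 0 < V₁ := by linarith
  have hlow : ∀ p ∈ C, V₁ / P ^ i ≤ V₁ / (p : ℝ) ^ i := by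
    intro p hp
    obtain ⟨h1, h2, h3⟩ := hmem p (hCm p hp).1
    have hp0 : (0 : ℝ) < p := by exact_mod_cast h1.pos
    exact div_le_div_of_nonneg_left hV0.le (by positivity) (pow_le_pow_left₀ hp0.le h3 i)
  refine ⟨i, hi1, hi3, ?_⟩
  have hQ1 := hQ.nonneg V₁ 1
  have hQU := hQ.nonneg (V₁ / P ^ i) 1
  have hK' : (2 : ℝ) ≤ K := by exact_mod_cast hK
  by_cases hbig : ∃ p ∈ C, τ i ≤ w p
  · obtain ⟨p, hp, hpw⟩ := hbig
    obtain ⟨hpP, hpi⟩ := hCm p hp
    have e1 := h3 p hpP
    rw [hpi] at e1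
    have e2 : Q (V₁ / (p : ℝ) ^ i) (p ^ i) ≤ Q (V₁ / P ^ i) 1 :=
      (hQ.anti _ _ _ hU (hlow p hp)).trans (hQ.le_one _ _ hU)
    have e3 : τ i * Q V₁ 1 ≤ w p * Q V₁ 1 := mul_le_mul_of_nonneg_right hpw hQ1
    nlinarith
  · push Not at hbig
    have hwC : ∀ p ∈ C, 1 ≤ w p := fun p hp => hw1 p (hmem p (hCm p hp).1).1
    have hsumC : τ i ≤ ∑ p ∈ C, w p := by
      refine hcl.trans ?_
      calc (C.card : ℝ) = ∑ p ∈ C, (1 : ℝ) := by simp
        _ ≤ _ := Finset.sum_le_sum hwC
    obtain ⟨S, hSC, hS1, hS2⟩ := exists_sub C hbig hsumC hτi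
    have hSp : ∀ p ∈ S, p.Prime := fun p hp => (hmem p (hCm p (hSC hp)).1).1
    -- the first inequality
    have e1 : (∑ p ∈ S, w p) * Q V₁ 1 ≤ 40000 * ∑ p ∈ S, Q (V₁ / P ^ i) (p ^ i) := by
      rw [Finset.sum_mul, Finset.mul_sum]
      refine Finset.sum_le_sum fun p hp => ?_
      obtain ⟨hpP, hpi⟩ := hCm p (hSC hp)
      have f1 := h3 p hpP
      rw [hpi] at f1
      have f2 := hQ.anti _ _ (p ^ i) hU (hlow p (hSC hp))
      linarith
    have e2 := hQ.moment (V₁ / P ^ i) hU K hK S (fun p => p ^ i) (by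
      intro p hp q hq hpq
      exact Nat.Coprime.pow _ _ ((Nat.coprime_primes (hSp p hp) (hSp q hq)).2 hpq))
    -- the terms of the moment
    have hX : 1 ≤ V₁ / P ^ i * ((P / 4) ^ i) ^ K := by
      have : 1 ≤ ((P / 4) ^ i) ^ K := one_le_pow₀ (one_le_pow₀ (by linarith))
      nlinarith
    have e3 : ∀ D ∈ S.powersetCard K, Q (V₁ / P ^ i) (∏ p ∈ D, p ^ i) ≤
        (∏ p ∈ D, 1200000 * w p) * Q (V₁ / P ^ i * ((P / 4) ^ i) ^ K) 1 := by
      intro D hD
      obtain ⟨hDS, hDK⟩ := Finset.mem_powersetCard.1 hD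
      have hDw : ∀ p ∈ D, 0 ≤ 1200000 * w p := fun p hp => by
        have := hwC p (hSC (hDS hp))
        linarith
      have f1 := iter_le (Q := Q) (i := i) (w := fun p => 1200000 * w p) D (fun p hp => hSp p (hDS hp)) hDw
        (fun p hp => by
          obtain ⟨hpP, hpi⟩ := hCm p (hSC (hDS hp))
          have g := h4 p hpP
          rw [hpi] at g
          exact g) (V₁ / P ^ i) hU
      have f2 : ((P / 4) ^ i) ^ K ≤ ∏ p ∈ D, (p : ℝ) ^ i := by
        rw [← hDK, ← Finset.prod_const]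
        refine Finset.prod_le_prod (fun p _ => by positivity) fun p hp => ?_
        exact pow_le_pow_left₀ (by linarith) (hmem p (hCm p (hSC (hDS hp))).1).2.1.le i
      have f3 : Q (V₁ / P ^ i * ∏ p ∈ D, (p : ℝ) ^ i) 1 ≤ Q (V₁ / P ^ i * ((P / 4) ^ i) ^ K) 1 :=
        hQ.anti _ _ _ hX (mul_le_mul_of_nonneg_left f2 (by linarith))
      exact f1.trans (mul_le_mul_of_nonneg_left f3 (Finset.prod_nonneg hDw))
    have e4 : ∑ D ∈ S.powersetCard K, Q (V₁ / P ^ i) (∏ p ∈ D, p ^ i) ≤
        (2400000 * τ i) ^ K * Q (V₁ / P ^ i * ((P / 4) ^ i) ^ K) 1 := by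
      refine (Finset.sum_le_sum e3).trans ?_
      rw [← Finset.sum_mul]
      refine mul_le_mul_of_nonneg_right ?_ (hQ.nonneg _ _)
      refine (esymm_le S (fun p => 1200000 * w p) (fun p hp => ?_) K).trans ?_
      · have := hwC p (hSC hp)
        linarith
      · refine pow_le_pow_left₀ (Finset.sum_nonneg fun p hp => ?_) ?_ K
        · have := hwC p (hSC hp)
          linarith
        · rw [← Finset.mul_sum]
          linarith
    have e5 := hgrow i hi1 hi3
    have e6 : τ i * Q V₁ 1 ≤ (∑ p ∈ S, w p) * Q V₁ 1 := mul_le_mul_of_nonneg_right hS1 hQ1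
    have e2' : ∑ p ∈ S, Q (V₁ / P ^ i) (p ^ i) ≤ 2 * K * Q (V₁ / P ^ i) 1 +
        (2400000 * τ i) ^ K * Q (V₁ / P ^ i * ((P / 4) ^ i) ^ K) 1 := e2.trans (by linarith)
    nlinarith

/-- The decay of the mass: the exponent `κ < 1 / 3` with an absolute constant. -/
theorem dq_decay (κ : ℝ) (hκ : κ < 1 / 3) : ∃ B : ℝ, 0 ≤ B ∧ ∀ (Q : ℝ → ℕ → ℝ) (T : ℝ), DQ Q T →
    ∀ V : ℝ, 1 ≤ V → ∀ y : ℝ, 1 ≤ y →
      Q (V * y) 1 ≤ Real.exp (-κ * Real.log y + B * √(Real.log y)) * Q V 1 := by
  by_cases hκ0 : κ ≤ 0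
  · refine ⟨0, le_rfl, fun Q T hQ V hV y hy => ?_⟩
    have h1 : 0 ≤ Real.log y := Real.log_nonneg hy
    have h2 : 1 ≤ Real.exp (-κ * Real.log y + 0 * √(Real.log y)) := by
      rw [zero_mul, add_zero]
      exact Real.one_le_exp (by nlinarith)
    have h3 := hQ.anti V (V * y) 1 hV (by nlinarith)
    have := hQ.nonneg V 1
    nlinarith
  push Not at hκ0
  obtain ⟨P0, hP01, hP0⟩ := primes_quarter (3 * κ) (by linarith)
  have hlP0 : 0 ≤ Real.log P0 := Real.log_nonneg hP01
  obtain ⟨b, hb130, hbP⟩ : ∃ b : ℝ, 130 ≤ b ∧ Real.log P0 ≤ b := ⟨130 + Real.log P0, by linarith, by linarith⟩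
  refine ⟨4 * b, by linarith, fun Q T hQ => ?_⟩
  suffices H : ∀ n : ℕ, ∀ V : ℝ, 1 ≤ V → T < V * 2 ^ n → ∀ L : ℝ, 0 ≤ L →
      Q (V * Real.exp L) 1 ≤ Real.exp (-κ * L + 4 * b * √L) * Q V 1 by
    intro V hV y hy
    obtain ⟨n, hn⟩ := pow_unbounded_of_one_lt T (one_lt_two (α := ℝ))
    have h2 : (0 : ℝ) < 2 ^ n := by positivity
    have := H n V hV (by nlinarith) (Real.log y) (Real.log_nonneg hy)
    rwa [Real.exp_log (by linarith)] at this
  intro n
  induction n with
  | zero =>
    intro V hV hT L hL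
    rw [pow_zero, mul_one] at hT
    have h1 : V ≤ V * Real.exp L := by nlinarith [Real.one_le_exp hL]
    rw [hQ.zero (V * Real.exp L) (by linarith) (by linarith)]
    exact mul_nonneg (Real.exp_pos _).le (hQ.nonneg _ _)
  | succ n ih =>
    intro V hV hT
    have hQV := hQ.nonneg V 1
    have triv : ∀ L : ℝ, 0 ≤ L → L ≤ (4 * b / κ) ^ 2 →
        Q (V * Real.exp L) 1 ≤ Real.exp (-κ * L + 4 * b * √L) * Q V 1 := by
      intro L hL hL2
      have h1 : κ * L ≤ 4 * b * √L := by
        have h2 : √L ≤ 4 * b / κ := Real.sqrt_le_iff.2 ⟨by positivity, hL2⟩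
        have h3 : √L * κ ≤ 4 * b := by rwa [le_div_iff₀ hκ0] at h2
        calc κ * L = √L * κ * √L := by
              rw [mul_right_comm, Real.mul_self_sqrt hL, mul_comm]
          _ ≤ 4 * b * √L := mul_le_mul_of_nonneg_right h3 (Real.sqrt_nonneg _)
      have h4 : 1 ≤ Real.exp (-κ * L + 4 * b * √L) := Real.one_le_exp (by linarith)
      have h5 := hQ.anti V (V * Real.exp L) 1 hV (by nlinarith [Real.one_le_exp hL])
      nlinarith
    suffices H2 : ∀ m : ℕ, ∀ L : ℝ, 0 ≤ L → L ≤ (3 / 2) ^ m * (4 * b / κ) ^ 2 →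
        Q (V * Real.exp L) 1 ≤ Real.exp (-κ * L + 4 * b * √L) * Q V 1 by
      intro L hL
      have h0 : 0 < (4 * b / κ) ^ 2 := by positivity
      obtain ⟨m, hm⟩ := pow_unbounded_of_one_lt (L / (4 * b / κ) ^ 2) (show (1 : ℝ) < 3 / 2 by norm_num)
      rw [div_lt_iff₀ h0] at hm
      exact H2 m L hL hm.le
    intro m
    induction m with
    | zero => intro L hL h; exact triv L hL (by simpa using h)
    | succ m ihm =>
      intro L hL hLm
      by_cases hLt : L ≤ (4 * b / κ) ^ 2
      · exact triv L hL hLt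
      push Not at hLt
      obtain ⟨l, hl⟩ : ∃ l : ℝ, L = 3 * l := ⟨L / 3, by ring⟩
      have hb0 : 0 < b := by linarith
      have hbig : 144 * b ^ 2 ≤ L := by
        have h1 : 12 * b ≤ 4 * b / κ := by
          rw [le_div_iff₀ hκ0]
          nlinarith
        have h2 : (12 * b) ^ 2 ≤ (4 * b / κ) ^ 2 := pow_le_pow_left₀ (by positivity) h1 2
        nlinarith
      have hl48 : 48 * b ^ 2 ≤ l := by linarith
      have hl0 : 0 ≤ l := le_trans (by positivity) hl48
      have hlb : b ≤ l := by nlinarith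
      obtain ⟨s, hs0, hs2⟩ : ∃ s : ℝ, 0 ≤ s ∧ s ^ 2 = l := ⟨√l, Real.sqrt_nonneg _, Real.sq_sqrt hl0⟩
      have hs6 : 6 * b ≤ s := by nlinarith
      have hbs : 101400 ≤ b * s := by nlinarith
      -- the square roots
      have hsq : ∀ (M c : ℝ), 0 ≤ c → M ≤ c ^ 2 * l → √M ≤ c * s := by
        intro M c hc hM
        refine Real.sqrt_le_iff.2 ⟨by positivity, ?_⟩
        rw [mul_pow, hs2]
        exact hM
      have hsqL : 1732 / 1000 * s ≤ √L := by
        refine Real.le_sqrt_of_sq_le ?_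
        rw [mul_pow, hs2, hl]
        nlinarith
      have hexp17 : (10400000 : ℝ) ≤ Real.exp 17 := by
        have h1 : Real.exp 17 = Real.exp 1 ^ 17 := by rw [← Real.exp_nat_mul]; norm_num
        rw [h1]
        have h2 : (27 / 10 : ℝ) ≤ Real.exp 1 := by linarith [Real.exp_one_gt_d9]
        calc (10400000 : ℝ) ≤ (27 / 10) ^ 17 := by norm_num
          _ ≤ _ := pow_le_pow_left₀ (by norm_num) h2 17
      have hlog4 : Real.log 4 ≤ 2 := by
        have h1 : Real.log 4 ≤ 4 - 1 := Real.log_le_sub_one_of_pos (by norm_num)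
        have h2 : Real.log 4 = 2 * Real.log 2 := by
          rw [show (4 : ℝ) = 2 ^ 2 by norm_num, Real.log_pow]; norm_num
        have h3 := Real.log_two_lt_d9
        linarith
      have hlog4' : 0 ≤ Real.log 4 := Real.log_nonneg (by norm_num)
      -- the local step
      have hP4 : 4 ≤ Real.exp l := by
        have := Real.add_one_le_exp l
        linarith
      have hPP : Real.exp l ^ 3 = Real.exp L := by rw [← Real.exp_nat_mul, hl]; norm_num
      have hV1 : Real.exp l ^ 3 ≤ V * Real.exp L := by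
        rw [hPP]
        nlinarith [Real.exp_pos L]
      have hV2 : 2 * V ≤ V * Real.exp L := by
        have := Real.add_one_le_exp L
        nlinarith
      have hcardP : Real.exp (3 * κ * l) ≤ ((prs (Real.exp l)).card : ℝ) := by
        have h1 : P0 ≤ Real.exp l := by
          calc P0 = Real.exp (Real.log P0) := (Real.exp_log (by linarith)).symm
            _ ≤ Real.exp l := Real.exp_le_exp.2 (by linarith)
        have h2 := hP0 (Real.exp l) h1
        rw [Real.rpow_def_of_pos (Real.exp_pos l), Real.log_exp] at h2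
        rw [show 3 * κ * l = l * (3 * κ) by ring]
        exact h2
      obtain ⟨i, hi1, hi3, hstep⟩ := step hQ (K := 65) (by norm_num) hP4 hV1
        (fun i => Real.exp (i * κ * l - b * s)) (fun i _ _ => Real.exp_pos _)
        (by
          intro i hi1 hi3
          have hi3' : (i : ℝ) ≤ 3 := by exact_mod_cast hi3
          refine le_trans ?_ hcardP
          have h3 : (3 : ℝ) ≤ Real.exp (b * s) := by
            have := Real.add_one_le_exp (b * s)
            linarith
          calc 3 * Real.exp (i * κ * l - b * s) ≤ Real.exp (b * s) * Real.exp (i * κ * l - b * s) :=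
                mul_le_mul_of_nonneg_right h3 (Real.exp_pos _).le
            _ = Real.exp (i * κ * l) := by rw [← Real.exp_add]; congr 1; ring
            _ ≤ Real.exp (3 * κ * l) := Real.exp_le_exp.2 (by
                have : 0 ≤ κ * l := by positivity
                nlinarith))
        (by
          intro i hi1 hi3
          have hi1' : (1 : ℝ) ≤ i := by exact_mod_cast hi1
          have hi3' : (i : ℝ) ≤ 3 := by exact_mod_cast hi3
          obtain ⟨M, hM⟩ : ∃ M : ℝ, M = i * (64 * l - 65 * Real.log 4) := ⟨_, rfl⟩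
          have hM0 : 0 ≤ M := by
            rw [hM]
            have : 0 ≤ 64 * l - 65 * Real.log 4 := by nlinarith
            positivity
          have hM192 : M ≤ 14 ^ 2 * l := by
            rw [hM]
            nlinarith
          have hlev : V * Real.exp L / Real.exp l ^ i * ((Real.exp l / 4) ^ i) ^ 65 = V * Real.exp L * Real.exp M := by
            have e1 : Real.exp l / 4 = Real.exp (l - Real.log 4) := by
              rw [Real.exp_sub, Real.exp_log (by norm_num)]
            rw [e1, ← Real.exp_nat_mul, ← Real.exp_nat_mul, ← Real.exp_nat_mul, mul_div_assoc,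
              ← Real.exp_sub, mul_assoc, mul_assoc, ← Real.exp_add, ← Real.exp_add]
            congr 2
            rw [hM]
            push_cast
            ring
          rw [hlev]
          have h2n : (0 : ℝ) < 2 ^ n := by positivity
          have g1 := ih (V * Real.exp L) (by linarith) (by
            rw [pow_succ] at hT
            nlinarith) M hM0
          have g2 : √M ≤ 14 * s := hsq M 14 (by norm_num) hM192
          have hQ1 := hQ.nonneg (V * Real.exp L) 1
          have g3 : Real.exp (-κ * M + 4 * b * √M) ≤ Real.exp (-κ * M + 56 * (b * s)) :=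
            Real.exp_le_exp.2 (by nlinarith)
          have hκi : κ * i ≤ 1 := by nlinarith
          have g4 : 40000 * (2400000 * Real.exp (i * κ * l - b * s)) ^ 65 * Real.exp (-κ * M + 56 * (b * s)) ≤
              Real.exp (i * κ * l - b * s) / 2 := by
            have k1 : (2400000 * Real.exp (i * κ * l - b * s)) ^ 65 =
                2400000 ^ 65 * (Real.exp (64 * (i * κ * l - b * s)) * Real.exp (i * κ * l - b * s)) := by
              rw [mul_pow, ← Real.exp_nat_mul, ← Real.exp_add]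
              congr 2
              push_cast
              ring
            have k2 : 64 * (i * κ * l - b * s) + (-κ * M + 56 * (b * s)) ≤ 130 - 8 * (b * s) := by
              have k3 : -κ * M = - (64 * (i * κ * l)) + 65 * (κ * i * Real.log 4) := by rw [hM]; ring
              rw [k3]
              have k4 : κ * i * Real.log 4 ≤ 2 := by
                have : 0 ≤ κ * i := by positivity
                nlinarith
              linarith
            have k5 : (80000 * 2400000 ^ 65 : ℝ) * Real.exp (130 - 8 * (b * s)) ≤ 1 := by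
              have k6 : (80000 * 2400000 ^ 65 : ℝ) ≤ Real.exp (17 * 66) := by
                have k7 : Real.exp (17 * 66) = Real.exp 17 ^ 66 := by
                  rw [← Real.exp_nat_mul]
                  norm_num
                rw [k7]
                calc (80000 * 2400000 ^ 65 : ℝ) ≤ 10400000 ^ 66 := by norm_num
                  _ ≤ _ := pow_le_pow_left₀ (by norm_num) hexp17 66
              calc _ ≤ Real.exp (17 * 66) * Real.exp (130 - 8 * (b * s)) :=
                    mul_le_mul_of_nonneg_right k6 (Real.exp_pos _).le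
                _ = Real.exp (17 * 66 + (130 - 8 * (b * s))) := (Real.exp_add _ _).symm
                _ ≤ 1 := Real.exp_le_one_iff.2 (by linarith)
            rw [k1]
            have k8 : Real.exp (64 * (i * κ * l - b * s)) * Real.exp (-κ * M + 56 * (b * s)) ≤
                Real.exp (130 - 8 * (b * s)) := by
              rw [← Real.exp_add]
              exact Real.exp_le_exp.2 k2
            have k9 := Real.exp_pos (i * κ * l - b * s)
            calc 40000 * (2400000 ^ 65 * (Real.exp (64 * (i * κ * l - b * s)) * Real.exp (i * κ * l - b * s))) *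
                  Real.exp (-κ * M + 56 * (b * s))
                = (80000 * 2400000 ^ 65 : ℝ) * (Real.exp (64 * (i * κ * l - b * s)) *
                    Real.exp (-κ * M + 56 * (b * s))) * (Real.exp (i * κ * l - b * s) / 2) := by ring
              _ ≤ (80000 * 2400000 ^ 65 : ℝ) * Real.exp (130 - 8 * (b * s)) * (Real.exp (i * κ * l - b * s) / 2) := by
                  refine mul_le_mul_of_nonneg_right ?_ (by positivity)
                  exact mul_le_mul_of_nonneg_left k8 (by positivity)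
              _ ≤ 1 * (Real.exp (i * κ * l - b * s) / 2) := mul_le_mul_of_nonneg_right k5 (by positivity)
              _ = _ := one_mul _
          calc _ ≤ 40000 * (2400000 * Real.exp (i * κ * l - b * s)) ^ 65 *
                (Real.exp (-κ * M + 56 * (b * s)) * Q (V * Real.exp L) 1) := by
                refine mul_le_mul_of_nonneg_left ?_ (by positivity)
                exact g1.trans (mul_le_mul_of_nonneg_right g3 hQ1)
            _ = 40000 * (2400000 * Real.exp (i * κ * l - b * s)) ^ 65 * Real.exp (-κ * M + 56 * (b * s)) *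
                Q (V * Real.exp L) 1 := by ring
            _ ≤ _ := mul_le_mul_of_nonneg_right g4 hQ1)
      have hi1' : (1 : ℝ) ≤ i := by exact_mod_cast hi1
      have hi3' : (i : ℝ) ≤ 3 := by exact_mod_cast hi3
      -- the level `V₁ / P ^ i`
      have hlev : V * Real.exp L / Real.exp l ^ i = V * Real.exp ((3 - i) * l) := by
        rw [← Real.exp_nat_mul, mul_div_assoc, ← Real.exp_sub, hl]
        congr 2
        ring
      rw [hlev] at hstep
      have f1 := ihm ((3 - i) * l) (mul_nonneg (by linarith) hl0) (by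
        rw [pow_succ] at hLm
        nlinarith)
      have f2 : √((3 - i) * l) ≤ 14143 / 10000 * s := hsq _ _ (by norm_num) (by nlinarith)
      have f3 : Real.exp (-κ * ((3 - i) * l) + 4 * b * √((3 - i) * l)) ≤
          Real.exp (-κ * ((3 - i) * l) + 56572 / 10000 * (b * s)) := Real.exp_le_exp.2 (by nlinarith)
      have f4 : (10400000 : ℝ) * Real.exp (-κ * ((3 - i) * l) + 56572 / 10000 * (b * s)) ≤
          Real.exp (i * κ * l - b * s) * Real.exp (-κ * L + 4 * b * √L) := by
        calc (10400000 : ℝ) * Real.exp (-κ * ((3 - i) * l) + 56572 / 10000 * (b * s)) ≤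
              Real.exp 17 * Real.exp (-κ * ((3 - i) * l) + 56572 / 10000 * (b * s)) :=
              mul_le_mul_of_nonneg_right hexp17 (Real.exp_pos _).le
          _ = Real.exp (17 + (-κ * ((3 - i) * l) + 56572 / 10000 * (b * s))) := (Real.exp_add _ _).symm
          _ ≤ Real.exp (i * κ * l - b * s + (-κ * L + 4 * b * √L)) := by
              refine Real.exp_le_exp.2 ?_
              have g1 : 4 * b * √L ≥ 4 * b * (1732 / 1000 * s) := mul_le_mul_of_nonneg_left hsqL (by linarith)
              rw [hl] at g1 ⊢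
              nlinarith
          _ = _ := Real.exp_add _ _
      have f5 := Real.exp_pos (i * κ * l - b * s)
      have f6 : Real.exp (i * κ * l - b * s) * Q (V * Real.exp L) 1 ≤
          Real.exp (i * κ * l - b * s) * (Real.exp (-κ * L + 4 * b * √L) * Q V 1) := by
        calc _ ≤ 160000 * ((65 : ℕ) : ℝ) * Q (V * Real.exp ((3 - i) * l)) 1 := hstep
          _ ≤ 160000 * ((65 : ℕ) : ℝ) * (Real.exp (-κ * ((3 - i) * l) + 56572 / 10000 * (b * s)) * Q V 1) :=
              mul_le_mul_of_nonneg_left (f1.trans (mul_le_mul_of_nonneg_right f3 hQV)) (by positivity)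
          _ = 10400000 * Real.exp (-κ * ((3 - i) * l) + 56572 / 10000 * (b * s)) * Q V 1 := by push_cast; ring
          _ ≤ Real.exp (i * κ * l - b * s) * Real.exp (-κ * L + 4 * b * √L) * Q V 1 :=
              mul_le_mul_of_nonneg_right f4 hQV
          _ = _ := by ring
      exact le_of_mul_le_mul_left f6 f5

end AQ3
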