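import Pool.Agent.Lib_MP_d358f8_ne.Stat

/-!
# MP_d358f8_nt: no escape of mass for `GL₃` (the definitions of the proof)
-/

namespace AQ3

open MeasureTheory Matrix
open scoped ENNReal MatrixGroups

/-! ### Binary forms -/

/-- The entries `(z₁₁, z₁₂, z₂₂)` of a symmetric real `2 × 2` matrix. -/
def Bin : Type := ℝ × ℝ × ℝ

noncomputable instance : MeasureSpace Bin := inferInstanceAs (MeasureSpace (ℝ × ℝ × ℝ))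
instance : TopologicalSpace Bin := inferInstanceAs (TopologicalSpace (ℝ × ℝ × ℝ))
instance : BorelSpace Bin := inferInstanceAs (BorelSpace (ℝ × ℝ × ℝ))
instance : SecondCountableTopology Bin := inferInstanceAs (SecondCountableTopology (ℝ × ℝ × ℝ))

/-- The value of the binary form. -/
def bq (z : Bin) (b c : ℝ) : ℝ := z.1 * b ^ 2 + 2 * z.2.1 * b * c + z.2.2 * c ^ 2

/-- The determinant. -/
def bdet (z : Bin) : ℝ := z.1 * z.2.2 - z.2.1 ^ 2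

/-- Positive definite. -/
def pd (z : Bin) : Prop := 0 < z.1 ∧ 0 < bdet z

/-- All values of the binary form at nonzero integral vectors are at least `V²`. -/
def Hgt (V : ℝ) (z : Bin) : Prop := ∀ b c : ℤ, (b ≠ 0 ∨ c ≠ 0) → V ^ 2 ≤ bq z b c

/-- The invariant measure on the positive definite binary forms. -/
noncomputable def nu : Measure Bin :=
  (volume.restrict {z | pd z}).withDensity fun z => ENNReal.ofReal (1 / bdet z ^ 2)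

/-- The binary form in the basis of the columns of `A`: `Aᵀ z A`. -/
def bact (A : Matrix (Fin 2) (Fin 2) ℝ) (z : Bin) : Bin :=
  (bq z (A 0 0) (A 1 0),
    z.1 * A 0 0 * A 0 1 + z.2.1 * (A 0 0 * A 1 1 + A 1 0 * A 0 1) + z.2.2 * A 1 0 * A 1 1,
    bq z (A 0 1) (A 1 1))

/-- An integral matrix as a real matrix. -/
def rl2 (A : Matrix (Fin 2) (Fin 2) ℤ) : Matrix (Fin 2) (Fin 2) ℝ := A.map (Int.cast : ℤ → ℝ)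

/-- `c z`. -/
def sc (c : ℝ) (z : Bin) : Bin := (c * z.1, c * z.2.1, c * z.2.2)

/-- `z` in the basis `e₁, p e₂`. -/
def up (p : ℝ) (z : Bin) : Bin := (z.1, p * z.2.1, p ^ 2 * z.2.2)

/-- `z` in the basis `p e₁, e₂ + j e₁`. -/
def dn (p j : ℝ) (z : Bin) : Bin :=
  (p ^ 2 * z.1, p * (z.2.1 + j * z.1), z.2.2 + 2 * j * z.2.1 + j ^ 2 * z.1)

/-- `z` in the basis `e₁, e₂ + e₁`. -/
def shr (z : Bin) : Bin := (z.1, z.2.1 + z.1, z.2.2 + 2 * z.2.1 + z.1)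

/-- The ternary form `(a + x₁ b + x₂ c)² + z(b, c)`. -/
def frm3 (x₁ x₂ : ℝ) (z : Bin) : Frm :=
  (1, x₁, x₂, x₁ ^ 2 + z.1, x₁ * x₂ + z.2.1, x₂ ^ 2 + z.2.2)

/-- The properties of the function `f x₁ x₂ z = φ (frm3 x₁ x₂ z)` which are used. -/
structure HecF (f : ℝ → ℝ → Bin → ℂ) : Prop where
  zero : ∀ x₁ x₂ z, ¬ pd z → f x₁ x₂ z = 0
  cont : ContinuousOn (fun q : ℝ × ℝ × Bin => f q.1 q.2.1 q.2.2) {q | pd q.2.2}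
  per1 : ∀ x₁ x₂ z, f (x₁ + 1) x₂ z = f x₁ x₂ z
  per2 : ∀ x₁ x₂ z, f x₁ (x₂ + 1) z = f x₁ x₂ z
  eqv : ∀ A : SL(2, ℤ), ∀ x₁ x₂ z,
    f (x₁ * A 0 0 + x₂ * A 1 0) (x₁ * A 0 1 + x₂ * A 1 1) (bact (rl2 A.1) z) = f x₁ x₂ z
  hecke : ∀ p : ℕ, p.Prime → ∃ e₁ e₂ : ℂ, ∀ x₁ x₂ z, pd z →
    p * e₁ * f x₁ x₂ z = (∑ i ∈ Finset.range p, ∑ j ∈ Finset.range p,
        f ((x₁ + i) / p) ((x₂ + j) / p) (sc (1 / p ^ 2) z)) +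
      f x₁ (p * x₂) (up p z) + ∑ j ∈ Finset.range p, f (p * x₁) (x₂ + j * x₁) (dn p j z) ∧
    p * e₂ * f x₁ x₂ z = f (p * x₁) (p * x₂) (sc (p ^ 2) z) +
      (∑ k ∈ Finset.range p, f ((x₁ + k) / p) x₂ (sc (1 / p ^ 2) (up p z))) +
      ∑ j ∈ Finset.range p, ∑ k ∈ Finset.range p,
        f x₁ ((x₂ + j * x₁ + k) / p) (sc (1 / p ^ 2) (dn p j z))
  cusp : ∀ z, ∫ x₁ in (0 : ℝ)..1, ∫ x₂ in (0 : ℝ)..1, f x₁ x₂ z = 0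

/-- The Fourier coefficients. -/
noncomputable def cf (f : ℝ → ℝ → Bin → ℂ) (k l : ℤ) (z : Bin) : ℂ :=
  ∫ x₁ in (0 : ℝ)..1, ∫ x₂ in (0 : ℝ)..1,
    f x₁ x₂ z * Complex.exp (-(2 * Real.pi * Complex.I * (k * x₁ + l * x₂)))

/-- The properties of the coefficients `B m = cf f m 0`. -/
structure BFam (B : ℕ → Bin → ℂ) : Prop where
  meas : ∀ m, Measurable (B m)
  shear : ∀ m z, B m (shr z) = B m z
  rel : ∀ p : ℕ, p.Prime → ∃ e₁ e₂ : ℂ, ∀ m : ℕ, 1 ≤ m → ∀ z, pd z →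
    e₁ * B m z = p * B (p * m) (sc (1 / p ^ 2) z) + 1 / p * B m (up p z) +
      (if p ∣ m then 1 / p * ∑ j ∈ Finset.range p, B (m / p) (dn p j z) else 0) ∧
    e₂ * B m z = (if p ∣ m then 1 / p * B (m / p) (sc (p ^ 2) z) else 0) +
      B (p * m) (sc (1 / p ^ 2) (up p z)) +
      ∑ j ∈ Finset.range p, B m (sc (1 / p ^ 2) (dn p j z))

/-- The part `0 ≤ u < 1`, `y₁ ≥ V`, `m² z₁₁ ≤ T²` of the binary forms. -/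
def dom (T V : ℝ) (m : ℕ) : Set Bin :=
  {z | pd z ∧ 0 ≤ z.2.1 ∧ z.2.1 < z.1 ∧ Hgt V z ∧ m ^ 2 * z.1 ≤ T ^ 2}

/-- The mass of the contents divisible by `d` at height `≥ V`. -/
noncomputable def QT (B : ℕ → Bin → ℂ) (T V : ℝ) (d : ℕ) : ℝ≥0∞ :=
  ∑' m : ℕ, if 1 ≤ m ∧ d ∣ m then ∫⁻ z in dom T V m, ‖B m z‖ₑ ^ 2 ∂nu else 0

/-- The part `0 ≤ u < 1`, `y₁ ≥ V` of the binary forms. -/
def dom' (V : ℝ) : Set Bin := {z | pd z ∧ 0 ≤ z.2.1 ∧ z.2.1 < z.1 ∧ Hgt V z}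

/-- The mass at height `≥ V`. -/
noncomputable def QI (B : ℕ → Bin → ℂ) (V : ℝ) : ℝ≥0∞ :=
  ∑' m : ℕ, if 1 ≤ m then ∫⁻ z in dom' V, ‖B m z‖ₑ ^ 2 ∂nu else 0

/-- A Siegel set for the binary forms (`0 < z₁₁`, `|2 z₁₂| ≤ z₁₁`, `3 z₁₁² ≤ 4 det z`). -/
def Sg : Set Bin := {z | pd z ∧ |2 * z.2.1| ≤ z.1 ∧ 3 / 4 * z.1 ^ 2 ≤ bdet z}

/-! ### The abstract decay estimate -/

/-- The inequalities between the masses `Q V d` (the contents divisible by `d`, height `≥ V`). -/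
structure DQ (Q : ℝ → ℕ → ℝ) (T : ℝ) : Prop where
  nonneg : ∀ V d, 0 ≤ Q V d
  anti : ∀ V W d, 1 ≤ V → V ≤ W → Q W d ≤ Q V d
  le_one : ∀ V d, 1 ≤ V → Q V d ≤ Q V 1
  zero : ∀ V, 1 ≤ V → T < V → Q V 1 = 0
  moment : ∀ V, 1 ≤ V → ∀ K, 2 ≤ K → ∀ (S : Finset ℕ) (n : ℕ → ℕ),
    (∀ p ∈ S, ∀ q ∈ S, p ≠ q → Nat.Coprime (n p) (n q)) →
    ∑ p ∈ S, Q V (n p) ≤ 2 * K * Q V 1 + ∑ D ∈ S.powersetCard K, Q V (∏ p ∈ D, n p)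
  six : ∀ p : ℕ, p.Prime → ∃ e₁ e₂ : ℝ, 0 ≤ e₁ ∧ 0 ≤ e₂ ∧ ∀ V : ℝ, ∀ d : ℕ, 1 ≤ d → Nat.Coprime p d →
    (1 ≤ V / p → Q (V / p) (p * d) ≤ (2 * e₁ ^ 2 + 8) * Q V d ∧
      e₁ ^ 2 * Q V d ≤ 2 * Q (V / p) (p * d) + 8 * Q V d) ∧
    (1 ≤ V / p ^ 2 → Q (V / p ^ 2) (p ^ 2 * d) ≤
        3 * (e₁ ^ 2 * Q (V / p) (p * d) + (e₂ ^ 2 + 1) * Q V d) ∧
      e₂ ^ 2 * Q V d ≤ 3 * (Q (V / p ^ 2) (p ^ 2 * d) + e₁ ^ 2 * Q (V / p) (p * d) + Q V d)) ∧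
    (1 ≤ V / p ^ 3 → Q (V / p ^ 3) (p ^ 3 * d) ≤
        3 * (e₁ ^ 2 * Q (V / p ^ 2) (p ^ 2 * d) + e₂ ^ 2 * Q (V / p) (p * d) + Q V d) ∧
      Q V d ≤ 3 * (Q (V / p ^ 3) (p ^ 3 * d) + e₁ ^ 2 * Q (V / p ^ 2) (p ^ 2 * d) +
        e₂ ^ 2 * Q (V / p) (p * d)))

/-! ### The cusps -/

/-- `y₁ ≥ V` for the lattice vector `e₁`: `V² y₁₁` is at most all values of the quotient form. -/
def HgtF (V : ℝ) (y : Frm) : Prop := ∀ b c : ℤ, (b ≠ 0 ∨ c ≠ 0) →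
  V ^ 2 * y.1 ^ 2 ≤ (y.1 * y.2.2.2.1 - y.2.1 ^ 2) * b ^ 2 +
    2 * (y.1 * y.2.2.2.2.1 - y.2.1 * y.2.2.1) * b * c + (y.1 * y.2.2.2.2.2 - y.2.2.1 ^ 2) * c ^ 2

/-- The neighbourhood `y₁ ≥ V` of the first cusp. -/
def Cusp (V : ℝ) : Set Frm := {y | y ∈ Pos ∧ ∃ γ : SL(3, ℤ), HgtF V (γ • y)}

/-- The binary form `z` with `y = y₁₁ frm3 x₁ x₂ z`. -/
noncomputable def zof (y : Frm) : Bin :=
  (y.2.2.2.1 / y.1 - (y.2.1 / y.1) ^ 2, y.2.2.2.2.1 / y.1 - y.2.1 / y.1 * (y.2.2.1 / y.1),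
    y.2.2.2.2.2 / y.1 - (y.2.2.1 / y.1) ^ 2)

/-- The Siegel set for the first cusp. -/
def SV (V : ℝ) : Set Frm :=
  {y | y ∈ Pos ∧ 0 ≤ y.2.1 ∧ y.2.1 < y.1 ∧ 0 ≤ y.2.2.1 ∧ y.2.2.1 < y.1 ∧ zof y ∈ Sg ∧ Hgt V (zof y)}

/-- The dual form, scaled. -/
noncomputable def dl (y : Frm) : Frm := Frm.of (Real.exp (1 / 3) • y.mat⁻¹)

/-! ### Hecke representatives -/

/-- The sublattices of index `p`. -/
def R1 (p : ℕ) : Finset (Matrix (Fin 3) (Fin 3) ℤ) :=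
  ((Finset.range p ×ˢ Finset.range p).image fun ij : ℕ × ℕ => !![(p : ℤ), (ij.1 : ℤ), (ij.2 : ℤ); 0, 1, 0; 0, 0, 1]) ∪
    ({!![1, 0, 0; 0, 1, 0; 0, 0, (p : ℤ)]} ∪
      (Finset.range p).image fun j : ℕ => !![1, 0, 0; 0, (p : ℤ), (j : ℤ); 0, 0, 1])

/-- The sublattices of type `(p, p)`. -/
def R2 (p : ℕ) : Finset (Matrix (Fin 3) (Fin 3) ℤ) :=
  {!![1, 0, 0; 0, (p : ℤ), 0; 0, 0, (p : ℤ)]} ∪
    (((Finset.range p).image fun k : ℕ => !![(p : ℤ), (k : ℤ), 0; 0, 1, 0; 0, 0, (p : ℤ)]) ∪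
      (Finset.range p ×ˢ Finset.range p).image fun jk : ℕ × ℕ =>
        !![(p : ℤ), 0, (jk.2 : ℤ); 0, (p : ℤ), (jk.1 : ℤ); 0, 0, 1])

end AQ3
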