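import Pool.Agent.Lib_MP_d358f8_ne.MuInv

/-!
# MP_d358f8_nt: the duality preserves the measure

`dl_mp`: the map `dl` is an involution of the open set `slab` (`det (e^{1/3} Y⁻¹) = e / det Y`), with the derivative
`H ↦ - e^{1/3} Y⁻¹ H Y⁻¹ = - e^{1/3} act (Y⁻¹) H`, whose determinant has the absolute value `e² (det Y)⁻⁴` (`abs_det_actL`). Use
`MeasureTheory.lintegral_image_eq_lintegral_abs_det_fderiv_mul` (for `dl '' slab = slab`, injective) and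
`(det dl(Y))² = e² / (det Y)²`. The derivative: `hasFDerivAt_ringInverse` in the normed algebra of the real `3 × 3` matrices (local instances
`Matrix.linftyOpNormedRing`, `Matrix.linftyOpNormedAlgebra`), composed with the linear maps `Frm.mat` and `Frm.of`; or explicit formulas for
the entries of the inverse.
-/

namespace AQ3

open MeasureTheory Matrix
open scoped ENNReal MatrixGroups

private theorem DlM_inv_transpose (y : Frm) : (Real.exp (1 / 3) • y.mat⁻¹)ᵀ = Real.exp (1 / 3) • y.mat⁻¹ := by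
  rw [Matrix.transpose_smul, Matrix.transpose_nonsing_inv, Frm.mat_transpose]

private theorem DlM_mat (y : Frm) : (dl y).mat = Real.exp (1 / 3) • y.mat⁻¹ :=
  Frm.mat_of (DlM_inv_transpose y)

private theorem DlM_exp : Real.exp (1 / 3) ≠ 0 := (Real.exp_pos _).ne'

private theorem DlM_unit {y : Frm} (hy : y ∈ Pos) : IsUnit y.mat.det :=
  (Matrix.isUnit_iff_isUnit_det _).1 (Matrix.PosDef.isUnit hy)

private theorem DlM_smul_inv (Y : Matrix (Fin 3) (Fin 3) ℝ) :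
    (Real.exp (1 / 3) • Y)⁻¹ = (Real.exp (1 / 3))⁻¹ • Y⁻¹ := by
  by_cases hY : IsUnit Y.det
  · exact Matrix.inv_eq_left_inv (by
      rw [Matrix.smul_mul, Matrix.mul_smul, smul_smul, inv_mul_cancel₀ DlM_exp, one_smul,
        Matrix.nonsing_inv_mul _ hY])
  · have h1 : ¬ IsUnit (Real.exp (1 / 3) • Y).det := by
      rw [Matrix.det_smul, isUnit_iff_ne_zero] at *
      simpa [DlM_exp] using hY
    rw [Matrix.nonsing_inv_apply_not_isUnit _ hY, Matrix.nonsing_inv_apply_not_isUnit _ h1, smul_zero]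

theorem dl_dl {y : Frm} (hy : y ∈ Pos) : dl (dl y) = y := by
  show Frm.of (Real.exp (1 / 3) • (dl y).mat⁻¹) = y
  rw [DlM_mat, DlM_smul_inv, Matrix.nonsing_inv_nonsing_inv _ (DlM_unit hy), smul_smul,
    mul_inv_cancel₀ DlM_exp, one_smul, Frm.of_mat]

theorem dl_mem_pos {y : Frm} : dl y ∈ Pos ↔ y ∈ Pos := by
  show (dl y).mat.PosDef ↔ y.mat.PosDef
  rw [DlM_mat]
  constructor
  · intro h
    have h1 := h.smul (inv_pos.2 (Real.exp_pos (1 / 3)))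
    rw [smul_smul, inv_mul_cancel₀ DlM_exp, one_smul] at h1
    exact Matrix.posDef_inv_iff.1 h1
  · intro h
    exact (Matrix.posDef_inv_iff.2 h).smul (Real.exp_pos (1 / 3))

/-- The automorphism `γ ↦ (γ⁻¹)ᵀ`. -/
theorem dl_smul (γ : SL(3, ℤ)) {y : Frm} (hy : y ∈ Pos) : dl (γ • y) = (γ⁻¹).transpose • dl y := by
  have h1 : rl γ.1 * rl (γ⁻¹).1 = 1 := by
    have h2 : γ.1 * (γ⁻¹).1 = 1 := by
      rw [← Matrix.SpecialLinearGroup.coe_mul, mul_inv_cancel, Matrix.SpecialLinearGroup.coe_one]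
    have h3 : rl (γ.1 * (γ⁻¹).1) = rl γ.1 * rl (γ⁻¹).1 := Matrix.map_mul (f := Int.castRingHom ℝ)
    rw [← h3, h2]
    exact Matrix.map_one _ Int.cast_zero Int.cast_one
  have h4 : rl ((γ⁻¹).transpose).1 = (rl (γ⁻¹).1)ᵀ := rfl
  show Frm.of (Real.exp (1 / 3) • (γ • y).mat⁻¹) = (γ⁻¹).transpose • dl y
  rw [smul_def, smul_def, h4, mat_act, Matrix.transpose_transpose, Matrix.transpose_transpose]
  show _ = Frm.of (((rl (γ⁻¹).1))ᵀ * (dl y).mat * (rl (γ⁻¹).1))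
  rw [DlM_mat]
  congr 1
  rw [Matrix.mul_smul, Matrix.smul_mul]
  congr 1
  apply Matrix.inv_eq_left_inv
  have h5 : rl (γ⁻¹).1 * rl γ.1 = 1 := mul_eq_one_comm.1 h1
  have h6 : (rl (γ⁻¹).1)ᵀ * (rl γ.1)ᵀ = 1 := by
    rw [← Matrix.transpose_mul, h1, Matrix.transpose_one]
  calc (rl (γ⁻¹).1)ᵀ * y.mat⁻¹ * rl (γ⁻¹).1 * (rl γ.1 * y.mat * (rl γ.1)ᵀ)
      = (rl (γ⁻¹).1)ᵀ * y.mat⁻¹ * (rl (γ⁻¹).1 * rl γ.1) * y.mat * (rl γ.1)ᵀ := by
        simp only [Matrix.mul_assoc]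
    _ = (rl (γ⁻¹).1)ᵀ * (y.mat⁻¹ * y.mat) * (rl γ.1)ᵀ := by
        rw [h5, Matrix.mul_one]; simp only [Matrix.mul_assoc]
    _ = 1 := by
        rw [Matrix.nonsing_inv_mul _ (DlM_unit hy), Matrix.mul_one, h6]

/-! The explicit formula, measurability. -/

private theorem DlM_det (y : Frm) : y.mat.det = y.1 * (y.2.2.2.1 * y.2.2.2.2.2 - y.2.2.2.2.1 ^ 2)
    - y.2.1 * (y.2.1 * y.2.2.2.2.2 - y.2.2.2.2.1 * y.2.2.1)
    + y.2.2.1 * (y.2.1 * y.2.2.2.2.1 - y.2.2.2.1 * y.2.2.1) := by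
  rw [Matrix.det_fin_three]
  simp [Frm.mat]
  ring

private theorem DlM_meas_det : Measurable fun y : Frm => y.mat.det := by
  have h : (fun y : Frm => y.mat.det) = fun y => y.1 * (y.2.2.2.1 * y.2.2.2.2.2 - y.2.2.2.2.1 ^ 2)
    - y.2.1 * (y.2.1 * y.2.2.2.2.2 - y.2.2.2.2.1 * y.2.2.1)
    + y.2.2.1 * (y.2.1 * y.2.2.2.2.1 - y.2.2.2.1 * y.2.2.1) := funext DlM_det
  rw [h]
  show Measurable fun y : ℝ × ℝ × ℝ × ℝ × ℝ × ℝ => y.1 * (y.2.2.2.1 * y.2.2.2.2.2 - y.2.2.2.2.1 ^ 2)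
    - y.2.1 * (y.2.1 * y.2.2.2.2.2 - y.2.2.2.2.1 * y.2.2.1)
    + y.2.2.1 * (y.2.1 * y.2.2.2.2.1 - y.2.2.2.1 * y.2.2.1)
  fun_prop

private theorem DlM_formula (y : Frm) : dl y =
    (Real.exp (1 / 3) * (y.mat.det⁻¹ * (y.2.2.2.1 * y.2.2.2.2.2 - y.2.2.2.2.1 ^ 2)),
      Real.exp (1 / 3) * (y.mat.det⁻¹ * (y.2.2.1 * y.2.2.2.2.1 - y.2.1 * y.2.2.2.2.2)),
      Real.exp (1 / 3) * (y.mat.det⁻¹ * (y.2.1 * y.2.2.2.2.1 - y.2.2.1 * y.2.2.2.1)),
      Real.exp (1 / 3) * (y.mat.det⁻¹ * (y.1 * y.2.2.2.2.2 - y.2.2.1 ^ 2)),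
      Real.exp (1 / 3) * (y.mat.det⁻¹ * (y.2.1 * y.2.2.1 - y.1 * y.2.2.2.2.1)),
      Real.exp (1 / 3) * (y.mat.det⁻¹ * (y.1 * y.2.2.2.1 - y.2.1 ^ 2))) := by
  show Frm.of (Real.exp (1 / 3) • y.mat⁻¹) = _
  rw [Matrix.inv_def, Ring.inverse_eq_inv', Matrix.adjugate_fin_three]
  simp only [Frm.of, Frm.mat, Matrix.smul_apply, Matrix.of_apply, Matrix.cons_val', Matrix.cons_val_zero,
    Matrix.cons_val_one, Matrix.cons_val, smul_eq_mul]
  refine Prod.ext ?_ (Prod.ext ?_ (Prod.ext ?_ (Prod.ext ?_ (Prod.ext ?_ ?_)))) <;> simp <;> ring_nf <;> simp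

private theorem DlM_meas : Measurable dl := by
  have h : dl = fun y => (Real.exp (1 / 3) * (y.mat.det⁻¹ * (y.2.2.2.1 * y.2.2.2.2.2 - y.2.2.2.2.1 ^ 2)),
      Real.exp (1 / 3) * (y.mat.det⁻¹ * (y.2.2.1 * y.2.2.2.2.1 - y.2.1 * y.2.2.2.2.2)),
      Real.exp (1 / 3) * (y.mat.det⁻¹ * (y.2.1 * y.2.2.2.2.1 - y.2.2.1 * y.2.2.2.1)),
      Real.exp (1 / 3) * (y.mat.det⁻¹ * (y.1 * y.2.2.2.2.2 - y.2.2.1 ^ 2)),
      Real.exp (1 / 3) * (y.mat.det⁻¹ * (y.2.1 * y.2.2.1 - y.1 * y.2.2.2.2.1)),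
      Real.exp (1 / 3) * (y.mat.det⁻¹ * (y.1 * y.2.2.2.1 - y.2.1 ^ 2))) := funext DlM_formula
  rw [h]
  have hd : Measurable fun y : ℝ × ℝ × ℝ × ℝ × ℝ × ℝ => (Frm.mat y).det := DlM_meas_det
  show Measurable fun y : ℝ × ℝ × ℝ × ℝ × ℝ × ℝ =>
    ((Real.exp (1 / 3) * ((Frm.mat y).det⁻¹ * (y.2.2.2.1 * y.2.2.2.2.2 - y.2.2.2.2.1 ^ 2)),
      Real.exp (1 / 3) * ((Frm.mat y).det⁻¹ * (y.2.2.1 * y.2.2.2.2.1 - y.2.1 * y.2.2.2.2.2)),
      Real.exp (1 / 3) * ((Frm.mat y).det⁻¹ * (y.2.1 * y.2.2.2.2.1 - y.2.2.1 * y.2.2.2.1)),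
      Real.exp (1 / 3) * ((Frm.mat y).det⁻¹ * (y.1 * y.2.2.2.2.2 - y.2.2.1 ^ 2)),
      Real.exp (1 / 3) * ((Frm.mat y).det⁻¹ * (y.2.1 * y.2.2.1 - y.1 * y.2.2.2.2.1)),
      Real.exp (1 / 3) * ((Frm.mat y).det⁻¹ * (y.1 * y.2.2.2.1 - y.2.1 ^ 2))) : ℝ × ℝ × ℝ × ℝ × ℝ × ℝ)
  fun_prop

private theorem DlM_exp3 : Real.exp (1 / 3) ^ 3 = Real.exp 1 := by
  rw [← Real.exp_nat_mul]
  norm_num

private theorem DlM_det_dl (y : Frm) : (dl y).mat.det = Real.exp 1 * (y.mat.det)⁻¹ := by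
  rw [DlM_mat, Matrix.det_smul, Fintype.card_fin, DlM_exp3, Matrix.det_nonsing_inv, Ring.inverse_eq_inv']

private theorem DlM_mem_slab {y : Frm} (hy : y ∈ slab) : dl y ∈ slab := by
  obtain ⟨h1, h2, h3⟩ := hy
  refine ⟨dl_mem_pos.2 h1, ?_, ?_⟩
  · rw [DlM_det_dl, ← div_eq_mul_inv, lt_div_iff₀ (by linarith), one_mul]
    exact h3
  · rw [DlM_det_dl, ← div_eq_mul_inv, div_lt_iff₀ (by linarith)]
    have := Real.exp_pos 1
    nlinarith

private theorem DlM_image : dl '' slab = slab := by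
  apply Set.Subset.antisymm
  · rintro _ ⟨y, hy, rfl⟩
    exact DlM_mem_slab hy
  · intro y hy
    exact ⟨dl y, DlM_mem_slab hy, dl_dl hy.1⟩

private theorem DlM_injOn : Set.InjOn dl slab := by
  intro x hx y hy h
  rw [← dl_dl hx.1, ← dl_dl hy.1, h]

/-! The derivative. -/

section deriv

attribute [local instance] Matrix.linftyOpNormedRing Matrix.linftyOpNormedAlgebra

private noncomputable def DlM_matL : (ℝ × ℝ × ℝ × ℝ × ℝ × ℝ) →ₗ[ℝ] Matrix (Fin 3) (Fin 3) ℝ where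
  toFun y := Frm.mat y
  map_add' x y := by
    ext i j
    fin_cases i <;> fin_cases j <;> simp [Frm.mat]
  map_smul' c x := by
    ext i j
    fin_cases i <;> fin_cases j <;> simp [Frm.mat]

private noncomputable def DlM_ofL : Matrix (Fin 3) (Fin 3) ℝ →ₗ[ℝ] (ℝ × ℝ × ℝ × ℝ × ℝ × ℝ) where
  toFun Y := Frm.of Y
  map_add' _ _ := rfl
  map_smul' _ _ := rfl

private noncomputable def DlM_dl (y : ℝ × ℝ × ℝ × ℝ × ℝ × ℝ) : ℝ × ℝ × ℝ × ℝ × ℝ × ℝ := dl y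

private theorem DlM_hasFDerivAt (y : ℝ × ℝ × ℝ × ℝ × ℝ × ℝ) (hy : y ∈ (slab : Set (ℝ × ℝ × ℝ × ℝ × ℝ × ℝ))) :
    HasFDerivAt DlM_dl
      (-(Real.exp (1 / 3) • LinearMap.toContinuousLinearMap (actL (Frm.mat y)⁻¹))) y := by
  obtain ⟨h1, h2, h3⟩ := hy
  have hu : IsUnit (Frm.mat y) := Matrix.PosDef.isUnit h1
  have e1 : HasFDerivAt (fun y => LinearMap.toContinuousLinearMap DlM_matL y)
      (LinearMap.toContinuousLinearMap DlM_matL) y := ContinuousLinearMap.hasFDerivAt _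
  have e2 := hasFDerivAt_ringInverse (𝕜 := ℝ) hu.unit
  have e3 : HasFDerivAt (fun Y => LinearMap.toContinuousLinearMap DlM_ofL Y)
      (LinearMap.toContinuousLinearMap DlM_ofL) (Real.exp (1 / 3) • Ring.inverse (Frm.mat y)) :=
    ContinuousLinearMap.hasFDerivAt _
  have e4 : HasFDerivAt (fun Y : Matrix (Fin 3) (Fin 3) ℝ => Real.exp (1 / 3) • Ring.inverse Y) _ (Frm.mat y) :=
    (e2.const_smul (Real.exp (1 / 3)))
  have e5 := e3.comp y (e4.comp y e1)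
  have h5 : DlM_dl = (fun Y => LinearMap.toContinuousLinearMap DlM_ofL Y) ∘
      ((fun Y : Matrix (Fin 3) (Fin 3) ℝ => Real.exp (1 / 3) • Ring.inverse Y) ∘
        fun y => LinearMap.toContinuousLinearMap DlM_matL y) := by
    funext z
    show Frm.of (Real.exp (1 / 3) • (Frm.mat z)⁻¹) = _
    rw [Matrix.nonsing_inv_eq_ringInverse]
    rfl
  rw [h5]
  refine e5.congr_fderiv ?_
  have h6 : ((hu.unit⁻¹ : (Matrix (Fin 3) (Fin 3) ℝ)ˣ) : Matrix (Fin 3) (Fin 3) ℝ) = (Frm.mat y)⁻¹ := by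
    rw [← Ring.inverse_unit hu.unit, IsUnit.unit_spec, Matrix.nonsing_inv_eq_ringInverse]
  refine ContinuousLinearMap.ext fun H => ?_
  show DlM_ofL (Real.exp (1 / 3) • -((hu.unit⁻¹ : (Matrix (Fin 3) (Fin 3) ℝ)ˣ) * Frm.mat H *
    ((hu.unit⁻¹ : (Matrix (Fin 3) (Fin 3) ℝ)ˣ) : Matrix (Fin 3) (Fin 3) ℝ))) =
    -(Real.exp (1 / 3) • actL (Frm.mat y)⁻¹ H)
  rw [h6]
  show _ = -(Real.exp (1 / 3) • DlM_ofL (((Frm.mat y)⁻¹)ᵀ * Frm.mat H * (Frm.mat y)⁻¹))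
  rw [Matrix.transpose_nonsing_inv, Frm.mat_transpose, map_smul, map_neg, smul_neg]

end deriv

private theorem DlM_detneg (c : ℝ) (A : (ℝ × ℝ × ℝ × ℝ × ℝ × ℝ) →ₗ[ℝ] (ℝ × ℝ × ℝ × ℝ × ℝ × ℝ)) :
    LinearMap.det (-(c • A)) = (-c) ^ 6 * LinearMap.det A := by
  have h : -(c • A) = (-c) • A := by
    exact LinearMap.ext fun x => (neg_smul c (A x)).symm
  rw [h, LinearMap.det_smul]
  congr 2
  simp

private theorem DlM_haar1 {H : Type*} [NormedAddCommGroup H] [MeasureSpace H] [BorelSpace H]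
    [SecondCountableTopology H] [SFinite (volume : Measure H)] [hH : (volume : Measure H).IsAddHaarMeasure] :
    (volume : Measure (ℝ × H)).IsAddHaarMeasure := by
  rw [Measure.volume_eq_prod]
  infer_instance

private theorem DlM_haar : (volume : Measure (ℝ × ℝ × ℝ × ℝ × ℝ × ℝ)).IsAddHaarMeasure := by
  have a2 : (volume : Measure (ℝ × ℝ)).IsAddHaarMeasure := DlM_haar1
  have a3 : (volume : Measure (ℝ × ℝ × ℝ)).IsAddHaarMeasure := DlM_haar1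
  have a4 : (volume : Measure (ℝ × ℝ × ℝ × ℝ)).IsAddHaarMeasure := DlM_haar1
  have a5 : (volume : Measure (ℝ × ℝ × ℝ × ℝ × ℝ)).IsAddHaarMeasure := DlM_haar1
  exact DlM_haar1

private theorem DlM_absdet (y : ℝ × ℝ × ℝ × ℝ × ℝ × ℝ) (hy : y ∈ (slab : Set (ℝ × ℝ × ℝ × ℝ × ℝ × ℝ))) :
    |(-(Real.exp (1 / 3) • LinearMap.toContinuousLinearMap (actL (Frm.mat y)⁻¹))).det|
      = Real.exp 1 ^ 2 * ((Frm.mat y).det⁻¹) ^ 4 := by
  obtain ⟨h1, h2, h3⟩ := hy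
  have hd : 0 < (Frm.mat y).det := by linarith
  have h4 : (-(Real.exp (1 / 3) • LinearMap.toContinuousLinearMap (actL (Frm.mat y)⁻¹))).det
      = (-Real.exp (1 / 3)) ^ 6 * LinearMap.det (actL (Frm.mat y)⁻¹) := by
    have h5 : LinearMap.det (-(Real.exp (1 / 3) • actL (Frm.mat y)⁻¹))
        = (-Real.exp (1 / 3)) ^ 6 * LinearMap.det (actL (Frm.mat y)⁻¹) := DlM_detneg _ _
    exact h5
  have h6 : ((Frm.mat y)⁻¹).det = (Frm.mat y).det⁻¹ := by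
    rw [Matrix.det_nonsing_inv, Ring.inverse_eq_inv']
  have h7 : ((Frm.mat y)⁻¹).det ≠ 0 := by
    rw [h6]
    positivity
  rw [h4, abs_mul, abs_det_actL h7, h6, abs_of_pos (inv_pos.2 hd)]
  congr 1
  rw [abs_pow, abs_neg, abs_of_pos (Real.exp_pos _), ← DlM_exp3]
  ring

private def DlM_slab : Set (ℝ × ℝ × ℝ × ℝ × ℝ × ℝ) := slab

private theorem DlM_cov (G : (ℝ × ℝ × ℝ × ℝ × ℝ × ℝ) → ℝ≥0∞) :
    ∫⁻ y in DlM_slab, G y =
      ∫⁻ y in DlM_slab, ENNReal.ofReal (Real.exp 1 ^ 2 * ((Frm.mat y).det⁻¹) ^ 4) * G (DlM_dl y) := by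
  have hm : MeasurableSet DlM_slab := isOpen_slab.measurableSet
  have := DlM_haar
  have hi : Set.InjOn DlM_dl DlM_slab := DlM_injOn
  have h1 := lintegral_image_eq_lintegral_abs_det_fderiv_mul (volume : Measure (ℝ × ℝ × ℝ × ℝ × ℝ × ℝ)) hm
    (f := DlM_dl) (fun y hy => (DlM_hasFDerivAt y hy).hasFDerivWithinAt) hi G
  have h2 : DlM_dl '' DlM_slab = DlM_slab := DlM_image
  rw [h2] at h1
  rw [h1]
  refine setLIntegral_congr_fun hm fun y hy => ?_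
  rw [DlM_absdet y hy]

theorem dl_mp : MeasurePreserving dl mu mu := by
  refine ⟨DlM_meas, ?_⟩
  refine Measure.ext_of_lintegral _ fun g hg => ?_
  have hw : Measurable fun y : Frm => ENNReal.ofReal (1 / y.mat.det ^ 2) := by
    have := DlM_meas_det
    fun_prop
  have hk := lintegral_withDensity_eq_lintegral_mul (volume.restrict slab) hw
    (g := fun y => g (dl y)) (hg.comp DlM_meas)
  rw [lintegral_map hg DlM_meas, mu, hk, lintegral_withDensity_eq_lintegral_mul _ hw hg]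
  have h1 := DlM_cov (fun y => ENNReal.ofReal (1 / (Frm.mat y).det ^ 2) * g y)
  refine Eq.trans ?_ h1.symm
  refine setLIntegral_congr_fun isOpen_slab.measurableSet fun y hy => ?_
  obtain ⟨h2, h3, h4⟩ := hy
  have hd : 0 < (Frm.mat y).det := by linarith
  show ENNReal.ofReal (1 / (Frm.mat y).det ^ 2) * g (dl y) =
    ENNReal.ofReal (Real.exp 1 ^ 2 * ((Frm.mat y).det⁻¹) ^ 4) *
      (ENNReal.ofReal (1 / (dl y).mat.det ^ 2) * g (dl y))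
  rw [← mul_assoc, ← ENNReal.ofReal_mul (by positivity), DlM_det_dl]
  congr 2
  have := Real.exp_pos 1
  field_simp

end AQ3
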