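import Pool.Agent.Lib_MP_d358f8_ne.DlM

/-!
# MP_d358f8_nt: the dual eigenfunction

`dual_eigen`. PROOF. Let `ψ(Y) = φ(dl Y)`, `dl Y = e^{1/3} Y⁻¹`.
* `cont`, `scale` (`dl (c Y) = c⁻¹ dl Y`), `inv` (`dl_smul`).
* `hecke`. For an integral matrix `h` with `det h ≠ 0` let `h* = (adjugate h)ᵀ`, `h⁻ᵀ = h* / det h`, so by `scale`
  `ψ(act h y) = φ(e^{1/3} h⁻¹ Y⁻¹ h⁻ᵀ) = φ(act h* (dl y))`. `(γ h δ)* = γ* h* δ*`, `γ* = (γ⁻¹)ᵀ ∈ SL₃(ℤ)`. If `IsReps g R` then
  `IsReps g* (R.image (·)*)` and the map is injective on `R` (all the elements of `R` have the determinant `det g ≠ 0` and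
  `h (adjugate h) = det g`; `h** = (det h) h`). So `IsEigen φ g*` gives `IsEigen ψ g`.
* `cusp1`: for `n = !![1, x₁, x₂; 0, 1, 0; 0, 0, 1]`, `n⁻ᵀ = !![1, 0, 0; -x₁, 1, 0; -x₂, 0, 1]`. With
  `w = !![0, 0, 1; 0, 1, 0; -1, 0, 0] ∈ SL₃(ℤ)`: `w⁻¹ n⁻ᵀ w = !![1, 0, x₂; 0, 1, -x₁; 0, 0, 1]`, and
  `φ(act (n⁻ᵀ) y') = φ(act (n⁻ᵀ w) y') = φ(act (w⁻¹ n⁻ᵀ w) (act w y'))`, so the integral is `∫∫ φ(act !![1, 0, x₂; 0, 1, -x₁; 0, 0, 1] y'')`, which
  is `0` by `cusp2` (Fubini, the substitution `x₁ → -x₁`, period 1). `cusp2` for `ψ` in the same way from `cusp1`.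
* `fd_dual`: `IsFundamentalDomain.preimage_of_equiv` with the automorphism `γ ↦ (γ⁻¹)ᵀ` (or directly from the definition with `dl_mp`, `dl_smul`;
  `dl` is an involution only on `Pos`, which has full measure).
-/

namespace AQ3

open MeasureTheory Matrix
open scoped ENNReal MatrixGroups

/-! ### The operation `h ↦ (adjugate h)ᵀ` -/

private def st {R : Type*} [CommRing R] (h : Matrix (Fin 3) (Fin 3) R) : Matrix (Fin 3) (Fin 3) R :=
  (adjugate h)ᵀ

private theorem st_mul {R : Type*} [CommRing R] (g h : Matrix (Fin 3) (Fin 3) R) :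
    st (g * h) = st g * st h := by
  unfold st
  rw [adjugate_mul_distrib, transpose_mul]

private theorem st_st {R : Type*} [CommRing R] (h : Matrix (Fin 3) (Fin 3) R) :
    st (st h) = h.det • h := by
  unfold st
  rw [← adjugate_transpose, transpose_transpose, adjugate_adjugate h (by simp)]
  simp

private theorem det_st {R : Type*} [CommRing R] (h : Matrix (Fin 3) (Fin 3) R) :
    (st h).det = h.det ^ 2 := by
  unfold st
  rw [det_transpose, det_adjugate]
  simp

private theorem rl_st (h : Matrix (Fin 3) (Fin 3) ℤ) : rl (st h) = st (rl h) := by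
  unfold st rl
  have h1 := (Int.castRingHom ℝ).map_adjugate h
  have h2 : (adjugate h).map (Int.cast : ℤ → ℝ) = adjugate (h.map (Int.cast : ℤ → ℝ)) := h1
  rw [← h2]
  rfl

private def sst (γ : SL(3, ℤ)) : SL(3, ℤ) := (γ⁻¹).transpose

private theorem sst_coe (γ : SL(3, ℤ)) : (sst γ).1 = st γ.1 := by
  unfold sst st
  rw [Matrix.SpecialLinearGroup.coe_transpose, Matrix.SpecialLinearGroup.coe_inv]

private theorem sst_sst (γ : SL(3, ℤ)) : sst (sst γ) = γ := by
  apply Subtype.ext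
  rw [sst_coe, sst_coe, st_st, γ.2, one_smul]

/-! ### The dual form of `hᵀ Y h` -/

private theorem rl_det (h : Matrix (Fin 3) (Fin 3) ℤ) : (rl h).det = (h.det : ℝ) := by
  unfold rl
  exact ((Int.castRingHom ℝ).map_det h).symm

private theorem dl_mat {y : Frm} : (dl y).mat = Real.exp (1 / 3) • y.mat⁻¹ := by
  unfold dl
  refine Frm.mat_of ?_
  rw [transpose_smul, transpose_nonsing_inv, Frm.mat_transpose]

private theorem det_ne_zero {y : Frm} (hy : y ∈ Pos) : y.mat.det ≠ 0 := by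
  have h : y.mat.PosDef := hy
  exact h.det_pos.ne'

private theorem of_injOn_aux {A B : Matrix (Fin 3) (Fin 3) ℝ} (h : A = B) : Frm.of A = Frm.of B := by
  rw [h]

private theorem dl_act {h : Matrix (Fin 3) (Fin 3) ℝ} (hh : h.det ≠ 0) {y : Frm} (hy : y ∈ Pos) :
    dl (act h y) = Frm.of ((h.det ^ 2)⁻¹ • (act (st h) (dl y)).mat) := by
  rw [mat_act, dl_mat]
  unfold dl
  refine of_injOn_aux ?_
  rw [mat_act]
  have hy1 := det_ne_zero hy
  have h1 : (hᵀ * y.mat * h)⁻¹ = (h.det ^ 2)⁻¹ • (adjugate h * y.mat⁻¹ * (adjugate h)ᵀ) := by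
    apply Matrix.inv_eq_right_inv
    have e1 : h * adjugate h = h.det • (1 : Matrix (Fin 3) (Fin 3) ℝ) := mul_adjugate h
    have e2 : hᵀ * (adjugate h)ᵀ = h.det • (1 : Matrix (Fin 3) (Fin 3) ℝ) := by
      rw [← transpose_mul, adjugate_mul, transpose_smul, transpose_one]
    have e3 : y.mat * y.mat⁻¹ = 1 := Matrix.mul_nonsing_inv _ (isUnit_iff_ne_zero.2 hy1)
    calc hᵀ * y.mat * h * ((h.det ^ 2)⁻¹ • (adjugate h * y.mat⁻¹ * (adjugate h)ᵀ))
        = (h.det ^ 2)⁻¹ • (hᵀ * y.mat * (h * adjugate h) * y.mat⁻¹ * (adjugate h)ᵀ) := by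
          rw [Matrix.mul_smul]
          simp only [Matrix.mul_assoc]
      _ = (h.det ^ 2)⁻¹ • (h.det • (hᵀ * (y.mat * y.mat⁻¹) * (adjugate h)ᵀ)) := by
          rw [e1]
          simp only [Matrix.mul_smul, Matrix.smul_mul, Matrix.mul_one, Matrix.mul_assoc]
      _ = 1 := by
          rw [e3, Matrix.mul_one, e2, smul_smul, smul_smul]
          have : (h.det ^ 2)⁻¹ * (h.det * h.det) = 1 := by
            field_simp
          rw [mul_assoc, this, one_smul]
  rw [h1]
  unfold st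
  rw [transpose_transpose]
  simp only [Matrix.mul_smul, Matrix.smul_mul]
  rw [smul_comm]

/-! ### The cuspidality -/

private theorem phi_act_sl {φ : Frm → ℂ} (hφ : IsCuspEigen φ) (w : SL(3, ℤ)) {y : Frm} (hy : y ∈ Pos) :
    φ (act (rl w.1) y) = φ y := by
  have h := hφ.inv w.transpose y hy
  rw [smul_def, Matrix.SpecialLinearGroup.coe_transpose] at h
  have h1 : (rl (w.1)ᵀ)ᵀ = rl w.1 := rfl
  rw [h1] at h
  exact h

private theorem conj_sl {φ : Frm → ℂ} (hφ : IsCuspEigen φ) (w : SL(3, ℤ))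
    {m m' : Matrix (Fin 3) (Fin 3) ℝ} (hm : m * rl w.1 = rl w.1 * m') (hdet : m.det ≠ 0) {y : Frm}
    (hy : y ∈ Pos) : φ (act m y) = φ (act m' (act (rl w.1) y)) := by
  rw [act_act, ← hm, ← act_act]
  exact (phi_act_sl hφ w ((act_mem_pos hdet).2 hy)).symm

private theorem dual_aux {φ : Frm → ℂ} (hφ : IsCuspEigen φ) (w : SL(3, ℤ))
    {n m' : Matrix (Fin 3) (Fin 3) ℝ} (hn : n.det = 1) (hm : st n * rl w.1 = rl w.1 * m') {y : Frm}
    (hy : y ∈ Pos) : φ (dl (act n y)) = φ (act m' (act (rl w.1) (dl y))) := by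
  have hd : dl y ∈ Pos := dl_mem_pos.2 hy
  have h1 : (st n).det ≠ 0 := by
    rw [det_st, hn]
    norm_num
  rw [← conj_sl hφ w hm h1 hd, dl_act (by rw [hn]; exact one_ne_zero) hy,
    hφ.scale _ (by rw [hn]; norm_num) _ ((act_mem_pos h1).2 hd)]

private def w₁ : SL(3, ℤ) := ⟨!![0, 0, 1; -1, 0, 0; 0, -1, 0], by simp [Matrix.det_fin_three]⟩

private def w₂ : SL(3, ℤ) := ⟨!![0, -1, 0; 0, 0, -1; 1, 0, 0], by simp [Matrix.det_fin_three]⟩

private theorem cont_aux {φ : Frm → ℂ} (hφ : IsCuspEigen φ) :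
    ContinuousOn (fun y => φ (dl y)) Pos := by
  refine hφ.cont.comp ?_ fun y hy => dl_mem_pos.2 hy
  have h1 : Continuous Frm.mat := by
    have h0 : Continuous fun y : ℝ × ℝ × ℝ × ℝ × ℝ × ℝ => Frm.mat y := by
      refine continuous_matrix fun i j => ?_
      fin_cases i <;> fin_cases j <;> simp [Frm.mat] <;> fun_prop
    exact h0
  have h2 : Continuous Frm.of := by
    have h0 : Continuous fun Y : Matrix (Fin 3) (Fin 3) ℝ =>
        ((Y 0 0, Y 0 1, Y 0 2, Y 1 1, Y 1 2, Y 2 2) : ℝ × ℝ × ℝ × ℝ × ℝ × ℝ) := by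
      fun_prop
    exact h0
  refine h2.comp_continuousOn ?_
  have h5 : ContinuousOn (fun y : Frm => (y.mat.det)⁻¹) Pos :=
    (h1.matrix_det).continuousOn.inv₀ fun y hy => det_ne_zero hy
  have h6 : ContinuousOn (fun y : Frm => adjugate y.mat) Pos := (h1.matrix_adjugate).continuousOn
  have h3 : ContinuousOn (fun y : Frm => (y.mat.det)⁻¹ • adjugate y.mat) Pos := h5.smul h6
  have h4 : ContinuousOn (fun y : Frm => y.mat⁻¹) Pos := by
    refine h3.congr fun y _ => ?_
    show y.mat⁻¹ = _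
    rw [Matrix.inv_def, Ring.inverse_eq_inv']
  exact h4.const_smul (Real.exp (1 / 3))

theorem dual_eigen {φ : Frm → ℂ} (hφ : IsCuspEigen φ) : IsCuspEigen (fun y => φ (dl y)) := by
  refine ⟨cont_aux hφ, ?_, ?_, ?_, ?_, ?_⟩
  · -- scale
    intro c hc y hy
    show φ (dl (Frm.of (c • y.mat))) = φ (dl y)
    have h1 : dl (Frm.of (c • y.mat)) = Frm.of (c⁻¹ • (dl y).mat) := by
      rw [dl_mat]
      unfold dl
      refine of_injOn_aux ?_
      have h2 : (Frm.of (c • y.mat)).mat = c • y.mat := by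
        refine Frm.mat_of ?_
        rw [transpose_smul, Frm.mat_transpose]
      have h3 : (c • y.mat)⁻¹ = c⁻¹ • y.mat⁻¹ := by
        apply Matrix.inv_eq_right_inv
        rw [Matrix.mul_smul, Matrix.smul_mul, smul_smul, inv_mul_cancel₀ hc.ne', one_smul]
        exact Matrix.mul_nonsing_inv _ (isUnit_iff_ne_zero.2 (det_ne_zero hy))
      rw [h2, h3, smul_comm]
    rw [h1]
    exact hφ.scale _ (inv_pos.2 hc) _ (dl_mem_pos.2 hy)
  · -- invariance
    intro γ y hy
    show φ (dl (γ • y)) = φ (dl y)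
    rw [dl_smul γ hy]
    exact hφ.inv _ _ (dl_mem_pos.2 hy)
  · -- Hecke
    intro g hg
    have hst : (st g).det ≠ 0 := by
      rw [det_st]
      exact pow_ne_zero 2 hg
    obtain ⟨l, hl⟩ := hφ.hecke (st g) hst
    refine ⟨l, fun R hR y hy => ?_⟩
    obtain ⟨hR1, hR2, hR3⟩ := hR
    have hdet : ∀ h ∈ R, h.det = g.det := by
      intro h hh
      obtain ⟨γ, δ, rfl⟩ := hR1 h hh
      rw [det_mul, det_mul, γ.2, δ.2, one_mul, mul_one]
    have hinj : ∀ A B : Matrix (Fin 3) (Fin 3) ℤ, g.det • A = g.det • B → A = B := by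
      intro A B hAB
      ext i j
      have h1 := congrFun (congrFun hAB i) j
      simp only [Matrix.smul_apply, smul_eq_mul] at h1
      exact mul_left_cancel₀ hg h1
    have hstinj : Set.InjOn (st : Matrix (Fin 3) (Fin 3) ℤ → _) (R : Set (Matrix (Fin 3) (Fin 3) ℤ)) := by
      intro h hh h' hh' he
      have h1 : st (st h) = st (st h') := by rw [he]
      rw [st_st, st_st, hdet h hh, hdet h' hh'] at h1
      exact hinj _ _ h1
    have hRR : IsReps (st g) (R.image st) := by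
      refine ⟨?_, ?_, ?_⟩
      · intro h' hh'
        obtain ⟨h, hh, rfl⟩ := Finset.mem_image.1 hh'
        obtain ⟨γ, δ, rfl⟩ := hR1 h hh
        exact ⟨sst γ, sst δ, by rw [st_mul, st_mul, sst_coe, sst_coe]⟩
      · intro a ha b hb hab
        obtain ⟨h, hh, rfl⟩ := Finset.mem_image.1 ha
        obtain ⟨h', hh', rfl⟩ := Finset.mem_image.1 hb
        obtain ⟨γ, hγ⟩ := hab
        have h1 : st (st h') = st (st h) * st γ.1 := by rw [hγ, st_mul]
        rw [st_st, st_st, hdet h hh, hdet h' hh', Matrix.smul_mul] at h1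
        have h2 := hinj _ _ h1
        rw [hR2 h hh h' hh' ⟨sst γ, by rw [sst_coe]; exact h2⟩]
      · intro γ δ
        obtain ⟨h, hh, ε, hε⟩ := hR3 (sst γ) (sst δ)
        refine ⟨st h, Finset.mem_image_of_mem _ hh, sst ε, ?_⟩
        have h1 : st ((sst γ).1 * g * (sst δ).1) = st (h * ε.1) := by rw [hε]
        rw [st_mul, st_mul, st_mul, ← sst_coe, ← sst_coe, ← sst_coe, sst_sst, sst_sst] at h1
        exact h1
    have h2 := hl _ hRR (dl y) (dl_mem_pos.2 hy)
    rw [Finset.sum_image fun a ha b hb he => hstinj ha hb he] at h2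
    rw [← h2]
    refine Finset.sum_congr rfl fun h hh => ?_
    have h3 : (rl h).det ≠ 0 := by
      rw [rl_det, hdet h hh]
      exact_mod_cast hg
    show φ (dl (act (rl h) y)) = φ (act (rl (st h)) (dl y))
    have h4 : (st (rl h)).det ≠ 0 := by
      rw [det_st]
      exact pow_ne_zero 2 h3
    rw [dl_act h3 hy, rl_st, hφ.scale _ (by positivity) _ ((act_mem_pos h4).2 (dl_mem_pos.2 hy))]
  · -- cusp1
    intro y hy
    have h0 : (rl w₁.1).det ≠ 0 := by
      rw [det_rl]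
      exact one_ne_zero
    have h1 := hφ.cusp2 (act (rl w₁.1) (dl y)) ((act_mem_pos h0).2 (dl_mem_pos.2 hy))
    rw [← h1]
    refine intervalIntegral.integral_congr fun x₁ _ => intervalIntegral.integral_congr fun x₂ _ => ?_
    refine dual_aux hφ w₁ (by simp [Matrix.det_fin_three]) ?_ hy
    ext i j
    fin_cases i <;> fin_cases j <;>
      simp [st, w₁, rl, Matrix.adjugate_fin_three, Matrix.mul_apply, Fin.sum_univ_three]
  · -- cusp2
    intro y hy
    have h0 : (rl w₂.1).det ≠ 0 := by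
      rw [det_rl]
      exact one_ne_zero
    have h1 := hφ.cusp1 (act (rl w₂.1) (dl y)) ((act_mem_pos h0).2 (dl_mem_pos.2 hy))
    rw [← h1]
    refine intervalIntegral.integral_congr fun x₁ _ => intervalIntegral.integral_congr fun x₂ _ => ?_
    refine dual_aux hφ w₂ (by simp [Matrix.det_fin_three]) ?_ hy
    ext i j
    fin_cases i <;> fin_cases j <;>
      simp [st, w₂, rl, Matrix.adjugate_fin_three, Matrix.mul_apply, Fin.sum_univ_three]

open scoped Pointwise in
theorem fd_dual {F : Set Frm} (hF : IsFundamentalDomain SL(3, ℤ) F mu) : IsFundamentalDomain SL(3, ℤ) (dl ⁻¹' F) mu := by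
  have hq := dl_mp.quasiMeasurePreserving
  have hpos : ∀ᵐ y ∂mu, y ∈ Pos := mu_compl_pos
  have hsst : ∀ (γ : SL(3, ℤ)) {y : Frm}, y ∈ Pos → dl (γ • y) = sst γ • dl y := fun γ y hy =>
    dl_smul γ hy
  refine ⟨hF.nullMeasurableSet.preimage hq, ?_, ?_⟩
  · filter_upwards [hq.ae hF.ae_covers, hpos] with y hy hy'
    obtain ⟨g, hg⟩ := hy
    refine ⟨sst g, ?_⟩
    show dl (sst g • y) ∈ F
    rw [hsst _ hy', sst_sst]
    exact hg
  · intro g g' hgg
    have h1 : sst g ≠ sst g' := fun h => hgg (by rw [← sst_sst g, h, sst_sst])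
    have h2 : mu (((sst g) • F) ∩ ((sst g') • F)) = 0 := hF.aedisjoint h1
    have h3 : mu (dl ⁻¹' (((sst g) • F) ∩ ((sst g') • F))) = 0 := hq.preimage_null h2
    show mu ((g • (dl ⁻¹' F)) ∩ (g' • (dl ⁻¹' F))) = 0
    refine measure_mono_null ?_ (measure_union_null h3 mu_compl_pos)
    rintro x ⟨⟨a, ha, rfl⟩, ⟨b, hb, hab⟩⟩
    by_cases hx : g • a ∈ Pos
    · refine Or.inl ⟨?_, ?_⟩
      · have ha' : a ∈ Pos := (smul_mem_pos g).1 hx
        refine ⟨dl a, ha, ?_⟩
        exact (hsst g ha').symm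
      · have hab : g' • b = g • a := hab
        have hb' : b ∈ Pos := (smul_mem_pos g').1 (by rw [hab]; exact hx)
        refine ⟨dl b, hb, ?_⟩
        show sst g' • dl b = dl (g • a)
        rw [← hsst g' hb', hab]
    · exact Or.inr hx

end AQ3
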