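import Pool.Agent.Lib_MP_d358f8_ne.Lin2

/-!
# MP_d358f8_nt: the coefficients under `SL₂(ℤ)`

* `cf_eqv`: by `Matrix.SpecialLinearGroup.SL2Z_generators` (or by the general substitution `x = Aᵀ x'` on the torus
  `(ℝ/ℤ)²`) it is enough to treat `S` and `T`; both sides are compatible with products: if the identity holds for `A` and `A'`
  (all `k, l, z`) then for `A A'`, `bact (A A') z = bact A' (bact A z)`. For `A` the formula comes from
  `f (x₁ A₀₀ + x₂ A₁₀) (x₁ A₀₁ + x₂ A₁₁) (bact A z) = f x₁ x₂ z` (`eqv`) and the substitution in the integral, which is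
  legitimate for functions of period 1 in both variables. If `¬ pd z` both sides are `0`.
-/

namespace AQ3

open MeasureTheory Matrix
open scoped ENNReal MatrixGroups

private theorem Eqv_exp (a : ℂ) (l : ℤ) :
    Complex.exp (-(2 * Real.pi * Complex.I * (a + l))) =
      Complex.exp (-(2 * Real.pi * Complex.I * a)) := by
  rw [Complex.exp_eq_exp_iff_exists_int]
  refine ⟨-l, ?_⟩
  push_cast
  ring

private theorem Eqv_T {f : ℝ → ℝ → Bin → ℂ} (hf : HecF f) (k l : ℤ) (z : Bin) :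
    cf f k l (bact (rl2 ModularGroup.T.1) z) = cf f (k + l) l z := by
  unfold cf
  refine intervalIntegral.integral_congr fun x₁ _ => ?_
  show (∫ x₂ in (0 : ℝ)..1, f x₁ x₂ (bact (rl2 ModularGroup.T.1) z) *
      Complex.exp (-(2 * Real.pi * Complex.I * (k * x₁ + l * x₂)))) =
    ∫ x₂ in (0 : ℝ)..1, f x₁ x₂ z *
      Complex.exp (-(2 * Real.pi * Complex.I * ((k + l : ℤ) * x₁ + l * x₂)))
  have hper : Function.Periodic (fun x₂ : ℝ => f x₁ x₂ (bact (rl2 ModularGroup.T.1) z) *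
      Complex.exp (-(2 * Real.pi * Complex.I * (k * x₁ + l * x₂)))) 1 := by
    intro x₂
    show f x₁ (x₂ + 1) _ * Complex.exp (-(2 * Real.pi * Complex.I * (k * x₁ + l * ((x₂ + 1 : ℝ) : ℂ)))) =
      f x₁ x₂ _ * Complex.exp (-(2 * Real.pi * Complex.I * (k * x₁ + l * x₂)))
    rw [hf.per2, ← Eqv_exp (k * x₁ + l * x₂) l]
    congr 3
    push_cast
    ring
  have h1 := hper.intervalIntegral_add_eq 0 x₁
  rw [zero_add] at h1
  rw [h1]
  have h2 := intervalIntegral.integral_comp_add_left (a := 0) (b := 1)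
    (fun x₂ : ℝ => f x₁ x₂ (bact (rl2 ModularGroup.T.1) z) *
      Complex.exp (-(2 * Real.pi * Complex.I * (k * x₁ + l * x₂)))) x₁
  rw [add_zero] at h2
  rw [← h2]
  refine intervalIntegral.integral_congr fun x₂ _ => ?_
  show f x₁ (x₁ + x₂) (bact (rl2 ModularGroup.T.1) z) *
      Complex.exp (-(2 * Real.pi * Complex.I * (k * x₁ + l * ((x₁ + x₂ : ℝ) : ℂ)))) =
    f x₁ x₂ z * Complex.exp (-(2 * Real.pi * Complex.I * ((k + l : ℤ) * x₁ + l * x₂)))
  have h3 := hf.eqv ModularGroup.T x₁ x₂ z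
  have h4 : f x₁ (x₁ + x₂) (bact (rl2 ModularGroup.T.1) z) = f x₁ x₂ z := by
    rw [← h3]
    congr 1 <;> simp [ModularGroup.coe_T]
  rw [h4]
  congr 3
  push_cast
  ring

private theorem Eqv_swap {F : ℝ → ℝ → ℂ} (hF : Continuous (Function.uncurry F)) :
    ∫ x₁ in (0 : ℝ)..1, ∫ x₂ in (0 : ℝ)..1, F x₁ x₂ =
      ∫ x₂ in (0 : ℝ)..1, ∫ x₁ in (0 : ℝ)..1, F x₁ x₂ := by
  simp only [intervalIntegral.integral_of_le zero_le_one]
  refine MeasureTheory.integral_integral_swap ?_
  rw [Measure.prod_restrict, ← Measure.volume_eq_prod]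
  have h1 : IntegrableOn (Function.uncurry F) (Set.Icc (0 : ℝ) 1 ×ˢ Set.Icc (0 : ℝ) 1) :=
    hF.continuousOn.integrableOn_compact (isCompact_Icc.prod isCompact_Icc)
  exact h1.mono_set (Set.prod_mono Set.Ioc_subset_Icc_self Set.Ioc_subset_Icc_self)

private theorem Eqv_S {f : ℝ → ℝ → Bin → ℂ} (hf : HecF f) (k l : ℤ) (z : Bin) :
    cf f k l (bact (rl2 ModularGroup.S.1) z) = cf f (-l) k z := by
  have hS : ∀ x₁ x₂ : ℝ, f x₁ x₂ z = f x₂ (-x₁) (bact (rl2 ModularGroup.S.1) z) := by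
    intro x₁ x₂
    rw [← hf.eqv ModularGroup.S x₁ x₂ z]
    congr 1 <;> simp [ModularGroup.coe_S]
  generalize bact (rl2 ModularGroup.S.1) z = w at hS ⊢
  unfold cf
  simp only [hS]
  by_cases hw : pd w
  · -- continuity
    have hc : Continuous fun q : ℝ × ℝ => f q.1 q.2 w := by
      have h1 : Continuous fun q : ℝ × ℝ => ((q.1, q.2, w) : ℝ × ℝ × Bin) := by
        fun_prop
      exact hf.cont.comp_continuous h1 (fun _ => hw)
    have hc2 : Continuous fun q : ℝ × ℝ =>
        f q.1 q.2 w * Complex.exp (-(2 * Real.pi * Complex.I * (k * q.1 + l * q.2))) := by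
      refine hc.mul ?_
      fun_prop
    rw [Eqv_swap (F := fun x₁ x₂ => f x₁ x₂ w *
      Complex.exp (-(2 * Real.pi * Complex.I * (k * x₁ + l * x₂)))) hc2]
    have hper : Function.Periodic (fun x₂ : ℝ => ∫ x₁ in (0 : ℝ)..1, f x₁ x₂ w *
        Complex.exp (-(2 * Real.pi * Complex.I * (k * x₁ + l * x₂)))) 1 := by
      intro x₂
      show (∫ x₁ in (0 : ℝ)..1, f x₁ (x₂ + 1) w *
        Complex.exp (-(2 * Real.pi * Complex.I * (k * x₁ + l * ((x₂ + 1 : ℝ) : ℂ))))) =
        ∫ x₁ in (0 : ℝ)..1, f x₁ x₂ w *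
        Complex.exp (-(2 * Real.pi * Complex.I * (k * x₁ + l * x₂)))
      refine intervalIntegral.integral_congr fun x₁ _ => ?_
      show f x₁ (x₂ + 1) w *
        Complex.exp (-(2 * Real.pi * Complex.I * (k * x₁ + l * ((x₂ + 1 : ℝ) : ℂ)))) =
        f x₁ x₂ w * Complex.exp (-(2 * Real.pi * Complex.I * (k * x₁ + l * x₂)))
      rw [hf.per2, ← Eqv_exp (k * x₁ + l * x₂) l]
      congr 3
      push_cast
      ring
    have h1 := hper.intervalIntegral_add_eq 0 (-1)
    rw [zero_add, neg_add_cancel] at h1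
    rw [h1]
    have h2 := intervalIntegral.integral_comp_neg (a := 0) (b := 1)
      (fun x₂ : ℝ => ∫ x₁ in (0 : ℝ)..1, f x₁ x₂ w *
        Complex.exp (-(2 * Real.pi * Complex.I * (k * x₁ + l * x₂))))
    rw [neg_zero] at h2
    rw [← h2]
    refine intervalIntegral.integral_congr fun x₂ _ => ?_
    refine intervalIntegral.integral_congr fun x₁ _ => ?_
    show f x₁ (-x₂) w *
        Complex.exp (-(2 * Real.pi * Complex.I * (k * x₁ + l * ((-x₂ : ℝ) : ℂ)))) =
      f x₁ (-x₂) w *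
        Complex.exp (-(2 * Real.pi * Complex.I * ((-l : ℤ) * x₂ + k * x₁)))
    congr 3
    push_cast
    ring
  · simp [hf.zero _ _ w hw]

private theorem Eqv_rl2_mul (A B : Matrix (Fin 2) (Fin 2) ℤ) : rl2 (A * B) = rl2 A * rl2 B := by
  unfold rl2
  exact Matrix.map_mul (f := Int.castRingHom ℝ)

private theorem Eqv_rl2_one : rl2 1 = 1 := by
  unfold rl2
  exact Matrix.map_one _ Int.cast_zero Int.cast_one

theorem cf_eqv {f : ℝ → ℝ → Bin → ℂ} (hf : HecF f) (A : SL(2, ℤ)) (k l : ℤ) (z : Bin) :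
    cf f k l (bact (rl2 A.1) z) = cf f (A.1 0 0 * k + A.1 0 1 * l) (A.1 1 0 * k + A.1 1 1 * l) z := by
  have hA : A ∈ Subgroup.closure {ModularGroup.S, ModularGroup.T} := by
    rw [_root_.SpecialLinearGroup.SL2Z_generators]
    trivial
  induction hA using Subgroup.closure_induction generalizing k l z with
  | mem x hx =>
    rcases hx with rfl | hx
    · rw [Eqv_S hf]
      congr 1 <;> simp [ModularGroup.coe_S]
    · rw [Set.mem_singleton_iff] at hx
      subst hx
      rw [Eqv_T hf]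
      congr 1 <;> simp [ModularGroup.coe_T]
  | one =>
    rw [Matrix.SpecialLinearGroup.coe_one, Eqv_rl2_one, bact_one]
    congr 1 <;> simp
  | mul x y _ _ hx hy =>
    rw [Matrix.SpecialLinearGroup.coe_mul, Eqv_rl2_mul, ← bact_bact, hy, hx]
    congr 1 <;> simp only [Matrix.mul_apply, Fin.sum_univ_two] <;> ring
  | inv x _ hx =>
    have hdet : x.1 0 0 * x.1 1 1 - x.1 0 1 * x.1 1 0 = 1 := by
      rw [← Matrix.det_fin_two]
      exact x.2
    have h1 : bact (rl2 x.1) (bact (rl2 (x⁻¹).1) z) = z := by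
      rw [bact_bact, ← Eqv_rl2_mul, ← Matrix.SpecialLinearGroup.coe_mul, inv_mul_cancel,
        Matrix.SpecialLinearGroup.coe_one, Eqv_rl2_one, bact_one]
    have h2 := hx ((x⁻¹).1 0 0 * k + (x⁻¹).1 0 1 * l) ((x⁻¹).1 1 0 * k + (x⁻¹).1 1 1 * l)
      (bact (rl2 (x⁻¹).1) z)
    rw [h1] at h2
    rw [h2]
    congr 1
    · rw [Matrix.SpecialLinearGroup.SL2_inv_expl]
      simp only [Matrix.cons_val', Matrix.cons_val_zero, Matrix.cons_val_one,
        Matrix.cons_val_fin_one]
      linear_combination (-k) * hdet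
    · rw [Matrix.SpecialLinearGroup.SL2_inv_expl]
      simp only [Matrix.cons_val', Matrix.cons_val_zero, Matrix.cons_val_one,
        Matrix.cons_val_fin_one]
      linear_combination (-l) * hdet

end AQ3
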