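import Pool.Agent.Lib_MP_d358f8_ne.MuInv

/-!
# MP_d358f8_nt: a fundamental domain exists

PROOF (Dirichlet-Selberg domain). For a positive definite matrix `A` (real, symmetric) let `ℓ(y) = tr(A Y)`, a linear form in the six entries.
For `γ ∈ SL₃(ℤ)`, `γ ≠ 1`, the equation `γᵀ A γ = A` defines a proper linear subspace of the six-dimensional space of the symmetric matrices
(if `γᵀ A γ = A` for all symmetric `A` then `γ = ± 1`, so `γ = 1` because `det (-1) = -1`), a null set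
(`MeasureTheory.Measure.addHaar_submodule`); there are countably many `γ`; `slab` is open and nonempty, so it has positive measure and there is
`A ∈ slab` (positive definite) with `γᵀ A γ ≠ A` for all `γ ≠ 1`. For this `A` let
`F = {y ∈ slab | ∀ γ ≠ 1, ℓ(y) < ℓ(γ • y)}`. Then the sets `γ • F` are disjoint (`y ∈ F`, `δ • y ∈ F`, `δ ≠ 1` gives `ℓ(y) < ℓ(δ • y) < ℓ(y)`).
For `y ∈ slab` and every `M` the set of `γ` with `ℓ(γ • y) ≤ M` is finite (`tr(A γ Y γᵀ) ≥ ε ∑ |rows of γ|²`, `ε > 0`), so the minimum of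
`ℓ(γ • y)` is attained; outside of the null set `⋃_{γ ≠ δ} {y : ℓ(γ • y) = ℓ(δ • y)}` (hyperplanes: `ℓ(γ • y) = tr(γᵀ A γ Y)`, and
`γᵀ A γ ≠ δᵀ A δ`) the minimum is attained exactly once, at `γ₀`, and then `γ₀ • y ∈ F`. `F` is measurable (countable intersection of open sets).
-/

namespace AQ3

open MeasureTheory Matrix
open scoped ENNReal MatrixGroups

/-- The real six-space. -/
private abbrev ExE : Type := ℝ × ℝ × ℝ × ℝ × ℝ × ℝ

private lemma ex_haar : (volume : Measure ExE).IsAddHaarMeasure := by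
  have h2 : (volume : Measure (ℝ × ℝ)).IsAddHaarMeasure := Measure.prod.instIsAddHaarMeasure _ _
  have h3 : (volume : Measure (ℝ × ℝ × ℝ)).IsAddHaarMeasure := Measure.prod.instIsAddHaarMeasure _ _
  have h4 : (volume : Measure (ℝ × ℝ × ℝ × ℝ)).IsAddHaarMeasure := Measure.prod.instIsAddHaarMeasure _ _
  have h5 : (volume : Measure (ℝ × ℝ × ℝ × ℝ × ℝ)).IsAddHaarMeasure :=
    Measure.prod.instIsAddHaarMeasure _ _
  exact Measure.prod.instIsAddHaarMeasure _ _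

/-- The trace form. -/
private def exEll (B y : Frm) : ℝ :=
  B.1 * y.1 + 2 * B.2.1 * y.2.1 + 2 * B.2.2.1 * y.2.2.1 + B.2.2.2.1 * y.2.2.2.1 +
    2 * B.2.2.2.2.1 * y.2.2.2.2.1 + B.2.2.2.2.2 * y.2.2.2.2.2

private lemma exEll_comm (B y : Frm) : exEll B y = exEll y B := by
  unfold exEll; ring

private lemma exEll_trace (B y : Frm) : exEll B y = (B.mat * y.mat).trace := by
  simp only [exEll, Frm.mat, Matrix.trace, Matrix.diag_apply, Matrix.mul_apply, Fin.sum_univ_three,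
    Matrix.of_apply, Matrix.cons_val', Matrix.cons_val_zero, Matrix.cons_val_one,
    Matrix.cons_val_fin_one, Matrix.cons_val]
  ring

private lemma exEll_smul (γ : SL(3, ℤ)) (B y : Frm) :
    exEll B (γ • y) = exEll (act (rl γ.1) B) y := by
  rw [exEll_trace, exEll_trace, smul_def, mat_act, mat_act, Matrix.transpose_transpose]
  rw [show B.mat * (rl γ.1 * y.mat * (rl γ.1)ᵀ) = (B.mat * rl γ.1 * y.mat) * (rl γ.1)ᵀ by
    simp only [Matrix.mul_assoc], Matrix.trace_mul_comm]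
  congr 1
  simp only [Matrix.mul_assoc]

/-- The linear functional. -/
private def exLin (B B' : Frm) : ExE →ₗ[ℝ] ℝ where
  toFun y := exEll B y - exEll B' y
  map_add' y z := by
    simp only [exEll, Prod.fst_add, Prod.snd_add]; ring
  map_smul' c y := by
    simp only [exEll, Prod.smul_fst, Prod.smul_snd, smul_eq_mul, RingHom.id_apply]; ring

private lemma ex_null {B B' : Frm} (h : B ≠ B') :
    (volume : Measure Frm) {y | exEll B y = exEll B' y} = 0 := by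
  have := ex_haar
  have hne : LinearMap.ker (exLin B B') ≠ ⊤ := by
    intro htop
    apply h
    have hz : ∀ y : ExE, exEll B y - exEll B' y = 0 := fun y =>
      LinearMap.mem_ker.1 (htop ▸ Submodule.mem_top : y ∈ LinearMap.ker (exLin B B'))
    have e1 := hz (1, 0, 0, 0, 0, 0)
    have e2 := hz (0, 1, 0, 0, 0, 0)
    have e3 := hz (0, 0, 1, 0, 0, 0)
    have e4 := hz (0, 0, 0, 1, 0, 0)
    have e5 := hz (0, 0, 0, 0, 1, 0)
    have e6 := hz (0, 0, 0, 0, 0, 1)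
    simp only [exEll] at e1 e2 e3 e4 e5 e6
    refine Prod.ext ?_ (Prod.ext ?_ (Prod.ext ?_ (Prod.ext ?_ (Prod.ext ?_ ?_)))) <;> linarith
  have h1 := Measure.addHaar_submodule (volume : Measure ExE) (LinearMap.ker (exLin B B')) hne
  have h2 : {y : Frm | exEll B y = exEll B' y} = ((LinearMap.ker (exLin B B') : Submodule ℝ ExE) : Set ExE) := by
    ext y
    show exEll B y = exEll B' y ↔ (exLin B B') y = 0
    exact sub_eq_zero.symm
  rw [h2]
  exact h1

private lemma ex_smul_ne {γ : SL(3, ℤ)} (h : γ ≠ 1) : ∃ w : Frm, γ • w ≠ w := by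
  by_contra hc
  push Not at hc
  apply h
  have key : ∀ w : Frm, Frm.of (rl γ.1 * w.mat * (rl γ.1)ᵀ) = w := by
    intro w
    have := hc w
    rw [smul_def] at this
    unfold act at this
    rwa [Matrix.transpose_transpose] at this
  have key' : ∀ w : Frm, (rl γ.1 * w.mat * (rl γ.1)ᵀ) 0 0 = w.1 ∧
      (rl γ.1 * w.mat * (rl γ.1)ᵀ) 0 1 = w.2.1 ∧ (rl γ.1 * w.mat * (rl γ.1)ᵀ) 0 2 = w.2.2.1 ∧
      (rl γ.1 * w.mat * (rl γ.1)ᵀ) 1 1 = w.2.2.2.1 ∧
      (rl γ.1 * w.mat * (rl γ.1)ᵀ) 1 2 = w.2.2.2.2.1 ∧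
      (rl γ.1 * w.mat * (rl γ.1)ᵀ) 2 2 = w.2.2.2.2.2 := fun w =>
    ⟨congrArg (fun v : Frm => v.1) (key w), congrArg (fun v : Frm => v.2.1) (key w),
      congrArg (fun v : Frm => v.2.2.1) (key w), congrArg (fun v : Frm => v.2.2.2.1) (key w),
      congrArg (fun v : Frm => v.2.2.2.2.1) (key w), congrArg (fun v : Frm => v.2.2.2.2.2) (key w)⟩
  have e1 := key' (1, 0, 0, 0, 0, 0)
  have e2 := key' (0, 0, 0, 1, 0, 0)
  have e3 := key' (0, 0, 0, 0, 0, 1)
  have e4 := key' (0, 1, 0, 0, 0, 0)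
  have e5 := key' (0, 0, 1, 0, 0, 0)
  simp only [Frm.mat, rl, Matrix.mul_apply, Fin.sum_univ_three, Matrix.of_apply,
    Matrix.cons_val', Matrix.cons_val_zero, Matrix.cons_val_one, Matrix.cons_val_fin_one,
    Matrix.cons_val, Matrix.map_apply, Matrix.transpose_apply] at e1 e2 e3 e4 e5
  obtain ⟨a1, a2, a3, a4, a5, a6⟩ := e1
  obtain ⟨b1, b2, b3, b4, b5, b6⟩ := e2
  obtain ⟨c1, c2, c3, c4, c5, c6⟩ := e3
  obtain ⟨d1, d2, d3, d4, d5, d6⟩ := e4
  obtain ⟨f1, f2, f3, f4, f5, f6⟩ := e5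
  have z10 : (γ.1 1 0 : ℝ) = 0 := by
    have : (γ.1 1 0 : ℝ) ^ 2 = 0 := by linear_combination a4
    exact pow_eq_zero_iff (two_ne_zero) |>.1 this
  have z20 : (γ.1 2 0 : ℝ) = 0 := by
    have : (γ.1 2 0 : ℝ) ^ 2 = 0 := by linear_combination a6
    exact pow_eq_zero_iff (two_ne_zero) |>.1 this
  have z01 : (γ.1 0 1 : ℝ) = 0 := by
    have : (γ.1 0 1 : ℝ) ^ 2 = 0 := by linear_combination b1
    exact pow_eq_zero_iff (two_ne_zero) |>.1 this
  have z21 : (γ.1 2 1 : ℝ) = 0 := by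
    have : (γ.1 2 1 : ℝ) ^ 2 = 0 := by linear_combination b6
    exact pow_eq_zero_iff (two_ne_zero) |>.1 this
  have z02 : (γ.1 0 2 : ℝ) = 0 := by
    have : (γ.1 0 2 : ℝ) ^ 2 = 0 := by linear_combination c1
    exact pow_eq_zero_iff (two_ne_zero) |>.1 this
  have z12 : (γ.1 1 2 : ℝ) = 0 := by
    have : (γ.1 1 2 : ℝ) ^ 2 = 0 := by linear_combination c4
    exact pow_eq_zero_iff (two_ne_zero) |>.1 this
  have p01 : (γ.1 0 0 : ℝ) * γ.1 1 1 = 1 := by
    rw [z10, z01] at d2; linear_combination d2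
  have p02 : (γ.1 0 0 : ℝ) * γ.1 2 2 = 1 := by
    rw [z20, z02] at f3; linear_combination f3
  have hdet : (γ.1 0 0 : ℝ) * γ.1 1 1 * γ.1 2 2 = 1 := by
    have h1 := det_rl γ
    rw [Matrix.det_fin_three] at h1
    simp only [rl, Matrix.map_apply] at h1
    rw [z10, z20, z01, z21, z02, z12] at h1
    linear_combination h1
  have q22 : (γ.1 2 2 : ℝ) = 1 := by rw [p01, one_mul] at hdet; exact hdet
  have q00 : (γ.1 0 0 : ℝ) = 1 := by rw [q22, mul_one] at p02; exact p02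
  have q11 : (γ.1 1 1 : ℝ) = 1 := by rw [q00, one_mul] at p01; exact p01
  apply Subtype.ext
  ext i j
  have hcast : ∀ {m k : ℤ}, (m : ℝ) = k → m = k := fun h => by exact_mod_cast h
  rw [Matrix.SpecialLinearGroup.coe_one]
  fin_cases i <;> fin_cases j
  · exact hcast (by simpa using q00)
  · exact hcast (by simpa using z01)
  · exact hcast (by simpa using z02)
  · exact hcast (by simpa using z10)
  · exact hcast (by simpa using q11)
  · exact hcast (by simpa using z12)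
  · exact hcast (by simpa using z20)
  · exact hcast (by simpa using z21)
  · exact hcast (by simpa using q22)

/-- The stabilizers of almost all forms are trivial. -/
private lemma ex_stab_null : (volume : Measure Frm) {A | ∃ γ : SL(3, ℤ), γ ≠ 1 ∧ act (rl γ.1) A = A} = 0 := by
  have h : {A : Frm | ∃ γ : SL(3, ℤ), γ ≠ 1 ∧ act (rl γ.1) A = A}
      ⊆ ⋃ γ : SL(3, ℤ), {A : Frm | γ ≠ 1 ∧ act (rl γ.1) A = A} := by
    rintro A ⟨γ, h1, h2⟩
    exact Set.mem_iUnion.2 ⟨γ, h1, h2⟩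
  refine measure_mono_null h (measure_iUnion_null fun γ => ?_)
  by_cases hγ : γ = 1
  · have : {A : Frm | γ ≠ 1 ∧ act (rl γ.1) A = A} = ∅ := by
      ext A; simp [hγ]
    rw [this, measure_empty]
  · obtain ⟨w, hw⟩ := ex_smul_ne hγ
    refine measure_mono_null ?_ (ex_null hw)
    rintro A ⟨-, hA⟩
    show exEll (γ • w) A = exEll w A
    rw [exEll_comm, exEll_smul, hA, exEll_comm]

private lemma ex_c1 : Continuous fun y : Frm => y.1 := continuous_fst
private lemma ex_c2 : Continuous fun y : Frm => y.2.1 := continuous_fst.comp continuous_snd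
private lemma ex_c3 : Continuous fun y : Frm => y.2.2.1 :=
  continuous_fst.comp (continuous_snd.comp continuous_snd)
private lemma ex_c4 : Continuous fun y : Frm => y.2.2.2.1 :=
  continuous_fst.comp (continuous_snd.comp (continuous_snd.comp continuous_snd))
private lemma ex_c5 : Continuous fun y : Frm => y.2.2.2.2.1 :=
  continuous_fst.comp (continuous_snd.comp (continuous_snd.comp (continuous_snd.comp continuous_snd)))
private lemma ex_c6 : Continuous fun y : Frm => y.2.2.2.2.2 :=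
  continuous_snd.comp (continuous_snd.comp (continuous_snd.comp (continuous_snd.comp continuous_snd)))

private lemma ex_cell (B : Frm) : Continuous (exEll B) :=
  (((((continuous_const.mul ex_c1).add (continuous_const.mul ex_c2)).add
    (continuous_const.mul ex_c3)).add (continuous_const.mul ex_c4)).add
    (continuous_const.mul ex_c5)).add (continuous_const.mul ex_c6)

/-- Forms near the identity. -/
private def exU : Set Frm := {A | |A.1 - 1| < 1 / 8 ∧ |A.2.1| < 1 / 8 ∧ |A.2.2.1| < 1 / 8 ∧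
  |A.2.2.2.1 - 1| < 1 / 8 ∧ |A.2.2.2.2.1| < 1 / 8 ∧ |A.2.2.2.2.2 - 1| < 1 / 8}

private lemma exU_open : IsOpen exU := by
  have e : exU = {A : Frm | |A.1 - 1| < 1 / 8} ∩ ({A | |A.2.1| < 1 / 8} ∩ ({A | |A.2.2.1| < 1 / 8} ∩
      ({A | |A.2.2.2.1 - 1| < 1 / 8} ∩ ({A | |A.2.2.2.2.1| < 1 / 8} ∩
      {A | |A.2.2.2.2.2 - 1| < 1 / 8})))) := rfl
  rw [e]
  have h : ∀ {f : Frm → ℝ}, Continuous f → IsOpen {A | |f A| < 1 / 8} := fun hf =>
    isOpen_lt hf.abs continuous_const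
  exact (h (ex_c1.sub continuous_const)).inter ((h ex_c2).inter ((h ex_c3).inter
    ((h (ex_c4.sub continuous_const)).inter ((h ex_c5).inter (h (ex_c6.sub continuous_const))))))

private lemma ex_exists : ∃ A ∈ exU, ∀ γ : SL(3, ℤ), γ ≠ 1 → act (rl γ.1) A ≠ A := by
  have := ex_haar
  have hpos : (volume : Measure Frm) exU ≠ 0 := by
    have h5 : (volume : Measure ExE).IsOpenPosMeasure := inferInstance
    have h1 : @IsOpen ExE _ exU := exU_open
    have h2 : (exU : Set ExE).Nonempty := ⟨((1, 0, 0, 1, 0, 1) : ExE), by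
      show |((1 : ℝ)) - 1| < 1 / 8 ∧ |(0 : ℝ)| < 1 / 8 ∧ |(0 : ℝ)| < 1 / 8 ∧ |(1 : ℝ) - 1| < 1 / 8 ∧
        |(0 : ℝ)| < 1 / 8 ∧ |(1 : ℝ) - 1| < 1 / 8
      norm_num⟩
    exact (@IsOpen.measure_pos ExE _ _ volume h5 exU h1 h2).ne'
  have h3 : (volume : Measure Frm) (exU \ {A | ∃ γ : SL(3, ℤ), γ ≠ 1 ∧ act (rl γ.1) A = A}) ≠ 0 := by
    rw [measure_sdiff_null ex_stab_null]
    exact hpos
  obtain ⟨A, hA, hA'⟩ := nonempty_of_measure_ne_zero h3
  refine ⟨A, hA, fun γ hγ h => hA' ⟨γ, hγ, h⟩⟩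

private lemma ex_quad {y : Frm} (hy : y ∈ Pos) {x : Fin 3 → ℝ} (hx : x ≠ 0) :
    0 < x ⬝ᵥ (y.mat *ᵥ x) := by
  have h2 := (Matrix.posDef_iff_dotProduct_mulVec.1 (show y.mat.PosDef from hy)).2 hx
  simpa using h2

private lemma ex_quad_eq (y : Frm) (x : Fin 3 → ℝ) : x ⬝ᵥ (y.mat *ᵥ x)
    = y.1 * x 0 ^ 2 + y.2.2.2.1 * x 1 ^ 2 + y.2.2.2.2.2 * x 2 ^ 2 + 2 * y.2.1 * x 0 * x 1
      + 2 * y.2.2.1 * x 0 * x 2 + 2 * y.2.2.2.2.1 * x 1 * x 2 := by
  simp only [dotProduct, Matrix.mulVec, Fin.sum_univ_three, Frm.mat, Matrix.of_apply,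
    Matrix.cons_val', Matrix.cons_val_zero, Matrix.cons_val_one, Matrix.cons_val_fin_one,
    Matrix.cons_val]
  ring

private lemma ex_trace_le {A X : Frm} (hA : A ∈ exU) (hX : X ∈ Pos) :
    (X.1 + X.2.2.2.1 + X.2.2.2.2.2) / 2 ≤ exEll A X := by
  obtain ⟨a1, a2, a3, a4, a5, a6⟩ := hA
  rw [abs_lt] at a1 a2 a3 a4 a5 a6
  have hq : ∀ p q r : ℝ, (p ≠ 0 ∨ q ≠ 0 ∨ r ≠ 0) → 0 < X.1 * p ^ 2 + X.2.2.2.1 * q ^ 2
      + X.2.2.2.2.2 * r ^ 2 + 2 * X.2.1 * p * q + 2 * X.2.2.1 * p * r + 2 * X.2.2.2.2.1 * q * r := by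
    intro p q r h
    have hx : (![p, q, r] : Fin 3 → ℝ) ≠ 0 := by
      intro h0
      have h1 := congrFun h0 0
      have h2 := congrFun h0 1
      have h3 := congrFun h0 2
      simp only [Matrix.cons_val_zero, Matrix.cons_val_one, Matrix.cons_val, Pi.zero_apply] at h1 h2 h3
      rcases h with h | h | h
      · exact h h1
      · exact h h2
      · exact h h3
    have h4 := ex_quad hX hx
    rw [ex_quad_eq] at h4
    simpa using h4
  have q1 := hq 1 0 0 (by norm_num)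
  have q2 := hq 0 1 0 (by norm_num)
  have q3 := hq 0 0 1 (by norm_num)
  have q4 := hq 1 1 0 (by norm_num)
  have q5 := hq 1 (-1) 0 (by norm_num)
  have q6 := hq 1 0 1 (by norm_num)
  have q7 := hq 1 0 (-1) (by norm_num)
  have q8 := hq 0 1 1 (by norm_num)
  have q9 := hq 0 1 (-1) (by norm_num)
  have hb : ∀ {a x t : ℝ}, -(1 / 8) < a → a < 1 / 8 → -t ≤ x → x ≤ t → -(t / 8) ≤ a * x := by
    intro a x t h1 h2 h3 h4
    rcases le_total 0 a with h | h
    · nlinarith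
    · nlinarith
  have r1 : -((X.1 + X.2.2.2.1) / 2 / 8) ≤ A.2.1 * X.2.1 := hb a2.1 a2.2 (by linarith) (by linarith)
  have r2 : -((X.1 + X.2.2.2.2.2) / 2 / 8) ≤ A.2.2.1 * X.2.2.1 := hb a3.1 a3.2 (by linarith) (by linarith)
  have r3 : -((X.2.2.2.1 + X.2.2.2.2.2) / 2 / 8) ≤ A.2.2.2.2.1 * X.2.2.2.2.1 :=
    hb a5.1 a5.2 (by linarith) (by linarith)
  have s1 : 7 / 8 * X.1 ≤ A.1 * X.1 := by nlinarith
  have s2 : 7 / 8 * X.2.2.2.1 ≤ A.2.2.2.1 * X.2.2.2.1 := by nlinarith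
  have s3 : 7 / 8 * X.2.2.2.2.2 ≤ A.2.2.2.2.2 * X.2.2.2.2.2 := by nlinarith
  unfold exEll
  nlinarith

private lemma ex_lower {y : Frm} (hy : y ∈ Pos) :
    ∃ c : ℝ, 0 < c ∧ ∀ (x : Fin 3 → ℝ) (j : Fin 3), c * x j ^ 2 ≤ x ⬝ᵥ (y.mat *ᵥ x) := by
  have hK : IsCompact (Metric.sphere (0 : Fin 3 → ℝ) 1) := isCompact_sphere _ _
  have hne : (Metric.sphere (0 : Fin 3 → ℝ) 1).Nonempty := NormedSpace.sphere_nonempty.2 zero_le_one
  have hc : Continuous fun x : Fin 3 → ℝ => x ⬝ᵥ (y.mat *ᵥ x) := by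
    simp only [ex_quad_eq]
    fun_prop
  obtain ⟨x₀, hx₀, hmin⟩ := hK.exists_isMinOn hne hc.continuousOn
  have hx0 : x₀ ≠ 0 := by
    rintro rfl
    simp at hx₀
  refine ⟨x₀ ⬝ᵥ (y.mat *ᵥ x₀), ex_quad hy hx0, fun x j => ?_⟩
  by_cases hx : x = 0
  · rw [hx]; simp
  have hn : 0 < ‖x‖ := norm_pos_iff.2 hx
  have h1 : x₀ ⬝ᵥ (y.mat *ᵥ x₀) ≤ (‖x‖⁻¹ • x) ⬝ᵥ (y.mat *ᵥ (‖x‖⁻¹ • x)) :=
    hmin (show ‖x‖⁻¹ • x ∈ Metric.sphere (0 : Fin 3 → ℝ) 1 by
      rw [mem_sphere_zero_iff_norm, norm_smul, norm_inv, norm_norm, inv_mul_cancel₀ hn.ne'])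
  rw [Matrix.mulVec_smul, smul_dotProduct, dotProduct_smul, smul_eq_mul, smul_eq_mul] at h1
  have h2 : x j ^ 2 ≤ ‖x‖ ^ 2 := by
    rw [← sq_abs, ← Real.norm_eq_abs]
    exact pow_le_pow_left₀ (norm_nonneg _) (norm_le_pi_norm x j) 2
  have h3 : (x₀ ⬝ᵥ (y.mat *ᵥ x₀)) * ‖x‖ ^ 2 ≤ x ⬝ᵥ (y.mat *ᵥ x) := by
    have h4 := mul_le_mul_of_nonneg_right h1 (sq_nonneg ‖x‖)
    have h5 : ‖x‖⁻¹ * (‖x‖⁻¹ * (x ⬝ᵥ (y.mat *ᵥ x))) * ‖x‖ ^ 2 = x ⬝ᵥ (y.mat *ᵥ x) := by
      field_simp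
    rwa [h5] at h4
  exact (mul_le_mul_of_nonneg_left h2 (ex_quad hy hx0).le).trans h3

private lemma ex_diag (γ : SL(3, ℤ)) (y : Frm) : ∀ i : Fin 3,
    (γ • y).mat i i = (fun j => (γ.1 i j : ℝ)) ⬝ᵥ (y.mat *ᵥ fun j => (γ.1 i j : ℝ)) := by
  intro i
  rw [smul_def, mat_act, Matrix.transpose_transpose]
  simp only [Matrix.mul_apply, Matrix.transpose_apply, dotProduct, Matrix.mulVec, rl,
    Matrix.map_apply, Fin.sum_univ_three]
  ring

private lemma ex_finite {A y : Frm} (hA : A ∈ exU) (hy : y ∈ Pos) (M : ℝ) :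
    {γ : SL(3, ℤ) | exEll A (γ • y) ≤ M}.Finite := by
  obtain ⟨c, hc, hlow⟩ := ex_lower hy
  obtain ⟨N, hN⟩ := exists_nat_gt (2 * M / c + 1)
  have hfin : (Set.Icc (fun _ _ => -(N : ℤ)) (fun _ _ => (N : ℤ)) : Set (Fin 3 → Fin 3 → ℤ)).Finite :=
    Set.finite_Icc _ _
  refine Set.Finite.of_finite_image (f := fun γ : SL(3, ℤ) => (γ.1 : Fin 3 → Fin 3 → ℤ))
    (hfin.subset ?_) (fun a _ b _ h => Subtype.ext h)
  rintro _ ⟨γ, hγ, rfl⟩
  have hγy : γ • y ∈ Pos := (smul_mem_pos γ).2 hy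
  have h1 := ex_trace_le hA hγy
  have hγ' : exEll A (γ • y) ≤ M := hγ
  have hd : ∀ i : Fin 3, 0 ≤ (γ • y).mat i i := by
    intro i
    rw [ex_diag]
    have := hlow (fun j => (γ.1 i j : ℝ)) 0
    have h0 : 0 ≤ c * (γ.1 i 0 : ℝ) ^ 2 := by positivity
    exact h0.trans this
  have m0 : (γ • y).mat 0 0 = (γ • y).1 := rfl
  have m1 : (γ • y).mat 1 1 = (γ • y).2.2.2.1 := rfl
  have m2 : (γ • y).mat 2 2 = (γ • y).2.2.2.2.2 := rfl
  have hdi : ∀ i : Fin 3, (γ • y).mat i i ≤ 2 * M := by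
    have d0 := hd 0
    have d1 := hd 1
    have d2 := hd 2
    rw [m0] at d0
    rw [m1] at d1
    rw [m2] at d2
    intro i
    fin_cases i
    · show (γ • y).mat 0 0 ≤ 2 * M
      rw [m0]; linarith
    · show (γ • y).mat 1 1 ≤ 2 * M
      rw [m1]; linarith
    · show (γ • y).mat 2 2 ≤ 2 * M
      rw [m2]; linarith
  have hent : ∀ i j : Fin 3, |γ.1 i j| ≤ (N : ℤ) := by
    intro i j
    have h2 : c * (γ.1 i j : ℝ) ^ 2 ≤ 2 * M := by
      have h3 := hlow (fun j => (γ.1 i j : ℝ)) j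
      rw [← ex_diag] at h3
      exact h3.trans (hdi i)
    have h3 : (γ.1 i j : ℝ) ^ 2 ≤ 2 * M / c := by
      rw [le_div_iff₀ hc]; linarith
    have h4 : |(γ.1 i j : ℝ)| ≤ (γ.1 i j : ℝ) ^ 2 + 1 := by
      rw [← sq_abs (γ.1 i j : ℝ)]
      nlinarith [sq_nonneg (|(γ.1 i j : ℝ)| - 1), abs_nonneg (γ.1 i j : ℝ)]
    have h5 : |(γ.1 i j : ℝ)| ≤ (N : ℝ) := by linarith
    exact_mod_cast h5
  constructor
  · intro i j
    exact (abs_le.1 (hent i j)).1
  · intro i j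
    exact (abs_le.1 (hent i j)).2

theorem exists_fd : ∃ F : Set Frm, IsFundamentalDomain SL(3, ℤ) F mu := by
  obtain ⟨A, hA, hstab⟩ := ex_exists
  set F : Set Frm := slab ∩ ⋂ γ : SL(3, ℤ), {y | γ ≠ 1 → exEll A y < exEll A (γ • y)} with hF
  have hmeas : MeasurableSet F := by
    refine isOpen_slab.measurableSet.inter (MeasurableSet.iInter fun γ => ?_)
    by_cases hγ : γ = 1
    · have : {y : Frm | γ ≠ 1 → exEll A y < exEll A (γ • y)} = Set.univ := by
        ext y; simp [hγ]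
      rw [this]; exact MeasurableSet.univ
    · have : {y : Frm | γ ≠ 1 → exEll A y < exEll A (γ • y)}
          = {y : Frm | exEll A y < exEll (act (rl γ.1) A) y} := by
        ext y
        simp only [exEll_smul]
        exact ⟨fun h => h hγ, fun h _ => h⟩
      rw [this]
      exact (isOpen_lt (ex_cell _) (ex_cell _)).measurableSet
  have hact : ∀ γ δ : SL(3, ℤ), γ ≠ δ → act (rl γ.1) A ≠ act (rl δ.1) A := by
    intro γ δ hne h
    refine hstab (γ * δ⁻¹) (fun h1 => hne (mul_inv_eq_one.1 h1)) ?_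
    have hmul : ∀ a b : SL(3, ℤ), rl (a * b).1 = rl a.1 * rl b.1 := fun a b => by
      unfold rl
      rw [Matrix.SpecialLinearGroup.coe_mul]
      exact Matrix.map_mul (f := Int.castRingHom ℝ)
    have hone : rl (1 : SL(3, ℤ)).1 = 1 := by
      unfold rl
      rw [Matrix.SpecialLinearGroup.coe_one]
      exact Matrix.map_one _ Int.cast_zero Int.cast_one
    rw [hmul, ← act_act, h, act_act, ← hmul, mul_inv_cancel, hone, act_one]
  refine ⟨F, ?_⟩
  refine { nullMeasurableSet := hmeas.nullMeasurableSet, ae_covers := ?_, aedisjoint := ?_ }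
  · have hN : ∀ᵐ y : Frm, ∀ γ δ : SL(3, ℤ), γ ≠ δ → exEll A (γ • y) ≠ exEll A (δ • y) := by
      rw [ae_all_iff]
      intro γ
      rw [ae_all_iff]
      intro δ
      by_cases hγδ : γ = δ
      · exact Filter.Eventually.of_forall fun y h => absurd hγδ h
      · have h0 := ex_null (hact γ δ hγδ)
        have h1 : ∀ᵐ y : Frm, ¬ exEll (act (rl γ.1) A) y = exEll (act (rl δ.1) A) y := by
          rw [ae_iff]
          simpa using h0
        filter_upwards [h1] with y hy _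
        rw [exEll_smul, exEll_smul]
        exact hy
    have h2 : ∀ᵐ y ∂(volume.restrict slab), ∃ γ : SL(3, ℤ), γ • y ∈ F := by
      rw [ae_restrict_iff' isOpen_slab.measurableSet]
      filter_upwards [hN] with y hy hys
      have hyP : y ∈ Pos := hys.1
      obtain ⟨γ₀, hγ₀, hmin⟩ := Set.exists_min_image
        {γ : SL(3, ℤ) | exEll A (γ • y) ≤ exEll A ((1 : SL(3, ℤ)) • y)}
        (fun γ => exEll A (γ • y)) (ex_finite hA hyP _)
        ⟨1, show exEll A ((1 : SL(3, ℤ)) • y) ≤ exEll A ((1 : SL(3, ℤ)) • y) from le_rfl⟩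
      have hall : ∀ γ : SL(3, ℤ), exEll A (γ₀ • y) ≤ exEll A (γ • y) := by
        intro γ
        by_cases h : exEll A (γ • y) ≤ exEll A ((1 : SL(3, ℤ)) • y)
        · exact hmin γ h
        · exact (show exEll A (γ₀ • y) ≤ _ from hγ₀).trans (not_le.1 h).le
      refine ⟨γ₀, (smul_mem_slab γ₀).2 hys, Set.mem_iInter.2 fun δ => ?_⟩
      intro hδ
      rw [← mul_smul]
      refine lt_of_le_of_ne (hall _) (hy γ₀ (δ * γ₀) fun h => hδ ?_)
      exact (mul_eq_right.1 h.symm)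
    exact (withDensity_absolutelyContinuous _ _).ae_le h2
  · intro g h hgh
    refine Disjoint.aedisjoint (Set.disjoint_left.2 fun x hxg hxh => ?_)
    rw [Set.mem_smul_set_iff_inv_smul_mem] at hxg hxh
    have h1 := Set.mem_iInter.1 hxg.2 (h⁻¹ * g)
    have h2 := Set.mem_iInter.1 hxh.2 (g⁻¹ * h)
    have hne : h⁻¹ * g ≠ 1 := fun h' => hgh (inv_mul_eq_one.1 h').symm
    have hne' : g⁻¹ * h ≠ 1 := fun h' => hgh (inv_mul_eq_one.1 h')
    have h3 := h1 hne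
    have h4 := h2 hne'
    rw [smul_smul, show h⁻¹ * g * g⁻¹ = h⁻¹ by group] at h3
    rw [smul_smul, show g⁻¹ * h * h⁻¹ = g⁻¹ by group] at h4
    exact lt_asymm h3 h4

end AQ3
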