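import Pool.Agent.Lib_MP_d358f8_ne.Lin2

/-!
# MP_d358f8_nt: the six inequalities between the masses

PROOF of `qt_six`. Let `e₁, e₂` (complex) be as in `BFam.rel`; the real numbers of the statement are their absolute values. For `m ≥ 1`, `pd z` put
`D(m, z) = p B (p m) (sc (1/p²) z)`, `X(m, z) = (1/p) B m (up p z)`,
`Y(m, z) = [p ∣ m] (1/p) ∑_j B (m/p) (dn p j z)`, `E(m, z) = [p ∣ m] (1/p) B (m/p) (sc (p²) z)`,
`D₂(m, z) = p² B (p² m) (sc (1/p⁴) z)`, `D₃(m, z) = p³ B (p³ m) (sc (1/p⁶) z)`. The relations give (with `e₁ B = D + X + Y` at `(m, z)`, and at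
`(p m, sc (1/p²) z)` multiplied by `p`, minus the second relation):
`e₁ B = D + X + Y`,  `D₂ = e₁ D - e₂ B + E`,  `D₃ = e₁ D₂ - e₂ D + B` (the second one at `(p m, sc (1/p²) z)` times `p`; `p E(p m, sc (1/p²) z) = B(m, z)`).
(`sc a (sc b z) = sc (a b) z`, `up p (sc c z) = sc c (up p z)`, `dn p j (sc c z) = sc c (dn p j z)`.)
For a family `G` let `|G|² = ∑_{m ≥ 1, d ∣ m} ∫_{dom T V m} |G(m, z)|² dnu`. Then
* `|B|² = QT T V d`; `|D_k|² = QT T (V/p^k) (p^k d)` (`k = 1, 2, 3`): `lintegral_sc` with `c = p^{-2k}`, the factor `p^{2k}` cancels; `sc (p^{-2k})` takes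
  `dom T V m` onto `dom T (V/p^k) (p^k m)` (`Hgt V z ↔ Hgt (V/p^k) (sc (p^{-2k}) z)`, `(p^k m)² z₁₁ / p^{2k} = m² z₁₁`), and `m ↦ p^k m` is a
  bijection from the multiples of `d` to those of `p^k d`.
* `|X|² ≤ |B|²`: `lintegral_up` (the function `g(z) = 1_{pd, Hgt V, m² z₁₁ ≤ T²} |B m z|²` is invariant under `shr` by `BFam.shear`), and
  `Hgt V z → Hgt V (up p z)` (the values of `up p z` are values of `z` at other nonzero vectors), `(up p z)₁₁ = z₁₁`; `p² / p² = 1`.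
* `|Y|² ≤ |B|²`: `|(1/p) ∑_j b_j|² ≤ (1/p) ∑_j |b_j|²` (`inner_mul_le_norm_mul_norm` or `sq_sum_le_card_mul_sum_sq`), `lintegral_dn`,
  `Hgt V z → Hgt V (dn p j z)`, `(m/p)² (dn p j z)₁₁ = m² z₁₁`; for `p ∣ m`: `d ∣ m ↔ d ∣ m/p` because `p, d` are coprime.
* `|E|² ≤ |B|²`: `lintegral_sc` with `c = p²`: `(1/p²) p² ∫_{Hgt (p V)}`, and `Hgt (p V) → Hgt V`.
At last pointwise `|a + b|² ≤ 2 |a|² + 2 |b|²`, `|a + b + c|² ≤ 3 (|a|² + |b|² + |c|²)`: `D = e₁ B - (X + Y)` with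
`|X + Y|² ≤ 2 |X|² + 2 |Y|²`, so `|X + Y|² ≤ 4 |B|²` in the norm; and so on.
-/

namespace AQ3

open MeasureTheory Matrix
open scoped ENNReal MatrixGroups

private theorem Six_m1 : Measurable (fun z : Bin => z.1) :=
  (measurable_fst : Measurable (fun z : ℝ × ℝ × ℝ => z.1))

private theorem Six_m2 : Measurable (fun z : Bin => z.2.1) :=
  (measurable_fst.comp measurable_snd : Measurable (fun z : ℝ × ℝ × ℝ => z.2.1))

private theorem Six_msc {c : ℝ} (hc : 0 ≤ c) : Measurable (sc c) := by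
  have h : sc c = bact !![√c, 0; 0, √c] := funext (sc_eq c hc)
  rw [h]
  exact measurable_bact _

private theorem Six_mup (p : ℝ) : Measurable (up p) := by
  have h : up p = bact !![1, 0; 0, p] := funext (up_eq p)
  rw [h]
  exact measurable_bact _

private theorem Six_mdn (p j : ℝ) : Measurable (dn p j) := by
  have h : dn p j = bact !![p, j; 0, 1] := funext (dn_eq p j)
  rw [h]
  exact measurable_bact _

private def Six_P (T V : ℝ) (m : ℕ) : Set Bin := {z | pd z ∧ Hgt V z ∧ (m : ℝ) ^ 2 * z.1 ≤ T ^ 2}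

private theorem Six_mP (T V : ℝ) (m : ℕ) : MeasurableSet (Six_P T V m) := by
  refine measurableSet_pd.inter ((measurableSet_hgt V).inter ?_)
  exact measurableSet_le (Six_m1.const_mul _) measurable_const

private theorem Six_mstrip : MeasurableSet strip :=
  (measurableSet_le measurable_const Six_m2).inter (measurableSet_lt Six_m2 Six_m1)

private theorem Six_dom (T V : ℝ) (m : ℕ) : dom T V m = strip ∩ Six_P T V m := by
  ext z
  constructor
  · rintro ⟨h1, h2, h3, h4, h5⟩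
    exact ⟨⟨h2, h3⟩, h1, h4, h5⟩
  · rintro ⟨⟨h2, h3⟩, h1, h4, h5⟩
    exact ⟨h1, h2, h3, h4, h5⟩

private theorem Six_mdom (T V : ℝ) (m : ℕ) : MeasurableSet (dom T V m) := by
  rw [Six_dom]
  exact Six_mstrip.inter (Six_mP T V m)

private theorem Six_en (a : ℂ) : ‖a‖ₑ ^ 2 = ENNReal.ofReal (‖a‖ ^ 2) := by
  rw [← ofReal_norm, ← ENNReal.ofReal_pow (norm_nonneg _)]

/-- measurable families -/
private def Six_M (G : ℕ → Bin → ℂ) : Prop := ∀ m, Measurable (G m)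

private theorem Six_mG {G : ℕ → Bin → ℂ} (hG : Six_M G) (m : ℕ) : Measurable fun z => ‖G m z‖ₑ ^ 2 :=
  (hG m).enorm.pow_const 2

private theorem Six_comb {G H1 H2 H3 : ℕ → Bin → ℂ} (h1 : Six_M H1) (h2 : Six_M H2)
    {c1 c2 c3 : ℝ} (hc1 : 0 ≤ c1) (hc2 : 0 ≤ c2) (hc3 : 0 ≤ c3)
    (h : ∀ m, 1 ≤ m → ∀ z, pd z → ‖G m z‖ ^ 2 ≤ c1 * ‖H1 m z‖ ^ 2 + c2 * ‖H2 m z‖ ^ 2 + c3 * ‖H3 m z‖ ^ 2)
    (T V : ℝ) (d : ℕ) :
    QT G T V d ≤ ENNReal.ofReal c1 * QT H1 T V d + ENNReal.ofReal c2 * QT H2 T V d +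
      ENNReal.ofReal c3 * QT H3 T V d := by
  unfold QT
  rw [← ENNReal.tsum_mul_left, ← ENNReal.tsum_mul_left, ← ENNReal.tsum_mul_left, ← ENNReal.tsum_add,
    ← ENNReal.tsum_add]
  apply ENNReal.tsum_le_tsum
  intro m
  by_cases hm : 1 ≤ m ∧ d ∣ m
  · simp only [if_pos hm]
    have hm12 : Measurable fun z => ENNReal.ofReal c1 * ‖H1 m z‖ₑ ^ 2 + ENNReal.ofReal c2 * ‖H2 m z‖ₑ ^ 2 :=
      ((Six_mG h1 m).const_mul _).add ((Six_mG h2 m).const_mul _)
    rw [← lintegral_const_mul' _ _ ENNReal.ofReal_ne_top, ← lintegral_const_mul' _ _ ENNReal.ofReal_ne_top,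
      ← lintegral_const_mul' _ _ ENNReal.ofReal_ne_top,
      ← lintegral_add_left ((Six_mG h1 m).const_mul _), ← lintegral_add_left hm12]
    refine setLIntegral_mono' (Six_mdom T V m) ?_
    intro z hz
    rw [Six_en, Six_en, Six_en, Six_en, ← ENNReal.ofReal_mul hc1, ← ENNReal.ofReal_mul hc2,
      ← ENNReal.ofReal_mul hc3, ← ENNReal.ofReal_add (by positivity) (by positivity),
      ← ENNReal.ofReal_add (by positivity) (by positivity)]
    exact ENNReal.ofReal_le_ofReal (h m hm.1 z hz.1)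
  · simp only [if_neg hm]
    exact zero_le

private theorem Six_smul {G : ℕ → Bin → ℂ} (hG : Six_M G) (e : ℂ) (T V : ℝ) (d : ℕ) :
    QT (fun m z => e * G m z) T V d = ENNReal.ofReal (‖e‖ ^ 2) * QT G T V d := by
  unfold QT
  rw [← ENNReal.tsum_mul_left]
  apply tsum_congr
  intro m
  by_cases hm : 1 ≤ m ∧ d ∣ m
  · simp only [if_pos hm]
    rw [← lintegral_const_mul _ (Six_mG hG m)]
    apply lintegral_congr
    intro z
    rw [Six_en, Six_en, ← ENNReal.ofReal_mul (by positivity), norm_mul, mul_pow]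
  · simp only [if_neg hm, mul_zero]

private theorem Six_bq_sc (c : ℝ) (z : Bin) (x y : ℝ) : bq (sc c z) x y = c * bq z x y := by
  unfold bq sc
  ring

private theorem Six_bdet_sc (c : ℝ) (z : Bin) : bdet (sc c z) = c ^ 2 * bdet z := by
  unfold bdet sc
  ring

private theorem Six_pd_sc {c : ℝ} (hc : 0 < c) (z : Bin) : pd (sc c z) ↔ pd z := by
  unfold pd
  rw [Six_bdet_sc]
  have h1 : (sc c z).1 = c * z.1 := rfl
  rw [h1]
  constructor
  · rintro ⟨h2, h3⟩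
    exact ⟨pos_of_mul_pos_right h2 hc.le, pos_of_mul_pos_right h3 (by positivity)⟩
  · rintro ⟨h2, h3⟩
    exact ⟨by positivity, by positivity⟩

/-- the content up by `q` -/
private noncomputable def Six_D (B : ℕ → Bin → ℂ) (q : ℕ) (m : ℕ) (z : Bin) : ℂ :=
  (q : ℂ) * B (q * m) (sc (1 / (q : ℝ) ^ 2) z)

private theorem Six_mD {B : ℕ → Bin → ℂ} (hB : Six_M B) (q : ℕ) : Six_M (Six_D B q) := by
  intro m
  exact ((hB (q * m)).comp (Six_msc (by positivity))).const_mul _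

private theorem Six_dom_sc {q : ℕ} (hq : 1 ≤ q) (T V : ℝ) (m : ℕ) (z : Bin) :
    sc (1 / (q : ℝ) ^ 2) z ∈ dom T (V / q) (q * m) ↔ z ∈ dom T V m := by
  have hq0 : (0 : ℝ) < q := by exact_mod_cast hq
  have hc : (0 : ℝ) < 1 / (q : ℝ) ^ 2 := by positivity
  have e1 : pd (sc (1 / (q : ℝ) ^ 2) z) ↔ pd z := Six_pd_sc hc z
  have e2 : 0 ≤ (sc (1 / (q : ℝ) ^ 2) z).2.1 ↔ 0 ≤ z.2.1 := by
    have : (sc (1 / (q : ℝ) ^ 2) z).2.1 = 1 / (q : ℝ) ^ 2 * z.2.1 := rfl
    rw [this]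
    exact mul_nonneg_iff_of_pos_left hc
  have e3 : (sc (1 / (q : ℝ) ^ 2) z).2.1 < (sc (1 / (q : ℝ) ^ 2) z).1 ↔ z.2.1 < z.1 := by
    have h1 : (sc (1 / (q : ℝ) ^ 2) z).2.1 = 1 / (q : ℝ) ^ 2 * z.2.1 := rfl
    have h2 : (sc (1 / (q : ℝ) ^ 2) z).1 = 1 / (q : ℝ) ^ 2 * z.1 := rfl
    rw [h1, h2]
    exact mul_lt_mul_iff_right₀ hc
  have e4 : Hgt (V / q) (sc (1 / (q : ℝ) ^ 2) z) ↔ Hgt V z := by
    unfold Hgt
    refine forall_congr' fun b => forall_congr' fun c => imp_congr_right fun _ => ?_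
    rw [Six_bq_sc]
    have : (V / q) ^ 2 = 1 / (q : ℝ) ^ 2 * V ^ 2 := by
      rw [div_pow]; ring
    rw [this]
    exact mul_le_mul_iff_right₀ hc
  have e5 : ((q * m : ℕ) : ℝ) ^ 2 * (sc (1 / (q : ℝ) ^ 2) z).1 ≤ T ^ 2 ↔ (m : ℝ) ^ 2 * z.1 ≤ T ^ 2 := by
    have h2 : (sc (1 / (q : ℝ) ^ 2) z).1 = 1 / (q : ℝ) ^ 2 * z.1 := rfl
    have h3 : ((q * m : ℕ) : ℝ) ^ 2 * (sc (1 / (q : ℝ) ^ 2) z).1 = (m : ℝ) ^ 2 * z.1 := by
      rw [h2]; push_cast; field_simp
    rw [h3]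
  exact and_congr e1 (and_congr e2 (and_congr e3 (and_congr e4 e5)))

private theorem Six_D_norm {B : ℕ → Bin → ℂ} (hB : Six_M B) {q : ℕ} (hq : 1 ≤ q) (T V : ℝ) (d : ℕ) :
    QT (Six_D B q) T V d = QT B T (V / q) (q * d) := by
  have hq0 : (0 : ℝ) < q := by exact_mod_cast hq
  have hc : (0 : ℝ) < 1 / (q : ℝ) ^ 2 := by positivity
  have hI : ∀ m, ∫⁻ z in dom T V m, ‖Six_D B q m z‖ₑ ^ 2 ∂nu =
      ∫⁻ z in dom T (V / q) (q * m), ‖B (q * m) z‖ₑ ^ 2 ∂nu := by
    intro m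
    set g : Bin → ℝ≥0∞ := (dom T (V / q) (q * m)).indicator (fun z => ENNReal.ofReal ((q : ℝ) ^ 2) * ‖B (q * m) z‖ₑ ^ 2)
      with hg
    rw [← lintegral_indicator (Six_mdom T V m)]
    have h1 : ∀ z, (dom T V m).indicator (fun z => ‖Six_D B q m z‖ₑ ^ 2) z = g (sc (1 / (q : ℝ) ^ 2) z) := by
      intro z
      by_cases hz : z ∈ dom T V m
      · rw [Set.indicator_of_mem hz, hg, Set.indicator_of_mem ((Six_dom_sc hq T V m z).2 hz)]
        unfold Six_D
        rw [Six_en, Six_en, ← ENNReal.ofReal_mul (by positivity), norm_mul, mul_pow, Complex.norm_natCast]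
      · rw [Set.indicator_of_notMem hz, hg,
          Set.indicator_of_notMem (fun h => hz ((Six_dom_sc hq T V m z).1 h))]
    rw [lintegral_congr h1, lintegral_sc hc, hg, lintegral_indicator (Six_mdom _ _ _),
      lintegral_const_mul _ (Six_mG hB (q * m)), ← mul_assoc, ← ENNReal.ofReal_mul hc.le]
    have h2 : 1 / (q : ℝ) ^ 2 * (q : ℝ) ^ 2 = 1 := by field_simp
    rw [h2, ENNReal.ofReal_one, one_mul]
  unfold QT
  have hinj : Function.Injective fun m : ℕ => q * m := fun a b hab => Nat.eq_of_mul_eq_mul_left (by omega) hab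
  rw [← hinj.tsum_eq (f := fun m : ℕ => if 1 ≤ m ∧ q * d ∣ m then
    ∫⁻ z in dom T (V / q) m, ‖B m z‖ₑ ^ 2 ∂nu else 0)]
  · apply tsum_congr
    intro m
    have h3 : (1 ≤ q * m ∧ q * d ∣ q * m) ↔ (1 ≤ m ∧ d ∣ m) := by
      apply and_congr
      · constructor
        · intro h
          rcases Nat.eq_zero_or_pos m with h0 | h0
          · rw [h0, mul_zero] at h; omega
          · exact h0
        · intro h
          exact Nat.mul_pos (by omega) h
      · exact Nat.mul_dvd_mul_iff_left (by omega)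
    by_cases hm : 1 ≤ m ∧ d ∣ m
    · rw [if_pos hm, if_pos (h3.2 hm), hI]
    · rw [if_neg hm, if_neg (fun h => hm (h3.1 h))]
  · intro m hm
    rw [Function.mem_support] at hm
    have h4 : 1 ≤ m ∧ q * d ∣ m := by
      by_contra hcon
      exact hm (if_neg hcon)
    obtain ⟨c, hc'⟩ := h4.2
    exact ⟨d * c, by rw [hc']; ring⟩

/-- the first term of (R1) -/
private noncomputable def Six_X (B : ℕ → Bin → ℂ) (p : ℕ) (m : ℕ) (z : Bin) : ℂ := 1 / (p : ℂ) * B m (up p z)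

private noncomputable def Six_Y (B : ℕ → Bin → ℂ) (p : ℕ) (m : ℕ) (z : Bin) : ℂ :=
  if p ∣ m then 1 / (p : ℂ) * ∑ j ∈ Finset.range p, B (m / p) (dn p j z) else 0

private noncomputable def Six_E (B : ℕ → Bin → ℂ) (p : ℕ) (m : ℕ) (z : Bin) : ℂ :=
  if p ∣ m then 1 / (p : ℂ) * B (m / p) (sc ((p : ℝ) ^ 2) z) else 0

private theorem Six_mX {B : ℕ → Bin → ℂ} (hB : Six_M B) (p : ℕ) : Six_M (Six_X B p) := by
  intro m
  exact ((hB m).comp (Six_mup _)).const_mul _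

private theorem Six_mY {B : ℕ → Bin → ℂ} (hB : Six_M B) (p : ℕ) : Six_M (Six_Y B p) := by
  intro m
  unfold Six_Y
  by_cases h : p ∣ m
  · simp only [if_pos h]
    apply Measurable.const_mul
    apply Finset.measurable_fun_sum
    intro j _
    exact (hB _).comp (Six_mdn _ _)
  · simp only [if_neg h]
    exact measurable_const

private theorem Six_mE {B : ℕ → Bin → ℂ} (hB : Six_M B) (p : ℕ) : Six_M (Six_E B p) := by
  intro m
  unfold Six_E
  by_cases h : p ∣ m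
  · simp only [if_pos h]
    exact ((hB _).comp (Six_msc (by positivity))).const_mul _
  · simp only [if_neg h]
    exact measurable_const

private theorem Six_hgt_bact {V : ℝ} {z : Bin} (hz : Hgt V z) {A : Matrix (Fin 2) (Fin 2) ℤ} (hA : A.det ≠ 0) :
    Hgt V (bact (rl2 A) z) := by
  intro b c hbc
  rw [bq_bact]
  have h1 : (rl2 A 0 0 * b + rl2 A 0 1 * c : ℝ) = ((A 0 0 * b + A 0 1 * c : ℤ) : ℝ) := by
    unfold rl2; push_cast; rfl
  have h2 : (rl2 A 1 0 * b + rl2 A 1 1 * c : ℝ) = ((A 1 0 * b + A 1 1 * c : ℤ) : ℝ) := by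
    unfold rl2; push_cast; rfl
  rw [h1, h2]
  apply hz
  by_contra hcon
  push Not at hcon
  obtain ⟨h3, h4⟩ := hcon
  rw [Matrix.det_fin_two] at hA
  have h5 : (A 0 0 * A 1 1 - A 0 1 * A 1 0) * b = 0 := by
    linear_combination A 1 1 * h3 - A 0 1 * h4
  have h6 : (A 0 0 * A 1 1 - A 0 1 * A 1 0) * c = 0 := by
    linear_combination A 0 0 * h4 - A 1 0 * h3
  rcases hbc with h | h
  · rcases mul_eq_zero.1 h5 with h7 | h7
    · exact hA h7
    · exact h h7
  · rcases mul_eq_zero.1 h6 with h7 | h7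
    · exact hA h7
    · exact h h7

private theorem Six_up_rl (p : ℕ) (z : Bin) : up p z = bact (rl2 !![1, 0; 0, (p : ℤ)]) z := by
  rw [up_eq]
  congr 1
  ext i j
  fin_cases i <;> fin_cases j <;> simp [rl2]

private theorem Six_dn_rl (p j : ℕ) (z : Bin) : dn p j z = bact (rl2 !![(p : ℤ), (j : ℤ); 0, 1]) z := by
  rw [dn_eq]
  congr 1
  ext i j
  fin_cases i <;> fin_cases j <;> simp [rl2]

private theorem Six_shr_rl (z : Bin) : shr z = bact (rl2 !![1, 1; 0, 1]) z := by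
  rw [shr_eq]
  congr 1
  ext i j
  fin_cases i <;> fin_cases j <;> simp [rl2]

private theorem Six_shr_inv (z : Bin) : bact (rl2 !![1, -1; 0, 1]) (shr z) = z := by
  rw [Six_shr_rl, bact_bact]
  have : rl2 !![1, 1; 0, 1] * rl2 !![1, -1; 0, 1] = 1 := by
    ext i j
    fin_cases i <;> fin_cases j <;> simp [rl2, Matrix.mul_apply, Fin.sum_univ_two]
  rw [this, bact_one]

private theorem Six_det_rl (A : Matrix (Fin 2) (Fin 2) ℤ) : (rl2 A).det = (A.det : ℝ) := by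
  unfold rl2
  rw [Matrix.det_fin_two, Matrix.det_fin_two]
  push_cast
  rfl

private theorem Six_P_shr (T V : ℝ) (m : ℕ) (z : Bin) : shr z ∈ Six_P T V m ↔ z ∈ Six_P T V m := by
  have e1 : pd (shr z) ↔ pd z := by
    rw [Six_shr_rl]
    apply pd_bact
    rw [Six_det_rl]
    norm_num [Matrix.det_fin_two]
  have e2 : Hgt V (shr z) ↔ Hgt V z := by
    constructor
    · intro h
      rw [← Six_shr_inv z]
      exact Six_hgt_bact h (by norm_num [Matrix.det_fin_two])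
    · intro h
      rw [Six_shr_rl]
      exact Six_hgt_bact h (by norm_num [Matrix.det_fin_two])
  exact and_congr e1 (and_congr e2 Iff.rfl)

private noncomputable def Six_g (B : ℕ → Bin → ℂ) (T V : ℝ) (m : ℕ) : Bin → ℝ≥0∞ :=
  (Six_P T V m).indicator fun z => ‖B m z‖ₑ ^ 2

private theorem Six_mg {B : ℕ → Bin → ℂ} (hB : Six_M B) (T V : ℝ) (m : ℕ) : Measurable (Six_g B T V m) :=
  (Six_mG hB m).indicator (Six_mP T V m)

private theorem Six_g_int (B : ℕ → Bin → ℂ) (T V : ℝ) (m : ℕ) :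
    ∫⁻ z in strip, Six_g B T V m z ∂nu = ∫⁻ z in dom T V m, ‖B m z‖ₑ ^ 2 ∂nu := by
  unfold Six_g
  rw [lintegral_indicator (Six_mP T V m), Measure.restrict_restrict (Six_mP T V m), Set.inter_comm, ← Six_dom]

private theorem Six_X_norm {B : ℕ → Bin → ℂ} (hB : BFam B) {p : ℕ} (hp : p.Prime) (T V : ℝ) (d : ℕ) :
    QT (Six_X B p) T V d ≤ QT B T V d := by
  have hp0 : (0 : ℝ) < p := by exact_mod_cast hp.pos
  unfold QT
  apply ENNReal.tsum_le_tsum
  intro m
  by_cases hm : 1 ≤ m ∧ d ∣ m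
  · simp only [if_pos hm]
    have hs : ∀ z, Six_g B T V m (shr z) = Six_g B T V m z := by
      intro z
      unfold Six_g
      by_cases hz : z ∈ Six_P T V m
      · rw [Set.indicator_of_mem hz, Set.indicator_of_mem ((Six_P_shr T V m z).2 hz), hB.shear]
      · rw [Set.indicator_of_notMem hz, Set.indicator_of_notMem (fun h => hz ((Six_P_shr T V m z).1 h))]
    have h1 : ∫⁻ z in dom T V m, ‖Six_X B p m z‖ₑ ^ 2 ∂nu ≤
        ∫⁻ z in strip, ENNReal.ofReal (1 / (p : ℝ) ^ 2) * Six_g B T V m (up p z) ∂nu := by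
      rw [← lintegral_indicator (Six_mdom T V m), ← lintegral_indicator Six_mstrip]
      apply lintegral_mono
      intro z
      by_cases hz : z ∈ dom T V m
      · have hz' := hz
        rw [Six_dom] at hz'
        have h2 : up p z ∈ Six_P T V m := by
          refine ⟨?_, ?_, ?_⟩
          · rw [Six_up_rl]
            refine (pd_bact ?_ z).2 hz'.2.1
            rw [Six_det_rl]
            have : (!![1, 0; 0, (p : ℤ)] : Matrix (Fin 2) (Fin 2) ℤ).det = p := by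
              rw [Matrix.det_fin_two]; simp
            rw [this]
            exact_mod_cast hp.ne_zero
          · rw [Six_up_rl]
            refine Six_hgt_bact hz'.2.2.1 ?_
            have : (!![1, 0; 0, (p : ℤ)] : Matrix (Fin 2) (Fin 2) ℤ).det = p := by
              rw [Matrix.det_fin_two]; simp
            rw [this]
            exact_mod_cast hp.ne_zero
          · exact hz'.2.2.2
        rw [Set.indicator_of_mem hz, Set.indicator_of_mem hz'.1]
        unfold Six_g Six_X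
        rw [Set.indicator_of_mem h2, Six_en, Six_en, ← ENNReal.ofReal_mul (by positivity), norm_mul, mul_pow,
          norm_div, norm_one, Complex.norm_natCast, div_pow, one_pow]
      · rw [Set.indicator_of_notMem hz]
        exact zero_le
    refine h1.trans ?_
    have hmm : Measurable fun z => Six_g B T V m (up p z) := (Six_mg hB.meas T V m).comp (Six_mup _)
    rw [lintegral_const_mul _ hmm,
      lintegral_up hp.pos (Six_mg hB.meas T V m) hs, Six_g_int, ← mul_assoc]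
    have h3 : ENNReal.ofReal (1 / (p : ℝ) ^ 2) * (p : ℝ≥0∞) ^ 2 = 1 := by
      rw [← ENNReal.ofReal_natCast, ← ENNReal.ofReal_pow hp0.le, ← ENNReal.ofReal_mul (by positivity)]
      have : 1 / (p : ℝ) ^ 2 * (p : ℝ) ^ 2 = 1 := by field_simp
      rw [this, ENNReal.ofReal_one]
    rw [h3, one_mul]
  · simp only [if_neg hm]
    exact le_refl _

/-- reindexing for the families supported on the multiples of `p` -/
private theorem Six_reindex {B G : ℕ → Bin → ℂ} {p : ℕ} (hp : p.Prime) (T V : ℝ) {d : ℕ} (hd : Nat.Coprime p d)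
    (h0 : ∀ m z, ¬ p ∣ m → G m z = 0)
    (h1 : ∀ m, 1 ≤ m → ∫⁻ z in dom T V (p * m), ‖G (p * m) z‖ₑ ^ 2 ∂nu ≤ ∫⁻ z in dom T V m, ‖B m z‖ₑ ^ 2 ∂nu) :
    QT G T V d ≤ QT B T V d := by
  unfold QT
  have hinj : Function.Injective fun m : ℕ => p * m := fun a b hab => Nat.eq_of_mul_eq_mul_left hp.pos hab
  rw [← hinj.tsum_eq (f := fun m : ℕ => if 1 ≤ m ∧ d ∣ m then ∫⁻ z in dom T V m, ‖G m z‖ₑ ^ 2 ∂nu else 0)]
  · apply ENNReal.tsum_le_tsum
    intro m
    by_cases hm : 1 ≤ p * m ∧ d ∣ p * m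
    · have hm1 : 1 ≤ m := by
        rcases Nat.eq_zero_or_pos m with h | h
        · rw [h, mul_zero] at hm; omega
        · exact h
      have hm2 : d ∣ m := (Nat.Coprime.dvd_of_dvd_mul_left hd.symm hm.2)
      rw [if_pos hm, if_pos ⟨hm1, hm2⟩]
      exact h1 m hm1
    · rw [if_neg hm]
      exact zero_le
  · intro m hm
    rw [Function.mem_support] at hm
    by_contra hcon
    have hpm : ¬ p ∣ m := by
      rintro ⟨c, rfl⟩
      exact hcon ⟨c, rfl⟩
    apply hm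
    by_cases hm' : 1 ≤ m ∧ d ∣ m
    · rw [if_pos hm']
      have : ∀ z, ‖G m z‖ₑ ^ 2 = 0 := by
        intro z
        rw [h0 m z hpm]; simp
      rw [lintegral_congr this]; simp
    · rw [if_neg hm']

private theorem Six_Y_norm {B : ℕ → Bin → ℂ} (hB : BFam B) {p : ℕ} (hp : p.Prime) (T V : ℝ) {d : ℕ}
    (hd : Nat.Coprime p d) : QT (Six_Y B p) T V d ≤ QT B T V d := by
  have hp0 : (0 : ℝ) < p := by exact_mod_cast hp.pos
  apply Six_reindex hp T V hd
  · intro m z hpm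
    unfold Six_Y
    rw [if_neg hpm]
  · intro m hm
    have hdiv : p * m / p = m := Nat.mul_div_cancel_left m hp.pos
    have hpt : ∀ z, z ∈ dom T V (p * m) → ‖Six_Y B p (p * m) z‖ₑ ^ 2 ≤
        ENNReal.ofReal (1 / (p : ℝ)) * ∑ j ∈ Finset.range p, Six_g B T V m (dn p j z) := by
      intro z hz
      have h2 : ∀ j : ℕ, dn p j z ∈ Six_P T V m := by
        intro j
        rw [Six_dom] at hz
        have hdet : (!![(p : ℤ), (j : ℤ); 0, 1] : Matrix (Fin 2) (Fin 2) ℤ).det = p := by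
          rw [Matrix.det_fin_two]; simp
        refine ⟨?_, ?_, ?_⟩
        · rw [Six_dn_rl]
          refine (pd_bact ?_ z).2 hz.2.1
          rw [Six_det_rl, hdet]
          exact_mod_cast hp.ne_zero
        · rw [Six_dn_rl]
          refine Six_hgt_bact hz.2.2.1 ?_
          rw [hdet]
          exact_mod_cast hp.ne_zero
        · have h3 := hz.2.2.2
          have h4 : (dn (p : ℝ) (j : ℝ) z).1 = (p : ℝ) ^ 2 * z.1 := rfl
          rw [h4]
          push_cast at h3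
          calc (m : ℝ) ^ 2 * ((p : ℝ) ^ 2 * z.1) = ((p : ℝ) * m) ^ 2 * z.1 := by ring
            _ ≤ T ^ 2 := h3
      have h3 : ∀ j ∈ Finset.range p, Six_g B T V m (dn p j z) = ENNReal.ofReal (‖B m (dn p j z)‖ ^ 2) := by
        intro j _
        unfold Six_g
        rw [Set.indicator_of_mem (h2 j), Six_en]
      rw [Finset.sum_congr rfl h3, ← ENNReal.ofReal_sum_of_nonneg (fun _ _ => by positivity),
        ← ENNReal.ofReal_mul (by positivity), Six_en]
      apply ENNReal.ofReal_le_ofReal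
      unfold Six_Y
      rw [if_pos (Dvd.intro m rfl), hdiv, norm_mul, norm_div, norm_one, Complex.norm_natCast, mul_pow]
      have h4 : ‖∑ j ∈ Finset.range p, B m (dn p j z)‖ ^ 2 ≤ p * ∑ j ∈ Finset.range p, ‖B m (dn p j z)‖ ^ 2 := by
        calc ‖∑ j ∈ Finset.range p, B m (dn p j z)‖ ^ 2 ≤ (∑ j ∈ Finset.range p, ‖B m (dn p j z)‖) ^ 2 := by
              gcongr
              exact norm_sum_le _ _
          _ ≤ (Finset.range p).card * ∑ j ∈ Finset.range p, ‖B m (dn p j z)‖ ^ 2 := sq_sum_le_card_mul_sum_sq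
          _ = _ := by rw [Finset.card_range]
      calc (1 / (p : ℝ)) ^ 2 * ‖∑ j ∈ Finset.range p, B m (dn p j z)‖ ^ 2
          ≤ (1 / (p : ℝ)) ^ 2 * (p * ∑ j ∈ Finset.range p, ‖B m (dn p j z)‖ ^ 2) := by gcongr
        _ = 1 / (p : ℝ) * ∑ j ∈ Finset.range p, ‖B m (dn p j z)‖ ^ 2 := by field_simp
    have hmeas : ∀ j ∈ Finset.range p, Measurable fun z => Six_g B T V m (dn p j z) := fun j _ =>
      (Six_mg hB.meas T V m).comp (Six_mdn _ _)
    calc ∫⁻ z in dom T V (p * m), ‖Six_Y B p (p * m) z‖ₑ ^ 2 ∂nu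
        ≤ ∫⁻ z in dom T V (p * m), ENNReal.ofReal (1 / (p : ℝ)) * ∑ j ∈ Finset.range p, Six_g B T V m (dn p j z) ∂nu :=
          setLIntegral_mono' (Six_mdom _ _ _) hpt
      _ ≤ ∫⁻ z in strip, ENNReal.ofReal (1 / (p : ℝ)) * ∑ j ∈ Finset.range p, Six_g B T V m (dn p j z) ∂nu := by
          apply lintegral_mono_set
          rw [Six_dom]
          exact Set.inter_subset_left
      _ = ENNReal.ofReal (1 / (p : ℝ)) * (p * ∫⁻ z in strip, Six_g B T V m z ∂nu) := by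
          rw [lintegral_const_mul _ (Finset.measurable_fun_sum _ hmeas), lintegral_finsetSum _ hmeas,
            lintegral_dn hp.pos (Six_mg hB.meas T V m)]
      _ = ∫⁻ z in dom T V m, ‖B m z‖ₑ ^ 2 ∂nu := by
          rw [Six_g_int, ← mul_assoc, ← ENNReal.ofReal_natCast, ← ENNReal.ofReal_mul (by positivity)]
          have : 1 / (p : ℝ) * (p : ℝ) = 1 := by field_simp
          rw [this, ENNReal.ofReal_one, one_mul]

private theorem Six_E_norm {B : ℕ → Bin → ℂ} (hB : BFam B) {p : ℕ} (hp : p.Prime) (T V : ℝ) {d : ℕ}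
    (hd : Nat.Coprime p d) : QT (Six_E B p) T V d ≤ QT B T V d := by
  have hp0 : (0 : ℝ) < p := by exact_mod_cast hp.pos
  have hp1 : (1 : ℝ) ≤ p := by exact_mod_cast hp.one_le
  have hc : (0 : ℝ) < (p : ℝ) ^ 2 := by positivity
  apply Six_reindex hp T V hd
  · intro m z hpm
    unfold Six_E
    rw [if_neg hpm]
  · intro m hm
    have hdiv : p * m / p = m := Nat.mul_div_cancel_left m hp.pos
    set g : Bin → ℝ≥0∞ := (dom T V m).indicator (fun z => ENNReal.ofReal (1 / (p : ℝ) ^ 2) * ‖B m z‖ₑ ^ 2) with hg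
    rw [← lintegral_indicator (Six_mdom T V (p * m))]
    have h1 : ∀ z, (dom T V (p * m)).indicator (fun z => ‖Six_E B p (p * m) z‖ₑ ^ 2) z ≤ g (sc ((p : ℝ) ^ 2) z) := by
      intro z
      by_cases hz : z ∈ dom T V (p * m)
      · have hz' : sc ((p : ℝ) ^ 2) z ∈ dom T V m := by
          obtain ⟨a1, a2, a3, a4, a5⟩ := hz
          refine ⟨(Six_pd_sc hc z).2 a1, ?_, ?_, ?_, ?_⟩
          · have : (sc ((p : ℝ) ^ 2) z).2.1 = (p : ℝ) ^ 2 * z.2.1 := rfl
            rw [this]; positivity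
          · have e1 : (sc ((p : ℝ) ^ 2) z).2.1 = (p : ℝ) ^ 2 * z.2.1 := rfl
            have e2 : (sc ((p : ℝ) ^ 2) z).1 = (p : ℝ) ^ 2 * z.1 := rfl
            rw [e1, e2]
            exact mul_lt_mul_of_pos_left a3 hc
          · intro b c hbc
            rw [Six_bq_sc]
            have h2 := a4 b c hbc
            have h3 : 0 ≤ bq z b c := (sq_nonneg V).trans h2
            have h4 : (1 : ℝ) ≤ (p : ℝ) ^ 2 := one_le_pow₀ hp1
            nlinarith
          · have e2 : (sc ((p : ℝ) ^ 2) z).1 = (p : ℝ) ^ 2 * z.1 := rfl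
            rw [e2]
            push_cast at a5
            calc (m : ℝ) ^ 2 * ((p : ℝ) ^ 2 * z.1) = ((p : ℝ) * m) ^ 2 * z.1 := by ring
              _ ≤ T ^ 2 := a5
        rw [Set.indicator_of_mem hz, hg, Set.indicator_of_mem hz']
        unfold Six_E
        rw [if_pos (Dvd.intro m rfl), hdiv, Six_en, Six_en, ← ENNReal.ofReal_mul (by positivity), norm_mul, mul_pow,
          norm_div, norm_one, Complex.norm_natCast, div_pow, one_pow]
      · rw [Set.indicator_of_notMem hz]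
        exact zero_le
    refine (lintegral_mono h1).trans ?_
    rw [lintegral_sc hc, hg, lintegral_indicator (Six_mdom _ _ _),
      lintegral_const_mul _ (Six_mG hB.meas m), ← mul_assoc, ← ENNReal.ofReal_mul hc.le]
    have h2 : (p : ℝ) ^ 2 * (1 / (p : ℝ) ^ 2) = 1 := by field_simp
    rw [h2, ENNReal.ofReal_one, one_mul]

private theorem Six_sc_sc (a b : ℝ) (z : Bin) : sc a (sc b z) = sc (a * b) z := by
  unfold sc
  simp only [mul_assoc]

private theorem Six_sc_one (z : Bin) : sc 1 z = z := by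
  unfold sc
  simp only [one_mul]
  rfl

private theorem Six_up_sc (p c : ℝ) (z : Bin) : up p (sc c z) = sc c (up p z) := by
  unfold up sc
  simp only
  congr 1
  congr 1
  · ring
  · ring

private theorem Six_dn_sc (p j c : ℝ) (z : Bin) : dn p j (sc c z) = sc c (dn p j z) := by
  unfold dn sc
  simp only
  congr 1
  · ring
  congr 1
  · ring
  · ring

private theorem Six_two (a b c : ℂ) : ‖a + b + c‖ ^ 2 ≤ 2 * ‖a‖ ^ 2 + 4 * ‖b‖ ^ 2 + 4 * ‖c‖ ^ 2 := by
  have h1 : ‖a + b + c‖ ≤ ‖a‖ + ‖b‖ + ‖c‖ := norm_add₃_le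
  have h2 : ‖a + b + c‖ ^ 2 ≤ (‖a‖ + ‖b‖ + ‖c‖) ^ 2 := by gcongr
  nlinarith [sq_nonneg (‖a‖ - ‖b‖ - ‖c‖), sq_nonneg (‖b‖ - ‖c‖)]

private theorem Six_three (a b c : ℂ) : ‖a + b + c‖ ^ 2 ≤ 3 * ‖a‖ ^ 2 + 3 * ‖b‖ ^ 2 + 3 * ‖c‖ ^ 2 := by
  have h1 : ‖a + b + c‖ ≤ ‖a‖ + ‖b‖ + ‖c‖ := norm_add₃_le
  have h2 : ‖a + b + c‖ ^ 2 ≤ (‖a‖ + ‖b‖ + ‖c‖) ^ 2 := by gcongr
  nlinarith [sq_nonneg (‖a‖ - ‖b‖), sq_nonneg (‖b‖ - ‖c‖), sq_nonneg (‖a‖ - ‖c‖)]

/-- The six inequalities. -/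
theorem qt_six {B : ℕ → Bin → ℂ} (hB : BFam B) {p : ℕ} (hp : p.Prime) : ∃ e₁ e₂ : ℝ, 0 ≤ e₁ ∧ 0 ≤ e₂ ∧
    ∀ T V : ℝ, ∀ d : ℕ, 0 < V → 1 ≤ d → Nat.Coprime p d →
    QT B T (V / p) (p * d) ≤ ENNReal.ofReal (2 * e₁ ^ 2 + 8) * QT B T V d ∧
    ENNReal.ofReal (e₁ ^ 2) * QT B T V d ≤ 2 * QT B T (V / p) (p * d) + 8 * QT B T V d ∧
    QT B T (V / p ^ 2) (p ^ 2 * d) ≤
      3 * (ENNReal.ofReal (e₁ ^ 2) * QT B T (V / p) (p * d) + ENNReal.ofReal (e₂ ^ 2 + 1) * QT B T V d) ∧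
    ENNReal.ofReal (e₂ ^ 2) * QT B T V d ≤
      3 * (QT B T (V / p ^ 2) (p ^ 2 * d) + ENNReal.ofReal (e₁ ^ 2) * QT B T (V / p) (p * d) + QT B T V d) ∧
    QT B T (V / p ^ 3) (p ^ 3 * d) ≤
      3 * (ENNReal.ofReal (e₁ ^ 2) * QT B T (V / p ^ 2) (p ^ 2 * d) +
        ENNReal.ofReal (e₂ ^ 2) * QT B T (V / p) (p * d) + QT B T V d) ∧
    QT B T V d ≤ 3 * (QT B T (V / p ^ 3) (p ^ 3 * d) + ENNReal.ofReal (e₁ ^ 2) * QT B T (V / p ^ 2) (p ^ 2 * d) +
        ENNReal.ofReal (e₂ ^ 2) * QT B T (V / p) (p * d)) := by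
  obtain ⟨e₁, e₂, hrel⟩ := hB.rel p hp
  have hp0 : (0 : ℝ) < p := by exact_mod_cast hp.pos
  have hpc : (p : ℂ) ≠ 0 := by exact_mod_cast hp.ne_zero
  have hBm : Six_M B := hB.meas
  set D1 : ℕ → Bin → ℂ := Six_D B p with hD1
  set D2 : ℕ → Bin → ℂ := Six_D B (p ^ 2) with hD2
  set D3 : ℕ → Bin → ℂ := Six_D B (p ^ 3) with hD3
  set X : ℕ → Bin → ℂ := Six_X B p with hX
  set Y : ℕ → Bin → ℂ := Six_Y B p with hY
  set Ef : ℕ → Bin → ℂ := Six_E B p with hEf
  -- the relations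
  have R1 : ∀ m, 1 ≤ m → ∀ z, pd z → e₁ * B m z = D1 m z + X m z + Y m z := by
    intro m hm z hz
    exact (hrel m hm z hz).1
  have R3 : ∀ m, 1 ≤ m → ∀ z, pd z → D2 m z = e₁ * D1 m z - e₂ * B m z + Ef m z := by
    intro m hm z hz
    have hz' : pd (sc (1 / (p : ℝ) ^ 2) z) := (Six_pd_sc (by positivity) z).2 hz
    have h1 := (hrel (p * m) (Nat.mul_pos hp.pos hm) _ hz').1
    have h2 := (hrel m hm z hz).2
    rw [if_pos (Dvd.intro m rfl), Nat.mul_div_cancel_left m hp.pos] at h1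
    have e1 : D2 m z = (p : ℂ) * ((p : ℂ) * B (p * (p * m)) (sc (1 / (p : ℝ) ^ 2) (sc (1 / (p : ℝ) ^ 2) z))) := by
      rw [hD2, Six_D, Six_sc_sc]
      have a1 : p ^ 2 * m = p * (p * m) := by ring
      have a2 : (1 / (((p ^ 2 : ℕ) : ℝ)) ^ 2 : ℝ) = 1 / (p : ℝ) ^ 2 * (1 / (p : ℝ) ^ 2) := by
        push_cast
        field_simp
      rw [a1, a2]
      push_cast
      ring
    have e2 : D1 m z = (p : ℂ) * B (p * m) (sc (1 / (p : ℝ) ^ 2) z) := rfl
    have e3 : Ef m z = if p ∣ m then 1 / (p : ℂ) * B (m / p) (sc ((p : ℝ) ^ 2) z) else 0 := rfl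
    have e4 : ∀ j : ℕ, B m (dn p j (sc (1 / (p : ℝ) ^ 2) z)) = B m (sc (1 / (p : ℝ) ^ 2) (dn p j z)) := by
      intro j; rw [Six_dn_sc]
    rw [e1, e2, e3]
    rw [Six_up_sc, Finset.sum_congr rfl fun j _ => e4 j] at h1
    have h3 : (p : ℂ) * (1 / p * B (p * m) (sc (1 / (p : ℝ) ^ 2) (up p z))) = B (p * m) (sc (1 / (p : ℝ) ^ 2) (up p z)) := by
      field_simp
    have h4 : (p : ℂ) * (1 / p * ∑ j ∈ Finset.range p, B m (sc (1 / (p : ℝ) ^ 2) (dn p j z))) =
        ∑ j ∈ Finset.range p, B m (sc (1 / (p : ℝ) ^ 2) (dn p j z)) := by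
      field_simp
    linear_combination (-(p : ℂ)) * h1 + h2 - h3 - h4
  have R4 : ∀ m, 1 ≤ m → ∀ z, pd z → D3 m z = e₁ * D2 m z - e₂ * D1 m z + B m z := by
    intro m hm z hz
    have hz' : pd (sc (1 / (p : ℝ) ^ 2) z) := (Six_pd_sc (by positivity) z).2 hz
    have h1 := R3 (p * m) (Nat.mul_pos hp.pos hm) _ hz'
    have e1 : D3 m z = (p : ℂ) * D2 (p * m) (sc (1 / (p : ℝ) ^ 2) z) := by
      rw [hD3, hD2, Six_D, Six_D, Six_sc_sc]
      have a1 : p ^ 3 * m = p ^ 2 * (p * m) := by ring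
      have a2 : (1 / (((p ^ 3 : ℕ) : ℝ)) ^ 2 : ℝ) = 1 / (((p ^ 2 : ℕ) : ℝ)) ^ 2 * (1 / (p : ℝ) ^ 2) := by
        push_cast
        field_simp
      rw [a1, a2]
      push_cast
      ring
    have e2 : D2 m z = (p : ℂ) * D1 (p * m) (sc (1 / (p : ℝ) ^ 2) z) := by
      rw [hD1, hD2, Six_D, Six_D, Six_sc_sc]
      have a1 : p ^ 2 * m = p * (p * m) := by ring
      have a2 : (1 / (((p ^ 2 : ℕ) : ℝ)) ^ 2 : ℝ) = 1 / (p : ℝ) ^ 2 * (1 / (p : ℝ) ^ 2) := by
        push_cast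
        field_simp
      rw [a1, a2]
      push_cast
      ring
    have e3 : D1 m z = (p : ℂ) * B (p * m) (sc (1 / (p : ℝ) ^ 2) z) := rfl
    have e4 : (p : ℂ) * Ef (p * m) (sc (1 / (p : ℝ) ^ 2) z) = B m z := by
      rw [hEf, Six_E, if_pos (Dvd.intro m rfl), Nat.mul_div_cancel_left m hp.pos, Six_sc_sc]
      have a2 : (p : ℝ) ^ 2 * (1 / (p : ℝ) ^ 2) = 1 := by field_simp
      rw [a2, Six_sc_one]
      field_simp
    rw [e1, e2, e3]
    linear_combination (p : ℂ) * h1 + e4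
  refine ⟨‖e₁‖, ‖e₂‖, norm_nonneg _, norm_nonneg _, ?_⟩
  intro T V d hV hd hcop
  have N1 : QT D1 T V d = QT B T (V / p) (p * d) := Six_D_norm hBm hp.pos T V d
  have N2 : QT D2 T V d = QT B T (V / p ^ 2) (p ^ 2 * d) := by
    have := Six_D_norm hBm (q := p ^ 2) (Nat.pow_pos hp.pos) T V d
    push_cast at this
    exact this
  have N3 : QT D3 T V d = QT B T (V / p ^ 3) (p ^ 3 * d) := by
    have := Six_D_norm hBm (q := p ^ 3) (Nat.pow_pos hp.pos) T V d
    push_cast at this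
    exact this
  rw [← N1, ← N2, ← N3]
  have NX : QT X T V d ≤ QT B T V d := Six_X_norm hB hp T V d
  have NY : QT Y T V d ≤ QT B T V d := Six_Y_norm hB hp T V hcop
  have NE : QT Ef T V d ≤ QT B T V d := Six_E_norm hB hp T V hcop
  have mD1 : Six_M D1 := Six_mD hBm p
  have mD2 : Six_M D2 := Six_mD hBm (p ^ 2)
  have mX : Six_M X := Six_mX hBm p
  have hof : ∀ x : ℝ, 0 ≤ x → ENNReal.ofReal (3 * x) = 3 * ENNReal.ofReal x := by
    intro x _
    rw [ENNReal.ofReal_mul (by norm_num)]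
    norm_num
  have h3 : ENNReal.ofReal 3 = 3 := by norm_num
  have h4 : ENNReal.ofReal 4 = 4 := by norm_num
  have h2 : ENNReal.ofReal 2 = 2 := by norm_num
  refine ⟨?_, ?_, ?_, ?_, ?_, ?_⟩
  · have h := Six_comb (G := D1) (H1 := B) (H2 := X) (H3 := Y) hBm mX
      (c1 := 2 * ‖e₁‖ ^ 2) (c2 := 4) (c3 := 4) (by positivity) (by norm_num) (by norm_num) (by
        intro m hm z hz
        have h1 : D1 m z = e₁ * B m z + -X m z + -Y m z := by rw [R1 m hm z hz]; ring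
        have h5 := Six_two (e₁ * B m z) (-X m z) (-Y m z)
        rw [← h1, norm_mul, norm_neg, norm_neg, mul_pow] at h5
        linarith) T V d
    calc QT D1 T V d ≤ ENNReal.ofReal (2 * ‖e₁‖ ^ 2) * QT B T V d + ENNReal.ofReal 4 * QT X T V d +
          ENNReal.ofReal 4 * QT Y T V d := h
      _ ≤ ENNReal.ofReal (2 * ‖e₁‖ ^ 2) * QT B T V d + ENNReal.ofReal 4 * QT B T V d +
          ENNReal.ofReal 4 * QT B T V d := by gcongr
      _ = ENNReal.ofReal (2 * ‖e₁‖ ^ 2 + 8) * QT B T V d := by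
          rw [← add_mul, ← add_mul, ← ENNReal.ofReal_add (by positivity) (by norm_num),
            ← ENNReal.ofReal_add (by positivity) (by norm_num)]
          congr 2
          ring
  · have h := Six_comb (G := fun m z => e₁ * B m z) (H1 := D1) (H2 := X) (H3 := Y) mD1 mX
      (c1 := 2) (c2 := 4) (c3 := 4) (by norm_num) (by norm_num) (by norm_num) (by
        intro m hm z hz
        have h5 := Six_two (D1 m z) (X m z) (Y m z)
        rw [← R1 m hm z hz] at h5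
        exact h5) T V d
    rw [Six_smul hBm, h2, h4] at h
    calc ENNReal.ofReal (‖e₁‖ ^ 2) * QT B T V d ≤ 2 * QT D1 T V d + 4 * QT X T V d + 4 * QT Y T V d := h
      _ ≤ 2 * QT D1 T V d + 4 * QT B T V d + 4 * QT B T V d := by gcongr
      _ = 2 * QT D1 T V d + 8 * QT B T V d := by
          rw [add_assoc, ← add_mul]
          norm_num
  · have h := Six_comb (G := D2) (H1 := D1) (H2 := B) (H3 := Ef) mD1 hBm
      (c1 := 3 * ‖e₁‖ ^ 2) (c2 := 3 * ‖e₂‖ ^ 2) (c3 := 3) (by positivity) (by positivity) (by norm_num) (by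
        intro m hm z hz
        have h1 : D2 m z = e₁ * D1 m z + -(e₂ * B m z) + Ef m z := by rw [R3 m hm z hz]; ring
        have h5 := Six_three (e₁ * D1 m z) (-(e₂ * B m z)) (Ef m z)
        rw [← h1, norm_neg, norm_mul, norm_mul, mul_pow, mul_pow] at h5
        linarith) T V d
    rw [hof _ (by positivity), hof _ (by positivity), h3] at h
    calc QT D2 T V d ≤ 3 * ENNReal.ofReal (‖e₁‖ ^ 2) * QT D1 T V d + 3 * ENNReal.ofReal (‖e₂‖ ^ 2) * QT B T V d +
          3 * QT Ef T V d := h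
      _ ≤ 3 * ENNReal.ofReal (‖e₁‖ ^ 2) * QT D1 T V d + 3 * ENNReal.ofReal (‖e₂‖ ^ 2) * QT B T V d +
          3 * QT B T V d := by gcongr
      _ = 3 * (ENNReal.ofReal (‖e₁‖ ^ 2) * QT D1 T V d + ENNReal.ofReal (‖e₂‖ ^ 2 + 1) * QT B T V d) := by
          rw [ENNReal.ofReal_add (by positivity) (by norm_num), ENNReal.ofReal_one]
          ring
  · have h := Six_comb (G := fun m z => e₂ * B m z) (H1 := D2) (H2 := D1) (H3 := Ef) mD2 mD1
      (c1 := 3) (c2 := 3 * ‖e₁‖ ^ 2) (c3 := 3) (by norm_num) (by positivity) (by norm_num) (by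
        intro m hm z hz
        have h1 : e₂ * B m z = -D2 m z + e₁ * D1 m z + Ef m z := by rw [R3 m hm z hz]; ring
        have h5 := Six_three (-D2 m z) (e₁ * D1 m z) (Ef m z)
        rw [← h1, norm_neg, norm_mul e₁, mul_pow] at h5
        linarith) T V d
    rw [Six_smul hBm, hof _ (by positivity), h3] at h
    calc ENNReal.ofReal (‖e₂‖ ^ 2) * QT B T V d ≤ 3 * QT D2 T V d + 3 * ENNReal.ofReal (‖e₁‖ ^ 2) * QT D1 T V d +
          3 * QT Ef T V d := h
      _ ≤ 3 * QT D2 T V d + 3 * ENNReal.ofReal (‖e₁‖ ^ 2) * QT D1 T V d + 3 * QT B T V d := by gcongr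
      _ = 3 * (QT D2 T V d + ENNReal.ofReal (‖e₁‖ ^ 2) * QT D1 T V d + QT B T V d) := by ring
  · have h := Six_comb (G := D3) (H1 := D2) (H2 := D1) (H3 := B) mD2 mD1
      (c1 := 3 * ‖e₁‖ ^ 2) (c2 := 3 * ‖e₂‖ ^ 2) (c3 := 3) (by positivity) (by positivity) (by norm_num) (by
        intro m hm z hz
        have h1 : D3 m z = e₁ * D2 m z + -(e₂ * D1 m z) + B m z := by rw [R4 m hm z hz]; ring
        have h5 := Six_three (e₁ * D2 m z) (-(e₂ * D1 m z)) (B m z)
        rw [← h1, norm_neg, norm_mul, norm_mul, mul_pow, mul_pow] at h5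
        linarith) T V d
    rw [hof _ (by positivity), hof _ (by positivity), h3] at h
    refine h.trans (le_of_eq ?_)
    ring
  · have h := Six_comb (G := B) (H1 := D3) (H2 := D2) (H3 := D1) (Six_mD hBm (p ^ 3)) mD2
      (c1 := 3) (c2 := 3 * ‖e₁‖ ^ 2) (c3 := 3 * ‖e₂‖ ^ 2) (by norm_num) (by positivity) (by positivity) (by
        intro m hm z hz
        have h1 : B m z = D3 m z + -(e₁ * D2 m z) + e₂ * D1 m z := by rw [R4 m hm z hz]; ring
        have h5 := Six_three (D3 m z) (-(e₁ * D2 m z)) (e₂ * D1 m z)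
        rw [← h1, norm_neg, norm_mul, norm_mul, mul_pow, mul_pow] at h5
        linarith) T V d
    rw [hof _ (by positivity), hof _ (by positivity), h3] at h
    refine h.trans (le_of_eq ?_)
    ring

end AQ3
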