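import Pool.Agent.Lib_MP_d358f8_ne.Nrm
import Pool.Agent.Lib_MP_d358f8_ne.Six
import Pool.Agent.Lib_MP_d358f8_ne.Dec

/-!
# MP_d358f8_nt: the decay of the mass of the coefficients

PROOFS. * `dq_of_bfam`: all the values `QT B (2 T) (2 V) d` with `V ≥ 1` are finite (`qt_le_qi`, `hfin` at `2 V > 1`). `qt_anti, qt_le_one, qt_zero,
qt_moment, qt_six` (for `2 T, 2 V`; `2 (V / p) = (2 V) / p`) and `ENNReal.toReal_mono`. In `six` the condition `1 ≤ V / p ^ k` makes all the levels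
which occur at least `1`.
* `qi_decay`: `dq_decay` with `V = 1`, and `qi_le`: for every `T ≥ 0` (`QT B T' ..` with `T' = 2 (T' / 2)`)
`QT B T' (2 y) 1 ≤ g(y) QT B T' 2 1 ≤ g(y) QI B 2`.
-/

namespace AQ3

open MeasureTheory Matrix
open scoped ENNReal MatrixGroups

private theorem tr1 {a b : ℝ≥0∞} {x : ℝ} (hx : 0 ≤ x) (hb : b ≠ ⊤) (h : a ≤ ENNReal.ofReal x * b) :
    a.toReal ≤ x * b.toReal := by
  have ha : a ≠ ⊤ := ne_top_of_le_ne_top (ENNReal.mul_ne_top ENNReal.ofReal_ne_top hb) h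
  lift a to NNReal using ha
  lift b to NNReal using hb
  lift x to NNReal using hx
  rw [ENNReal.ofReal_coe_nnreal] at h
  rw [ENNReal.coe_toReal, ENNReal.coe_toReal]
  exact_mod_cast h

private theorem tr2 {a b : ℝ≥0∞} {x : ℝ} (hx : 0 ≤ x) (ha : a ≠ ⊤) (hb : b ≠ ⊤) (h : ENNReal.ofReal x * b ≤ 2 * a + 8 * b) :
    x * b.toReal ≤ 2 * a.toReal + 8 * b.toReal := by
  lift a to NNReal using ha
  lift b to NNReal using hb
  lift x to NNReal using hx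
  rw [ENNReal.ofReal_coe_nnreal] at h
  rw [ENNReal.coe_toReal, ENNReal.coe_toReal]
  exact_mod_cast h

private theorem tr3 {a b c d : ℝ≥0∞} {x y : ℝ} (hx : 0 ≤ x) (hy : 0 ≤ y) (ha : a ≠ ⊤) (hb : b ≠ ⊤) (hc : c ≠ ⊤)
    (h : d ≤ 3 * (ENNReal.ofReal x * c + ENNReal.ofReal y * a + b)) :
    d.toReal ≤ 3 * (x * c.toReal + y * a.toReal + b.toReal) := by
  have hd : d ≠ ⊤ := by
    refine ne_top_of_le_ne_top (ENNReal.mul_ne_top ENNReal.ofNat_ne_top ?_) h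
    exact ENNReal.add_ne_top.2 ⟨ENNReal.add_ne_top.2 ⟨ENNReal.mul_ne_top ENNReal.ofReal_ne_top hc,
      ENNReal.mul_ne_top ENNReal.ofReal_ne_top ha⟩, hb⟩
  lift a to NNReal using ha
  lift b to NNReal using hb
  lift c to NNReal using hc
  lift d to NNReal using hd
  lift x to NNReal using hx
  lift y to NNReal using hy
  rw [ENNReal.ofReal_coe_nnreal, ENNReal.ofReal_coe_nnreal] at h
  simp only [ENNReal.coe_toReal]
  exact_mod_cast h

private theorem tr4 {a b d : ℝ≥0∞} {x y : ℝ} (hx : 0 ≤ x) (hy : 0 ≤ y) (ha : a ≠ ⊤) (hb : b ≠ ⊤)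
    (h : d ≤ 3 * (ENNReal.ofReal x * a + ENNReal.ofReal y * b)) :
    d.toReal ≤ 3 * (x * a.toReal + y * b.toReal) := by
  have h1 : d ≤ 3 * (ENNReal.ofReal x * a + ENNReal.ofReal y * b + 0) := by rwa [add_zero]
  have h2 := tr3 hx hy hb ENNReal.zero_ne_top ha h1
  rwa [ENNReal.toReal_zero, add_zero] at h2

private theorem tr5 {a b c : ℝ≥0∞} {x y : ℝ} (hx : 0 ≤ x) (hy : 0 ≤ y) (ha : a ≠ ⊤) (hb : b ≠ ⊤) (hc : c ≠ ⊤)
    (h : ENNReal.ofReal y * b ≤ 3 * (c + ENNReal.ofReal x * a + b)) :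
    y * b.toReal ≤ 3 * (c.toReal + x * a.toReal + b.toReal) := by
  lift a to NNReal using ha
  lift b to NNReal using hb
  lift c to NNReal using hc
  lift x to NNReal using hx
  lift y to NNReal using hy
  rw [ENNReal.ofReal_coe_nnreal, ENNReal.ofReal_coe_nnreal] at h
  simp only [ENNReal.coe_toReal]
  exact_mod_cast h

private theorem tr6 {a c d : ℝ≥0∞} {b : ℝ≥0∞} {x y : ℝ} (hx : 0 ≤ x) (hy : 0 ≤ y) (ha : a ≠ ⊤) (hb : b ≠ ⊤) (hc : c ≠ ⊤)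
    (hd : d ≠ ⊤) (h : b ≤ 3 * (d + ENNReal.ofReal x * c + ENNReal.ofReal y * a)) :
    b.toReal ≤ 3 * (d.toReal + x * c.toReal + y * a.toReal) := by
  lift a to NNReal using ha
  lift b to NNReal using hb
  lift c to NNReal using hc
  lift d to NNReal using hd
  lift x to NNReal using hx
  lift y to NNReal using hy
  rw [ENNReal.ofReal_coe_nnreal, ENNReal.ofReal_coe_nnreal] at h
  simp only [ENNReal.coe_toReal]
  exact_mod_cast h

private theorem fin_qt {B : ℕ → Bin → ℂ} (hfin : ∀ V : ℝ, 1 < V → QI B V ≠ ⊤) (T : ℝ) {V : ℝ} (hV : 1 ≤ V) (d : ℕ) :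
    QT B T (2 * V) d ≠ ⊤ :=
  ne_top_of_le_ne_top (hfin (2 * V) (by linarith)) (qt_le_qi B T (2 * V) d)

theorem dq_of_bfam {B : ℕ → Bin → ℂ} (hB : BFam B) (hfin : ∀ V : ℝ, 1 < V → QI B V ≠ ⊤) {T : ℝ} (hT : 0 ≤ T) :
    DQ (fun V d => (QT B (2 * T) (2 * V) d).toReal) T := by
  refine ⟨fun V d => ENNReal.toReal_nonneg, ?_, ?_, ?_, ?_, ?_⟩
  · intro V W d hV hVW
    exact ENNReal.toReal_mono (fin_qt hfin _ hV d) (qt_anti B (2 * T) (by linarith) (by linarith) d)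
  · intro V d hV
    exact ENNReal.toReal_mono (fin_qt hfin _ hV 1) (qt_le_one B (2 * T) (2 * V) d)
  · intro V hV hTV
    show (QT B (2 * T) (2 * V) 1).toReal = 0
    rw [qt_zero B (by linarith : (0 : ℝ) ≤ 2 * T) (by linarith) 1, ENNReal.toReal_zero]
  · intro V hV K hK S n hn
    have h1 := qt_moment B (2 * T) (2 * V) hK S n hn
    have hf : ∀ d, QT B (2 * T) (2 * V) d ≠ ⊤ := fun d => fin_qt hfin _ hV d
    have hs1 : ∑ D ∈ S.powersetCard K, QT B (2 * T) (2 * V) (∏ p ∈ D, n p) ≠ ⊤ :=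
      ENNReal.sum_ne_top.2 fun D _ => hf _
    have hs2 : 2 * (K : ℝ≥0∞) * QT B (2 * T) (2 * V) 1 ≠ ⊤ :=
      ENNReal.mul_ne_top (ENNReal.mul_ne_top ENNReal.ofNat_ne_top (ENNReal.natCast_ne_top K)) (hf 1)
    have h2 := ENNReal.toReal_mono (ENNReal.add_ne_top.2 ⟨hs2, hs1⟩) h1
    rw [ENNReal.toReal_add hs2 hs1, ENNReal.toReal_sum (fun p _ => hf _), ENNReal.toReal_sum (fun D _ => hf _),
      ENNReal.toReal_mul, ENNReal.toReal_mul, ENNReal.toReal_natCast, ENNReal.toReal_ofNat] at h2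
    exact h2
  · intro p hp
    obtain ⟨e₁, e₂, h1, h2, hs⟩ := qt_six hB hp
    refine ⟨e₁, e₂, h1, h2, ?_⟩
    intro V d hd hpd
    have hp1 : (1 : ℝ) ≤ p := by exact_mod_cast hp.one_lt.le
    have hp0 : (0 : ℝ) < p := by linarith
    have hx1 : 0 ≤ 2 * e₁ ^ 2 + 8 := by positivity
    have hx2 : 0 ≤ e₁ ^ 2 := by positivity
    have hx3 : 0 ≤ e₂ ^ 2 := by positivity
    have hx4 : 0 ≤ e₂ ^ 2 + 1 := by positivity
    have hlev : ∀ k : ℕ, 2 * V / (p : ℝ) ^ k = 2 * (V / (p : ℝ) ^ k) := fun k => by ring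
    have hlev1 : 2 * V / (p : ℝ) = 2 * (V / (p : ℝ)) := by ring
    have key : ∀ k : ℕ, 1 ≤ V / (p : ℝ) ^ k → 0 < V ∧ ∀ j, j ≤ k → 1 ≤ V / (p : ℝ) ^ j := by
      intro k hk
      have hpk : (0 : ℝ) < (p : ℝ) ^ k := pow_pos hp0 k
      rw [le_div_iff₀ hpk] at hk
      have hV : 0 < V := by linarith
      refine ⟨hV, fun j hj => ?_⟩
      rw [le_div_iff₀ (pow_pos hp0 j)]
      have := pow_le_pow_right₀ hp1 hj
      linarith
    refine ⟨?_, ?_, ?_⟩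
    · intro hV
      have hk := key 1 (by rwa [pow_one])
      obtain ⟨s1, s2, s3, s4, s5, s6⟩ := hs (2 * T) (2 * V) d (by linarith [hk.1]) hd hpd
      have f0 : QT B (2 * T) (2 * V) d ≠ ⊤ := fin_qt hfin _ (by have := hk.2 0 (by omega); rwa [pow_zero, div_one] at this) d
      have f1 : QT B (2 * T) (2 * (V / p)) (p * d) ≠ ⊤ := fin_qt hfin _ hV _
      rw [hlev1] at s1 s2
      exact ⟨tr1 hx1 f0 s1, tr2 hx2 f1 f0 s2⟩
    · intro hV
      have hk := key 2 hV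
      obtain ⟨s1, s2, s3, s4, s5, s6⟩ := hs (2 * T) (2 * V) d (by linarith [hk.1]) hd hpd
      have f0 : QT B (2 * T) (2 * V) d ≠ ⊤ := fin_qt hfin _ (by have := hk.2 0 (by omega); rwa [pow_zero, div_one] at this) d
      have f1 : QT B (2 * T) (2 * (V / p)) (p * d) ≠ ⊤ := fin_qt hfin _ (by have := hk.2 1 (by omega); rwa [pow_one] at this) _
      have f2 : QT B (2 * T) (2 * (V / p ^ 2)) (p ^ 2 * d) ≠ ⊤ := fin_qt hfin _ hV _
      rw [hlev1, hlev] at s3 s4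
      exact ⟨tr4 hx2 hx4 f1 f0 s3, tr5 hx2 hx3 f1 f0 f2 s4⟩
    · intro hV
      have hk := key 3 hV
      obtain ⟨s1, s2, s3, s4, s5, s6⟩ := hs (2 * T) (2 * V) d (by linarith [hk.1]) hd hpd
      have f0 : QT B (2 * T) (2 * V) d ≠ ⊤ := fin_qt hfin _ (by have := hk.2 0 (by omega); rwa [pow_zero, div_one] at this) d
      have f1 : QT B (2 * T) (2 * (V / p)) (p * d) ≠ ⊤ := fin_qt hfin _ (by have := hk.2 1 (by omega); rwa [pow_one] at this) _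
      have f2 : QT B (2 * T) (2 * (V / p ^ 2)) (p ^ 2 * d) ≠ ⊤ := fin_qt hfin _ (hk.2 2 (by omega)) _
      have f3 : QT B (2 * T) (2 * (V / p ^ 3)) (p ^ 3 * d) ≠ ⊤ := fin_qt hfin _ hV _
      rw [hlev1, hlev, hlev] at s5 s6
      exact ⟨tr3 hx2 hx3 f1 f0 f2 s5, tr6 hx2 hx3 f1 f0 f2 f3 s6⟩

theorem qi_decay (κ : ℝ) (hκ : κ < 1 / 3) : ∃ A : ℝ, 0 ≤ A ∧ ∀ B : ℕ → Bin → ℂ, BFam B →
    (∀ V : ℝ, 1 < V → QI B V ≠ ⊤) → ∀ y : ℝ, 1 ≤ y →
      QI B (2 * y) ≤ ENNReal.ofReal (Real.exp (-κ * Real.log y + A * √(Real.log y))) * QI B 2 := by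
  obtain ⟨A, hA, h⟩ := dq_decay κ hκ
  refine ⟨A, hA, ?_⟩
  intro B hB hfin y hy
  refine qi_le B hB fun T hT => ?_
  have h1 := h _ (T / 2) (dq_of_bfam hB hfin (by linarith : 0 ≤ T / 2)) 1 (le_refl 1) y hy
  have e1 : 2 * (T / 2) = T := by ring
  simp only [e1, one_mul, mul_one] at h1
  set g := Real.exp (-κ * Real.log y + A * √(Real.log y)) with hg
  have hf1 : QT B T (2 * y) 1 ≠ ⊤ := fin_qt hfin _ hy 1
  have hf2 : QT B T 2 1 ≠ ⊤ := by
    have := fin_qt hfin T (le_refl (1 : ℝ)) 1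
    rwa [mul_one] at this
  calc QT B T (2 * y) 1 = ENNReal.ofReal (QT B T (2 * y) 1).toReal := (ENNReal.ofReal_toReal hf1).symm
    _ ≤ ENNReal.ofReal (g * (QT B T 2 1).toReal) := ENNReal.ofReal_le_ofReal h1
    _ = ENNReal.ofReal g * QT B T 2 1 := by
      rw [ENNReal.ofReal_mul (Real.exp_pos _).le, ENNReal.ofReal_toReal hf2]
    _ ≤ ENNReal.ofReal g * QI B 2 := mul_le_mul_right (qt_le_qi B T 2 1) _

end AQ3
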