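import Pool.Agent.Lib_MP_d358f8_ne.Act6

/-!
# MP_d358f8_nt: the invariance of the measure

PROOFS. `γ • y = act (rl γ)ᵀ y`, the determinant of `rl γ` is `1`; `act` preserves `Pos`, `slab` and the determinant of the form
(`det (gᵀ Y g) = (det g)² det Y`), so `lintegral_act` gives the invariance of `mu`.
-/

namespace AQ3

open MeasureTheory Matrix
open scoped ENNReal MatrixGroups

instance : Countable SL(3, ℤ) := by
  have : Countable (Matrix (Fin 3) (Fin 3) ℤ) := inferInstanceAs (Countable (Fin 3 → Fin 3 → ℤ))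
  exact Function.Injective.countable (f := fun γ : SL(3, ℤ) => γ.1) Subtype.val_injective

theorem det_act (g : Matrix (Fin 3) (Fin 3) ℝ) (y : Frm) : (act g y).mat.det = g.det ^ 2 * y.mat.det := by
  rw [mat_act, Matrix.det_mul, Matrix.det_mul, Matrix.det_transpose]
  ring

theorem act_mem_pos {g : Matrix (Fin 3) (Fin 3) ℝ} (hg : g.det ≠ 0) {y : Frm} : act g y ∈ Pos ↔ y ∈ Pos := by
  have hU : IsUnit g := (Matrix.isUnit_iff_isUnit_det g).2 (isUnit_iff_ne_zero.2 hg)
  have h := Matrix.IsUnit.posDef_star_left_conjugate_iff (x := y.mat) hU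
  rw [Matrix.star_eq_conjTranspose, Matrix.conjTranspose_eq_transpose_of_trivial] at h
  show (act g y).mat.PosDef ↔ y.mat.PosDef
  rw [mat_act]
  exact h

theorem det_rl (γ : SL(3, ℤ)) : (rl γ.1).det = 1 := by
  have h : rl γ.1 = (Int.castRingHom ℝ).mapMatrix γ.1 := rfl
  rw [h, ← RingHom.map_det, γ.2, map_one]

private theorem MuInv_det (γ : SL(3, ℤ)) : (rl γ.1)ᵀ.det = 1 := by
  rw [Matrix.det_transpose, det_rl]

private theorem MuInv_smul_det (γ : SL(3, ℤ)) (y : Frm) : (γ • y).mat.det = y.mat.det := by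
  rw [smul_def, det_act, MuInv_det]
  ring

theorem smul_mem_pos (γ : SL(3, ℤ)) {y : Frm} : γ • y ∈ Pos ↔ y ∈ Pos := by
  rw [smul_def]
  exact act_mem_pos (by rw [MuInv_det]; exact one_ne_zero)

theorem smul_mem_slab (γ : SL(3, ℤ)) {y : Frm} : γ • y ∈ slab ↔ y ∈ slab := by
  have h1 := smul_mem_pos γ (y := y)
  have h2 := MuInv_smul_det γ y
  simp only [slab, Set.mem_setOf_eq, h2]
  exact and_congr h1 Iff.rfl

private theorem MuInv_c1 : Continuous fun y : Frm => y.1 := continuous_fst
private theorem MuInv_s1 : Continuous fun y : Frm => y.2 := continuous_snd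

private theorem MuInv_cont_mat (i j : Fin 3) : Continuous fun y : Frm => y.mat i j := by
  have h1 : Continuous fun y : Frm => y.1 := continuous_fst
  have h2 : Continuous fun y : Frm => y.2.1 := continuous_fst.comp continuous_snd
  have h3 : Continuous fun y : Frm => y.2.2.1 :=
    continuous_fst.comp (continuous_snd.comp continuous_snd)
  have h4 : Continuous fun y : Frm => y.2.2.2.1 :=
    continuous_fst.comp (continuous_snd.comp (continuous_snd.comp continuous_snd))
  have h5 : Continuous fun y : Frm => y.2.2.2.2.1 :=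
    continuous_fst.comp (continuous_snd.comp (continuous_snd.comp (continuous_snd.comp continuous_snd)))
  have h6 : Continuous fun y : Frm => y.2.2.2.2.2 :=
    continuous_snd.comp (continuous_snd.comp (continuous_snd.comp (continuous_snd.comp continuous_snd)))
  fin_cases i <;> fin_cases j
  · exact h1
  · exact h2
  · exact h3
  · exact h2
  · exact h4
  · exact h5
  · exact h3
  · exact h5
  · exact h6

private theorem MuInv_cont_det : Continuous fun y : Frm => y.mat.det := by
  simp only [Matrix.det_fin_three]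
  have h := MuInv_cont_mat
  exact (((((((h 0 0).mul (h 1 1)).mul (h 2 2)).sub (((h 0 0).mul (h 1 2)).mul (h 2 1))).sub
    (((h 0 1).mul (h 1 0)).mul (h 2 2))).add (((h 0 1).mul (h 1 2)).mul (h 2 0))).add
    (((h 0 2).mul (h 1 0)).mul (h 2 1))).sub (((h 0 2).mul (h 1 1)).mul (h 2 0))

private theorem MuInv_pos_iff (y : Frm) : y ∈ Pos ↔
    ∀ x : Fin 3 → ℝ, x ∈ Metric.sphere (0 : Fin 3 → ℝ) 1 → 0 < x ⬝ᵥ (y.mat *ᵥ x) := by
  constructor
  · intro h x hx
    have hx0 : x ≠ 0 := by
      rintro rfl
      simp at hx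
    have h2 := (Matrix.posDef_iff_dotProduct_mulVec.1 (show y.mat.PosDef from h)).2 hx0
    simpa using h2
  · intro h
    refine Matrix.PosDef.of_dotProduct_mulVec_pos ?_ ?_
    · show y.matᴴ = y.mat
      rw [Matrix.conjTranspose_eq_transpose_of_trivial, Frm.mat_transpose]
    · intro x hx
      have hn : 0 < ‖x‖ := norm_pos_iff.2 hx
      have h1 := h (‖x‖⁻¹ • x) (by
        rw [mem_sphere_zero_iff_norm, norm_smul, norm_inv, norm_norm, inv_mul_cancel₀ hn.ne'])
      rw [Matrix.mulVec_smul, smul_dotProduct, dotProduct_smul, smul_eq_mul, smul_eq_mul] at h1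
      have h2 : 0 < ‖x‖⁻¹ := inv_pos.2 hn
      have h3 : 0 < x ⬝ᵥ (y.mat *ᵥ x) := by
        rw [← mul_assoc] at h1
        exact (pos_iff_pos_of_mul_pos h1).1 (by positivity)
      simpa using h3

theorem isOpen_pos : IsOpen Pos := by
  rw [isOpen_iff_mem_nhds]
  intro y₀ hy₀
  have hK : IsCompact (Metric.sphere (0 : Fin 3 → ℝ) 1) := isCompact_sphere _ _
  have hc : Continuous fun p : Frm × (Fin 3 → ℝ) => p.2 ⬝ᵥ (p.1.mat *ᵥ p.2) := by
    simp only [dotProduct, Matrix.mulVec]
    refine continuous_finset_sum _ fun i _ => ?_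
    refine ((continuous_apply i).comp continuous_snd).mul ?_
    refine continuous_finset_sum _ fun j _ => ?_
    exact ((MuInv_cont_mat i j).comp continuous_fst).mul ((continuous_apply j).comp continuous_snd)
  have h := hK.eventually_forall_of_forall_eventually (x₀ := y₀)
    (P := fun (y : Frm) (x : Fin 3 → ℝ) => 0 < x ⬝ᵥ (y.mat *ᵥ x))
    (fun x hx => hc.continuousAt.eventually (lt_mem_nhds ((MuInv_pos_iff y₀).1 hy₀ x hx)))
  filter_upwards [h] with y hy
  exact (MuInv_pos_iff y).2 hy

theorem isOpen_slab : IsOpen slab := by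
  have h : slab = Pos ∩ ({y | 1 < y.mat.det} ∩ {y | y.mat.det < Real.exp 1}) := rfl
  rw [h]
  exact isOpen_pos.inter ((isOpen_lt continuous_const MuInv_cont_det).inter
    (isOpen_lt MuInv_cont_det continuous_const))

instance : MeasurableConstSMul SL(3, ℤ) Frm where
  measurable_const_smul γ := measurable_act (rl γ.1)ᵀ

private theorem MuInv_mu_apply {s : Set Frm} (hs : MeasurableSet s) :
    mu s = ∫⁻ y, (s ∩ slab).indicator (fun y => ENNReal.ofReal (1 / y.mat.det ^ 2)) y := by
  rw [mu, withDensity_apply _ hs, Measure.restrict_restrict hs,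
    lintegral_indicator (hs.inter isOpen_slab.measurableSet)]

instance : SMulInvariantMeasure SL(3, ℤ) Frm mu where
  measure_preimage_smul γ s hs := by
    have hs' : MeasurableSet ((fun x : Frm => γ • x) ⁻¹' s) := measurable_act (rl γ.1)ᵀ hs
    have hdet : (rl γ.1)ᵀ.det ≠ 0 := by rw [MuInv_det]; exact one_ne_zero
    have h := lintegral_act hdet
      ((s ∩ slab).indicator (fun y : Frm => ENNReal.ofReal (1 / y.mat.det ^ 2)))
    rw [MuInv_det] at h
    simp only [abs_one, one_pow, ENNReal.ofReal_one, one_mul] at h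
    rw [MuInv_mu_apply hs', MuInv_mu_apply hs, ← h]
    congr 1
    ext y
    have e1 : act (rl γ.1)ᵀ y = γ • y := rfl
    rw [e1]
    by_cases hy : γ • y ∈ s ∩ slab
    · have hy' : y ∈ (fun x : Frm => γ • x) ⁻¹' s ∩ slab := ⟨hy.1, (smul_mem_slab γ).1 hy.2⟩
      rw [Set.indicator_of_mem hy, Set.indicator_of_mem hy', MuInv_smul_det]
    · have hy' : y ∉ (fun x : Frm => γ • x) ⁻¹' s ∩ slab := fun h' =>
        hy ⟨h'.1, (smul_mem_slab γ).2 h'.2⟩
      rw [Set.indicator_of_notMem hy, Set.indicator_of_notMem hy']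

theorem mu_compl_pos : mu Posᶜ = 0 := by
  have h1 : (volume.restrict slab) (Posᶜ : Set Frm) = 0 := by
    rw [Measure.restrict_apply isOpen_pos.measurableSet.compl]
    have : (Posᶜ ∩ slab : Set Frm) = ∅ := by
      ext y
      simp only [Set.mem_inter_iff, Set.mem_compl_iff, Set.mem_empty_iff_false, iff_false, not_and]
      intro h h'
      exact h h'.1
    rw [this, measure_empty]
  exact withDensity_absolutelyContinuous _ _ h1

end AQ3
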