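import Pool.Agent.Lib_MP_d358f8_ne.Cos
import Pool.Agent.Lib_MP_d358f8_ne.MuInv

/-!
# MP_d358f8_nt: the invariant measure in the coordinates `(t, x₁, x₂, z)`

`jac6`. PROOF. `mu` is `1_{slab}(y) (det y)⁻² dy`. For a measurable `G ≥ 0` on `Frm = ℝ⁶` which vanishes off `Pos`
`∫ G(y) dy = ∫_{t > 0} ∫_{x₁} ∫_{x₂} ∫_z t⁵ G(t • frm3 x₁ x₂ z)`: `volume` on the product is the product measure (`lintegral_prod`
repeatedly); `y₁₁ = t`; for fixed `t > 0` substitute `y₁₂ = t x₁`, `y₁₃ = t x₂` (`Real.lintegral_comp_mul_left` type lemmas /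
`MeasureTheory.lintegral_map` with scaling of Lebesgue measure, `Real.map_volume_mul_left`), and for fixed `t, x₁, x₂`
`y₂₂ = t (x₁² + z₁₁)`, `y₂₃ = t (x₁ x₂ + z₁₂)`, `y₃₃ = t (x₂² + z₂₂)` (translation and scaling). Then
`det (t • frm3 x₁ x₂ z) = t³ bdet z`, `t • frm3 ..` is positive definite iff `pd z` (`t > 0`), `G(y) = 1_{slab}(y) (det y)⁻² g(y)` and
`g(t • y) = g(y)`: the integral is `∫_{x₁} ∫_{x₂} ∫_{z, pd} g(frm3 x₁ x₂ z) bdet(z)⁻² (∫_{1 < t³ bdet z < e} t⁵ t⁻⁶ dt)`, and the inner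
integral of `dt / t` over `(bdet z)^{-1/3} < t < (e / bdet z)^{1/3}` is `1/3`. (Tonelli; all the functions are measurable.)
-/

namespace AQ3

open MeasureTheory Matrix
open scoped ENNReal MatrixGroups

private theorem hv2 : Measure.IsAddHaarMeasure (volume : Measure (ℝ × ℝ)) := by
  rw [Measure.volume_eq_prod]
  infer_instance

private theorem hv3 : Measure.IsAddHaarMeasure (volume : Measure (ℝ × ℝ × ℝ)) := by
  have := hv2
  rw [Measure.volume_eq_prod]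
  infer_instance

private theorem hv4 : Measure.IsAddHaarMeasure (volume : Measure (ℝ × ℝ × ℝ × ℝ)) := by
  have := hv3
  rw [Measure.volume_eq_prod]
  infer_instance

private theorem hv5 : Measure.IsAddHaarMeasure (volume : Measure (ℝ × ℝ × ℝ × ℝ × ℝ)) := by
  have := hv4
  rw [Measure.volume_eq_prod]
  exact Measure.prod.instIsAddHaarMeasure _ _

private theorem scl5 {t : ℝ} (ht : 0 < t) {H : ℝ × ℝ × ℝ × ℝ × ℝ → ℝ≥0∞} (hH : Measurable H) :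
    ∫⁻ v, H v = ENNReal.ofReal (t ^ 5) * ∫⁻ v, H (t • v) := by
  have := hv5
  have h1 := Measure.map_addHaar_smul (volume : Measure (ℝ × ℝ × ℝ × ℝ × ℝ)) ht.ne'
  have h2 : Module.finrank ℝ (ℝ × ℝ × ℝ × ℝ × ℝ) = 5 := by
    simp
  rw [h2] at h1
  have h3 : ∫⁻ v, H (t • v) = ∫⁻ v, H v ∂(Measure.map (fun v : ℝ × ℝ × ℝ × ℝ × ℝ => t • v) volume) := by
    rw [lintegral_map hH (measurable_const_smul t)]
  rw [h3, h1, lintegral_smul_measure, smul_eq_mul, ← mul_assoc, ← ENNReal.ofReal_mul (by positivity),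
    abs_of_pos (by positivity), mul_inv_cancel₀ (by positivity), ENNReal.ofReal_one, one_mul]

/-- One factor of the shear. -/
private theorem shr5 {H : ℝ × ℝ × ℝ × ℝ × ℝ → ℝ≥0∞} (hH : Measurable H) :
    ∫⁻ v, H v = ∫⁻ v : ℝ × ℝ × ℝ × ℝ × ℝ, H (v.1, v.2.1, v.1 ^ 2 + v.2.2.1, v.1 * v.2.1 + v.2.2.2.1, v.2.1 ^ 2 + v.2.2.2.2) := by
  have := hv3
  have hH2 : Measurable fun v : ℝ × ℝ × ℝ × ℝ × ℝ =>
      H (v.1, v.2.1, v.1 ^ 2 + v.2.2.1, v.1 * v.2.1 + v.2.2.2.1, v.2.1 ^ 2 + v.2.2.2.2) := by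
    refine hH.comp ?_
    fun_prop
  rw [Measure.volume_eq_prod, lintegral_prod _ hH.aemeasurable, lintegral_prod _ hH2.aemeasurable]
  refine lintegral_congr fun x₁ => ?_
  have e1 : Measurable fun w : ℝ × ℝ × ℝ × ℝ => H (x₁, w) := hH.comp (by fun_prop)
  have e2 : Measurable fun w : ℝ × ℝ × ℝ × ℝ =>
      H (x₁, w.1, x₁ ^ 2 + w.2.1, x₁ * w.1 + w.2.2.1, w.1 ^ 2 + w.2.2.2) := hH.comp (by fun_prop)
  rw [Measure.volume_eq_prod, lintegral_prod _ e1.aemeasurable, lintegral_prod _ e2.aemeasurable]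
  refine lintegral_congr fun x₂ => ?_
  have e3 := lintegral_add_left_eq_self (μ := (volume : Measure (ℝ × ℝ × ℝ))) (fun w => H (x₁, x₂, w))
    (x₁ ^ 2, x₁ * x₂, x₂ ^ 2)
  rw [← e3]
  rfl

/-- The coordinates. -/
private noncomputable def crd (t : ℝ) (v : ℝ × ℝ × ℝ × ℝ × ℝ) : Frm :=
  Frm.of (t • (frm3 v.1 v.2.1 (v.2.2 : Bin)).mat)

private theorem crd_eq (t : ℝ) (v : ℝ × ℝ × ℝ × ℝ × ℝ) :
    crd t v = ((t, t • ((v.1, v.2.1, v.1 ^ 2 + v.2.2.1, v.1 * v.2.1 + v.2.2.2.1, v.2.1 ^ 2 + v.2.2.2.2) :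
      ℝ × ℝ × ℝ × ℝ × ℝ)) : ℝ × ℝ × ℝ × ℝ × ℝ × ℝ) := by
  unfold crd Frm.of frm3 Frm.mat
  simp <;> rfl

private theorem int6 {G : Frm → ℝ≥0∞} (hG : Measurable G) (h0 : ∀ y : Frm, y.1 ≤ 0 → G y = 0) :
    ∫⁻ y, G y = ∫⁻ t in Set.Ioi (0 : ℝ), ∫⁻ v : ℝ × ℝ × ℝ × ℝ × ℝ, ENNReal.ofReal (t ^ 5) * G (crd t v) := by
  have hG' : Measurable (fun y : ℝ × ℝ × ℝ × ℝ × ℝ × ℝ => G y) := hG
  have h1 : ∫⁻ y, G y = ∫⁻ y : ℝ × ℝ × ℝ × ℝ × ℝ × ℝ, G y := rfl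
  rw [h1, Measure.volume_eq_prod, lintegral_prod _ hG'.aemeasurable, ← lintegral_indicator measurableSet_Ioi]
  refine lintegral_congr fun t => ?_
  by_cases ht : 0 < t
  · rw [Set.indicator_of_mem (Set.mem_Ioi.mpr ht)]
    have m1 : Measurable fun v : ℝ × ℝ × ℝ × ℝ × ℝ => G ((t, v) : ℝ × ℝ × ℝ × ℝ × ℝ × ℝ) :=
      hG'.comp (by fun_prop)
    have m2 : Measurable fun v : ℝ × ℝ × ℝ × ℝ × ℝ => G ((t, t • v) : ℝ × ℝ × ℝ × ℝ × ℝ × ℝ) :=
      hG'.comp (by fun_prop)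
    rw [scl5 ht m1, shr5 m2, ← lintegral_const_mul']
    · refine lintegral_congr fun v => ?_
      rw [crd_eq]
    · exact ENNReal.ofReal_ne_top
  · rw [Set.indicator_of_notMem (by simpa using ht)]
    rw [lintegral_eq_zero_iff' ?_]
    · exact Filter.Eventually.of_forall fun v => h0 _ (not_lt.mp ht)
    · exact (hG'.comp (by fun_prop)).aemeasurable

private theorem int1 {b : ℝ} (hb : 0 < b) :
    ∫⁻ t in Set.Ioi (0 : ℝ), (if 1 < t ^ 3 * b ∧ t ^ 3 * b < Real.exp 1 then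
      ENNReal.ofReal (t ^ 5) * ENNReal.ofReal (1 / (t ^ 3 * b) ^ 2) else 0) =
      ENNReal.ofReal (1 / 3) * ENNReal.ofReal (1 / b ^ 2) := by
  obtain ⟨s, hs, rfl⟩ : ∃ s : ℝ, 0 < s ∧ s ^ 3 = b :=
    ⟨b ^ (1 / 3 : ℝ), Real.rpow_pos_of_pos hb _, by
      rw [← Real.rpow_natCast, ← Real.rpow_mul hb.le]
      norm_num⟩
  set r : ℝ := Real.exp (1 / 3) with hr
  have hr3 : r ^ 3 = Real.exp 1 := by
    rw [hr, ← Real.exp_nat_mul]
    norm_num
  have hr1 : 1 < r := by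
    rw [hr]
    exact Real.one_lt_exp_iff.mpr (by norm_num)
  have hr0 : 0 < r := by linarith
  have hiff : ∀ t : ℝ, 0 < t → ((1 < t ^ 3 * s ^ 3 ∧ t ^ 3 * s ^ 3 < Real.exp 1) ↔ t ∈ Set.Ioo (1 / s) (r / s)) := by
    intro t ht
    rw [← mul_pow, ← hr3, Set.mem_Ioo, div_lt_iff₀ hs, lt_div_iff₀ hs, pow_lt_pow_iff_left₀ (by positivity) (by positivity) (by norm_num),
      one_lt_pow_iff_of_nonneg (by positivity) (by norm_num)]
  have hsub : Set.Ioo (1 / s) (r / s) ⊆ Set.Ioi (0 : ℝ) := fun t ht => lt_trans (by positivity) ht.1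
  have e1 : ∫⁻ t in Set.Ioi (0 : ℝ), (if 1 < t ^ 3 * s ^ 3 ∧ t ^ 3 * s ^ 3 < Real.exp 1 then
      ENNReal.ofReal (t ^ 5) * ENNReal.ofReal (1 / (t ^ 3 * s ^ 3) ^ 2) else 0) =
      ∫⁻ t in Set.Ioo (1 / s) (r / s), ENNReal.ofReal (1 / (s ^ 3) ^ 2 * (1 / t)) := by
    rw [← lintegral_indicator measurableSet_Ioi, ← lintegral_indicator measurableSet_Ioo]
    refine lintegral_congr fun t => ?_
    by_cases ht : 0 < t
    · rw [Set.indicator_of_mem (Set.mem_Ioi.mpr ht)]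
      by_cases h : t ∈ Set.Ioo (1 / s) (r / s)
      · rw [if_pos ((hiff t ht).mpr h), Set.indicator_of_mem h, ← ENNReal.ofReal_mul (by positivity)]
        congr 1
        field_simp
      · rw [if_neg (fun h' => h ((hiff t ht).mp h')), Set.indicator_of_notMem h]
    · rw [Set.indicator_of_notMem (by simpa using ht), Set.indicator_of_notMem (fun h => ht (hsub h))]
  have hle : 1 / s ≤ r / s := by gcongr
  have hcont : ContinuousOn (fun t : ℝ => 1 / (s ^ 3) ^ 2 * (1 / t)) (Set.Icc (1 / s) (r / s)) := by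
    refine ContinuousOn.mul continuousOn_const (ContinuousOn.div continuousOn_const continuousOn_id ?_)
    intro t ht
    exact (lt_of_lt_of_le (by positivity) ht.1).ne'
  have hint : IntegrableOn (fun t : ℝ => 1 / (s ^ 3) ^ 2 * (1 / t)) (Set.Ioo (1 / s) (r / s)) :=
    (hcont.integrableOn_Icc).mono_set Set.Ioo_subset_Icc_self
  rw [e1, ← ofReal_integral_eq_lintegral_ofReal hint, ← integral_Ioc_eq_integral_Ioo,
    ← intervalIntegral.integral_of_le hle, intervalIntegral.integral_const_mul,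
    integral_one_div_of_pos (by positivity) (by positivity), ← ENNReal.ofReal_mul (by norm_num)]
  · congr 1
    have : r / s / (1 / s) = r := by field_simp
    rw [this, hr, Real.log_exp]
    ring
  · refine (ae_restrict_mem measurableSet_Ioo).mono fun t ht => ?_
    have : 0 < t := hsub ht
    show (0 : ℝ) ≤ _
    positivity

private theorem det_smul_crd (t : ℝ) (v : ℝ × ℝ × ℝ × ℝ × ℝ) :
    (crd t v).mat.det = t ^ 3 * bdet (v.2.2 : Bin) := by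
  have e : (frm3 v.1 v.2.1 v.2.2).mat.det = bdet v.2.2 := det_frm3 v.1 v.2.1 v.2.2
  unfold crd
  rw [Frm.mat_of, Matrix.det_smul]
  · exact (congrArg (t ^ Fintype.card (Fin 3) * ·) e).trans (by simp)
  · rw [Matrix.transpose_smul, Frm.mat_transpose]

private theorem posDef_crd {t : ℝ} (ht : 0 < t) (v : ℝ × ℝ × ℝ × ℝ × ℝ) :
    (crd t v).mat.PosDef ↔ pd (v.2.2 : Bin) := by
  rw [← posDef_frm3 v.1 v.2.1 (v.2.2 : Bin)]
  unfold crd
  rw [Frm.mat_of]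
  · constructor
    · intro h
      have := h.smul (inv_pos.mpr ht)
      rwa [smul_smul, inv_mul_cancel₀ ht.ne', one_smul] at this
    · intro h
      exact h.smul ht
  · rw [Matrix.transpose_smul, Frm.mat_transpose]

private theorem ind_mul {α : Type} (S : Set α) (f h : α → ℝ≥0∞) (z : α) :
    S.indicator (f * h) z = S.indicator f z * h z := by
  by_cases hz : z ∈ S
  · rw [Set.indicator_of_mem hz, Set.indicator_of_mem hz]
    rfl
  · rw [Set.indicator_of_notMem hz, Set.indicator_of_notMem hz, zero_mul]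

theorem jac6 {g : Frm → ℝ≥0∞} (hg : Measurable g) (hs : ∀ c : ℝ, 0 < c → ∀ y, g (Frm.of (c • y.mat)) = g y) :
    ∫⁻ y, g y ∂mu = ENNReal.ofReal (1 / 3) * ∫⁻ x₁ : ℝ, ∫⁻ x₂ : ℝ, ∫⁻ z, g (frm3 x₁ x₂ z) ∂nu := by
  have mdet : Measurable fun y : Frm => y.mat.det := by
    have : (fun y : Frm => y.mat.det) = fun y : ℝ × ℝ × ℝ × ℝ × ℝ × ℝ =>
        y.1 * (y.2.2.2.1 * y.2.2.2.2.2) - y.1 * (y.2.2.2.2.1 * y.2.2.2.2.1) - y.2.1 * (y.2.1 * y.2.2.2.2.2)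
          + y.2.1 * (y.2.2.2.2.1 * y.2.2.1) + y.2.2.1 * (y.2.1 * y.2.2.2.2.1) - y.2.2.1 * (y.2.2.2.1 * y.2.2.1) := by
      funext y
      rw [Matrix.det_fin_three]
      simp [Frm.mat]
      ring
    rw [this]
    have h : Measurable fun y : ℝ × ℝ × ℝ × ℝ × ℝ × ℝ =>
        y.1 * (y.2.2.2.1 * y.2.2.2.2.2) - y.1 * (y.2.2.2.2.1 * y.2.2.2.2.1) - y.2.1 * (y.2.1 * y.2.2.2.2.2)
          + y.2.1 * (y.2.2.2.2.1 * y.2.2.1) + y.2.2.1 * (y.2.1 * y.2.2.2.2.1) - y.2.2.1 * (y.2.2.2.1 * y.2.2.1) := by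
      fun_prop
    exact h
  have mslab : MeasurableSet slab := isOpen_slab.measurableSet
  have mrho : Measurable fun y : Frm => ENNReal.ofReal (1 / y.mat.det ^ 2) :=
    ENNReal.measurable_ofReal.comp (measurable_const.div (mdet.pow_const 2))
  set G : Frm → ℝ≥0∞ := slab.indicator (fun y => ENNReal.ofReal (1 / y.mat.det ^ 2) * g y) with hGdef
  have hG : Measurable G := (mrho.mul hg).indicator mslab
  have h1 : ∫⁻ y, g y ∂mu = ∫⁻ y, G y := by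
    unfold mu
    rw [lintegral_withDensity_eq_lintegral_mul _ mrho hg, ← lintegral_indicator mslab]
    rfl
  have h0 : ∀ y : Frm, y.1 ≤ 0 → G y = 0 := by
    intro y hy
    refine Set.indicator_of_notMem (fun h => ?_) _
    have h2 : 0 < y.mat 0 0 := h.1.diag_pos
    have h3 : y.mat 0 0 = y.1 := rfl
    linarith
  rw [h1, int6 hG h0]
  -- the set of the parameters
  have mbd : Measurable fun z : ℝ × ℝ × ℝ => z.1 * z.2.2 - z.2.1 ^ 2 := by fun_prop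
  have mpd : MeasurableSet {z : ℝ × ℝ × ℝ | 0 < z.1 ∧ 0 < z.1 * z.2.2 - z.2.1 ^ 2} :=
    (measurableSet_lt measurable_const measurable_fst).inter (measurableSet_lt measurable_const mbd)
  have mfr : Measurable fun v : ℝ × ℝ × ℝ × ℝ × ℝ => g (frm3 v.1 v.2.1 (v.2.2 : Bin)) := by
    have h : Measurable fun v : ℝ × ℝ × ℝ × ℝ × ℝ =>
      ((1, v.1, v.2.1, v.1 ^ 2 + v.2.2.1, v.1 * v.2.1 + v.2.2.2.1, v.2.1 ^ 2 + v.2.2.2.2) :
        ℝ × ℝ × ℝ × ℝ × ℝ × ℝ) := by fun_prop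
    exact hg.comp h
  have mrb : Measurable fun z : ℝ × ℝ × ℝ => ENNReal.ofReal (1 / (z.1 * z.2.2 - z.2.1 ^ 2) ^ 2) :=
    ENNReal.measurable_ofReal.comp (measurable_const.div (mbd.pow_const 2))
  -- the right side
  have hR : ∫⁻ x₁ : ℝ, ∫⁻ x₂ : ℝ, ∫⁻ z, g (frm3 x₁ x₂ z) ∂nu =
      ∫⁻ v : ℝ × ℝ × ℝ × ℝ × ℝ, {z : ℝ × ℝ × ℝ | 0 < z.1 ∧ 0 < z.1 * z.2.2 - z.2.1 ^ 2}.indicator
        (fun z => ENNReal.ofReal (1 / (z.1 * z.2.2 - z.2.1 ^ 2) ^ 2)) v.2.2 * g (frm3 v.1 v.2.1 v.2.2) := by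
    have mI : Measurable fun z : ℝ × ℝ × ℝ => {z : ℝ × ℝ × ℝ | 0 < z.1 ∧ 0 < z.1 * z.2.2 - z.2.1 ^ 2}.indicator
        (fun z => ENNReal.ofReal (1 / (z.1 * z.2.2 - z.2.1 ^ 2) ^ 2)) z := mrb.indicator mpd
    have m5 : Measurable fun v : ℝ × ℝ × ℝ × ℝ × ℝ => {z : ℝ × ℝ × ℝ | 0 < z.1 ∧ 0 < z.1 * z.2.2 - z.2.1 ^ 2}.indicator
        (fun z => ENNReal.ofReal (1 / (z.1 * z.2.2 - z.2.1 ^ 2) ^ 2)) v.2.2 * g (frm3 v.1 v.2.1 v.2.2) :=
      (mI.comp (by fun_prop)).mul mfr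
    rw [Measure.volume_eq_prod, lintegral_prod _ m5.aemeasurable]
    refine lintegral_congr fun x₁ => ?_
    have m4 : Measurable fun v : ℝ × ℝ × ℝ × ℝ => {z : ℝ × ℝ × ℝ | 0 < z.1 ∧ 0 < z.1 * z.2.2 - z.2.1 ^ 2}.indicator
        (fun z => ENNReal.ofReal (1 / (z.1 * z.2.2 - z.2.1 ^ 2) ^ 2)) v.2 * g (frm3 x₁ v.1 v.2) :=
      m5.comp (measurable_const.prodMk measurable_id : Measurable fun v : ℝ × ℝ × ℝ × ℝ => (x₁, v))
    rw [Measure.volume_eq_prod, lintegral_prod _ m4.aemeasurable]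
    refine lintegral_congr fun x₂ => ?_
    have m3 : Measurable fun z : ℝ × ℝ × ℝ => g (frm3 x₁ x₂ z) :=
      mfr.comp (measurable_const.prodMk (measurable_const.prodMk measurable_id) :
        Measurable fun z : ℝ × ℝ × ℝ => (x₁, x₂, z))
    have m3' : Measurable fun z : Bin => g (frm3 x₁ x₂ z) := m3
    have mrb' : Measurable fun z : Bin => ENNReal.ofReal (1 / bdet z ^ 2) := mrb
    have mpd' : MeasurableSet {z : Bin | pd z} := mpd
    unfold nu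
    rw [lintegral_withDensity_eq_lintegral_mul _ mrb' m3', ← lintegral_indicator mpd']
    show ∫⁻ z : ℝ × ℝ × ℝ, _ = _
    refine lintegral_congr fun z => ?_
    exact ind_mul {z : Bin | pd z} (fun z => ENNReal.ofReal (1 / bdet z ^ 2)) (fun z => g (frm3 x₁ x₂ z)) z
  rw [hR]
  -- the swap
  have mcrd : Measurable fun q : ℝ × (ℝ × ℝ × ℝ × ℝ × ℝ) => crd q.1 q.2 := by
    have h : Measurable fun q : ℝ × (ℝ × ℝ × ℝ × ℝ × ℝ) =>
      ((q.1, q.1 • ((q.2.1, q.2.2.1, q.2.1 ^ 2 + q.2.2.2.1, q.2.1 * q.2.2.1 + q.2.2.2.2.1,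
        q.2.2.1 ^ 2 + q.2.2.2.2.2) : ℝ × ℝ × ℝ × ℝ × ℝ)) : ℝ × ℝ × ℝ × ℝ × ℝ × ℝ) := by fun_prop
    have e : (fun q : ℝ × (ℝ × ℝ × ℝ × ℝ × ℝ) => crd q.1 q.2) = fun q : ℝ × (ℝ × ℝ × ℝ × ℝ × ℝ) =>
      ((q.1, q.1 • ((q.2.1, q.2.2.1, q.2.1 ^ 2 + q.2.2.2.1, q.2.1 * q.2.2.1 + q.2.2.2.2.1,
        q.2.2.1 ^ 2 + q.2.2.2.2.2) : ℝ × ℝ × ℝ × ℝ × ℝ)) : ℝ × ℝ × ℝ × ℝ × ℝ × ℝ) := by
      funext q
      exact crd_eq q.1 q.2
    rw [e]
    exact h
  have mt5 : Measurable fun t : ℝ => ENNReal.ofReal (t ^ 5) := by fun_prop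
  have msw : Measurable (Function.uncurry fun (t : ℝ) (v : ℝ × ℝ × ℝ × ℝ × ℝ) => ENNReal.ofReal (t ^ 5) * G (crd t v)) :=
    (mt5.comp measurable_fst).mul (hG.comp mcrd)
  rw [lintegral_lintegral_swap msw.aemeasurable, ← lintegral_const_mul']
  · refine lintegral_congr fun v => ?_
    by_cases hv : v.2.2 ∈ {z : ℝ × ℝ × ℝ | 0 < z.1 ∧ 0 < z.1 * z.2.2 - z.2.1 ^ 2}
    · rw [Set.indicator_of_mem hv, ← mul_assoc]
      have hb : 0 < v.2.2.1 * v.2.2.2.2 - v.2.2.2.1 ^ 2 := hv.2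
      rw [← int1 hb]
      have mif : Measurable fun t : ℝ => (if 1 < t ^ 3 * (v.2.2.1 * v.2.2.2.2 - v.2.2.2.1 ^ 2) ∧
          t ^ 3 * (v.2.2.1 * v.2.2.2.2 - v.2.2.2.1 ^ 2) < Real.exp 1 then
          ENNReal.ofReal (t ^ 5) * ENNReal.ofReal (1 / (t ^ 3 * (v.2.2.1 * v.2.2.2.2 - v.2.2.2.1 ^ 2)) ^ 2) else 0) := by
        have mtb : Measurable fun t : ℝ => t ^ 3 * (v.2.2.1 * v.2.2.2.2 - v.2.2.2.1 ^ 2) := by fun_prop
        refine Measurable.ite ?_ ?_ measurable_const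
        · exact (measurableSet_lt measurable_const mtb).inter (measurableSet_lt mtb measurable_const)
        · exact mt5.mul (ENNReal.measurable_ofReal.comp (measurable_const.div (by fun_prop)))
      rw [← lintegral_mul_const _ mif]
      refine setLIntegral_congr_fun measurableSet_Ioi fun t ht => ?_
      have ht' : (0 : ℝ) < t := ht
      have e1 : g (crd t v) = g (frm3 v.1 v.2.1 v.2.2) := hs t ht' _
      have e2 : (crd t v).mat.det = t ^ 3 * (v.2.2.1 * v.2.2.2.2 - v.2.2.2.1 ^ 2) := det_smul_crd t v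
      have e3 : (crd t v).mat.PosDef := (posDef_crd ht' v).mpr hv
      show ENNReal.ofReal (t ^ 5) * slab.indicator (fun y => ENNReal.ofReal (1 / y.mat.det ^ 2) * g y) (crd t v) = _
      by_cases h : 1 < t ^ 3 * (v.2.2.1 * v.2.2.2.2 - v.2.2.2.1 ^ 2) ∧
          t ^ 3 * (v.2.2.1 * v.2.2.2.2 - v.2.2.2.1 ^ 2) < Real.exp 1
      · rw [if_pos h, Set.indicator_of_mem (show crd t v ∈ slab from ⟨e3, by rw [e2]; exact h.1, by rw [e2]; exact h.2⟩),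
          e1, e2, mul_assoc]
      · rw [if_neg h, Set.indicator_of_notMem (fun h' : crd t v ∈ slab => h ⟨by rw [← e2]; exact h'.2.1, by rw [← e2]; exact h'.2.2⟩),
          mul_zero, zero_mul]
    · rw [Set.indicator_of_notMem hv, zero_mul, mul_zero]
      have e : ∫⁻ t in Set.Ioi (0 : ℝ), ENNReal.ofReal (t ^ 5) * G (crd t v) = ∫⁻ t in Set.Ioi (0 : ℝ), 0 := by
        refine setLIntegral_congr_fun measurableSet_Ioi fun t ht => ?_
        have ht' : (0 : ℝ) < t := ht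
        show ENNReal.ofReal (t ^ 5) * slab.indicator (fun y => ENNReal.ofReal (1 / y.mat.det ^ 2) * g y) (crd t v) = _
        rw [Set.indicator_of_notMem (fun h' : crd t v ∈ slab => hv ((posDef_crd ht' v).mp h'.1)), mul_zero]
      rw [e, lintegral_zero]
  · exact ENNReal.ofReal_ne_top

end AQ3
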