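import Pool.Agent.Lib_MP_d358f8_ne.Lin2

/-!
# MP_d358f8_nt: the relations of the Fourier coefficients

`bfam_of_hecF`: from the Hecke relations for the function `f` to the relations for `B m z = cf f m 0 z`.

PROOF. Write `e(t) = exp(-2 π i t)`; for fixed `z` with `pd z` the function `f x₁ x₂ z` of `(x₁, x₂)` is continuous with
period 1 in both variables, so all the integrals exist and the following substitutions are allowed
(`Function.Periodic.intervalIntegral_add_eq`, `intervalIntegral.integral_comp_div_add` ..).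

* `meas`: `f` is measurable on `ℝ × ℝ × Bin` (`cont`, `zero`, `measurableSet_pd`), then
  `MeasureTheory.StronglyMeasurable.integral_prod_right` twice (interval integrals over `0..1` are integrals over `Ioc 0 1`).
* `shear`: `eqv` for `A = !![1, 1; 0, 1]` says `f x₁ (x₁ + x₂) (shr z) = f x₁ x₂ z`; substitute `x₂ → x₂ + x₁` in the inner
  integral (period 1).
* first relation of `rel` (both sides of `hecke` times `e(m x₁)`, integrated, divided by `p`):
  `∑_{i, j} ∫∫ f ((x₁ + i)/p) ((x₂ + j)/p) w e(m x₁) = p² ∫∫ f s t w e(p m s)`, because `m x₁ = m (p s - i)` and `e(m i) = 1`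
  (each of the `p` intervals `[i/p, (i+1)/p]` gives `p ds`; there are `p²` pairs and `∑ᵢ ∫_{i/p}^{(i+1)/p} = ∫₀¹`);
  `∫∫ f x₁ (p x₂) w e(m x₁) = ∫∫ f x₁ x₂ w e(m x₁)` (`∫₀¹ g (p t) dt = ∫₀¹ g(t) dt` for `g` of period 1);
  `∫∫ f (p x₁) (x₂ + j x₁) w e(m x₁) = ∫∫ f (p x₁) x₂ w e(m x₁)`, which is `B (m / p) w` if `p ∣ m` (again
  `∫₀¹ g (p t) dt = ∫₀¹ g`) and `0` if `p ∤ m` (`∫₀¹ g(p t) e(m t) dt = 0` for `g` continuous of period 1: the substitution
  `t → t + 1/p` multiplies the integral by the factor `e(m / p) ≠ 1`).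
* second relation: `∫∫ f (p x₁) (p x₂) w e(m x₁)` is `B (m / p) w` or `0` as before;
  `∑_k ∫∫ f ((x₁ + k)/p) x₂ w e(m x₁) = p B (p m) w`; and `∑_k ∫₀¹ f x₁ ((x₂ + j x₁ + k)/p) w dx₂ = p ∫₀¹ f x₁ t w dt`.
-/

namespace AQ3

open MeasureTheory Matrix
open scoped ENNReal MatrixGroups

/-- `e(-m s)` -/
private noncomputable def RelE (m : ℕ) (s : ℝ) : ℂ := Complex.exp (-(2 * Real.pi * Complex.I * (m * s)))

/-- the integral over the second variable -/
private noncomputable def RelG (f : ℝ → ℝ → Bin → ℂ) (w : Bin) (s : ℝ) : ℂ := ∫ x in (0 : ℝ)..1, f s x w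

private theorem Rel_cf (f : ℝ → ℝ → Bin → ℂ) (m : ℕ) (w : Bin) :
    cf f m 0 w = ∫ s in (0 : ℝ)..1, RelG f w s * RelE m s := by
  unfold cf
  refine intervalIntegral.integral_congr fun s _ => ?_
  show (∫ x₂ in (0 : ℝ)..1, f s x₂ w *
    Complex.exp (-(2 * Real.pi * Complex.I * (((m : ℤ) : ℂ) * s + ((0 : ℤ) : ℂ) * x₂)))) = _
  have h : ∀ x₂ : ℝ, Complex.exp (-(2 * Real.pi * Complex.I * (((m : ℤ) : ℂ) * s + ((0 : ℤ) : ℂ) * x₂))) =
      RelE m s := by
    intro x
    unfold RelE
    congr 1
    push_cast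
    ring
  simp only [h]
  rw [intervalIntegral.integral_mul_const]
  rfl

private theorem RelE_cont (m : ℕ) : Continuous (RelE m) := by
  unfold RelE
  fun_prop

private theorem RelE_add (m : ℕ) (s t : ℝ) : RelE m (s + t) = RelE m s * RelE m t := by
  unfold RelE
  rw [← Complex.exp_add]
  congr 1
  push_cast
  ring

private theorem RelE_nat (m i : ℕ) : RelE m i = 1 := by
  unfold RelE
  rw [Complex.exp_eq_one_iff]
  refine ⟨-((m * i : ℕ) : ℤ), ?_⟩
  push_cast
  ring

private theorem RelE_per (m : ℕ) : Function.Periodic (RelE m) 1 := by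
  intro s
  have h := RelE_nat m 1
  rw [Nat.cast_one] at h
  rw [RelE_add, h, mul_one]

private theorem Rel_cont {f : ℝ → ℝ → Bin → ℂ} (hf : HecF f) (w : Bin) :
    Continuous fun q : ℝ × ℝ => f q.1 q.2 w := by
  by_cases hw : pd w
  · have h1 : Continuous fun q : ℝ × ℝ => ((q.1, q.2, w) : ℝ × ℝ × Bin) := by fun_prop
    exact hf.cont.comp_continuous h1 fun q => hw
  · have h : (fun q : ℝ × ℝ => f q.1 q.2 w) = fun _ => 0 := by
      funext q
      exact hf.zero _ _ _ hw
    rw [h]
    exact continuous_const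

private theorem Rel_cont2 {f : ℝ → ℝ → Bin → ℂ} (hf : HecF f) (w : Bin) (s : ℝ) :
    Continuous fun x : ℝ => f s x w := by
  have h1 : Continuous fun x : ℝ => ((s, x) : ℝ × ℝ) := by fun_prop
  exact (Rel_cont hf w).comp h1

private theorem RelG_cont {f : ℝ → ℝ → Bin → ℂ} (hf : HecF f) (w : Bin) : Continuous (RelG f w) := by
  unfold RelG
  exact intervalIntegral.continuous_parametric_intervalIntegral_of_continuous' (f := fun s x => f s x w)
    (Rel_cont hf w) 0 1

private theorem RelG_per {f : ℝ → ℝ → Bin → ℂ} (hf : HecF f) (w : Bin) : Function.Periodic (RelG f w) 1 := by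
  intro s
  unfold RelG
  simp only [hf.per1]

/-- `∫₀¹ H (x + c) = ∫₀¹ H` -/
private theorem Rel_shift {H : ℝ → ℂ} (hp : Function.Periodic H 1) (c : ℝ) :
    ∫ x in (0 : ℝ)..1, H (x + c) = ∫ x in (0 : ℝ)..1, H x := by
  rw [intervalIntegral.integral_comp_add_right, zero_add, add_comm 1 c]
  have h := hp.intervalIntegral_add_eq c 0
  rw [zero_add] at h
  exact h

/-- `∫₀¹ H (p x) = ∫₀¹ H` -/
private theorem Rel_mul {H : ℝ → ℂ} (hc : Continuous H) (hp : Function.Periodic H 1) {p : ℕ} (hp0 : 0 < p) :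
    ∫ x in (0 : ℝ)..1, H (p * x) = ∫ x in (0 : ℝ)..1, H x := by
  have hpc : (p : ℝ) ≠ 0 := Nat.cast_ne_zero.2 hp0.ne'
  rw [intervalIntegral.integral_comp_mul_left _ hpc, mul_zero, mul_one]
  have h := hp.intervalIntegral_add_zsmul_eq (p : ℤ) 0 (fun t₁ t₂ => hc.intervalIntegrable t₁ t₂)
  rw [zero_add, zero_add] at h
  have h2 : ((p : ℤ) • (1 : ℝ)) = (p : ℝ) := by simp
  rw [h2] at h
  rw [h, ← Int.cast_smul_eq_zsmul ℝ, smul_smul]
  have h3 : ((p : ℝ)⁻¹ * ((p : ℤ) : ℝ)) = 1 := by
    rw [Int.cast_natCast]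
    exact inv_mul_cancel₀ hpc
  rw [h3, one_smul]

/-- `∑ₖ ∫₀¹ H ((x + c + k) / p) = p ∫₀¹ H` -/
private theorem Rel_sum {H : ℝ → ℂ} (hc : Continuous H) (hp : Function.Periodic H 1) {p : ℕ} (hp0 : 0 < p) (c : ℝ) :
    ∑ k ∈ Finset.range p, ∫ x in (0 : ℝ)..1, H ((x + c + k) / p) = p * ∫ x in (0 : ℝ)..1, H x := by
  have hpc : (p : ℝ) ≠ 0 := Nat.cast_ne_zero.2 hp0.ne'
  have h1 : ∀ k : ℕ, ∫ x in (0 : ℝ)..1, H ((x + c + k) / p) =
      (p : ℝ) • ∫ x in ((c + (k : ℕ)) / p : ℝ)..((c + ((k + 1 : ℕ) : ℝ)) / p : ℝ), H x := by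
    intro k
    have h2 : (∫ x in (0 : ℝ)..1, H ((x + c + k) / p)) = ∫ x in (0 : ℝ)..1, H ((x + (c + k)) / p) := by
      refine intervalIntegral.integral_congr fun x _ => ?_
      show H ((x + c + k) / p) = H ((x + (c + k)) / p)
      rw [add_assoc]
    rw [h2, intervalIntegral.integral_comp_add_right (fun y => H (y / p)) (c + k),
      intervalIntegral.integral_comp_div _ hpc]
    congr 2
    · rw [zero_add]
    · push_cast
      ring
  rw [Finset.sum_congr rfl fun k _ => h1 k, ← Finset.smul_sum,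
    intervalIntegral.sum_integral_adjacent_intervals (a := fun k : ℕ => ((c + (k : ℕ)) / p : ℝ))
      (fun k _ => hc.intervalIntegrable _ _)]
  have h3 : (c + ((p : ℕ) : ℝ)) / p = (c + ((0 : ℕ) : ℝ)) / p + 1 := by
    rw [Nat.cast_zero, add_zero, add_div, div_self hpc]
  rw [h3, hp.intervalIntegral_add_eq _ 0, zero_add]
  simp

/-- the sum over the translates with a character -/
private theorem Rel_sumE {G : ℝ → ℂ} (hc : Continuous G) (hp : Function.Periodic G 1) {p : ℕ} (hp0 : 0 < p) (m : ℕ) :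
    ∑ i ∈ Finset.range p, ∫ s in (0 : ℝ)..1, G ((s + i) / p) * RelE m s =
      p * ∫ s in (0 : ℝ)..1, G s * RelE (p * m) s := by
  have hpc : (p : ℝ) ≠ 0 := Nat.cast_ne_zero.2 hp0.ne'
  have hH : Function.Periodic (fun s => G s * RelE (p * m) s) 1 := fun s => by
    show G (s + 1) * RelE (p * m) (s + 1) = _
    rw [hp s, RelE_per (p * m) s]
  rw [← Rel_sum (H := fun s => G s * RelE (p * m) s) (hc.mul (RelE_cont _)) hH hp0 0]
  refine Finset.sum_congr rfl fun i _ => ?_
  refine intervalIntegral.integral_congr fun s _ => ?_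
  show G ((s + i) / p) * RelE m s = G ((s + 0 + i) / p) * RelE (p * m) ((s + 0 + i) / p)
  rw [add_zero]
  congr 1
  have h1 : RelE (p * m) ((s + i) / p) = RelE m (s + i) := by
    unfold RelE
    congr 1
    have hpC : (p : ℂ) ≠ 0 := Nat.cast_ne_zero.2 hp0.ne'
    push_cast
    field_simp
  rw [h1, RelE_add, RelE_nat, mul_one]

/-- the integral of a function of period `1 / p` against a character -/
private theorem Rel_dvd {G : ℝ → ℂ} (hc : Continuous G) (hp : Function.Periodic G 1) {p : ℕ} (hp0 : 0 < p) (m : ℕ) :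
    ∫ s in (0 : ℝ)..1, G (p * s) * RelE m s = if p ∣ m then ∫ s in (0 : ℝ)..1, G s * RelE (m / p) s else 0 := by
  have hpc : (p : ℝ) ≠ 0 := Nat.cast_ne_zero.2 hp0.ne'
  have hpC : (p : ℂ) ≠ 0 := Nat.cast_ne_zero.2 hp0.ne'
  by_cases hpm : p ∣ m
  · rw [if_pos hpm]
    obtain ⟨m', rfl⟩ := hpm
    rw [Nat.mul_div_cancel_left m' hp0]
    have hH : Function.Periodic (fun s => G s * RelE m' s) 1 := fun s => by
      show G (s + 1) * RelE m' (s + 1) = _
      rw [hp s, RelE_per m' s]
    rw [← Rel_mul (H := fun s => G s * RelE m' s) (hc.mul (RelE_cont _)) hH hp0]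
    refine intervalIntegral.integral_congr fun s _ => ?_
    show G (p * s) * RelE (p * m') s = G (p * s) * RelE m' (p * s)
    congr 1
    unfold RelE
    congr 1
    push_cast
    ring
  · rw [if_neg hpm]
    have hH : Function.Periodic (fun s : ℝ => G (p * s) * RelE m s) 1 := fun s => by
      show G (p * (s + 1)) * RelE m (s + 1) = _
      have h1 : G (p * (s + 1)) = G (p * s) := by
        rw [mul_add, mul_one]
        have h2 := hp.nat_mul p (p * s)
        rw [mul_one] at h2
        exact h2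
      rw [h1, RelE_per m s]
    have hs := Rel_shift hH ((p : ℝ)⁻¹)
    have h2 : (∫ x in (0 : ℝ)..1, G (p * (x + (p : ℝ)⁻¹)) * RelE m (x + (p : ℝ)⁻¹)) =
        RelE m ((p : ℝ)⁻¹) * ∫ x in (0 : ℝ)..1, G (p * x) * RelE m x := by
      rw [← intervalIntegral.integral_const_mul]
      refine intervalIntegral.integral_congr fun s _ => ?_
      show G (p * (s + (p : ℝ)⁻¹)) * RelE m (s + (p : ℝ)⁻¹) = RelE m ((p : ℝ)⁻¹) * (G (p * s) * RelE m s)
      rw [mul_add, mul_inv_cancel₀ hpc, hp, RelE_add]
      ring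
    rw [h2] at hs
    have h3 : RelE m ((p : ℝ)⁻¹) ≠ 1 := by
      unfold RelE
      intro h
      rw [Complex.exp_eq_one_iff] at h
      obtain ⟨n, hn⟩ := h
      apply hpm
      have hI : (2 * Real.pi * Complex.I : ℂ) ≠ 0 := Complex.two_pi_I_ne_zero
      have h4 : (m : ℂ) = -(n : ℂ) * p := by
        have h5 : -(2 * Real.pi * Complex.I * ((m : ℂ) * ((p : ℝ)⁻¹ : ℝ))) * p = n * (2 * Real.pi * Complex.I) * p := by
          rw [hn]
        have h6 : ((((p : ℝ)⁻¹ : ℝ)) : ℂ) * p = 1 := by
          push_cast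
          exact inv_mul_cancel₀ hpC
        have h7 : (2 * Real.pi * Complex.I) * (m : ℂ) = (2 * Real.pi * Complex.I) * (-(n : ℂ) * p) := by
          calc (2 * Real.pi * Complex.I) * (m : ℂ) = (2 * Real.pi * Complex.I) * (m : ℂ) * (((((p : ℝ)⁻¹ : ℝ)) : ℂ) * p) := by
                rw [h6, mul_one]
            _ = -(-(2 * Real.pi * Complex.I * ((m : ℂ) * ((p : ℝ)⁻¹ : ℝ))) * p) := by ring
            _ = -(n * (2 * Real.pi * Complex.I) * p) := by rw [h5]
            _ = _ := by ring
        exact mul_left_cancel₀ hI h7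
      have h8 : (m : ℤ) = -n * p := by exact_mod_cast h4
      have h9 : (p : ℤ) ∣ (m : ℤ) := ⟨-n, by rw [h8]; ring⟩
      exact_mod_cast h9
    have h4 : (RelE m ((p : ℝ)⁻¹) - 1) * ∫ x in (0 : ℝ)..1, G (p * x) * RelE m x = 0 := by
      rw [sub_mul, hs, one_mul, sub_self]
    exact (mul_eq_zero.1 h4).resolve_left (sub_ne_zero.2 h3)

private theorem Rel_meas {f : ℝ → ℝ → Bin → ℂ} (hf : HecF f) (m : ℕ) : Measurable fun z => cf f m 0 z := by
  classical
  have hF : Measurable fun q : ℝ × ℝ × Bin => f q.1 q.2.1 q.2.2 := by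
    have hS : MeasurableSet {q : ℝ × ℝ × Bin | pd q.2.2} := (measurable_snd.comp measurable_snd) measurableSet_pd
    have h1 : (fun q : ℝ × ℝ × Bin => f q.1 q.2.1 q.2.2) =
        Set.piecewise {q : ℝ × ℝ × Bin | pd q.2.2} (fun q => f q.1 q.2.1 q.2.2) fun _ => 0 := by
      funext q
      by_cases hq : q ∈ {q : ℝ × ℝ × Bin | pd q.2.2}
      · rw [Set.piecewise_eq_of_mem _ _ _ hq]
      · rw [Set.piecewise_eq_of_notMem _ _ _ hq]
        exact hf.zero _ _ _ hq
    rw [h1]
    exact hf.cont.measurable_piecewise continuousOn_const hS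
  have hG : StronglyMeasurable fun q : Bin × ℝ => RelG f q.1 q.2 := by
    have h2 : StronglyMeasurable fun q : (Bin × ℝ) × ℝ => f q.1.2 q.2 q.1.1 :=
      (hF.comp ((measurable_snd.comp measurable_fst).prodMk
        (measurable_snd.prodMk (measurable_fst.comp measurable_fst)))).stronglyMeasurable
    have h3 := h2.integral_prod_right' (ν := volume.restrict (Set.Ioc (0 : ℝ) 1))
    have h4 : (fun q : Bin × ℝ => RelG f q.1 q.2) =
        fun q : Bin × ℝ => ∫ x, f q.2 x q.1 ∂(volume.restrict (Set.Ioc (0 : ℝ) 1)) := by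
      funext q
      exact intervalIntegral.integral_of_le zero_le_one
    rw [h4]
    exact h3
  have h5 : StronglyMeasurable fun q : Bin × ℝ => RelG f q.1 q.2 * RelE m q.2 :=
    hG.mul (((RelE_cont m).measurable.comp measurable_snd).stronglyMeasurable)
  have h6 := h5.integral_prod_right' (ν := volume.restrict (Set.Ioc (0 : ℝ) 1))
  have h7 : (fun z => cf f m 0 z) =
      fun z => ∫ s, RelG f z s * RelE m s ∂(volume.restrict (Set.Ioc (0 : ℝ) 1)) := by
    funext z
    rw [Rel_cf]
    exact intervalIntegral.integral_of_le zero_le_one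
  rw [h7]
  exact h6.measurable

private theorem Rel_shear {f : ℝ → ℝ → Bin → ℂ} (hf : HecF f) (m : ℕ) (z : Bin) : cf f m 0 (shr z) = cf f m 0 z := by
  rw [Rel_cf, Rel_cf]
  refine intervalIntegral.integral_congr fun s _ => ?_
  show RelG f (shr z) s * RelE m s = RelG f z s * RelE m s
  congr 1
  have hdet : (!![1, 1; 0, 1] : Matrix (Fin 2) (Fin 2) ℤ).det = 1 := by
    rw [Matrix.det_fin_two_of]
    norm_num
  have h1 : ∀ x : ℝ, f s (x + s) (shr z) = f s x z := by
    intro x
    have h2 := hf.eqv ⟨!![1, 1; 0, 1], hdet⟩ s x z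
    have h3 : bact (rl2 (!![1, 1; 0, 1] : Matrix (Fin 2) (Fin 2) ℤ)) z = shr z := by
      rw [shr_eq]
      congr 1
      ext i j
      fin_cases i <;> fin_cases j <;> simp [rl2]
    have h4 : f (s * ((1 : ℤ) : ℝ) + x * ((0 : ℤ) : ℝ)) (s * ((1 : ℤ) : ℝ) + x * ((1 : ℤ) : ℝ))
        (bact (rl2 (!![1, 1; 0, 1] : Matrix (Fin 2) (Fin 2) ℤ)) z) = f s x z := h2
    rw [h3] at h4
    rw [← h4]
    congr 1
    · push_cast; ring
    · push_cast; ring
  have hper : Function.Periodic (fun x => f s x (shr z)) 1 := fun x => hf.per2 _ _ _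
  calc RelG f (shr z) s = ∫ x in (0 : ℝ)..1, f s (x + s) (shr z) := (Rel_shift hper s).symm
    _ = RelG f z s := by
        unfold RelG
        simp only [h1]

theorem bfam_of_hecF {f : ℝ → ℝ → Bin → ℂ} (hf : HecF f) : BFam (fun m z => cf f m 0 z) := by
  refine ⟨fun m => Rel_meas hf m, fun m z => Rel_shear hf m z, ?_⟩
  intro p hp
  have hp0 : 0 < p := hp.pos
  have hpC : (p : ℂ) ≠ 0 := Nat.cast_ne_zero.2 hp0.ne'
  have per : ∀ (s : ℝ) (w : Bin), Function.Periodic (fun x => f s x w) 1 := fun s w x => hf.per2 _ _ _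
  have hGi : ∀ w : Bin, ∀ m : ℕ, ∀ a : ℝ → ℝ, Continuous a →
      IntervalIntegrable (fun s => RelG f w (a s) * RelE m s) volume 0 1 := fun w m a ha =>
    (((RelG_cont hf w).comp ha).mul (RelE_cont m)).intervalIntegrable _ _
  obtain ⟨e₁, e₂, he⟩ := hf.hecke p hp
  refine ⟨e₁, e₂, fun m _ z hz => ⟨?_, ?_⟩⟩
  · -- the first relation
    have h1 : ∀ s : ℝ, p * e₁ * RelG f z s = (∑ i ∈ Finset.range p, p * RelG f (sc (1 / p ^ 2) z) ((s + i) / p)) +
        RelG f (up p z) s + ∑ j ∈ Finset.range p, RelG f (dn p j z) (p * s) := by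
      intro s
      have i1 : ∀ i j : ℕ, IntervalIntegrable (fun x : ℝ => f ((s + i) / p) ((x + j) / p) (sc (1 / p ^ 2) z)) volume 0 1 :=
        fun i j => ((Rel_cont2 hf _ _).comp (by fun_prop : Continuous fun x : ℝ => (x + j) / p)).intervalIntegrable _ _
      have i2 : IntervalIntegrable (fun x : ℝ => f s (p * x) (up p z)) volume 0 1 :=
        ((Rel_cont2 hf _ _).comp (by fun_prop : Continuous fun x : ℝ => p * x)).intervalIntegrable _ _
      have i3 : ∀ j : ℕ, IntervalIntegrable (fun x : ℝ => f (p * s) (x + j * s) (dn p j z)) volume 0 1 :=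
        fun j => ((Rel_cont2 hf _ _).comp (by fun_prop : Continuous fun x : ℝ => x + j * s)).intervalIntegrable _ _
      have i1' : IntervalIntegrable (fun x : ℝ => ∑ i ∈ Finset.range p, ∑ j ∈ Finset.range p,
          f ((s + i) / p) ((x + j) / p) (sc (1 / p ^ 2) z)) volume 0 1 := by
        refine Continuous.intervalIntegrable ?_ _ _
        refine continuous_finsetSum _ fun i _ => continuous_finsetSum _ fun j _ => ?_
        exact (Rel_cont2 hf _ _).comp (by fun_prop : Continuous fun x : ℝ => (x + (j : ℕ)) / p)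
      have i3' : IntervalIntegrable (fun x : ℝ => ∑ j ∈ Finset.range p, f (p * s) (x + j * s) (dn p j z)) volume 0 1 := by
        refine Continuous.intervalIntegrable ?_ _ _
        refine continuous_finsetSum _ fun j _ => ?_
        exact (Rel_cont2 hf _ _).comp (by fun_prop : Continuous fun x : ℝ => x + (j : ℕ) * s)
      have i1'' : ∀ i : ℕ, IntervalIntegrable (fun x : ℝ => ∑ j ∈ Finset.range p,
          f ((s + i) / p) ((x + j) / p) (sc (1 / p ^ 2) z)) volume 0 1 := by
        intro i
        refine Continuous.intervalIntegrable ?_ _ _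
        refine continuous_finsetSum _ fun j _ => ?_
        exact (Rel_cont2 hf _ _).comp (by fun_prop : Continuous fun x : ℝ => (x + (j : ℕ)) / p)
      calc p * e₁ * RelG f z s = ∫ x in (0 : ℝ)..1, p * e₁ * f s x z := by
            rw [intervalIntegral.integral_const_mul]
            rfl
        _ = ∫ x in (0 : ℝ)..1, ((∑ i ∈ Finset.range p, ∑ j ∈ Finset.range p,
              f ((s + i) / p) ((x + j) / p) (sc (1 / p ^ 2) z)) + f s (p * x) (up p z) +
              ∑ j ∈ Finset.range p, f (p * s) (x + j * s) (dn p j z)) :=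
            intervalIntegral.integral_congr fun x _ => (he s x z hz).1
        _ = (∑ i ∈ Finset.range p, ∑ j ∈ Finset.range p, ∫ x in (0 : ℝ)..1,
              f ((s + i) / p) ((x + j) / p) (sc (1 / p ^ 2) z)) + (∫ x in (0 : ℝ)..1, f s (p * x) (up p z)) +
              ∑ j ∈ Finset.range p, ∫ x in (0 : ℝ)..1, f (p * s) (x + j * s) (dn p j z) := by
            rw [intervalIntegral.integral_add (i1'.add i2) i3', intervalIntegral.integral_add i1' i2,
              intervalIntegral.integral_finsetSum fun j _ => i3 j]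
            congr 2
            rw [intervalIntegral.integral_finsetSum fun i _ => i1'' i]
            exact Finset.sum_congr rfl fun i _ => intervalIntegral.integral_finsetSum fun j _ => i1 i j
        _ = _ := by
            congr 1
            · congr 1
              · refine Finset.sum_congr rfl fun i _ => ?_
                have h2 := Rel_sum (Rel_cont2 hf (sc (1 / p ^ 2) z) ((s + i) / p)) (per _ _) hp0 0
                simp only [add_zero] at h2
                exact h2
              · exact Rel_mul (Rel_cont2 hf _ _) (per _ _) hp0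
            · exact Finset.sum_congr rfl fun j _ => Rel_shift (per _ _) _
    have h2 : p * e₁ * cf f m 0 z = p * (p * cf f ((p * m : ℕ) : ℤ) 0 (sc (1 / p ^ 2) z)) + cf f m 0 (up p z) +
        ∑ j ∈ Finset.range p, (if p ∣ m then cf f ((m / p : ℕ) : ℤ) 0 (dn p j z) else 0) := by
      rw [Rel_cf, Rel_cf, Rel_cf, ← intervalIntegral.integral_const_mul]
      have h3 : (∫ s in (0 : ℝ)..1, p * e₁ * (RelG f z s * RelE m s)) =
          ∫ s in (0 : ℝ)..1, ((∑ i ∈ Finset.range p, p * (RelG f (sc (1 / p ^ 2) z) ((s + i) / p) * RelE m s)) +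
            RelG f (up p z) s * RelE m s + ∑ j ∈ Finset.range p, RelG f (dn p j z) (p * s) * RelE m s) := by
        refine intervalIntegral.integral_congr fun s _ => ?_
        show p * e₁ * (RelG f z s * RelE m s) = _
        rw [← mul_assoc, h1 s, add_mul, add_mul, Finset.sum_mul, Finset.sum_mul]
        congr 2
        exact Finset.sum_congr rfl fun i _ => mul_assoc _ _ _
      have j1 : ∀ i : ℕ, IntervalIntegrable (fun s : ℝ => p * (RelG f (sc (1 / p ^ 2) z) ((s + i) / p) * RelE m s)) volume 0 1 :=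
        fun i => (hGi _ m (fun s => (s + i) / p) (by fun_prop)).const_mul _
      have j2 : IntervalIntegrable (fun s : ℝ => RelG f (up p z) s * RelE m s) volume 0 1 := hGi _ m (fun s => s) continuous_id
      have j3 : ∀ j : ℕ, IntervalIntegrable (fun s : ℝ => RelG f (dn p j z) (p * s) * RelE m s) volume 0 1 :=
        fun j => hGi _ m (fun s => p * s) (by fun_prop)
      have j1' : IntervalIntegrable (fun s : ℝ => ∑ i ∈ Finset.range p,
          p * (RelG f (sc (1 / p ^ 2) z) ((s + i) / p) * RelE m s)) volume 0 1 := by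
        refine Continuous.intervalIntegrable ?_ _ _
        exact continuous_finsetSum _ fun i _ => continuous_const.mul (((RelG_cont hf _).comp
          (by fun_prop : Continuous fun s : ℝ => (s + i) / p)).mul (RelE_cont m))
      have j3' : IntervalIntegrable (fun s : ℝ => ∑ j ∈ Finset.range p, RelG f (dn p j z) (p * s) * RelE m s) volume 0 1 := by
        refine Continuous.intervalIntegrable ?_ _ _
        exact continuous_finsetSum _ fun j _ => ((RelG_cont hf _).comp
          (by fun_prop : Continuous fun s : ℝ => p * s)).mul (RelE_cont m)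
      rw [h3, intervalIntegral.integral_add (j1'.add j2) j3', intervalIntegral.integral_add j1' j2,
        intervalIntegral.integral_finsetSum fun j _ => j3 j, intervalIntegral.integral_finsetSum fun i _ => j1 i]
      congr 1
      · congr 1
        simp only [intervalIntegral.integral_const_mul]
        rw [← Finset.mul_sum, Rel_sumE (RelG_cont hf _) (RelG_per hf _) hp0 m]
      · refine Finset.sum_congr rfl fun j _ => ?_
        rw [Rel_dvd (RelG_cont hf _) (RelG_per hf _) hp0 m, Rel_cf]
    show e₁ * cf f m 0 z = p * cf f ((p * m : ℕ) : ℤ) 0 (sc (1 / p ^ 2) z) + 1 / p * cf f m 0 (up p z) +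
      (if p ∣ m then 1 / p * ∑ j ∈ Finset.range p, cf f ((m / p : ℕ) : ℤ) 0 (dn p j z) else 0)
    refine mul_left_cancel₀ hpC ?_
    rw [← mul_assoc, h2]
    by_cases hpm : p ∣ m
    · simp only [if_pos hpm]
      field_simp
    · simp only [if_neg hpm, Finset.sum_const_zero, add_zero]
      field_simp
  · -- the second relation
    have h1 : ∀ s : ℝ, p * e₂ * RelG f z s = RelG f (sc (p ^ 2) z) (p * s) +
        (∑ k ∈ Finset.range p, RelG f (sc (1 / p ^ 2) (up p z)) ((s + k) / p)) +
        ∑ j ∈ Finset.range p, p * RelG f (sc (1 / p ^ 2) (dn p j z)) s := by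
      intro s
      have i1 : IntervalIntegrable (fun x : ℝ => f (p * s) (p * x) (sc (p ^ 2) z)) volume 0 1 :=
        ((Rel_cont2 hf _ _).comp (by fun_prop : Continuous fun x : ℝ => p * x)).intervalIntegrable _ _
      have i2 : ∀ k : ℕ, IntervalIntegrable (fun x : ℝ => f ((s + k) / p) x (sc (1 / p ^ 2) (up p z))) volume 0 1 :=
        fun k => (Rel_cont2 hf _ _).intervalIntegrable _ _
      have i3 : ∀ j k : ℕ, IntervalIntegrable (fun x : ℝ => f s ((x + j * s + k) / p) (sc (1 / p ^ 2) (dn p j z))) volume 0 1 :=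
        fun j k => ((Rel_cont2 hf _ _).comp
          (by fun_prop : Continuous fun x : ℝ => (x + j * s + k) / p)).intervalIntegrable _ _
      have i2' : IntervalIntegrable (fun x : ℝ => ∑ k ∈ Finset.range p,
          f ((s + k) / p) x (sc (1 / p ^ 2) (up p z))) volume 0 1 :=
        (continuous_finsetSum _ fun k _ => Rel_cont2 hf _ _).intervalIntegrable _ _
      have i3' : IntervalIntegrable (fun x : ℝ => ∑ j ∈ Finset.range p, ∑ k ∈ Finset.range p,
          f s ((x + j * s + k) / p) (sc (1 / p ^ 2) (dn p j z))) volume 0 1 := by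
        refine Continuous.intervalIntegrable ?_ _ _
        refine continuous_finsetSum _ fun j _ => continuous_finsetSum _ fun k _ => ?_
        exact (Rel_cont2 hf _ _).comp (by fun_prop : Continuous fun x : ℝ => (x + (j : ℕ) * s + (k : ℕ)) / p)
      have i3'' : ∀ j : ℕ, IntervalIntegrable (fun x : ℝ => ∑ k ∈ Finset.range p,
          f s ((x + j * s + k) / p) (sc (1 / p ^ 2) (dn p j z))) volume 0 1 := by
        intro j
        refine Continuous.intervalIntegrable ?_ _ _
        refine continuous_finsetSum _ fun k _ => ?_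
        exact (Rel_cont2 hf _ _).comp (by fun_prop : Continuous fun x : ℝ => (x + j * s + (k : ℕ)) / p)
      calc p * e₂ * RelG f z s = ∫ x in (0 : ℝ)..1, p * e₂ * f s x z := by
            rw [intervalIntegral.integral_const_mul]
            rfl
        _ = ∫ x in (0 : ℝ)..1, (f (p * s) (p * x) (sc (p ^ 2) z) +
              (∑ k ∈ Finset.range p, f ((s + k) / p) x (sc (1 / p ^ 2) (up p z))) +
              ∑ j ∈ Finset.range p, ∑ k ∈ Finset.range p,
                f s ((x + j * s + k) / p) (sc (1 / p ^ 2) (dn p j z))) :=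
            intervalIntegral.integral_congr fun x _ => (he s x z hz).2
        _ = (∫ x in (0 : ℝ)..1, f (p * s) (p * x) (sc (p ^ 2) z)) +
              (∑ k ∈ Finset.range p, ∫ x in (0 : ℝ)..1, f ((s + k) / p) x (sc (1 / p ^ 2) (up p z))) +
              ∑ j ∈ Finset.range p, ∑ k ∈ Finset.range p, ∫ x in (0 : ℝ)..1,
                f s ((x + j * s + k) / p) (sc (1 / p ^ 2) (dn p j z)) := by
            rw [intervalIntegral.integral_add (i1.add i2') i3', intervalIntegral.integral_add i1 i2',
              intervalIntegral.integral_finsetSum fun k _ => i2 k]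
            congr 1
            rw [intervalIntegral.integral_finsetSum fun j _ => i3'' j]
            exact Finset.sum_congr rfl fun j _ => intervalIntegral.integral_finsetSum fun k _ => i3 j k
        _ = _ := by
            congr 1
            · congr 1
              exact Rel_mul (Rel_cont2 hf _ _) (per _ _) hp0
            · exact Finset.sum_congr rfl fun j _ => Rel_sum (Rel_cont2 hf _ _) (per _ _) hp0 _
    have h2 : p * e₂ * cf f m 0 z = (if p ∣ m then cf f ((m / p : ℕ) : ℤ) 0 (sc (p ^ 2) z) else 0) +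
        p * cf f ((p * m : ℕ) : ℤ) 0 (sc (1 / p ^ 2) (up p z)) +
        ∑ j ∈ Finset.range p, p * cf f m 0 (sc (1 / p ^ 2) (dn p j z)) := by
      have h3 : (∫ s in (0 : ℝ)..1, p * e₂ * (RelG f z s * RelE m s)) =
          ∫ s in (0 : ℝ)..1, (RelG f (sc (p ^ 2) z) (p * s) * RelE m s +
            (∑ k ∈ Finset.range p, RelG f (sc (1 / p ^ 2) (up p z)) ((s + k) / p) * RelE m s) +
            ∑ j ∈ Finset.range p, p * (RelG f (sc (1 / p ^ 2) (dn p j z)) s * RelE m s)) := by
        refine intervalIntegral.integral_congr fun s _ => ?_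
        show p * e₂ * (RelG f z s * RelE m s) = _
        rw [← mul_assoc, h1 s, add_mul, add_mul, Finset.sum_mul, Finset.sum_mul]
        congr 1
        exact Finset.sum_congr rfl fun i _ => mul_assoc _ _ _
      have j1 : IntervalIntegrable (fun s : ℝ => RelG f (sc (p ^ 2) z) (p * s) * RelE m s) volume 0 1 :=
        hGi _ m (fun s => p * s) (by fun_prop)
      have j2 : ∀ k : ℕ, IntervalIntegrable (fun s : ℝ =>
          RelG f (sc (1 / p ^ 2) (up p z)) ((s + k) / p) * RelE m s) volume 0 1 :=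
        fun k => hGi _ m (fun s => (s + k) / p) (by fun_prop)
      have j3 : ∀ j : ℕ, IntervalIntegrable (fun s : ℝ =>
          p * (RelG f (sc (1 / p ^ 2) (dn p j z)) s * RelE m s)) volume 0 1 :=
        fun j => (hGi _ m (fun s => s) continuous_id).const_mul _
      have j2' : IntervalIntegrable (fun s : ℝ => ∑ k ∈ Finset.range p,
          RelG f (sc (1 / p ^ 2) (up p z)) ((s + k) / p) * RelE m s) volume 0 1 := by
        refine Continuous.intervalIntegrable ?_ _ _
        exact continuous_finsetSum _ fun k _ => ((RelG_cont hf _).comp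
          (by fun_prop : Continuous fun s : ℝ => (s + k) / p)).mul (RelE_cont m)
      have j3' : IntervalIntegrable (fun s : ℝ => ∑ j ∈ Finset.range p,
          p * (RelG f (sc (1 / p ^ 2) (dn p j z)) s * RelE m s)) volume 0 1 := by
        refine Continuous.intervalIntegrable ?_ _ _
        exact continuous_finsetSum _ fun j _ => continuous_const.mul ((RelG_cont hf _).mul (RelE_cont m))
      rw [Rel_cf f m z, ← intervalIntegral.integral_const_mul, h3, intervalIntegral.integral_add (j1.add j2') j3',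
        intervalIntegral.integral_add j1 j2', intervalIntegral.integral_finsetSum fun j _ => j3 j,
        intervalIntegral.integral_finsetSum fun k _ => j2 k]
      congr 1
      · congr 1
        · rw [Rel_dvd (RelG_cont hf _) (RelG_per hf _) hp0 m, Rel_cf]
        · rw [Rel_sumE (RelG_cont hf _) (RelG_per hf _) hp0 m, Rel_cf]
      · refine Finset.sum_congr rfl fun j _ => ?_
        rw [intervalIntegral.integral_const_mul, Rel_cf]
    show e₂ * cf f m 0 z = (if p ∣ m then 1 / p * cf f ((m / p : ℕ) : ℤ) 0 (sc (p ^ 2) z) else 0) +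
      cf f ((p * m : ℕ) : ℤ) 0 (sc (1 / p ^ 2) (up p z)) +
      ∑ j ∈ Finset.range p, cf f m 0 (sc (1 / p ^ 2) (dn p j z))
    refine mul_left_cancel₀ hpC ?_
    rw [← mul_assoc, h2, ← Finset.mul_sum]
    by_cases hpm : p ∣ m
    · simp only [if_pos hpm]
      field_simp
    · simp only [if_neg hpm]
      ring

end AQ3
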