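import Pool.Agent.Lib_MP_d358f8_ne.Lin2

/-!
# MP_d358f8_nt: the Siegel set for the binary forms

* `sg_cover` (reduction theory): among the values of `z` at the nonzero integral vectors there is a least one (the set of integral
  vectors with `z(b, c) ≤ M` is finite, because `z(b, c) ≥ ε (b² + c²)` with `ε > 0`), attained at a primitive vector `v`;
  `IsCoprime.exists_SL2_col` (or Bezout) gives `A ∈ SL₂(ℤ)` with the first column `v`; replace `A` by `A !![1, n; 0, 1]` to get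
  `|2 z'₁₂| ≤ z'₁₁` for `z' = bact A z` (`n` = minus the nearest integer to `z'₁₂ / z'₁₁`). Then `z'₁₁ ≤ z'₂₂` (minimality), so
  `det = z'₁₁ z'₂₂ - z'₁₂² ≥ z'₁₁² - z'₁₁² / 4`. The first column of `A` is unchanged, so `z'₁₁` stays the least value.
* `sg_bound`: let `z = (a, b, c) ∈ Sg`, `D = bdet z`, `A = !![p, q; r, s]`, `det A = ± 1`, `z' = bact A z ∈ Sg`, so
  `bdet z' = D`. `3 z'₁₁² ≤ 4 D`, `3 a² ≤ 4 D`. `a z'₁₁ = (a p + b r)² + D r²`. So `D r² ≤ a z'₁₁` and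
  `D² r⁴ ≤ a² z'₁₁² ≤ (16/9) D²`, `r⁴ ≤ 16/9`, `|r| ≤ 1`. If `r = 0` then `p, s = ± 1` and `z'₁₁ = a`, `z'₁₂ = ± b ± a q`, so
  `|q| ≤ 1`. If `|r| = 1` then `(a p + b r)² = a z'₁₁ - D ≤ D / 3` (as `a z'₁₁ ≤ (4/3) D`); with `|b| ≤ a / 2`:
  `a |p| ≤ a / 2 + (D / 3)^{1/2}`; and `D ≤ a z'₁₁` gives `D² ≤ a² z'₁₁² ≤ a² (4/3) D`, `D ≤ (4/3) a²`, so
  `a |p| ≤ a / 2 + (2/3) a < 2 a`, `|p| ≤ 1`. The same for `A⁻¹ = ± !![s, -q; -r, p]` (from `z'` to `z`) gives `|s| ≤ 1`; and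
  `q r = p s ∓ 1`, `|q| ≤ 2`.
* `sg_mult`: by `sg_cover` for `z` there is `A₀` with `z₀ = bact A₀ z ∈ Sg`; for every `A` with `bact A z ∈ Sg` the matrix
  `A₀⁻¹ A` takes `z₀` to `bact A z`, so its entries are in `[-2, 2]` (`sg_bound`); the map `A ↦ A₀⁻¹ A` is injective and there are at
  most `5⁴` such matrices.
-/

namespace AQ3

open MeasureTheory Matrix
open scoped ENNReal MatrixGroups

private theorem SgM_mul (z : Bin) (b c : ℝ) :
    z.1 * bq z b c = (z.1 * b + z.2.1 * c) ^ 2 + bdet z * c ^ 2 := by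
  unfold bq bdet
  ring

private theorem SgM_mul' (z : Bin) (b c : ℝ) :
    z.2.2 * bq z b c = (z.2.1 * b + z.2.2 * c) ^ 2 + bdet z * b ^ 2 := by
  unfold bq bdet
  ring

private theorem SgM_c_pos {z : Bin} (hz : pd z) : 0 < z.2.2 := by
  have h1 := hz.1
  have h2 := hz.2
  unfold bdet at h2
  by_contra h
  have : z.1 * z.2.2 ≤ 0 := mul_nonpos_of_nonneg_of_nonpos h1.le (not_lt.1 h)
  nlinarith [sq_nonneg z.2.1]

private theorem SgM_pos {z : Bin} (hz : pd z) {b c : ℤ} (h : b ≠ 0 ∨ c ≠ 0) : 0 < bq z b c := by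
  refine (pd_iff z).1 hz b c ?_
  rcases h with h | h
  · exact Or.inl (by exact_mod_cast h)
  · exact Or.inr (by exact_mod_cast h)

private theorem SgM_abs_le {b : ℤ} {N : ℝ} (h : (b : ℝ) ^ 2 ≤ N) : b ∈ Set.Icc (-⌈N⌉) ⌈N⌉ := by
  have h1 : |b| ≤ b ^ 2 := by
    rw [← sq_abs]
    have h0 := abs_nonneg b
    rcases h0.eq_or_lt with h0 | h0
    · rw [← h0]; norm_num
    · nlinarith
  have h2 : ((b ^ 2 : ℤ) : ℝ) ≤ (⌈N⌉ : ℝ) := by
    push_cast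
    exact h.trans (Int.le_ceil N)
  have h3 : b ^ 2 ≤ ⌈N⌉ := by exact_mod_cast h2
  exact abs_le.1 (h1.trans h3)

private theorem SgM_finite {z : Bin} (hz : pd z) (M : ℝ) :
    {v : ℤ × ℤ | (v.1 ≠ 0 ∨ v.2 ≠ 0) ∧ bq z v.1 v.2 ≤ M}.Finite := by
  have ha := hz.1
  have hc := SgM_c_pos hz
  have hD := hz.2
  refine Set.Finite.subset ((Set.finite_Icc (-⌈z.2.2 * M / bdet z⌉) ⌈z.2.2 * M / bdet z⌉).prod
    (Set.finite_Icc (-⌈z.1 * M / bdet z⌉) ⌈z.1 * M / bdet z⌉)) ?_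
  rintro ⟨b, c⟩ ⟨-, h⟩
  have h1 := SgM_mul z b c
  have h2 := SgM_mul' z b c
  refine ⟨SgM_abs_le ?_, SgM_abs_le ?_⟩
  · rw [le_div_iff₀ hD]
    have := mul_le_mul_of_nonneg_left h hc.le
    nlinarith [sq_nonneg (z.2.1 * (b : ℝ) + z.2.2 * c)]
  · rw [le_div_iff₀ hD]
    have := mul_le_mul_of_nonneg_left h ha.le
    nlinarith [sq_nonneg (z.1 * (b : ℝ) + z.2.1 * c)]

private theorem SgM_least {z : Bin} (hz : pd z) : ∃ b₀ c₀ : ℤ, (b₀ ≠ 0 ∨ c₀ ≠ 0) ∧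
    ∀ b c : ℤ, (b ≠ 0 ∨ c ≠ 0) → bq z b₀ c₀ ≤ bq z b c := by
  have hfin := SgM_finite hz z.1
  have h10 : bq z ((1 : ℤ) : ℝ) ((0 : ℤ) : ℝ) = z.1 := by
    unfold bq
    push_cast
    ring
  have hmem : ((1, 0) : ℤ × ℤ) ∈ {v : ℤ × ℤ | (v.1 ≠ 0 ∨ v.2 ≠ 0) ∧ bq z v.1 v.2 ≤ z.1} :=
    ⟨Or.inl one_ne_zero, h10.le⟩
  obtain ⟨v, hv, hmin⟩ := Set.exists_min_image _ (fun v : ℤ × ℤ => bq z v.1 v.2) hfin ⟨_, hmem⟩
  refine ⟨v.1, v.2, hv.1, fun b c h => ?_⟩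
  by_cases hle : bq z b c ≤ z.1
  · exact hmin (b, c) ⟨h, hle⟩
  · have := hmin (1, 0) hmem
    simp only at this
    rw [h10] at this
    linarith [not_le.1 hle]

private theorem SgM_gcd {z : Bin} (hz : pd z) {b₀ c₀ : ℤ} (h0 : b₀ ≠ 0 ∨ c₀ ≠ 0)
    (hmin : ∀ b c : ℤ, (b ≠ 0 ∨ c ≠ 0) → bq z b₀ c₀ ≤ bq z b c) : IsCoprime b₀ c₀ := by
  rw [Int.isCoprime_iff_gcd_eq_one]
  set g := Int.gcd b₀ c₀ with hg
  have hg0 : g ≠ 0 := by
    intro h
    rw [hg, Int.gcd_eq_zero_iff] at h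
    rcases h0 with h1 | h1
    · exact h1 h.1
    · exact h1 h.2
  obtain ⟨b, hb⟩ : (g : ℤ) ∣ b₀ := Int.gcd_dvd_left b₀ c₀
  obtain ⟨c, hc⟩ : (g : ℤ) ∣ c₀ := Int.gcd_dvd_right b₀ c₀
  have hne : b ≠ 0 ∨ c ≠ 0 := by
    rcases h0 with h1 | h1
    · left
      rintro rfl
      exact h1 (by rw [hb, mul_zero])
    · right
      rintro rfl
      exact h1 (by rw [hc, mul_zero])
  have h1 := hmin b c hne
  have h2 := SgM_pos hz hne
  have h3 : bq z b₀ c₀ = (g : ℝ) ^ 2 * bq z b c := by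
    have e1 : (b₀ : ℝ) = (g : ℝ) * b := by exact_mod_cast congrArg (Int.cast : ℤ → ℝ) hb
    have e2 : (c₀ : ℝ) = (g : ℝ) * c := by exact_mod_cast congrArg (Int.cast : ℤ → ℝ) hc
    rw [e1, e2]
    unfold bq
    ring
  by_contra h
  have h4 : (2 : ℝ) ≤ g := by
    have : 2 ≤ g := by omega
    exact_mod_cast this
  rw [h3] at h1
  have h5 : (4 : ℝ) ≤ (g : ℝ) ^ 2 := by nlinarith
  have h6 := mul_le_mul_of_nonneg_right h5 h2.le
  linarith

/-- There is a least value. -/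
theorem exists_min {z : Bin} (hz : pd z) : ∃ A : SL(2, ℤ),
    (∀ b c : ℤ, (b ≠ 0 ∨ c ≠ 0) → (bact (rl2 A.1) z).1 ≤ bq (bact (rl2 A.1) z) b c) ∧
      |2 * (bact (rl2 A.1) z).2.1| ≤ (bact (rl2 A.1) z).1 := by
  obtain ⟨b₀, c₀, h0, hmin⟩ := SgM_least hz
  obtain ⟨x, y, hxy⟩ := SgM_gcd hz h0 hmin
  have hm := SgM_pos hz h0
  set m := bq z b₀ c₀ with hmdef
  set w := z.1 * (b₀ : ℝ) * (-(y : ℝ)) + z.2.1 * ((b₀ : ℝ) * x + c₀ * (-(y : ℝ))) +
    z.2.2 * c₀ * x with hw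
  set n : ℤ := - round (w / m) with hn
  let A : SL(2, ℤ) := ⟨!![b₀, n * b₀ - y; c₀, n * c₀ + x], by
    rw [Matrix.det_fin_two_of]
    linear_combination hxy⟩
  have hA : A.1 = !![b₀, n * b₀ - y; c₀, n * c₀ + x] := rfl
  have a00 : rl2 A.1 0 0 = b₀ := by simp [rl2, hA]
  have a01 : rl2 A.1 0 1 = n * b₀ - y := by simp [rl2, hA]
  have a10 : rl2 A.1 1 0 = c₀ := by simp [rl2, hA]
  have a11 : rl2 A.1 1 1 = n * c₀ + x := by simp [rl2, hA]
  have e1 : (bact (rl2 A.1) z).1 = m := by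
    show bq z (rl2 A.1 0 0) (rl2 A.1 1 0) = m
    rw [a00, a10]
  have e2 : (bact (rl2 A.1) z).2.1 = n * m + w := by
    show z.1 * rl2 A.1 0 0 * rl2 A.1 0 1 + z.2.1 * (rl2 A.1 0 0 * rl2 A.1 1 1 +
      rl2 A.1 1 0 * rl2 A.1 0 1) + z.2.2 * rl2 A.1 1 0 * rl2 A.1 1 1 = _
    rw [a00, a01, a10, a11, hmdef, hw]
    unfold bq
    ring
  refine ⟨A, fun b c h => ?_, ?_⟩
  · rw [e1, bq_bact, a00, a01, a10, a11]
    have h1 := hmin (b₀ * b + (n * b₀ - y) * c) (c₀ * b + (n * c₀ + x) * c) (by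
      by_contra hcon
      push Not at hcon
      obtain ⟨u, v⟩ := hcon
      have hb : b = 0 := by
        linear_combination (n * c₀ + x) * u - (n * b₀ - y) * v - b * hxy
      have hc : c = 0 := by
        linear_combination b₀ * v - c₀ * u - c * hxy
      rcases h with h | h
      · exact h hb
      · exact h hc)
    push_cast at h1
    exact h1
  · rw [e1, e2]
    have h1 : w = w / m * m := by field_simp
    have h2 : |w / m - round (w / m)| ≤ 1 / 2 := abs_sub_round _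
    have h3 : 2 * (n * m + w) = 2 * (w / m - round (w / m)) * m := by
      rw [hn]
      push_cast
      field_simp
      ring
    rw [h3, abs_mul, abs_mul, abs_of_pos hm]
    norm_num
    nlinarith

private theorem SgM_det (A : SL(2, ℤ)) : (rl2 A.1).det = 1 := by
  have h : A.1.det = 1 := A.2
  have h2 : (rl2 A.1).det = ((A.1.det : ℤ) : ℝ) := by
    unfold rl2
    rw [Matrix.det_fin_two, Matrix.det_fin_two]
    simp
  rw [h2, h]
  norm_num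

theorem sg_cover {z : Bin} (hz : pd z) : ∃ A : SL(2, ℤ), bact (rl2 A.1) z ∈ Sg := by
  obtain ⟨A, h1, h2⟩ := exists_min hz
  have hpd : pd (bact (rl2 A.1) z) := (pd_bact (by rw [SgM_det]; norm_num) z).2 hz
  refine ⟨A, hpd, h2, ?_⟩
  have h3 := h1 0 1 (Or.inr one_ne_zero)
  have h4 : bq (bact (rl2 A.1) z) ((0 : ℤ) : ℝ) ((1 : ℤ) : ℝ) = (bact (rl2 A.1) z).2.2 := by
    unfold bq
    push_cast
    ring
  rw [h4] at h3
  have h5 := hpd.1
  generalize bact (rl2 A.1) z = w at *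
  unfold bdet
  have h6 : (2 * w.2.1) ^ 2 ≤ w.1 ^ 2 := by
    rw [← sq_abs]
    exact pow_le_pow_left₀ (abs_nonneg _) h2 2
  nlinarith

private theorem SgM_core {z : Bin} (hz : z ∈ Sg) {p r : ℤ} (h0 : 0 < bq z p r)
    (h : 3 / 4 * bq z p r ^ 2 ≤ bdet z) : |r| ≤ 1 ∧ (r ≠ 0 → |p| ≤ 1) := by
  obtain ⟨⟨ha, hD⟩, hb, hS⟩ := hz
  have e := SgM_mul z p r
  set a' := bq z p r
  set D := bdet z
  have h1 : z.1 * a' ≤ 4 / 3 * D := by
    have : (z.1 * a') ^ 2 ≤ (4 / 3 * D) ^ 2 := by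
      have u1 : z.1 ^ 2 ≤ 4 / 3 * D := by linarith
      have u2 : a' ^ 2 ≤ 4 / 3 * D := by linarith
      calc (z.1 * a') ^ 2 = z.1 ^ 2 * a' ^ 2 := by ring
        _ ≤ (4 / 3 * D) * (4 / 3 * D) := mul_le_mul u1 u2 (by positivity) (by positivity)
        _ = (4 / 3 * D) ^ 2 := by ring
    exact le_of_sq_le_sq this (by positivity)
  have h2 : (r : ℝ) ^ 2 ≤ 4 / 3 := by
    have : D * (r : ℝ) ^ 2 ≤ D * (4 / 3) := by nlinarith [sq_nonneg (z.1 * (p : ℝ) + z.2.1 * r)]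
    exact le_of_mul_le_mul_left this hD
  have h3 : r ^ 2 < 2 := by
    have : ((r ^ 2 : ℤ) : ℝ) < 2 := by
      push_cast
      linarith
    exact_mod_cast this
  have h4 : |r| ≤ 1 := by
    rw [← sq_abs] at h3
    nlinarith [abs_nonneg r]
  refine ⟨h4, fun hr => ?_⟩
  have h5 : r ^ 2 = 1 := by
    have : |r| = 1 := by
      have := abs_pos.2 hr
      omega
    rw [← sq_abs, this]
    norm_num
  have h6 : (r : ℝ) ^ 2 = 1 := by exact_mod_cast h5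
  rw [h6, mul_one] at e
  have h7 : D ≤ 4 / 3 * z.1 ^ 2 := by
    have u0 : D ≤ z.1 * a' := by nlinarith [sq_nonneg (z.1 * (p : ℝ) + z.2.1 * r)]
    have u1 : D ^ 2 ≤ (z.1 * a') ^ 2 := pow_le_pow_left₀ hD.le u0 2
    have u2 : a' ^ 2 ≤ 4 / 3 * D := by linarith
    have u3 : z.1 ^ 2 * a' ^ 2 ≤ z.1 ^ 2 * (4 / 3 * D) :=
      mul_le_mul_of_nonneg_left u2 (by positivity)
    have u4 : D * D ≤ D * (4 / 3 * z.1 ^ 2) := by nlinarith
    exact le_of_mul_le_mul_left u4 hD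
  have h8 : (z.1 * (p : ℝ) + z.2.1 * r) ^ 2 ≤ (2 / 3 * z.1) ^ 2 := by nlinarith
  have h9 : |z.1 * (p : ℝ) + z.2.1 * r| ≤ 2 / 3 * z.1 := by
    rw [← sq_abs] at h8
    exact le_of_sq_le_sq h8 (by positivity)
  have h10 : |z.2.1 * (r : ℝ)| ≤ z.1 / 2 := by
    have u : |(r : ℝ)| = 1 := by
      have u1 : |(r : ℝ)| ^ 2 = 1 := by rw [sq_abs]; exact h6
      nlinarith [abs_nonneg (r : ℝ)]
    rw [abs_mul, u, mul_one]
    rw [abs_mul, abs_of_pos (by norm_num : (0 : ℝ) < 2)] at hb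
    linarith
  have h11 : z.1 * |(p : ℝ)| < z.1 * 2 := by
    have u1 : z.1 * |(p : ℝ)| = |z.1 * (p : ℝ)| := by rw [abs_mul, abs_of_pos ha]
    have u2 : |z.1 * (p : ℝ)| ≤ |z.1 * (p : ℝ) + z.2.1 * r| + |z.2.1 * (r : ℝ)| := by
      have := abs_sub (z.1 * (p : ℝ) + z.2.1 * r) (z.2.1 * (r : ℝ))
      simpa using this
    rw [u1]
    linarith
  have h12 : |(p : ℝ)| < 2 := lt_of_mul_lt_mul_left h11 ha.le
  have h13 : |p| < 2 := by
    have : ((|p| : ℤ) : ℝ) < 2 := by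
      push_cast
      exact h12
    exact_mod_cast this
  omega

theorem sg_bound {z : Bin} (hz : z ∈ Sg) {A : Matrix (Fin 2) (Fin 2) ℤ} (hA : A.det = 1 ∨ A.det = -1)
    (h : bact (rl2 A) z ∈ Sg) (i j : Fin 2) : |A i j| ≤ 2 := by
  have hdet : A 0 0 * A 1 1 - A 0 1 * A 1 0 = 1 ∨ A 0 0 * A 1 1 - A 0 1 * A 1 0 = -1 := by
    rwa [Matrix.det_fin_two] at hA
  have hd2 : (A 0 0 * A 1 1 - A 0 1 * A 1 0) ^ 2 = 1 := by
    rcases hdet with h | h <;> rw [h] <;> norm_num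
  have hd2' : ((A 0 0 : ℝ) * A 1 1 - A 0 1 * A 1 0) ^ 2 = 1 := by exact_mod_cast hd2
  have hdetr : (rl2 A).det = (A 0 0 : ℝ) * A 1 1 - A 0 1 * A 1 0 := by
    rw [Matrix.det_fin_two]
    rfl
  have hb : bdet (bact (rl2 A) z) = bdet z := by rw [bdet_bact, hdetr, hd2', one_mul]
  have hz' := hz
  obtain ⟨⟨ha, hD⟩, hb1, hS⟩ := hz
  have hh := h
  obtain ⟨⟨ha', hD'⟩, hb1', hS'⟩ := h
  have f1 : (bact (rl2 A) z).1 = bq z (A 0 0) (A 1 0) := rfl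
  have c1 := SgM_core hz' (p := A 0 0) (r := A 1 0) (by rw [← f1]; exact ha')
    (by rw [← f1, ← hb]; exact hS')
  have f2 : bq (bact (rl2 A) z) ((A 1 1 : ℤ) : ℝ) ((-(A 1 0) : ℤ) : ℝ) = z.1 := by
    rw [bq_bact]
    have g1 : rl2 A 0 0 = A 0 0 := rfl
    have g2 : rl2 A 0 1 = A 0 1 := rfl
    have g3 : rl2 A 1 0 = A 1 0 := rfl
    have g4 : rl2 A 1 1 = A 1 1 := rfl
    rw [g1, g2, g3, g4]
    unfold bq
    push_cast
    linear_combination z.1 * hd2'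
  have c2 := SgM_core hh (p := A 1 1) (r := -(A 1 0)) (by rw [f2]; exact ha)
    (by rw [f2, hb]; exact hS)
  have r1 : |A 1 0| ≤ 1 := c1.1
  by_cases hr : A 1 0 = 0
  · rw [hr, mul_zero, sub_zero] at hdet hd2
    have hu : A 0 0 ^ 2 = 1 := by
      have hdvd : A 0 0 ∣ 1 := by
        rcases hdet with h | h
        · exact ⟨A 1 1, h.symm⟩
        · exact ⟨-A 1 1, by rw [mul_neg, h]; norm_num⟩
      rcases Int.isUnit_iff.1 (isUnit_of_dvd_one hdvd) with h | h <;> rw [h] <;> norm_num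
    have hv : A 1 1 ^ 2 = 1 := by nlinarith
    have p1 : |A 0 0| = 1 := by
      rw [← sq_abs] at hu
      nlinarith [abs_nonneg (A 0 0)]
    have s1 : |A 1 1| = 1 := by
      rw [← sq_abs] at hv
      nlinarith [abs_nonneg (A 1 1)]
    have q1 : |A 0 1| ≤ 1 := by
      have g : (bact (rl2 A) z).2.1 = z.1 * A 0 0 * A 0 1 + z.2.1 * (A 0 0 * A 1 1 + A 1 0 * A 0 1) +
        z.2.2 * A 1 0 * A 1 1 := rfl
      have hr' : (A 1 0 : ℝ) = 0 := by exact_mod_cast hr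
      have p2 : |(A 0 0 : ℝ)| = 1 := by
        have : ((|A 0 0| : ℤ) : ℝ) = 1 := by rw [p1]; norm_num
        rwa [Int.cast_abs] at this
      have s2 : |(A 1 1 : ℝ)| = 1 := by
        have : ((|A 1 1| : ℤ) : ℝ) = 1 := by rw [s1]; norm_num
        rwa [Int.cast_abs] at this
      have hu' : (A 0 0 : ℝ) ^ 2 = 1 := by exact_mod_cast hu
      have f3 : (bact (rl2 A) z).1 = z.1 := by
        rw [f1]
        unfold bq
        rw [hr', hu']
        ring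
      rw [f3, g, hr'] at hb1'
      have k1 : |2 * (z.1 * (A 0 0 : ℝ) * A 0 1)| ≤ z.1 + |2 * z.2.1| := by
        have e1 : 2 * (z.1 * (A 0 0 : ℝ) * A 0 1) =
          2 * (z.1 * (A 0 0 : ℝ) * A 0 1 + z.2.1 * ((A 0 0 : ℝ) * A 1 1 + 0 * A 0 1) +
          z.2.2 * 0 * A 1 1) - 2 * z.2.1 * ((A 0 0 : ℝ) * A 1 1) := by ring
        rw [e1]
        refine (abs_sub _ _).trans ?_
        refine add_le_add hb1' ?_
        rw [abs_mul, abs_mul (A 0 0 : ℝ), p2, s2]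
        linarith
      have k2 : |2 * (z.1 * (A 0 0 : ℝ) * A 0 1)| = 2 * z.1 * |(A 0 1 : ℝ)| := by
        rw [abs_mul, abs_mul, abs_mul, p2, abs_of_pos ha]
        norm_num
        ring
      have k3 : z.1 * |(A 0 1 : ℝ)| ≤ z.1 * 1 := by linarith
      have k4 : |(A 0 1 : ℝ)| ≤ 1 := le_of_mul_le_mul_left k3 ha
      have : ((|A 0 1| : ℤ) : ℝ) ≤ 1 := by
        push_cast
        exact k4
      exact_mod_cast this
    fin_cases i <;> fin_cases j <;> simp <;> omega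
  · have p1 := c1.2 hr
    have s1 := c2.2 (neg_ne_zero.2 hr)
    have q1 : |A 0 1| ≤ 2 := by
      have r2 : |A 1 0| = 1 := by
        have := abs_pos.2 hr
        omega
      have e1 : |A 0 1| = |A 0 1 * A 1 0| := by rw [abs_mul, r2, mul_one]
      have e2 : |A 0 0 * A 1 1| ≤ 1 := by
        rw [abs_mul]
        nlinarith [abs_nonneg (A 0 0), abs_nonneg (A 1 1)]
      rw [e1]
      have e3 := abs_le.1 e2
      rw [abs_le]
      rcases hdet with h | h <;> constructor <;> linarith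
    fin_cases i <;> fin_cases j <;> simp <;> omega

private theorem SgM_card : (Finset.Icc (-2 : ℤ) 2 ×ˢ (Finset.Icc (-2 : ℤ) 2 ×ˢ
    (Finset.Icc (-2 : ℤ) 2 ×ˢ Finset.Icc (-2 : ℤ) 2))).card = 625 := by
  simp

theorem sg_mult {z : Bin} (hz : pd z) : {A : SL(2, ℤ) | bact (rl2 A.1) z ∈ Sg}.encard ≤ 625 := by
  obtain ⟨A₀, h0⟩ := sg_cover hz
  have key : ∀ A : SL(2, ℤ), bact (rl2 A.1) z ∈ Sg → ∀ i j, |(A₀⁻¹ * A).1 i j| ≤ 2 := by
    intro A hA i j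
    refine sg_bound h0 (Or.inl (A₀⁻¹ * A).2) ?_ i j
    rw [bact_bact]
    have : rl2 A₀.1 * rl2 (A₀⁻¹ * A).1 = rl2 A.1 := by
      have e : A₀.1 * (A₀⁻¹ * A).1 = A.1 := by
        rw [← Matrix.SpecialLinearGroup.coe_mul, mul_inv_cancel_left]
      rw [← e]
      exact (Matrix.map_mul (f := Int.castRingHom ℝ)).symm
    rw [this]
    exact hA
  let f : SL(2, ℤ) → ℤ × ℤ × ℤ × ℤ := fun A =>
    ((A₀⁻¹ * A).1 0 0, (A₀⁻¹ * A).1 0 1, (A₀⁻¹ * A).1 1 0, (A₀⁻¹ * A).1 1 1)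
  have hmaps : Set.MapsTo f {A : SL(2, ℤ) | bact (rl2 A.1) z ∈ Sg}
      ((Finset.Icc (-2 : ℤ) 2 ×ˢ (Finset.Icc (-2 : ℤ) 2 ×ˢ
        (Finset.Icc (-2 : ℤ) 2 ×ˢ Finset.Icc (-2 : ℤ) 2)) : Finset (ℤ × ℤ × ℤ × ℤ)) : Set _) := by
    intro A hA
    have k := key A hA
    simp only [Finset.coe_product, Finset.coe_Icc, Set.mem_prod, Set.mem_Icc, f]
    exact ⟨abs_le.1 (k 0 0), abs_le.1 (k 0 1), abs_le.1 (k 1 0), abs_le.1 (k 1 1)⟩
  have hinj : Set.InjOn f {A : SL(2, ℤ) | bact (rl2 A.1) z ∈ Sg} := by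
    intro A _ B _ hAB
    simp only [f, Prod.mk.injEq] at hAB
    obtain ⟨e1, e2, e3, e4⟩ := hAB
    have : A₀⁻¹ * A = A₀⁻¹ * B := by
      apply Subtype.ext
      ext i j
      fin_cases i <;> fin_cases j
      · exact e1
      · exact e2
      · exact e3
      · exact e4
    exact mul_left_cancel this
  refine (Set.encard_le_encard_of_injOn hmaps hinj).trans ?_
  rw [Set.encard_coe_eq_coe_finsetCard, SgM_card]
  norm_num

end AQ3
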