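import Pool.Agent.Lib_MP_d358f8_ne.Par
import Pool.Agent.Lib_MP_d358f8_ne.Eqv
import Pool.Agent.Lib_MP_d358f8_ne.SgM

/-!
# MP_d358f8_nt: the unfolding for `SL₂(ℤ)`

* `pair_sum`: let `pd z`. The map `(m, A) ↦ (m A₀₀, m A₁₀)` is a bijection from
  `{(m, A) : 1 ≤ m, A ∈ SL₂(ℤ), bact A z ∈ strip}` to `ℤ² \ {0}`: every nonzero vector is `m v` with `m ≥ 1` and `v` primitive in exactly
  one way (`m` the gcd); for a primitive vector `v` there is `A` with first column `v`, all the others are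
  `A !![1, n; 0, 1]`, and `bact !![1, n; 0, 1] (bact A z)` has `z₁₂` replaced by `z₁₂ + n z₁₁`, so exactly one `n` is possible. By
  `cf_eqv` (with `k = m`, `l = 0`) `cf f m 0 (bact A z) = cf f (m A₀₀) (m A₁₀) z`. And `cf f 0 0 z = 0` (`HecF.cusp`).
* `unf2`: `∫_{Sg, Hgt V} ∑_{k} |cf f k z|² dnu = ∑_A ∫ 1_{Sg, Hgt V}(z) H(bact A z) dnu` with
  `H(w) = 1_{strip}(w) ∑_{m ≥ 1} |cf f m 0 w|²` (`lintegral_tsum`). The measure `nu` is invariant (`lintegral_bact`, `|det A| = 1`) and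
  `Hgt V` is invariant under `SL₂(ℤ)`, so this is `∑_A ∫ 1_{Sg}(bact A⁻¹ w) 1_{Hgt V}(w) H(w) dnu(w)
  = ∫_{Hgt V} n(w) H(w) dnu(w)`, `n(w)` the number of `A` with `bact A w ∈ Sg`, `1 ≤ n(w) ≤ 625` for `pd w`
  (`sg_cover`, `sg_mult`; `nu` is carried by `pd`).
  And `∫_{Hgt V} H dnu = QI (fun m z => cf f m 0 z) V`.
  Measurability of `z ↦ cf f k l z`: `f` is measurable (`HecF.cont`, `HecF.zero`), `StronglyMeasurable.integral_prod_right`.
-/

namespace AQ3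

open MeasureTheory Matrix
open scoped ENNReal MatrixGroups

private theorem Unf2_c1 : Continuous fun z : Bin => z.1 :=
  show Continuous (fun z : ℝ × ℝ × ℝ => z.1) from continuous_fst

private theorem Unf2_c2 : Continuous fun z : Bin => z.2.1 :=
  show Continuous (fun z : ℝ × ℝ × ℝ => z.2.1) from continuous_fst.comp continuous_snd

private theorem Unf2_c3 : Continuous fun z : Bin => z.2.2 :=
  show Continuous (fun z : ℝ × ℝ × ℝ => z.2.2) from continuous_snd.comp continuous_snd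

private theorem Unf2_strip : MeasurableSet strip :=
  (measurableSet_le measurable_const Unf2_c2.measurable).inter
    (measurableSet_lt Unf2_c2.measurable Unf2_c1.measurable)

private theorem Unf2_Sg : MeasurableSet Sg := by
  have h1 : Measurable fun z : Bin => |2 * z.2.1| := (continuous_const.mul Unf2_c2).abs.measurable
  have h2 : Measurable fun z : Bin => 3 / 4 * z.1 ^ 2 := (continuous_const.mul (Unf2_c1.pow 2)).measurable
  have h3 : Measurable fun z : Bin => bdet z :=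
    ((Unf2_c1.mul Unf2_c3).sub (Unf2_c2.pow 2)).measurable
  exact measurableSet_pd.inter ((measurableSet_le h1 Unf2_c1.measurable).inter (measurableSet_le h2 h3))

private theorem Unf2_meas {f : ℝ → ℝ → Bin → ℂ} (hf : HecF f) :
    Measurable fun q : ℝ × ℝ × Bin => f q.1 q.2.1 q.2.2 := by
  classical
  have hS : MeasurableSet {q : ℝ × ℝ × Bin | pd q.2.2} :=
    measurableSet_pd.preimage (measurable_snd.comp measurable_snd)
  have h := ContinuousOn.measurable_piecewise (g := fun _ => (0 : ℂ)) hf.cont continuousOn_const hS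
  have e : (fun q : ℝ × ℝ × Bin => f q.1 q.2.1 q.2.2) = Set.piecewise {q : ℝ × ℝ × Bin | pd q.2.2}
      (fun q : ℝ × ℝ × Bin => f q.1 q.2.1 q.2.2) (fun _ => (0 : ℂ)) := by
    funext q
    by_cases hq : q ∈ {q : ℝ × ℝ × Bin | pd q.2.2}
    · rw [Set.piecewise_eq_of_mem _ _ _ hq]
    · rw [Set.piecewise_eq_of_notMem _ _ _ hq]
      exact hf.zero _ _ _ hq
  rw [e]
  exact h

theorem measurable_cf {f : ℝ → ℝ → Bin → ℂ} (hf : HecF f) (k l : ℤ) : Measurable (cf f k l) := by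
  have h1 : Measurable fun q : (Bin × ℝ) × ℝ =>
      f q.1.2 q.2 q.1.1 * Complex.exp (-(2 * Real.pi * Complex.I * (k * q.1.2 + l * q.2))) := by
    refine Measurable.mul ?_ ?_
    · exact (Unf2_meas hf).comp (g := fun q : ℝ × ℝ × Bin => f q.1 q.2.1 q.2.2)
        (f := fun q : (Bin × ℝ) × ℝ => (q.1.2, q.2, q.1.1)) (by fun_prop)
    · fun_prop
  have h2 := h1.stronglyMeasurable.integral_prod_right' (ν := volume.restrict (Set.Ioc (0 : ℝ) 1))
  have h3 := h2.integral_prod_right' (ν := volume.restrict (Set.Ioc (0 : ℝ) 1))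
  have e : cf f k l = fun z => ∫ x₁ in Set.Ioc (0 : ℝ) 1, ∫ x₂ in Set.Ioc (0 : ℝ) 1,
      f x₁ x₂ z * Complex.exp (-(2 * Real.pi * Complex.I * (k * x₁ + l * x₂))) := by
    funext z
    unfold cf
    rw [intervalIntegral.integral_of_le zero_le_one]
    refine setIntegral_congr_fun measurableSet_Ioc fun x₁ _ => ?_
    exact intervalIntegral.integral_of_le zero_le_one
  rw [e]
  exact h3.measurable

private theorem Unf2_shear (A B : Matrix (Fin 2) (Fin 2) ℤ) (t : ℤ) (h00 : B 0 0 = A 0 0)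
    (h10 : B 1 0 = A 1 0) (h01 : B 0 1 = A 0 1 + t * A 0 0) (h11 : B 1 1 = A 1 1 + t * A 1 0) (z : Bin) :
    (bact (rl2 B) z).1 = (bact (rl2 A) z).1 ∧
      (bact (rl2 B) z).2.1 = (bact (rl2 A) z).2.1 + t * (bact (rl2 A) z).1 := by
  simp only [bact, rl2, Matrix.map_apply, bq, h00, h10, h01, h11]
  push_cast
  constructor
  · trivial
  · ring

private theorem Unf2_det (A : SL(2, ℤ)) : (rl2 A.1).det = 1 := by
  have h := A.2
  rw [Matrix.det_fin_two] at h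
  rw [Matrix.det_fin_two]
  simp only [rl2, Matrix.map_apply]
  exact_mod_cast h

private theorem Unf2_pos (A : SL(2, ℤ)) {z : Bin} (hz : pd z) : 0 < (bact (rl2 A.1) z).1 :=
  ((pd_bact (by rw [Unf2_det]; exact one_ne_zero) z).mpr hz).1

private theorem Unf2_unique {A B : SL(2, ℤ)} {m n : ℕ} (hm : 1 ≤ m) (hn : 1 ≤ n) {z : Bin} (hz : pd z)
    (hA : bact (rl2 A.1) z ∈ strip) (hB : bact (rl2 B.1) z ∈ strip)
    (h0 : A.1 0 0 * m = B.1 0 0 * n) (h1 : A.1 1 0 * m = B.1 1 0 * n) : A = B ∧ m = n := by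
  have dA : A.1 0 0 * A.1 1 1 - A.1 0 1 * A.1 1 0 = 1 := by
    have h := A.2
    rwa [Matrix.det_fin_two] at h
  have dB : B.1 0 0 * B.1 1 1 - B.1 0 1 * B.1 1 0 = 1 := by
    have h := B.2
    rwa [Matrix.det_fin_two] at h
  have e1 : (n : ℤ) ∣ m := ⟨A.1 1 1 * B.1 0 0 - A.1 0 1 * B.1 1 0, by
    linear_combination (-(m : ℤ)) * dA + A.1 1 1 * h0 - A.1 0 1 * h1⟩
  have e2 : (m : ℤ) ∣ n := ⟨B.1 1 1 * A.1 0 0 - B.1 0 1 * A.1 1 0, by
    linear_combination (-(n : ℤ)) * dB - B.1 1 1 * h0 + B.1 0 1 * h1⟩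
  have hmn : m = n := Nat.dvd_antisymm (by exact_mod_cast e2) (by exact_mod_cast e1)
  subst hmn
  have hm0 : (m : ℤ) ≠ 0 := by exact_mod_cast (Nat.one_le_iff_ne_zero.mp hm)
  have h00 : B.1 0 0 = A.1 0 0 := (mul_right_cancel₀ hm0 h0).symm
  have h10 : B.1 1 0 = A.1 1 0 := (mul_right_cancel₀ hm0 h1).symm
  rw [h00, h10] at dB
  set t : ℤ := A.1 1 1 * B.1 0 1 - A.1 0 1 * B.1 1 1 with ht
  have h01 : B.1 0 1 = A.1 0 1 + t * A.1 0 0 := by
    rw [ht]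
    linear_combination (-B.1 0 1) * dA + A.1 0 1 * dB
  have h11 : B.1 1 1 = A.1 1 1 + t * A.1 1 0 := by
    rw [ht]
    linear_combination (-B.1 1 1) * dA + A.1 1 1 * dB
  obtain ⟨s1, s2⟩ := Unf2_shear A.1 B.1 t h00 h10 h01 h11 z
  have hw := Unf2_pos A hz
  obtain ⟨a1, a2⟩ := hA
  obtain ⟨b1, b2⟩ := hB
  rw [s2] at b1 b2
  rw [s1] at b2
  have ht0 : t = 0 := by
    rcases lt_trichotomy t 0 with h | h | h
    · exfalso
      have h3 : (t : ℝ) ≤ -1 := by exact_mod_cast Int.le_sub_one_of_lt h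
      nlinarith
    · exact h
    · exfalso
      have h3 : (1 : ℝ) ≤ t := by exact_mod_cast h
      nlinarith
  rw [ht0, zero_mul, add_zero] at h01 h11
  refine ⟨?_, rfl⟩
  apply Subtype.ext
  ext i j
  fin_cases i <;> fin_cases j
  · exact h00.symm
  · exact h01.symm
  · exact h10.symm
  · exact h11.symm

private theorem Unf2_exists {b c : ℤ} (h : b ≠ 0 ∨ c ≠ 0) {z : Bin} (hz : pd z) :
    ∃ (A : SL(2, ℤ)) (m : ℕ), 1 ≤ m ∧ bact (rl2 A.1) z ∈ strip ∧ A.1 0 0 * m = b ∧ A.1 1 0 * m = c := by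
  have hpos : 0 < Int.gcd b c := Int.gcd_pos_iff.mpr h
  obtain ⟨b', c', hg, hb, hc⟩ := Int.exists_gcd_one hpos
  obtain ⟨g, hg0, hg1⟩ := (Int.isCoprime_iff_gcd_eq_one.mpr hg).exists_SL2_col 0
  have hw := Unf2_pos g hz
  set w : ℝ := (bact (rl2 g.1) z).1 with hwdef
  set x : ℝ := (bact (rl2 g.1) z).2.1 with hxdef
  set t : ℤ := -⌊x / w⌋ with ht
  have dg : g.1 0 0 * g.1 1 1 - g.1 0 1 * g.1 1 0 = 1 := by
    have h := g.2
    rwa [Matrix.det_fin_two] at h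
  set B : SL(2, ℤ) := ⟨!![g.1 0 0, g.1 0 1 + t * g.1 0 0; g.1 1 0, g.1 1 1 + t * g.1 1 0], by
    rw [Matrix.det_fin_two_of]
    linear_combination dg⟩ with hB
  obtain ⟨s1, s2⟩ := Unf2_shear g.1 B.1 t rfl rfl rfl rfl z
  refine ⟨B, Int.gcd b c, hpos, ?_, ?_, ?_⟩
  · have h1 := Int.floor_le (x / w)
    have h2 := Int.lt_floor_add_one (x / w)
    rw [le_div_iff₀ hw] at h1
    rw [div_lt_iff₀ hw] at h2
    constructor
    · rw [s2, ht]
      push_cast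
      linarith
    · rw [s1, s2, ht]
      push_cast
      linarith
  · have h3 : g.1 0 0 * (Int.gcd b c : ℤ) = b' * (Int.gcd b c : ℤ) := congrArg (fun u : ℤ => u * (Int.gcd b c : ℤ)) hg0
    exact h3.trans hb.symm
  · have h3 : g.1 1 0 * (Int.gcd b c : ℤ) = c' * (Int.gcd b c : ℤ) := congrArg (fun u : ℤ => u * (Int.gcd b c : ℤ)) hg1
    exact h3.trans hc.symm

open Classical in
theorem pair_sum {f : ℝ → ℝ → Bin → ℂ} (hf : HecF f) {z : Bin} (hz : pd z) :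
    ∑' k : ℤ × ℤ, ‖cf f k.1 k.2 z‖ₑ ^ 2 =
      ∑' A : SL(2, ℤ), ∑' m : ℕ, if 1 ≤ m ∧ bact (rl2 A.1) z ∈ strip then ‖cf f m 0 (bact (rl2 A.1) z)‖ₑ ^ 2 else 0 := by
  have hcf : ∀ (A : SL(2, ℤ)) (m : ℕ), cf f m 0 (bact (rl2 A.1) z) = cf f (A.1 0 0 * m) (A.1 1 0 * m) z := by
    intro A m
    rw [cf_eqv hf, mul_zero, add_zero, mul_zero, add_zero]
  have h00 : cf f 0 0 z = 0 := by
    have h := hf.cusp z
    unfold cf
    simpa using h
  rw [← ENNReal.tsum_prod (f := fun (A : SL(2, ℤ)) (m : ℕ) =>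
    if 1 ≤ m ∧ bact (rl2 A.1) z ∈ strip then ‖cf f m 0 (bact (rl2 A.1) z)‖ₑ ^ 2 else 0)]
  have hP : ∀ x : Function.support (fun p : SL(2, ℤ) × ℕ =>
      if 1 ≤ p.2 ∧ bact (rl2 p.1.1) z ∈ strip then ‖cf f p.2 0 (bact (rl2 p.1.1) z)‖ₑ ^ 2 else 0),
      1 ≤ x.1.2 ∧ bact (rl2 x.1.1.1) z ∈ strip := by
    rintro ⟨p, hp⟩
    by_contra hcon
    exact hp (if_neg hcon)
  refine tsum_eq_tsum_of_ne_zero_bij (fun x => (x.1.1.1 0 0 * (x.1.2 : ℤ), x.1.1.1 1 0 * (x.1.2 : ℤ)))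
    ?_ ?_ ?_
  · rintro x y hxy
    have h1 := (Prod.mk.inj hxy).1
    have h2 := (Prod.mk.inj hxy).2
    obtain ⟨e1, e2⟩ := Unf2_unique (hP x).1 (hP y).1 hz (hP x).2 (hP y).2 h1 h2
    exact Subtype.ext (Prod.ext e1 e2)
  · rintro ⟨b, c⟩ hk
    have hne : b ≠ 0 ∨ c ≠ 0 := by
      by_contra hcon
      push Not at hcon
      obtain ⟨rfl, rfl⟩ := hcon
      refine hk ?_
      show ‖cf f 0 0 z‖ₑ ^ 2 = 0
      rw [h00, enorm_zero]
      simp
    obtain ⟨A, m, hm, hA, rfl, rfl⟩ := Unf2_exists hne hz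
    refine ⟨⟨(A, m), ?_⟩, rfl⟩
    show (if 1 ≤ m ∧ bact (rl2 A.1) z ∈ strip then ‖cf f m 0 (bact (rl2 A.1) z)‖ₑ ^ 2 else 0) ≠ 0
    rw [if_pos ⟨hm, hA⟩, hcf]
    exact hk
  · intro x
    show ‖cf f (x.1.1.1 0 0 * (x.1.2 : ℤ)) (x.1.1.1 1 0 * (x.1.2 : ℤ)) z‖ₑ ^ 2 =
      if 1 ≤ x.1.2 ∧ bact (rl2 x.1.1.1) z ∈ strip then ‖cf f x.1.2 0 (bact (rl2 x.1.1.1) z)‖ₑ ^ 2 else 0
    rw [if_pos (hP x), hcf]

open Classical in
/-- the coefficients in the strip -/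
private noncomputable def Unf2_H (f : ℝ → ℝ → Bin → ℂ) (w : Bin) : ℝ≥0∞ :=
  ∑' m : ℕ, if 1 ≤ m ∧ w ∈ strip then ‖cf f m 0 w‖ₑ ^ 2 else 0

private theorem Unf2_measTerm {f : ℝ → ℝ → Bin → ℂ} (hf : HecF f) (m : ℕ) :
    Measurable (strip.indicator fun w => ‖cf f m 0 w‖ₑ ^ 2) :=
  ((measurable_cf hf m 0).enorm.pow_const 2).indicator Unf2_strip

private theorem Unf2_H_eq (f : ℝ → ℝ → Bin → ℂ) (w : Bin) :
    Unf2_H f w = ∑' m : ℕ, if 1 ≤ m then strip.indicator (fun w => ‖cf f m 0 w‖ₑ ^ 2) w else 0 := by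
  classical
  unfold Unf2_H
  refine tsum_congr fun m => ?_
  by_cases hm : 1 ≤ m
  · by_cases hw : w ∈ strip
    · rw [if_pos ⟨hm, hw⟩, if_pos hm, Set.indicator_of_mem hw]
    · rw [if_neg fun h => hw h.2, if_pos hm, Set.indicator_of_notMem hw]
  · rw [if_neg fun h => hm h.1, if_neg hm]

private theorem Unf2_measH {f : ℝ → ℝ → Bin → ℂ} (hf : HecF f) : Measurable (Unf2_H f) := by
  have e : Unf2_H f = fun w => ∑' m : ℕ, if 1 ≤ m then strip.indicator (fun w => ‖cf f m 0 w‖ₑ ^ 2) w else 0 :=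
    funext (Unf2_H_eq f)
  rw [e]
  refine Measurable.tsum fun m => ?_
  by_cases hm : 1 ≤ m
  · simp only [if_pos hm]
    exact Unf2_measTerm hf m
  · simp only [if_neg hm]
    exact measurable_const

private theorem Unf2_ae : ∀ᵐ z ∂nu, pd z := by
  unfold nu
  refine (withDensity_absolutelyContinuous _ _).ae_le ?_
  exact ae_restrict_mem measurableSet_pd

private theorem Unf2_QI {f : ℝ → ℝ → Bin → ℂ} (hf : HecF f) (V : ℝ) :
    QI (fun m z => cf f m 0 z) V = ∫⁻ z in {z | Hgt V z}, Unf2_H f z ∂nu := by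
  simp only [Unf2_H_eq]
  rw [lintegral_tsum]
  · unfold QI
    refine tsum_congr fun m => ?_
    by_cases hm : 1 ≤ m
    · simp only [if_pos hm]
      rw [lintegral_indicator Unf2_strip, Measure.restrict_restrict Unf2_strip]
      refine setLIntegral_congr ?_
      filter_upwards [Unf2_ae] with z hz
      refine propext ⟨fun h => ⟨⟨h.2.1, h.2.2.1⟩, h.2.2.2⟩, fun h => ⟨hz, h.1.1, h.1.2, h.2⟩⟩
    · simp only [if_neg hm, lintegral_zero]
  · intro m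
    by_cases hm : 1 ≤ m
    · simp only [if_pos hm]
      exact (Unf2_measTerm hf m).aemeasurable
    · simp only [if_neg hm]
      exact aemeasurable_const

private theorem Unf2_rl2_mul (A B : SL(2, ℤ)) : rl2 (A * B).1 = rl2 A.1 * rl2 B.1 := by
  unfold rl2
  rw [Matrix.SpecialLinearGroup.coe_mul]
  exact Matrix.map_mul (f := Int.castRingHom ℝ)

private theorem Unf2_rl2_one : rl2 (1 : SL(2, ℤ)).1 = 1 := by
  unfold rl2
  rw [Matrix.SpecialLinearGroup.coe_one]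
  exact Matrix.map_one _ Int.cast_zero Int.cast_one

private theorem Unf2_inv (A : SL(2, ℤ)) (z : Bin) : bact (rl2 (A⁻¹).1) (bact (rl2 A.1) z) = z := by
  rw [bact_bact, ← Unf2_rl2_mul, mul_inv_cancel, Unf2_rl2_one, bact_one]

private theorem Unf2_hgt1 {V : ℝ} (A : SL(2, ℤ)) {z : Bin} (h : Hgt V z) : Hgt V (bact (rl2 A.1) z) := by
  intro b c hbc
  rw [bq_bact]
  have dA : A.1 0 0 * A.1 1 1 - A.1 0 1 * A.1 1 0 = 1 := by
    have h := A.2
    rwa [Matrix.det_fin_two] at h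
  have h1 := h (A.1 0 0 * b + A.1 0 1 * c) (A.1 1 0 * b + A.1 1 1 * c) (by
    by_contra hcon
    push Not at hcon
    obtain ⟨h1, h2⟩ := hcon
    have hb : b = 0 := by linear_combination (-b) * dA + A.1 1 1 * h1 - A.1 0 1 * h2
    have hc : c = 0 := by linear_combination (-c) * dA - A.1 1 0 * h1 + A.1 0 0 * h2
    exact hbc.elim (fun h => h hb) fun h => h hc)
  push_cast at h1
  exact h1

private theorem Unf2_hgt {V : ℝ} (A : SL(2, ℤ)) (z : Bin) : Hgt V (bact (rl2 A.1) z) ↔ Hgt V z := by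
  refine ⟨fun h => ?_, Unf2_hgt1 A⟩
  have h1 := Unf2_hgt1 A⁻¹ h
  rwa [Unf2_inv] at h1

private instance Unf2_countable : Countable SL(2, ℤ) :=
  inferInstanceAs (Countable {A : Fin 2 → Fin 2 → ℤ // Matrix.det (A : Matrix (Fin 2) (Fin 2) ℤ) = 1})

private theorem Unf2_eq {f : ℝ → ℝ → Bin → ℂ} (hf : HecF f) (V : ℝ) :
    ∫⁻ z in {z | z ∈ Sg ∧ Hgt V z}, ∑' k : ℤ × ℤ, ‖cf f k.1 k.2 z‖ₑ ^ 2 ∂nu =
      ∫⁻ z in {z | Hgt V z}, (∑' A : SL(2, ℤ), Sg.indicator (fun _ => (1 : ℝ≥0∞)) (bact (rl2 A.1) z)) *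
        Unf2_H f z ∂nu := by
  have hV : MeasurableSet {z : Bin | Hgt V z} := measurableSet_hgt V
  have hS : MeasurableSet {z : Bin | z ∈ Sg ∧ Hgt V z} := Unf2_Sg.inter hV
  have hH := Unf2_measH hf
  have h1 : ∫⁻ z in {z | z ∈ Sg ∧ Hgt V z}, ∑' k : ℤ × ℤ, ‖cf f k.1 k.2 z‖ₑ ^ 2 ∂nu =
      ∫⁻ z in {z | z ∈ Sg ∧ Hgt V z}, ∑' A : SL(2, ℤ), Unf2_H f (bact (rl2 A.1) z) ∂nu :=
    setLIntegral_congr_fun hS fun z hz => pair_sum hf hz.1.1
  have h1' := lintegral_tsum (μ := nu.restrict {z : Bin | z ∈ Sg ∧ Hgt V z})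
    (f := fun (A : SL(2, ℤ)) (z : Bin) => Unf2_H f (bact (rl2 A.1) z))
    fun A => (hH.comp (measurable_bact _)).aemeasurable
  rw [h1, h1']
  have h2 : ∀ A : SL(2, ℤ), ∫⁻ z in {z | z ∈ Sg ∧ Hgt V z}, Unf2_H f (bact (rl2 A.1) z) ∂nu =
      ∫⁻ z in {z | Hgt V z}, Sg.indicator (fun _ => (1 : ℝ≥0∞)) (bact (rl2 (A⁻¹).1) z) * Unf2_H f z ∂nu := by
    intro A
    rw [← lintegral_indicator hS, ← lintegral_indicator hV]
    have h3 := lintegral_bact (A := rl2 A.1) (by rw [Unf2_det]; exact one_ne_zero)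
      ({z : Bin | Hgt V z}.indicator fun z =>
        Sg.indicator (fun _ => (1 : ℝ≥0∞)) (bact (rl2 (A⁻¹).1) z) * Unf2_H f z)
    rw [Unf2_det, abs_one, ENNReal.ofReal_one, one_mul] at h3
    rw [← h3]
    refine lintegral_congr fun z => ?_
    by_cases hz : Hgt V z
    · have hz' : bact (rl2 A.1) z ∈ {z : Bin | Hgt V z} := (Unf2_hgt A z).mpr hz
      rw [Set.indicator_of_mem hz', Unf2_inv]
      by_cases hs : z ∈ Sg
      · have hzS : z ∈ {z : Bin | z ∈ Sg ∧ Hgt V z} := ⟨hs, hz⟩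
        rw [Set.indicator_of_mem hzS, Set.indicator_of_mem hs, one_mul]
      · have hzS : z ∉ {z : Bin | z ∈ Sg ∧ Hgt V z} := fun h => hs h.1
        rw [Set.indicator_of_notMem hzS, Set.indicator_of_notMem hs, zero_mul]
    · have hz' : bact (rl2 A.1) z ∉ {z : Bin | Hgt V z} := fun h => hz ((Unf2_hgt A z).mp h)
      have hzS : z ∉ {z : Bin | z ∈ Sg ∧ Hgt V z} := fun h => hz h.2
      rw [Set.indicator_of_notMem hz', Set.indicator_of_notMem hzS]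
  have h4 := (Equiv.inv SL(2, ℤ)).tsum_eq (fun A : SL(2, ℤ) =>
    ∫⁻ z in {z | Hgt V z}, Sg.indicator (fun _ => (1 : ℝ≥0∞)) (bact (rl2 A.1) z) * Unf2_H f z ∂nu)
  have h5 := lintegral_tsum (μ := nu.restrict {z : Bin | Hgt V z})
    (f := fun (A : SL(2, ℤ)) (z : Bin) => Sg.indicator (fun _ => (1 : ℝ≥0∞)) (bact (rl2 A.1) z) * Unf2_H f z)
    fun A => (((measurable_const.indicator Unf2_Sg).comp (measurable_bact _)).mul hH).aemeasurable
  refine (tsum_congr h2).trans (Eq.trans h4 (h5.symm.trans ?_))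
  refine lintegral_congr fun z => ?_
  exact ENNReal.tsum_mul_right

private theorem Unf2_count {z : Bin} (hz : pd z) :
    1 ≤ ∑' A : SL(2, ℤ), Sg.indicator (fun _ => (1 : ℝ≥0∞)) (bact (rl2 A.1) z) ∧
      ∑' A : SL(2, ℤ), Sg.indicator (fun _ => (1 : ℝ≥0∞)) (bact (rl2 A.1) z) ≤ 625 := by
  constructor
  · obtain ⟨A, hA⟩ := sg_cover hz
    refine le_trans ?_ (ENNReal.le_tsum A)
    rw [Set.indicator_of_mem hA]
  · have h1 : ∑' A : SL(2, ℤ), Sg.indicator (fun _ => (1 : ℝ≥0∞)) (bact (rl2 A.1) z) =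
        ∑' A : SL(2, ℤ), {A : SL(2, ℤ) | bact (rl2 A.1) z ∈ Sg}.indicator (fun _ => (1 : ℝ≥0∞)) A :=
      rfl
    rw [h1, ← tsum_subtype, ENNReal.tsum_set_one]
    have h2 := sg_mult hz
    exact_mod_cast h2

theorem unf2_lower {f : ℝ → ℝ → Bin → ℂ} (hf : HecF f) (V : ℝ) :
    QI (fun m z => cf f m 0 z) V ≤ ∫⁻ z in {z | z ∈ Sg ∧ Hgt V z}, ∑' k : ℤ × ℤ, ‖cf f k.1 k.2 z‖ₑ ^ 2 ∂nu := by
  rw [Unf2_eq hf, Unf2_QI hf]
  refine lintegral_mono_ae ?_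
  filter_upwards [ae_restrict_of_ae Unf2_ae] with z hz
  calc Unf2_H f z = 1 * Unf2_H f z := (one_mul _).symm
    _ ≤ _ := mul_le_mul_left (Unf2_count hz).1 _

theorem unf2_upper {f : ℝ → ℝ → Bin → ℂ} (hf : HecF f) (V : ℝ) :
    ∫⁻ z in {z | z ∈ Sg ∧ Hgt V z}, ∑' k : ℤ × ℤ, ‖cf f k.1 k.2 z‖ₑ ^ 2 ∂nu ≤
      625 * QI (fun m z => cf f m 0 z) V := by
  rw [Unf2_eq hf, Unf2_QI hf, ← lintegral_const_mul _ (Unf2_measH hf)]
  refine lintegral_mono_ae ?_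
  filter_upwards [ae_restrict_of_ae Unf2_ae] with z hz
  exact mul_le_mul_left (Unf2_count hz).2 _

end AQ3
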