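import Pool.Agent.Lib_MP_d358f8_ne.Rdc
import Pool.Agent.Lib_MP_d358f8_ne.DlM

/-!
# MP_d358f8_nt: the two cusps

* `sv_cover`: the same with `γ₁` the matrix of `Cusp V` (`HgtF` is `Hgt V (zof ..)`, which is invariant under `A`), `sg_cover`, and the
  last step with `0 ≤ y₁₂ < y₁₁`.
* `red`: let `y' = γ • y` be as in `reduce3`, `t = y'₁₁`, `z = zof y'`, `det y = det y' = t³ bdet z`. `y ∈ Short R` gives
  `R² t < (t³ bdet z)^{1/3}`, so `R⁶ < bdet z`. If `R² ≤ z₁₁` then `Hgt R z` and `y ∈ Cusp R`. Otherwise `z₁₁ < R²` and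
  `R² z₁₁² < R⁶ < bdet z`. Then `dl y ∈ Cusp R`: in the dual basis, with the third dual vector first: the `(3,3)` entry of `Y'⁻¹` is
  `(y₁₁ y₂₂ - y₁₂²) / det = z₁₁ t² / det`, and the `2 × 2` minors of `Y'⁻¹` containing this entry are the entries of the form
  `y'(b, -a, 0) / det` (Jacobi: the minors of the inverse are the complementary minors divided by the determinant), which is at least
  `t / det` for `(a, b) ≠ 0` (`t` is the least value of `y'`). So the condition `HgtF R` for the dual form (permuted) is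
  `R² (z₁₁ t²)² / det² ≤ t / det`, `R² z₁₁² t⁴ ≤ t det = t⁴ bdet z`. The factor `e^{1/3}` does not matter (homogeneous). The permutation:
  a signed permutation matrix `w ∈ SL₃(ℤ)`, and `dl (γ • y) = (γ⁻¹)ᵀ • dl y`.
-/

namespace AQ3

open MeasureTheory Matrix
open scoped ENNReal MatrixGroups

/-! ### Values at the integral vectors -/

/-- The value of the form at an integral vector. -/
private noncomputable def Red_val (y : Frm) (m : Fin 3 → ℤ) : ℝ :=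
  (fun i => (m i : ℝ)) ⬝ᵥ y.mat.mulVec fun i => (m i : ℝ)

private theorem Red_val_smul (γ : SL(3, ℤ)) (y : Frm) (m : Fin 3 → ℤ) :
    Red_val (γ • y) m = Red_val y (m ᵥ* γ.1) := by
  have hw : (fun i => ((m ᵥ* γ.1) i : ℝ)) = (fun i => (m i : ℝ)) ᵥ* rl γ.1 := by
    funext i
    simp [Matrix.vecMul, dotProduct, rl]
  unfold Red_val
  rw [hw, smul_def, mat_act, Matrix.transpose_transpose, Matrix.dotProduct_mulVec,
    Matrix.dotProduct_mulVec, ← Matrix.vecMul_vecMul, ← Matrix.vecMul_vecMul]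
  rw [← Matrix.dotProduct_mulVec, Matrix.mulVec_transpose]

private theorem Red_vecMul_ne (γ : SL(3, ℤ)) {m : Fin 3 → ℤ} (hm : m ≠ 0) : m ᵥ* γ.1 ≠ 0 := by
  intro h
  apply hm
  have h1 : m ᵥ* (γ.1 * (γ⁻¹).1) = 0 := by
    rw [← Matrix.vecMul_vecMul, h, Matrix.zero_vecMul]
  have h2 : γ.1 * (γ⁻¹).1 = 1 := by
    rw [← Matrix.SpecialLinearGroup.coe_mul, mul_inv_cancel, Matrix.SpecialLinearGroup.coe_one]
  rwa [h2, Matrix.vecMul_one] at h1

/-! ### Explicit actions -/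

/-- The block matrix of `Aᵀ`. -/
private def Red_blk (A : SL(2, ℤ)) : SL(3, ℤ) :=
  ⟨!![1, 0, 0; 0, A.1 0 0, A.1 1 0; 0, A.1 0 1, A.1 1 1], by
    have h := A.2
    rw [Matrix.det_fin_two] at h
    rw [Matrix.det_fin_three]
    simp only [Matrix.of_apply, Matrix.cons_val', Matrix.cons_val_zero, Matrix.cons_val_one,
      Matrix.cons_val]
    linear_combination h⟩

/-- The form with the given entries. -/
private def Red_mk (a b d e f g : ℝ) : Frm := (a, b, d, e, f, g)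

private theorem Red_smul_mk (γ : SL(3, ℤ)) (a b d e f g : ℝ) : γ • Red_mk a b d e f g =
    Frm.of !![
      ∑ i, ∑ j, (γ.1 0 i : ℝ) * (Red_mk a b d e f g).mat i j * (γ.1 0 j : ℝ),
      ∑ i, ∑ j, (γ.1 0 i : ℝ) * (Red_mk a b d e f g).mat i j * (γ.1 1 j : ℝ),
      ∑ i, ∑ j, (γ.1 0 i : ℝ) * (Red_mk a b d e f g).mat i j * (γ.1 2 j : ℝ);
      0,
      ∑ i, ∑ j, (γ.1 1 i : ℝ) * (Red_mk a b d e f g).mat i j * (γ.1 1 j : ℝ),
      ∑ i, ∑ j, (γ.1 1 i : ℝ) * (Red_mk a b d e f g).mat i j * (γ.1 2 j : ℝ);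
      0, 0,
      ∑ i, ∑ j, (γ.1 2 i : ℝ) * (Red_mk a b d e f g).mat i j * (γ.1 2 j : ℝ)] := by
  have key : ∀ k l : Fin 3, ((rl γ.1)ᵀᵀ * (Red_mk a b d e f g).mat * (rl γ.1)ᵀ) k l =
      ∑ i, ∑ j, (γ.1 k i : ℝ) * (Red_mk a b d e f g).mat i j * (γ.1 l j : ℝ) := by
    intro k l
    rw [Matrix.mul_apply, Finset.sum_comm]
    refine Finset.sum_congr rfl fun j _ => ?_
    rw [Matrix.mul_apply, Finset.sum_mul]
    rfl
  rw [smul_def]
  unfold act Frm.of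
  rw [key 0 0, key 0 1, key 0 2, key 1 1, key 1 2, key 2 2]
  rfl

private theorem Red_blk_smul (A : SL(2, ℤ)) {y : Frm} (hy : y.1 ≠ 0) :
    (Red_blk A • y).1 = y.1 ∧ zof (Red_blk A • y) = bact (rl2 A.1) (zof y) := by
  obtain ⟨a, b, d, e, f, g⟩ := y
  have ha : a ≠ 0 := hy
  have h : Red_blk A • Red_mk a b d e f g = Red_mk a (A.1 0 0 * b + A.1 1 0 * d)
      (A.1 0 1 * b + A.1 1 1 * d)
      (e * A.1 0 0 ^ 2 + 2 * f * A.1 0 0 * A.1 1 0 + g * A.1 1 0 ^ 2)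
      (e * A.1 0 0 * A.1 0 1 + f * (A.1 0 0 * A.1 1 1 + A.1 1 0 * A.1 0 1) + g * A.1 1 0 * A.1 1 1)
      (e * A.1 0 1 ^ 2 + 2 * f * A.1 0 1 * A.1 1 1 + g * A.1 1 1 ^ 2) := by
    rw [Red_smul_mk]
    simp only [Red_blk, Fin.sum_univ_three, Red_mk, Frm.mat, Frm.of, Matrix.of_apply,
      Matrix.cons_val', Matrix.cons_val_zero, Matrix.cons_val_one, Matrix.cons_val]
    refine Prod.ext ?_ (Prod.ext ?_ (Prod.ext ?_ (Prod.ext ?_ (Prod.ext ?_ ?_))))
    all_goals (push_cast; ring)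
  change (Red_blk A • Red_mk a b d e f g).1 = a ∧ zof (Red_blk A • Red_mk a b d e f g) =
    bact (rl2 A.1) (zof (Red_mk a b d e f g))
  rw [h]
  refine ⟨rfl, ?_⟩
  simp only [zof, bact, bq, Red_mk, rl2, Matrix.map_apply]
  refine Prod.ext ?_ (Prod.ext ?_ ?_)
  all_goals (simp only []; field_simp; ring)

/-- The unipotent matrix. -/
private def Red_uni (k l : ℤ) : SL(3, ℤ) :=
  ⟨!![1, 0, 0; k, 1, 0; l, 0, 1], by
    rw [Matrix.det_fin_three]
    simp⟩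

private theorem Red_uni_smul (k l : ℤ) {y : Frm} (hy : y.1 ≠ 0) :
    (Red_uni k l • y).1 = y.1 ∧ (Red_uni k l • y).2.1 = y.2.1 + k * y.1 ∧
      (Red_uni k l • y).2.2.1 = y.2.2.1 + l * y.1 ∧ zof (Red_uni k l • y) = zof y := by
  obtain ⟨a, b, d, e, f, g⟩ := y
  have ha : a ≠ 0 := hy
  have h : Red_uni k l • Red_mk a b d e f g = Red_mk a (b + k * a) (d + l * a)
      (e + 2 * k * b + k ^ 2 * a) (f + k * d + l * b + k * l * a) (g + 2 * l * d + l ^ 2 * a) := by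
    rw [Red_smul_mk]
    simp only [Red_uni, Fin.sum_univ_three, Red_mk, Frm.mat, Frm.of, Matrix.of_apply,
      Matrix.cons_val', Matrix.cons_val_zero, Matrix.cons_val_one, Matrix.cons_val]
    refine Prod.ext ?_ (Prod.ext ?_ (Prod.ext ?_ (Prod.ext ?_ (Prod.ext ?_ ?_))))
    all_goals (push_cast; ring)
  change (Red_uni k l • Red_mk a b d e f g).1 = a ∧ (Red_uni k l • Red_mk a b d e f g).2.1 =
    b + k * a ∧ (Red_uni k l • Red_mk a b d e f g).2.2.1 = d + l * a ∧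
    zof (Red_uni k l • Red_mk a b d e f g) = zof (Red_mk a b d e f g)
  rw [h]
  refine ⟨rfl, rfl, rfl, ?_⟩
  simp only [zof, Red_mk]
  refine Prod.ext ?_ (Prod.ext ?_ ?_)
  all_goals (simp only []; field_simp; ring)

private theorem Red_floor (a b : ℝ) (ha : 0 < a) : ∃ k : ℤ, 0 ≤ b + k * a ∧ b + k * a < a := by
  refine ⟨-⌊b / a⌋, ?_⟩
  have h1 := Int.floor_le (b / a)
  have h2 := Int.lt_floor_add_one (b / a)
  have h3 : b + ((-⌊b / a⌋ : ℤ) : ℝ) * a = (b / a - ⌊b / a⌋) * a := by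
    push_cast
    field_simp
    ring
  rw [h3]
  constructor
  · exact mul_nonneg (by linarith) ha.le
  · nlinarith

private theorem Red_hgt {V : ℝ} {z : Bin} (h : Hgt V z) (A : SL(2, ℤ)) :
    Hgt V (bact (rl2 A.1) z) := by
  intro b c hbc
  rw [bq_bact]
  have h1 : rl2 A.1 0 0 * (b : ℝ) + rl2 A.1 0 1 * c = ((A.1 0 0 * b + A.1 0 1 * c : ℤ) : ℝ) := by
    simp [rl2]
  have h2 : rl2 A.1 1 0 * (b : ℝ) + rl2 A.1 1 1 * c = ((A.1 1 0 * b + A.1 1 1 * c : ℤ) : ℝ) := by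
    simp [rl2]
  rw [h1, h2]
  refine h _ _ ?_
  by_contra hcon
  push Not at hcon
  obtain ⟨h3, h4⟩ := hcon
  have hdet := A.2
  rw [Matrix.det_fin_two] at hdet
  have hb : b = 0 := by
    linear_combination (-b) * hdet + A.1 1 1 * h3 - A.1 0 1 * h4
  have hc : c = 0 := by
    linear_combination (-c) * hdet - A.1 1 0 * h3 + A.1 0 0 * h4
  rcases hbc with h | h
  · exact h hb
  · exact h hc

theorem sv_cover {V : ℝ} {y : Frm} (hy : y ∈ Cusp V) : ∃ γ : SL(3, ℤ), γ • y ∈ SV V := by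
  obtain ⟨hp, γ₁, h1⟩ := hy
  have hy1 : γ₁ • y ∈ Pos := (smul_mem_pos γ₁).mpr hp
  obtain ⟨hp1, hz1⟩ := pd_zof hy1
  rw [hgtF_iff hp1] at h1
  obtain ⟨A, hA⟩ := sg_cover hz1
  obtain ⟨hb1, hb2⟩ := Red_blk_smul A hp1.ne'
  have hp2 : 0 < (Red_blk A • γ₁ • y).1 := by rw [hb1]; exact hp1
  obtain ⟨k, hk1, hk2⟩ := Red_floor (Red_blk A • γ₁ • y).1 (Red_blk A • γ₁ • y).2.1 hp2
  obtain ⟨l, hl1, hl2⟩ := Red_floor (Red_blk A • γ₁ • y).1 (Red_blk A • γ₁ • y).2.2.1 hp2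
  obtain ⟨hu1, hu2, hu3, hu4⟩ := Red_uni_smul k l hp2.ne'
  have hγ : (Red_uni k l * Red_blk A * γ₁) • y = Red_uni k l • Red_blk A • γ₁ • y := by
    rw [mul_smul, mul_smul]
  refine ⟨Red_uni k l * Red_blk A * γ₁, (smul_mem_pos _).mpr hp, ?_⟩
  rw [hγ, hu1, hu2, hu3, hu4, hb2]
  exact ⟨hk1, hk2, hl1, hl2, hA, Red_hgt h1 A⟩

/-! ### The dual form -/

private def Red_w : SL(3, ℤ) := ⟨!![0, 0, 1; 1, 0, 0; 0, 1, 0], by simp [Matrix.det_fin_three]⟩

private theorem Red_w_smul (a b d e f g : ℝ) : Red_w • Red_mk a b d e f g = Red_mk g d f a b e := by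
  rw [Red_smul_mk]
  simp only [Red_w, Fin.sum_univ_three, Red_mk, Frm.mat, Frm.of, Matrix.of_apply,
    Matrix.cons_val', Matrix.cons_val_zero, Matrix.cons_val_one, Matrix.cons_val]
  refine Prod.ext ?_ (Prod.ext ?_ (Prod.ext ?_ (Prod.ext ?_ (Prod.ext ?_ ?_))))
  all_goals (push_cast; ring)

private theorem Red_det (a b d e f g : ℝ) : (Red_mk a b d e f g).mat.det =
    a * (e * g - f ^ 2) - b * (b * g - f * d) + d * (b * f - e * d) := by
  rw [Matrix.det_fin_three]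
  simp only [Red_mk, Frm.mat, Matrix.of_apply, Matrix.cons_val', Matrix.cons_val_zero,
    Matrix.cons_val_one, Matrix.cons_val]
  ring

private theorem Red_dl (a b d e f g : ℝ) : dl (Red_mk a b d e f g) =
    Red_mk (Real.exp (1 / 3) * ((Red_mk a b d e f g).mat.det⁻¹ * (e * g - f ^ 2)))
      (Real.exp (1 / 3) * ((Red_mk a b d e f g).mat.det⁻¹ * (d * f - b * g)))
      (Real.exp (1 / 3) * ((Red_mk a b d e f g).mat.det⁻¹ * (b * f - d * e)))
      (Real.exp (1 / 3) * ((Red_mk a b d e f g).mat.det⁻¹ * (a * g - d ^ 2)))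
      (Real.exp (1 / 3) * ((Red_mk a b d e f g).mat.det⁻¹ * (b * d - a * f)))
      (Real.exp (1 / 3) * ((Red_mk a b d e f g).mat.det⁻¹ * (a * e - b ^ 2))) := by
  unfold dl
  rw [Matrix.inv_def, Ring.inverse_eq_inv', Matrix.adjugate_fin_three]
  generalize (Red_mk a b d e f g).mat.det = D
  simp only [Red_mk, Frm.mat, Frm.of, Matrix.smul_apply, smul_eq_mul, Matrix.of_apply,
    Matrix.cons_val', Matrix.cons_val_zero, Matrix.cons_val_one, Matrix.cons_val]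
  refine Prod.ext ?_ (Prod.ext ?_ (Prod.ext ?_ (Prod.ext ?_ (Prod.ext ?_ ?_))))
  all_goals ring

private theorem Red_det_zof {y : Frm} (hy : y ∈ Pos) : y.mat.det = y.1 ^ 3 * bdet (zof y) := by
  obtain ⟨h1, -⟩ := pd_zof hy
  obtain ⟨a, b, d, e, f, g⟩ := y
  have ha : a ≠ 0 := h1.ne'
  change (Red_mk a b d e f g).mat.det = _
  rw [Red_det]
  simp only [bdet, zof]
  field_simp
  ring

private theorem Red_smul_det (γ : SL(3, ℤ)) (y : Frm) : (γ • y).mat.det = y.mat.det := by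
  rw [smul_def, det_act, Matrix.det_transpose, det_rl]
  ring

/-- The dual form has the height `R` if the form has the shortest vector `e₁` and `R² z₁₁² ≤ det z`. -/
private theorem Red_dual {R : ℝ} {y : Frm} (hy : y ∈ Pos)
    (hmin : ∀ m : Fin 3 → ℤ, m ≠ 0 → y.1 ≤ Red_val y m)
    (h : R ^ 2 * (zof y).1 ^ 2 ≤ bdet (zof y)) : HgtF R (Red_w • dl y) := by
  have hdet := Red_det_zof hy
  obtain ⟨h1, h2, h3⟩ := pd_zof hy
  obtain ⟨a, b, d, e, f, g⟩ := y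
  have ha : 0 < a := h1
  change HgtF R (Red_w • dl (Red_mk a b d e f g))
  rw [Red_dl, Red_w_smul]
  have hD0 : 0 < (Red_mk a b d e f g).mat.det := by
    change 0 < Matrix.det (Frm.mat (a, b, d, e, f, g))
    rw [hdet]
    have : 0 < bdet (zof (a, b, d, e, f, g)) := h3
    positivity
  have hDe := Red_det a b d e f g
  change (Red_mk a b d e f g).mat.det = a ^ 3 * bdet (zof (a, b, d, e, f, g)) at hdet
  set D := (Red_mk a b d e f g).mat.det with hD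
  set Z := bdet (zof (a, b, d, e, f, g)) with hZ
  have hZ0 : 0 < Z := h3
  intro s t hst
  set m : Fin 3 → ℤ := ![t, -s, 0] with hm
  have hm0 : m ≠ 0 := by
    intro h0
    have h4 : m 0 = 0 := by rw [h0]; rfl
    have h5 : m 1 = 0 := by rw [h0]; rfl
    simp [hm] at h4 h5
    rcases hst with h | h
    · exact h h5
    · exact h h4
  have hv := hmin m hm0
  have hval : Red_val (a, b, d, e, f, g) m = e * (s : ℝ) ^ 2 - 2 * b * s * t + a * (t : ℝ) ^ 2 := by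
    simp only [Red_val, hm, Frm.mat, dotProduct, Matrix.mulVec, Fin.sum_univ_three, Matrix.of_apply,
      Matrix.cons_val', Matrix.cons_val_zero, Matrix.cons_val_one, Matrix.cons_val]
    push_cast
    ring
  rw [hval] at hv
  have hv' : a ≤ e * (s : ℝ) ^ 2 - 2 * b * s * t + a * (t : ℝ) ^ 2 := hv
  have hz1 : (zof (a, b, d, e, f, g)).1 = (a * e - b ^ 2) / a ^ 2 := by
    simp only [zof]
    field_simp
  rw [hz1] at h
  have h6 : R ^ 2 * (a * e - b ^ 2) ^ 2 ≤ Z * a ^ 4 := by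
    have h7 : R ^ 2 * ((a * e - b ^ 2) / a ^ 2) ^ 2 = R ^ 2 * (a * e - b ^ 2) ^ 2 / a ^ 4 := by
      field_simp
    rw [h7, div_le_iff₀ (by positivity)] at h
    exact h
  have h8 : R ^ 2 * (a * e - b ^ 2) ^ 2 ≤
      D * (e * (s : ℝ) ^ 2 - 2 * b * s * t + a * (t : ℝ) ^ 2) := by
    calc R ^ 2 * (a * e - b ^ 2) ^ 2 ≤ Z * a ^ 4 := h6
      _ = D * a := by rw [hdet]; ring
      _ ≤ _ := mul_le_mul_of_nonneg_left hv' hD0.le
  have hc : 0 < Real.exp (1 / 3) := Real.exp_pos _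
  set c := Real.exp (1 / 3) with hcdef
  have h9 := mul_le_mul_of_nonneg_left h8 (show 0 ≤ (c * D⁻¹) ^ 2 by positivity)
  show R ^ 2 * (c * (D⁻¹ * (a * e - b ^ 2))) ^ 2 ≤
    (c * (D⁻¹ * (a * e - b ^ 2)) * (c * (D⁻¹ * (e * g - f ^ 2))) -
      (c * (D⁻¹ * (b * f - d * e))) ^ 2) * (s : ℝ) ^ 2 +
    2 * (c * (D⁻¹ * (a * e - b ^ 2)) * (c * (D⁻¹ * (d * f - b * g))) -
      c * (D⁻¹ * (b * f - d * e)) * (c * (D⁻¹ * (b * d - a * f)))) * s * t +
    (c * (D⁻¹ * (a * e - b ^ 2)) * (c * (D⁻¹ * (a * g - d ^ 2))) -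
      (c * (D⁻¹ * (b * d - a * f))) ^ 2) * (t : ℝ) ^ 2
  refine le_trans (le_of_eq ?_) (h9.trans (le_of_eq ?_))
  · ring
  · rw [hDe]
    ring

theorem red {R : ℝ} (hR : 1 ≤ R) {y : Frm} (hy : y ∈ Short R) : y ∈ Cusp R ∨ dl y ∈ Cusp R := by
  obtain ⟨hp, m, hm, hlt⟩ := hy
  obtain ⟨γ, h1, h2, h3, h4, h5⟩ := reduce3 hp
  have hp' : γ • y ∈ Pos := (smul_mem_pos γ).mpr hp
  obtain ⟨ht, hz⟩ := pd_zof hp'
  have hdet := Red_det_zof hp'
  rw [Red_smul_det] at hdet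
  have hval : (γ • y).1 ≤ Red_val y m := by
    have h6 := h1 _ (Red_vecMul_ne γ⁻¹ hm)
    change _ ≤ Red_val (γ • y) (m ᵥ* (γ⁻¹).1) at h6
    rw [Red_val_smul, Matrix.vecMul_vecMul, ← Matrix.SpecialLinearGroup.coe_mul, inv_mul_cancel,
      Matrix.SpecialLinearGroup.coe_one, Matrix.vecMul_one] at h6
    exact h6
  change R ^ 2 * Red_val y m < y.mat.det ^ (1 / 3 : ℝ) at hlt
  have hR0 : 0 < R := by linarith
  have hdp : 0 < y.mat.det := by
    rw [hdet]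
    have := hz.2
    positivity
  have h7 : R ^ 2 * (γ • y).1 < y.mat.det ^ (1 / 3 : ℝ) :=
    lt_of_le_of_lt (mul_le_mul_of_nonneg_left hval (by positivity)) hlt
  have h8 : (R ^ 2 * (γ • y).1) ^ 3 < y.mat.det := by
    have h9 := pow_lt_pow_left₀ h7 (by positivity) (three_ne_zero)
    rw [← Real.rpow_natCast (y.mat.det ^ (1 / 3 : ℝ)), ← Real.rpow_mul hdp.le] at h9
    norm_num at h9
    exact h9
  rw [hdet] at h8
  have h10 : R ^ 6 < bdet (zof (γ • y)) := by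
    have h11 : (γ • y).1 ^ 3 * R ^ 6 < (γ • y).1 ^ 3 * bdet (zof (γ • y)) := by
      calc (γ • y).1 ^ 3 * R ^ 6 = (R ^ 2 * (γ • y).1) ^ 3 := by ring
        _ < _ := h8
    exact lt_of_mul_lt_mul_left h11 (by positivity)
  rcases le_or_gt (R ^ 2) (zof (γ • y)).1 with h | h
  · left
    refine ⟨hp, γ, ?_⟩
    rw [hgtF_iff ht]
    intro b c hbc
    exact h.trans (h2 b c hbc)
  · right
    refine ⟨dl_mem_pos.mpr hp, Red_w * (γ⁻¹).transpose, ?_⟩
    rw [mul_smul, ← dl_smul γ hp]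
    refine Red_dual hp' h1 ?_
    have h12 : (zof (γ • y)).1 ^ 2 ≤ (R ^ 2) ^ 2 := pow_le_pow_left₀ hz.1.le h.le 2
    calc R ^ 2 * (zof (γ • y)).1 ^ 2 ≤ R ^ 2 * (R ^ 2) ^ 2 :=
          mul_le_mul_of_nonneg_left h12 (by positivity)
      _ = R ^ 6 := by ring
      _ ≤ _ := h10.le

end AQ3
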