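import Pool.Agent.Lib_MP_d358f8_ne.SvM
import Pool.Agent.Lib_MP_d358f8_ne.Red

/-!
# MP_d358f8_nt: the unfolding for `SL₃(ℤ)`

* `unf3_lower`: `∫_{SV} h dmu = ∑_γ ∫_{F} 1_{SV}(γ • y) h(y) dmu` (`IsFundamentalDomain.lintegral_eq_tsum` and its variants, `h` invariant)
  `= ∫_F #{γ : γ • y ∈ SV V} h(y) dmu ≤ 625 ∫_F h` (`lintegral_tsum`; `mu` is carried by `Pos`).
* `unf3_upper`: the same identity and `#{γ : γ • y ∈ SV V} ≥ 1` for `y ∈ Cusp V` (`sv_cover`).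
-/

namespace AQ3

open MeasureTheory Matrix
open scoped ENNReal MatrixGroups

private noncomputable def Unf3_n (V : ℝ) (y : Frm) : ℝ≥0∞ :=
  ∑' γ : SL(3, ℤ), (SV V).indicator (fun _ => (1 : ℝ≥0∞)) (γ • y)

private theorem Unf3_ind (V : ℝ) (γ : SL(3, ℤ)) :
    Measurable fun y : Frm => (SV V).indicator (fun _ => (1 : ℝ≥0∞)) (γ • y) :=
  (measurable_const.indicator (measurableSet_sv V)).comp (measurable_const_smul γ)

private theorem Unf3_meas (V : ℝ) : Measurable (Unf3_n V) :=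
  Measurable.ennreal_tsum fun γ => Unf3_ind V γ

private theorem Unf3_ae : ∀ᵐ y ∂mu, y ∈ Pos := mu_compl_pos

private theorem Unf3_eq {F : Set Frm} (hF : IsFundamentalDomain SL(3, ℤ) F mu) {h : Frm → ℝ≥0∞}
    (hh : AEMeasurable h mu) (hinv : ∀ γ : SL(3, ℤ), ∀ y ∈ Pos, h (γ • y) = h y) (V : ℝ) :
    ∫⁻ y in SV V, h y ∂mu = ∫⁻ y in F, Unf3_n V y * h y ∂mu := by
  rw [← lintegral_indicator (measurableSet_sv V), hF.lintegral_eq_tsum'']
  have h1 : ∀ γ : SL(3, ℤ), ∫⁻ y in F, (SV V).indicator h (γ • y) ∂mu =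
      ∫⁻ y in F, (SV V).indicator (fun _ => (1 : ℝ≥0∞)) (γ • y) * h y ∂mu := by
    intro γ
    refine lintegral_congr_ae ?_
    filter_upwards [ae_restrict_of_ae Unf3_ae] with y hy
    by_cases hs : γ • y ∈ SV V
    · rw [Set.indicator_of_mem hs, Set.indicator_of_mem hs, one_mul, hinv γ y hy]
    · rw [Set.indicator_of_notMem hs, Set.indicator_of_notMem hs, zero_mul]
  have h2 := lintegral_tsum (μ := mu.restrict F)
    (f := fun (γ : SL(3, ℤ)) (y : Frm) => (SV V).indicator (fun _ => (1 : ℝ≥0∞)) (γ • y) * h y)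
    fun γ => (Unf3_ind V γ).aemeasurable.mul hh.restrict
  refine (tsum_congr h1).trans (h2.symm.trans ?_)
  exact lintegral_congr fun y => ENNReal.tsum_mul_right

private theorem Unf3_le {V : ℝ} (hV : 1 < V) {y : Frm} (hy : y ∈ Pos) : Unf3_n V y ≤ 625 := by
  have h1 : Unf3_n V y =
      ∑' γ : SL(3, ℤ), {γ : SL(3, ℤ) | γ • y ∈ SV V}.indicator (fun _ => (1 : ℝ≥0∞)) γ := rfl
  rw [h1, ← tsum_subtype, ENNReal.tsum_set_one]
  have h2 := sv_mult hV hy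
  exact_mod_cast h2

private theorem Unf3_ge {V : ℝ} {y : Frm} (hy : y ∈ Cusp V) : 1 ≤ Unf3_n V y := by
  obtain ⟨γ, hγ⟩ := sv_cover hy
  refine le_trans ?_ (ENNReal.le_tsum γ)
  rw [Set.indicator_of_mem hγ]

theorem unf3_upper {F : Set Frm} (hF : IsFundamentalDomain SL(3, ℤ) F mu) {h : Frm → ℝ≥0∞} (hh : AEMeasurable h mu)
    (hinv : ∀ γ : SL(3, ℤ), ∀ y ∈ Pos, h (γ • y) = h y) (V : ℝ) :
    ∫⁻ y in F ∩ Cusp V, h y ∂mu ≤ ∫⁻ y in SV V, h y ∂mu := by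
  rw [Unf3_eq hF hh hinv]
  have hC : MeasurableSet {y : Frm | 1 ≤ Unf3_n V y} := measurableSet_le measurable_const (Unf3_meas V)
  have h1 : F ∩ Cusp V ⊆ {y : Frm | 1 ≤ Unf3_n V y} ∩ F := fun y hy => ⟨Unf3_ge hy.2, hy.1⟩
  refine (lintegral_mono_set h1).trans ?_
  rw [← Measure.restrict_restrict hC, ← lintegral_indicator hC]
  refine lintegral_mono fun y => ?_
  by_cases hy : y ∈ {y : Frm | 1 ≤ Unf3_n V y}
  · rw [Set.indicator_of_mem hy]
    calc h y = 1 * h y := (one_mul _).symm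
      _ ≤ _ := mul_le_mul_left hy _
  · rw [Set.indicator_of_notMem hy]
    exact zero_le

theorem unf3_lower {F : Set Frm} (hF : IsFundamentalDomain SL(3, ℤ) F mu) {h : Frm → ℝ≥0∞} (hh : AEMeasurable h mu)
    (hinv : ∀ γ : SL(3, ℤ), ∀ y ∈ Pos, h (γ • y) = h y) {V : ℝ} (hV : 1 < V) :
    ∫⁻ y in SV V, h y ∂mu ≤ 625 * ∫⁻ y in F, h y ∂mu := by
  rw [Unf3_eq hF hh hinv, ← lintegral_const_mul'' _ hh.restrict]
  refine lintegral_mono_ae ?_
  filter_upwards [ae_restrict_of_ae Unf3_ae] with y hy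
  exact mul_le_mul_left (Unf3_le hV hy) _

end AQ3
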