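import Pool.Agent.Lib_MP_d358f8_ne.Fam
import Pool.Agent.Lib_MP_d358f8_ne.Rel
import Pool.Agent.Lib_MP_d358f8_ne.Unf2
import Pool.Agent.Lib_MP_d358f8_ne.Jac
import Pool.Agent.Lib_MP_d358f8_ne.Unf3
import Pool.Agent.Lib_MP_d358f8_ne.Dual
import Pool.Agent.Lib_MP_d358f8_ne.Cpt
import Pool.Agent.Lib_MP_d358f8_ne.Ex

/-!
# MP_d358f8_nt: no escape of mass
-/

namespace AQ3

open MeasureTheory Matrix
open scoped ENNReal MatrixGroups

private theorem ae_pos : ∀ᵐ y ∂mu, y ∈ Pos := mu_compl_pos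

private theorem ae_slab : ∀ᵐ y ∂mu, y ∈ slab := by
  have h1 : mu ≪ (volume : Measure Frm).restrict slab := withDensity_absolutelyContinuous _ _
  exact h1.ae_le (ae_restrict_mem isOpen_slab.measurableSet)

private theorem of_smul_mat (c : ℝ) (y : Frm) : Frm.of (c • y.mat) =
    (c * y.1, c * y.2.1, c * y.2.2.1, c * y.2.2.2.1, c * y.2.2.2.2.1, c * y.2.2.2.2.2) := by
  simp [Frm.of, Frm.mat]

private theorem mat_of_smul (c : ℝ) (y : Frm) : (Frm.of (c • y.mat)).mat = c • y.mat := by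
  apply Frm.mat_of
  rw [Matrix.transpose_smul, Frm.mat_transpose]

private theorem smul_mem_pos' {c : ℝ} (hc : 0 < c) (y : Frm) : Frm.of (c • y.mat) ∈ Pos ↔ y ∈ Pos := by
  show (Frm.of (c • y.mat)).mat.PosDef ↔ y.mat.PosDef
  rw [mat_of_smul]
  constructor
  · intro h
    have h2 := h.smul (show (0 : ℝ) < c⁻¹ by positivity)
    rwa [smul_smul, inv_mul_cancel₀ hc.ne', one_smul] at h2
  · intro h
    exact h.smul hc

private theorem sv_smul {c : ℝ} (hc : 0 < c) (V : ℝ) (y : Frm) : Frm.of (c • y.mat) ∈ SV V ↔ y ∈ SV V := by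
  show (Frm.of (c • y.mat) ∈ Pos ∧ _) ↔ (y ∈ Pos ∧ _)
  rw [smul_mem_pos' hc, zof_scale hc.ne', of_smul_mat]
  have e1 : ∀ a : ℝ, 0 ≤ c * a ↔ 0 ≤ a := fun a => mul_nonneg_iff_of_pos_left hc
  have e2 : ∀ a b : ℝ, c * a < c * b ↔ a < b := fun a b => mul_lt_mul_iff_right₀ hc
  simp only [e1, e2]

private theorem frm3_mem_sv (V x₁ x₂ : ℝ) (z : Bin) : frm3 x₁ x₂ z ∈ SV V ↔
    (x₁ ∈ Set.Ico (0 : ℝ) 1 ∧ x₂ ∈ Set.Ico (0 : ℝ) 1 ∧ (z ∈ Sg ∧ Hgt V z)) := by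
  show ((frm3 x₁ x₂ z).mat.PosDef ∧ 0 ≤ x₁ ∧ x₁ < 1 ∧ 0 ≤ x₂ ∧ x₂ < 1 ∧ zof (frm3 x₁ x₂ z) ∈ Sg ∧
    Hgt V (zof (frm3 x₁ x₂ z))) ↔ _
  rw [posDef_frm3, zof_frm3]
  constructor
  · rintro ⟨-, h1, h2, h3, h4, h5, h6⟩
    exact ⟨⟨h1, h2⟩, ⟨h3, h4⟩, h5, h6⟩
  · rintro ⟨⟨h1, h2⟩, ⟨h3, h4⟩, h5, h6⟩
    exact ⟨h5.1, h1, h2, h3, h4, h5, h6⟩

private theorem measurable_fof {φ : Frm → ℂ} (hφ : IsCuspEigen φ) :
    Measurable fun q : ℝ × ℝ × Bin => fof φ q.1 q.2.1 q.2.2 := by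
  classical
  have hf := hecF_of_eigen hφ
  have hS : MeasurableSet {q : ℝ × ℝ × Bin | pd q.2.2} :=
    measurableSet_pd.preimage (measurable_snd.comp measurable_snd)
  have h := ContinuousOn.measurable_piecewise (g := fun _ => (0 : ℂ)) hf.cont continuousOn_const hS
  have e : (fun q : ℝ × ℝ × Bin => fof φ q.1 q.2.1 q.2.2) = Set.piecewise {q : ℝ × ℝ × Bin | pd q.2.2}
      (fun q : ℝ × ℝ × Bin => fof φ q.1 q.2.1 q.2.2) (fun _ => (0 : ℂ)) := by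
    funext q
    by_cases hq : q ∈ {q : ℝ × ℝ × Bin | pd q.2.2}
    · rw [Set.piecewise_eq_of_mem _ _ _ hq]
    · rw [Set.piecewise_eq_of_notMem _ _ _ hq]
      exact hf.zero _ _ _ hq
  rw [e]
  exact h

private theorem sfinite_nu : SFinite nu := by
  have : SFinite (volume : Measure Bin) := inferInstanceAs (SFinite (volume : Measure (ℝ × ℝ × ℝ)))
  unfold nu
  infer_instance

/-- The function of the Siegel set. -/
private noncomputable def gSV (φ : Frm → ℂ) (V : ℝ) : Frm → ℝ≥0∞ := (SV V).indicator fun y => ‖φ y‖ₑ ^ 2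

private theorem measurable_gSV {φ : Frm → ℂ} (hφ : IsCuspEigen φ) (V : ℝ) : Measurable (gSV φ V) := by
  classical
  have h := ContinuousOn.measurable_piecewise (s := SV V) (f := φ) (g := fun _ => (0 : ℂ))
    (hφ.cont.mono fun y hy => hy.1) continuousOn_const (measurableSet_sv V)
  have e : gSV φ V = fun y => ‖Set.piecewise (SV V) φ (fun _ => (0 : ℂ)) y‖ₑ ^ 2 := by
    funext y
    unfold gSV
    by_cases hy : y ∈ SV V
    · rw [Set.piecewise_eq_of_mem _ _ _ hy, Set.indicator_of_mem hy]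
    · rw [Set.piecewise_eq_of_notMem _ _ _ hy, Set.indicator_of_notMem hy]
      simp
  rw [e]
  exact h.enorm.pow_const 2

private theorem sv_int {φ : Frm → ℂ} (hφ : IsCuspEigen φ) (V : ℝ) :
    ∫⁻ y in SV V, ‖φ y‖ₑ ^ 2 ∂mu =
      ENNReal.ofReal (1 / 3) * ∫⁻ z in {z | z ∈ Sg ∧ Hgt V z}, ∑' k : ℤ × ℤ, ‖cf (fof φ) k.1 k.2 z‖ₑ ^ 2 ∂nu := by
  have := sfinite_nu
  have hf := hecF_of_eigen hφ
  have hmf := measurable_fof hφ
  have hF : Measurable fun q : ℝ × ℝ × Bin => ‖fof φ q.1 q.2.1 q.2.2‖ₑ ^ 2 := hmf.enorm.pow_const 2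
  have h1 : ∫⁻ y in SV V, ‖φ y‖ₑ ^ 2 ∂mu = ∫⁻ y, gSV φ V y ∂mu := by
    unfold gSV
    rw [lintegral_indicator (measurableSet_sv V)]
  have h2 : ∀ c : ℝ, 0 < c → ∀ y, gSV φ V (Frm.of (c • y.mat)) = gSV φ V y := by
    intro c hc y
    unfold gSV
    by_cases hy : y ∈ SV V
    · rw [Set.indicator_of_mem hy, Set.indicator_of_mem ((sv_smul hc V y).2 hy), hφ.scale c hc y hy.1]
    · rw [Set.indicator_of_notMem hy, Set.indicator_of_notMem (fun h => hy ((sv_smul hc V y).1 h))]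
  rw [h1, jac6 (measurable_gSV hφ V) h2]
  congr 1
  have h3 : ∀ x₁ x₂ : ℝ, ∀ z : Bin, gSV φ V (frm3 x₁ x₂ z) =
      (Set.Ico (0 : ℝ) 1).indicator (fun x₁ => (Set.Ico (0 : ℝ) 1).indicator (fun x₂ =>
        {z | z ∈ Sg ∧ Hgt V z}.indicator (fun z => ‖fof φ x₁ x₂ z‖ₑ ^ 2) z) x₂) x₁ := by
    intro x₁ x₂ z
    unfold gSV
    by_cases hy : frm3 x₁ x₂ z ∈ SV V
    · rw [Set.indicator_of_mem hy]
      obtain ⟨a1, a2, a3⟩ := (frm3_mem_sv V x₁ x₂ z).1 hy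
      rw [Set.indicator_of_mem a1, Set.indicator_of_mem a2, Set.indicator_of_mem (show z ∈ {z | z ∈ Sg ∧ Hgt V z} from a3)]
      unfold fof
      rw [if_pos a3.1.1]
    · rw [Set.indicator_of_notMem hy]
      by_cases b1 : x₁ ∈ Set.Ico (0 : ℝ) 1
      · rw [Set.indicator_of_mem b1]
        by_cases b2 : x₂ ∈ Set.Ico (0 : ℝ) 1
        · rw [Set.indicator_of_mem b2]
          by_cases b3 : z ∈ {z | z ∈ Sg ∧ Hgt V z}
          · exact absurd ((frm3_mem_sv V x₁ x₂ z).2 ⟨b1, b2, b3⟩) hy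
          · rw [Set.indicator_of_notMem b3]
        · rw [Set.indicator_of_notMem b2]
      · rw [Set.indicator_of_notMem b1]
  have hmS : MeasurableSet {z : Bin | z ∈ Sg ∧ Hgt V z} := by
    have hSg : MeasurableSet Sg := by
      have c1 : Continuous fun z : Bin => z.1 := show Continuous (fun z : ℝ × ℝ × ℝ => z.1) from continuous_fst
      have c2 : Continuous fun z : Bin => z.2.1 :=
        show Continuous (fun z : ℝ × ℝ × ℝ => z.2.1) from continuous_fst.comp continuous_snd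
      have c3 : Continuous fun z : Bin => z.2.2 :=
        show Continuous (fun z : ℝ × ℝ × ℝ => z.2.2) from continuous_snd.comp continuous_snd
      have h1 : Measurable fun z : Bin => |2 * z.2.1| := (continuous_const.mul c2).abs.measurable
      have h2 : Measurable fun z : Bin => 3 / 4 * z.1 ^ 2 := (continuous_const.mul (c1.pow 2)).measurable
      have h3 : Measurable fun z : Bin => bdet z := ((c1.mul c3).sub (c2.pow 2)).measurable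
      exact measurableSet_pd.inter ((measurableSet_le h1 c1.measurable).inter (measurableSet_le h2 h3))
    exact hSg.inter (measurableSet_hgt V)
  have hI : (volume : Measure ℝ).restrict (Set.Ico 0 1) = volume.restrict (Set.Ioc 0 1) :=
    Measure.restrict_congr_set Ico_ae_eq_Ioc
  have h4 : ∫⁻ x₁ : ℝ, ∫⁻ x₂ : ℝ, ∫⁻ z, gSV φ V (frm3 x₁ x₂ z) ∂nu =
      ∫⁻ x₁ in Set.Ioc (0 : ℝ) 1, ∫⁻ x₂ in Set.Ioc (0 : ℝ) 1,
        ∫⁻ z in {z | z ∈ Sg ∧ Hgt V z}, ‖fof φ x₁ x₂ z‖ₑ ^ 2 ∂nu := by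
    rw [← hI]
    rw [← lintegral_indicator measurableSet_Ico]
    refine lintegral_congr fun x₁ => ?_
    by_cases b1 : x₁ ∈ Set.Ico (0 : ℝ) 1
    · rw [Set.indicator_of_mem b1, ← lintegral_indicator measurableSet_Ico]
      refine lintegral_congr fun x₂ => ?_
      by_cases b2 : x₂ ∈ Set.Ico (0 : ℝ) 1
      · rw [Set.indicator_of_mem b2, ← lintegral_indicator hmS]
        refine lintegral_congr fun z => ?_
        rw [h3, Set.indicator_of_mem b1, Set.indicator_of_mem b2]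
      · rw [Set.indicator_of_notMem b2, lintegral_eq_zero_of_ae_eq_zero]
        refine Filter.Eventually.of_forall fun z => ?_
        show gSV φ V (frm3 x₁ x₂ z) = 0
        rw [h3, Set.indicator_of_mem b1, Set.indicator_of_notMem b2]
    · rw [Set.indicator_of_notMem b1]
      have : ∀ x₂ : ℝ, ∫⁻ z, gSV φ V (frm3 x₁ x₂ z) ∂nu = 0 := by
        intro x₂
        rw [lintegral_eq_zero_of_ae_eq_zero]
        refine Filter.Eventually.of_forall fun z => ?_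
        show gSV φ V (frm3 x₁ x₂ z) = 0
        rw [h3, Set.indicator_of_notMem b1]
      simp only [this, lintegral_zero]
  rw [h4]
  have h5 : ∀ x₁ : ℝ, ∫⁻ x₂ in Set.Ioc (0 : ℝ) 1, ∫⁻ z in {z | z ∈ Sg ∧ Hgt V z}, ‖fof φ x₁ x₂ z‖ₑ ^ 2 ∂nu =
      ∫⁻ z in {z | z ∈ Sg ∧ Hgt V z}, (∫⁻ x₂ in Set.Ioc (0 : ℝ) 1, ‖fof φ x₁ x₂ z‖ₑ ^ 2) ∂nu := by
    intro x₁
    refine lintegral_lintegral_swap ?_
    exact (hF.comp (measurable_const.prodMk (measurable_fst.prodMk measurable_snd))).aemeasurable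
  simp only [h5]
  rw [lintegral_lintegral_swap]
  · refine lintegral_congr fun z => ?_
    exact parseval hf z
  · refine Measurable.aemeasurable ?_
    have h6 : Measurable fun q : (ℝ × Bin) × ℝ => ‖fof φ q.1.1 q.2 q.1.2‖ₑ ^ 2 :=
      hF.comp ((measurable_fst.comp measurable_fst).prodMk (measurable_snd.prodMk (measurable_snd.comp measurable_fst)))
    exact h6.lintegral_prod_right'

/-- The masses of the first cusp. -/
theorem sv_mass {φ : Frm → ℂ} (hφ : IsCuspEigen φ) (V : ℝ) :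
    QI (fun m z => cf (fof φ) m 0 z) V ≤ 3 * ∫⁻ y in SV V, ‖φ y‖ₑ ^ 2 ∂mu ∧
    ∫⁻ y in SV V, ‖φ y‖ₑ ^ 2 ∂mu ≤ 625 * QI (fun m z => cf (fof φ) m 0 z) V := by
  have hf := hecF_of_eigen hφ
  rw [sv_int hφ V]
  constructor
  · refine (unf2_lower hf V).trans ?_
    rw [← mul_assoc]
    have : (3 : ℝ≥0∞) * ENNReal.ofReal (1 / 3) = 1 := by
      rw [show (3 : ℝ≥0∞) = ENNReal.ofReal 3 by simp, ← ENNReal.ofReal_mul (by norm_num)]
      norm_num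
    rw [this, one_mul]
  · have h1 : ENNReal.ofReal (1 / 3) ≤ 1 := by
      rw [← ENNReal.ofReal_one]
      exact ENNReal.ofReal_le_ofReal (by norm_num)
    calc _ ≤ 1 * ∫⁻ z in {z | z ∈ Sg ∧ Hgt V z}, ∑' k : ℤ × ℤ, ‖cf (fof φ) k.1 k.2 z‖ₑ ^ 2 ∂nu :=
          mul_le_mul_left h1 _
      _ = _ := one_mul _
      _ ≤ _ := unf2_upper hf V

private theorem aemeasurable_phi {φ : Frm → ℂ} (hφ : IsCuspEigen φ) : AEMeasurable (fun y => ‖φ y‖ₑ ^ 2) mu := by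
  have h1 : AEMeasurable φ (mu.restrict Pos) := hφ.cont.aemeasurable isOpen_pos.measurableSet
  have h2 : mu.restrict Pos = mu := Measure.restrict_eq_self_of_ae_mem ae_pos
  rw [h2] at h1
  exact h1.enorm.pow_const 2

/-- The decay of the mass in the first cusp. -/
theorem cusp_decay (κ : ℝ) (hκ : κ < 1 / 3) : ∃ C : ℝ, 0 < C ∧ ∀ φ : Frm → ℂ, IsCuspEigen φ →
    ∀ F : Set Frm, IsFundamentalDomain SL(3, ℤ) F mu → ∀ R : ℝ, 1 ≤ R →
      ∫⁻ y in F ∩ Cusp R, ‖φ y‖ₑ ^ 2 ∂mu ≤ ENNReal.ofReal (C * R ^ (-κ)) * ∫⁻ y in F, ‖φ y‖ₑ ^ 2 ∂mu := by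
  obtain ⟨A, hA0, hA⟩ := qi_decay ((κ + 1 / 3) / 2) (by linarith)
  obtain ⟨δ, hδ⟩ : ∃ δ : ℝ, δ = (κ + 1 / 3) / 2 - κ := ⟨_, rfl⟩
  have hδ0 : 0 < δ := by rw [hδ]; linarith
  have h2κ : (0 : ℝ) < 2 ^ κ := Real.rpow_pos_of_pos (by norm_num) _
  obtain ⟨E, hE⟩ : ∃ E : ℝ, E = Real.exp (A ^ 2 / (4 * δ)) := ⟨_, rfl⟩
  have hE0 : 0 < E := by rw [hE]; exact Real.exp_pos _
  refine ⟨(1 + 2 ^ κ) * (1 + 1171875 * E), by positivity, ?_⟩
  intro φ hφ F hF R hR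
  have hR0 : 0 < R := by linarith
  have hRκ : 0 < R ^ (-κ) := Real.rpow_pos_of_pos hR0 _
  by_cases htop : ∫⁻ y in F, ‖φ y‖ₑ ^ 2 ∂mu = ⊤
  · rw [htop, ENNReal.mul_top]
    · exact le_top
    · rw [Ne, ENNReal.ofReal_eq_zero, not_le]
      positivity
  by_cases hR2 : R < 2
  · have h1 : 1 ≤ (1 + 2 ^ κ) * (1 + 1171875 * E) * R ^ (-κ) := by
      have h2 : 1 ≤ (1 + 2 ^ κ) * R ^ (-κ) := by
        by_cases hκ0 : 0 ≤ κ
        · have h3 : R ^ κ ≤ 2 ^ κ := Real.rpow_le_rpow hR0.le hR2.le hκ0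
          rw [Real.rpow_neg hR0.le, ← div_eq_mul_inv, le_div_iff₀ (Real.rpow_pos_of_pos hR0 _)]
          linarith
        · have h3 : 1 ≤ R ^ (-κ) := Real.one_le_rpow hR (by linarith)
          nlinarith
      have h4 : 0 ≤ 1171875 * E := by positivity
      nlinarith [mul_nonneg h4 (le_trans zero_le_one h2)]
    calc ∫⁻ y in F ∩ Cusp R, ‖φ y‖ₑ ^ 2 ∂mu ≤ ∫⁻ y in F, ‖φ y‖ₑ ^ 2 ∂mu :=
          lintegral_mono_set Set.inter_subset_left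
      _ = 1 * ∫⁻ y in F, ‖φ y‖ₑ ^ 2 ∂mu := (one_mul _).symm
      _ ≤ _ := by
          refine mul_le_mul_left ?_ _
          rw [← ENNReal.ofReal_one]
          exact ENNReal.ofReal_le_ofReal h1
  push Not at hR2
  have hinv : ∀ γ : SL(3, ℤ), ∀ y ∈ Pos, (fun y => ‖φ y‖ₑ ^ 2) (γ • y) = (fun y => ‖φ y‖ₑ ^ 2) y := by
    intro γ y hy
    show ‖φ (γ • y)‖ₑ ^ 2 = ‖φ y‖ₑ ^ 2
    rw [hφ.inv γ y hy]
  have hmeas := aemeasurable_phi hφ
  have hB := bfam_of_hecF (hecF_of_eigen hφ)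
  have hfin : ∀ V : ℝ, 1 < V → QI (fun m z => cf (fof φ) m 0 z) V ≤ 1875 * ∫⁻ y in F, ‖φ y‖ₑ ^ 2 ∂mu := by
    intro V hV
    calc _ ≤ 3 * ∫⁻ y in SV V, ‖φ y‖ₑ ^ 2 ∂mu := (sv_mass hφ V).1
      _ ≤ 3 * (625 * ∫⁻ y in F, ‖φ y‖ₑ ^ 2 ∂mu) := by
          gcongr
          exact unf3_lower hF hmeas hinv hV
      _ = _ := by
          rw [← mul_assoc]
          norm_num
  have h1 := hA (fun m z => cf (fof φ) m 0 z) hB (fun V hV => ne_top_of_le_ne_top (ENNReal.mul_ne_top (by norm_num) htop)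
    (hfin V hV)) (R / 2) (by linarith)
  rw [show 2 * (R / 2) = R by ring] at h1
  have h2 : Real.exp (-((κ + 1 / 3) / 2) * Real.log (R / 2) + A * √(Real.log (R / 2))) ≤ E * 2 ^ κ * R ^ (-κ) := by
    have hL0 : 0 ≤ Real.log (R / 2) := Real.log_nonneg (by linarith)
    have h3 : E * 2 ^ κ * R ^ (-κ) = Real.exp (A ^ 2 / (4 * δ) - κ * Real.log (R / 2)) := by
      rw [Real.log_div hR0.ne' (by norm_num), hE, Real.rpow_def_of_pos (by norm_num : (0 : ℝ) < 2),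
        Real.rpow_def_of_pos hR0, ← Real.exp_add, ← Real.exp_add]
      congr 1
      ring
    rw [h3]
    refine Real.exp_le_exp.2 ?_
    have h4 : (κ + 1 / 3) / 2 = κ + δ := by rw [hδ]; ring
    rw [h4]
    have h5 : A * √(Real.log (R / 2)) ≤ δ * Real.log (R / 2) + A ^ 2 / (4 * δ) := by
      have h6 : δ * Real.log (R / 2) = δ * √(Real.log (R / 2)) ^ 2 := by rw [Real.sq_sqrt hL0]
      rw [h6]
      have h7 : δ * √(Real.log (R / 2)) ^ 2 + A ^ 2 / (4 * δ) - A * √(Real.log (R / 2)) =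
          (2 * δ * √(Real.log (R / 2)) - A) ^ 2 / (4 * δ) := by
        field_simp
        ring
      have h8 : 0 ≤ (2 * δ * √(Real.log (R / 2)) - A) ^ 2 / (4 * δ) := by positivity
      linarith
    linarith
  calc ∫⁻ y in F ∩ Cusp R, ‖φ y‖ₑ ^ 2 ∂mu ≤ ∫⁻ y in SV R, ‖φ y‖ₑ ^ 2 ∂mu := unf3_upper hF hmeas hinv R
    _ ≤ 625 * QI (fun m z => cf (fof φ) m 0 z) R := (sv_mass hφ R).2
    _ ≤ 625 * (ENNReal.ofReal (E * 2 ^ κ * R ^ (-κ)) * (1875 * ∫⁻ y in F, ‖φ y‖ₑ ^ 2 ∂mu)) := by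
        refine mul_le_mul_right (h1.trans ?_) _
        exact mul_le_mul' (ENNReal.ofReal_le_ofReal h2) (hfin 2 (by norm_num))
    _ = ENNReal.ofReal (1171875 * (E * 2 ^ κ * R ^ (-κ))) * ∫⁻ y in F, ‖φ y‖ₑ ^ 2 ∂mu := by
        rw [ENNReal.ofReal_mul (by norm_num : (0 : ℝ) ≤ 1171875)]
        rw [show ENNReal.ofReal 1171875 = (1171875 : ℝ≥0∞) by simp]
        rw [show (1171875 : ℝ≥0∞) = 625 * 1875 by norm_num]
        ring
    _ ≤ _ := by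
        refine mul_le_mul_left (ENNReal.ofReal_le_ofReal ?_) _
        have h3 : 0 ≤ E * R ^ (-κ) := by positivity
        have h4 : 0 ≤ 2 ^ κ * R ^ (-κ) := by positivity
        nlinarith

/-- `dl` is an involution almost everywhere. -/
private theorem lint_dl_le (u : Frm → ℝ≥0∞) : ∫⁻ y, u y ∂mu ≤ ∫⁻ y, u (dl y) ∂mu := by
  calc ∫⁻ y, u y ∂mu = ∫⁻ y, u y ∂(Measure.map dl mu) := by rw [dl_mp.map_eq]
    _ ≤ _ := lintegral_map_le _ _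

private theorem fd_meas {F : Set Frm} (hF : IsFundamentalDomain SL(3, ℤ) F mu) : NullMeasurableSet F mu :=
  hF.nullMeasurableSet

private theorem lint_ind_dl (φ : Frm → ℂ) {S : Set Frm} (hS : NullMeasurableSet S mu) :
    ∫⁻ y in S, ‖φ y‖ₑ ^ 2 ∂mu ≤ ∫⁻ y in dl ⁻¹' S, ‖φ (dl y)‖ₑ ^ 2 ∂mu := by
  have hS' : NullMeasurableSet (dl ⁻¹' S) mu := hS.preimage dl_mp.quasiMeasurePreserving
  rw [← lintegral_indicator₀ hS, ← lintegral_indicator₀ hS']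
  exact (lint_dl_le _).trans (le_of_eq rfl)

private theorem ae_dl : ∀ᵐ y ∂mu, dl (dl y) = y := by
  filter_upwards [ae_pos] with y hy
  exact dl_dl hy

private theorem dl_pre {S : Set Frm} : (dl ⁻¹' (dl ⁻¹' S)) =ᵐ[mu] S := by
  filter_upwards [ae_dl] with y hy
  show (dl (dl y) ∈ S) = (y ∈ S)
  rw [hy]

private theorem measurableSet_cusp (R : ℝ) : MeasurableSet (Cusp R) := by
  have c1 : Continuous fun y : Frm => y.1 :=
    show Continuous (fun y : ℝ × ℝ × ℝ × ℝ × ℝ × ℝ => y.1) from continuous_fst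
  have c2 : Continuous fun y : Frm => y.2.1 :=
    show Continuous (fun y : ℝ × ℝ × ℝ × ℝ × ℝ × ℝ => y.2.1) by fun_prop
  have c3 : Continuous fun y : Frm => y.2.2.1 :=
    show Continuous (fun y : ℝ × ℝ × ℝ × ℝ × ℝ × ℝ => y.2.2.1) by fun_prop
  have c4 : Continuous fun y : Frm => y.2.2.2.1 :=
    show Continuous (fun y : ℝ × ℝ × ℝ × ℝ × ℝ × ℝ => y.2.2.2.1) by fun_prop
  have c5 : Continuous fun y : Frm => y.2.2.2.2.1 :=
    show Continuous (fun y : ℝ × ℝ × ℝ × ℝ × ℝ × ℝ => y.2.2.2.2.1) by fun_prop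
  have c6 : Continuous fun y : Frm => y.2.2.2.2.2 :=
    show Continuous (fun y : ℝ × ℝ × ℝ × ℝ × ℝ × ℝ => y.2.2.2.2.2) by fun_prop
  have h1 : MeasurableSet {y : Frm | HgtF R y} := by
    have e : {y : Frm | HgtF R y} = ⋂ b : ℤ, ⋂ c : ℤ, {y : Frm | (b ≠ 0 ∨ c ≠ 0) →
        R ^ 2 * y.1 ^ 2 ≤ (y.1 * y.2.2.2.1 - y.2.1 ^ 2) * b ^ 2 +
        2 * (y.1 * y.2.2.2.2.1 - y.2.1 * y.2.2.1) * b * c + (y.1 * y.2.2.2.2.2 - y.2.2.1 ^ 2) * c ^ 2} := by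
      ext y
      simp only [Set.mem_iInter]
      rfl
    rw [e]
    refine MeasurableSet.iInter fun b => MeasurableSet.iInter fun c => ?_
    by_cases hbc : b ≠ 0 ∨ c ≠ 0
    · have : {y : Frm | (b ≠ 0 ∨ c ≠ 0) →
          R ^ 2 * y.1 ^ 2 ≤ (y.1 * y.2.2.2.1 - y.2.1 ^ 2) * b ^ 2 +
          2 * (y.1 * y.2.2.2.2.1 - y.2.1 * y.2.2.1) * b * c + (y.1 * y.2.2.2.2.2 - y.2.2.1 ^ 2) * c ^ 2} =
          {y : Frm | R ^ 2 * y.1 ^ 2 ≤ (y.1 * y.2.2.2.1 - y.2.1 ^ 2) * b ^ 2 +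
          2 * (y.1 * y.2.2.2.2.1 - y.2.1 * y.2.2.1) * b * c + (y.1 * y.2.2.2.2.2 - y.2.2.1 ^ 2) * c ^ 2} := by
        ext y
        exact ⟨fun h => h hbc, fun h _ => h⟩
      rw [this]
      refine (isClosed_le ?_ ?_).measurableSet
      · exact continuous_const.mul (c1.pow 2)
      · exact (((c1.mul c4).sub (c2.pow 2)).mul continuous_const).add
          (((continuous_const.mul ((c1.mul c5).sub (c2.mul c3))).mul continuous_const).mul continuous_const) |>.add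
          (((c1.mul c6).sub (c3.pow 2)).mul continuous_const)
    · have : {y : Frm | (b ≠ 0 ∨ c ≠ 0) →
          R ^ 2 * y.1 ^ 2 ≤ (y.1 * y.2.2.2.1 - y.2.1 ^ 2) * b ^ 2 +
          2 * (y.1 * y.2.2.2.2.1 - y.2.1 * y.2.2.1) * b * c + (y.1 * y.2.2.2.2.2 - y.2.2.1 ^ 2) * c ^ 2} = Set.univ := by
        ext y
        exact ⟨fun _ => trivial, fun _ h => absurd h hbc⟩
      rw [this]
      exact MeasurableSet.univ
  have e : Cusp R = Pos ∩ ⋃ γ : SL(3, ℤ), (fun y : Frm => γ • y) ⁻¹' {y : Frm | HgtF R y} := by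
    ext y
    constructor
    · rintro ⟨h1, γ, h2⟩
      exact ⟨h1, Set.mem_iUnion.2 ⟨γ, h2⟩⟩
    · rintro ⟨h1, h2⟩
      obtain ⟨γ, h3⟩ := Set.mem_iUnion.1 h2
      exact ⟨h1, γ, h3⟩
  rw [e]
  exact isOpen_pos.measurableSet.inter (MeasurableSet.iUnion fun γ => (measurable_const_smul γ) h1)

/-- No escape of mass, quantitative. -/
theorem short_decay (κ : ℝ) (hκ : κ < 1 / 3) : ∃ C : ℝ, 0 < C ∧ ∀ φ : Frm → ℂ, IsCuspEigen φ →
    ∀ F : Set Frm, IsFundamentalDomain SL(3, ℤ) F mu → ∀ R : ℝ, 1 ≤ R →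
      ∫⁻ y in F ∩ Short R, ‖φ y‖ₑ ^ 2 ∂mu ≤ ENNReal.ofReal (C * R ^ (-κ)) * ∫⁻ y in F, ‖φ y‖ₑ ^ 2 ∂mu := by
  obtain ⟨C, hC0, hC⟩ := cusp_decay κ hκ
  refine ⟨2 * C, by positivity, ?_⟩
  intro φ hφ F hF R hR
  have hR0 : 0 < R := by linarith
  have hRκ : 0 < R ^ (-κ) := Real.rpow_pos_of_pos hR0 _
  have hsub : F ∩ Short R ⊆ (F ∩ Cusp R) ∪ (F ∩ dl ⁻¹' (Cusp R)) := by
    rintro y ⟨hyF, hyS⟩
    rcases red hR hyS with h | h
    · exact Or.inl ⟨hyF, h⟩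
    · exact Or.inr ⟨hyF, h⟩
  have h1 := hC φ hφ F hF R hR
  have h2 : ∫⁻ y in F ∩ dl ⁻¹' (Cusp R), ‖φ y‖ₑ ^ 2 ∂mu ≤
      ENNReal.ofReal (C * R ^ (-κ)) * ∫⁻ y in F, ‖φ y‖ₑ ^ 2 ∂mu := by
    have hS : NullMeasurableSet (F ∩ dl ⁻¹' (Cusp R)) mu :=
      (fd_meas hF).inter ((dl_mp.measurable (measurableSet_cusp R)).nullMeasurableSet)
    calc ∫⁻ y in F ∩ dl ⁻¹' (Cusp R), ‖φ y‖ₑ ^ 2 ∂mu
        ≤ ∫⁻ y in dl ⁻¹' (F ∩ dl ⁻¹' (Cusp R)), ‖φ (dl y)‖ₑ ^ 2 ∂mu := lint_ind_dl φ hS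
      _ = ∫⁻ y in (dl ⁻¹' F) ∩ Cusp R, ‖φ (dl y)‖ₑ ^ 2 ∂mu := by
          refine setLIntegral_congr ?_
          rw [Set.preimage_inter]
          exact (Filter.EventuallyEq.refl _ _).inter dl_pre
      _ ≤ ENNReal.ofReal (C * R ^ (-κ)) * ∫⁻ y in dl ⁻¹' F, ‖φ (dl y)‖ₑ ^ 2 ∂mu :=
          hC (fun y => φ (dl y)) (dual_eigen hφ) (dl ⁻¹' F) (fd_dual hF) R hR
      _ ≤ ENNReal.ofReal (C * R ^ (-κ)) * ∫⁻ y in dl ⁻¹' (dl ⁻¹' F), ‖φ (dl (dl y))‖ₑ ^ 2 ∂mu := by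
          refine mul_le_mul_right ?_ _
          exact lint_ind_dl (fun y => φ (dl y)) ((fd_meas hF).preimage dl_mp.quasiMeasurePreserving)
      _ = ENNReal.ofReal (C * R ^ (-κ)) * ∫⁻ y in F, ‖φ (dl (dl y))‖ₑ ^ 2 ∂mu := by
          rw [setLIntegral_congr dl_pre]
      _ = _ := by
          congr 1
          refine lintegral_congr_ae (ae_restrict_of_ae ?_)
          filter_upwards [ae_dl] with y hy
          rw [hy]
  calc ∫⁻ y in F ∩ Short R, ‖φ y‖ₑ ^ 2 ∂mu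
      ≤ ∫⁻ y in (F ∩ Cusp R) ∪ (F ∩ dl ⁻¹' (Cusp R)), ‖φ y‖ₑ ^ 2 ∂mu := lintegral_mono_set hsub
    _ ≤ _ := lintegral_union_le _ _ _
    _ ≤ ENNReal.ofReal (C * R ^ (-κ)) * ∫⁻ y in F, ‖φ y‖ₑ ^ 2 ∂mu +
        ENNReal.ofReal (C * R ^ (-κ)) * ∫⁻ y in F, ‖φ y‖ₑ ^ 2 ∂mu := add_le_add h1 h2
    _ = _ := by
        rw [← add_mul, ← ENNReal.ofReal_add (by positivity) (by positivity)]
        congr 2
        ring

/-- No escape of mass: the tightness. -/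
theorem tight (ε : ℝ) (hε : 0 < ε) : ∃ K : Set Frm, IsCompact K ∧ K ⊆ Pos ∧ ∀ φ : Frm → ℂ, IsCuspEigen φ →
    ∀ F : Set Frm, IsFundamentalDomain SL(3, ℤ) F mu →
      ∫⁻ y in {y | y ∈ F ∧ ∀ γ : SL(3, ℤ), γ • y ∉ K}, ‖φ y‖ₑ ^ 2 ∂mu ≤
        ENNReal.ofReal ε * ∫⁻ y in F, ‖φ y‖ₑ ^ 2 ∂mu := by
  obtain ⟨C, hC0, hC⟩ := short_decay (1 / 4) (by norm_num)
  obtain ⟨R, hR1, hR2⟩ : ∃ R : ℝ, 1 ≤ R ∧ C * R ^ (-(1 / 4) : ℝ) ≤ ε := by
    have h1 : Filter.Tendsto (fun R : ℝ => C * R ^ (-(1 / 4) : ℝ)) Filter.atTop (nhds (C * 0)) :=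
      (tendsto_rpow_neg_atTop (by norm_num)).const_mul C
    rw [mul_zero] at h1
    have h2 := h1.eventually (gt_mem_nhds hε)
    obtain ⟨R, hR⟩ := (h2.and (Filter.eventually_ge_atTop 1)).exists
    exact ⟨R, hR.2, hR.1.le⟩
  obtain ⟨K, hK, hKP, hcov⟩ := cpt hR1
  refine ⟨K, hK, hKP, ?_⟩
  intro φ hφ F hF
  have hsub : ({y | y ∈ F ∧ ∀ γ : SL(3, ℤ), γ • y ∉ K} : Set Frm) ≤ᵐ[mu] (F ∩ Short R : Set Frm) := by
    filter_upwards [ae_slab] with y hy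
    rintro ⟨hyF, hyK⟩
    refine ⟨hyF, ?_⟩
    by_contra hcon
    obtain ⟨γ, hγ⟩ := hcov y hy hcon
    exact hyK γ hγ
  calc _ ≤ ∫⁻ y in F ∩ Short R, ‖φ y‖ₑ ^ 2 ∂mu := lintegral_mono_set' hsub
    _ ≤ ENNReal.ofReal (C * R ^ (-(1 / 4) : ℝ)) * ∫⁻ y in F, ‖φ y‖ₑ ^ 2 ∂mu := hC φ hφ F hF R hR1
    _ ≤ _ := mul_le_mul_left (ENNReal.ofReal_le_ofReal hR2) _

end AQ3
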