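import Pool.Agent.Lib_MP_d358f8_ne.Lin2

/-!
# MP_d358f8_nt: the simple properties of the masses

PROOFS. * `qt_anti`, `qt_le_one`, `qt_le_qi`: the domains (the conditions on `m`) are larger.
* `qt_zero`: for `z ∈ dom T V m`, `m ≥ 1`: `V² ≤ bq z 1 0 = z₁₁ ≤ m² z₁₁ ≤ T² < V²`; so `dom T V m` is empty.
* `qi_le`: `dom' V` is the increasing union of the sets `dom n V m`, `n ∈ ℕ`; for finitely many `m` at a time monotone convergence
  (`ENNReal.tsum_eq_iSup_sum`, `lintegral_iUnion_of_directed` / `setLIntegral_iUnion_of_directed`, or Fatou); `B m` is measurable.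
* `qt_moment`: with `q m = ∫_{dom T V m} |B m|²` and `ω(m)` the number of `p ∈ S` with `n p ∣ m` the left side is `∑_{m ≥ 1} ω(m) q m`, and
  `∑_D QT (∏_{p ∈ D} n p) = ∑_m binom(ω(m), K) q m` (the `n p` are pairwise coprime, so `∏_{p ∈ D} n p ∣ m` iff all `n p ∣ m`:
  `Finset.prod_dvd_of_coprime`), and `ω ≤ 2 K + binom(ω, K)` (`binom(ω, K) ≥ ω` for `1 ≤ K ≤ ω - 1`). Exchange the finite sums with `∑'`
  (`tsum_finsetSum` or `ENNReal.summable`).
-/

namespace AQ3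

open MeasureTheory Matrix
open scoped ENNReal MatrixGroups

private theorem hgt_anti {V W : ℝ} (hV : 0 ≤ V) (h : V ≤ W) {z : Bin} (hz : Hgt W z) : Hgt V z := by
  intro b c hbc
  have h1 : V ^ 2 ≤ W ^ 2 := pow_le_pow_left₀ hV h 2
  exact h1.trans (hz b c hbc)

theorem qt_anti (B : ℕ → Bin → ℂ) (T : ℝ) {V W : ℝ} (hV : 0 ≤ V) (h : V ≤ W) (d : ℕ) : QT B T W d ≤ QT B T V d := by
  unfold QT
  refine ENNReal.tsum_le_tsum fun m => ?_
  split_ifs with hm
  · refine lintegral_mono_set ?_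
    rintro z ⟨h1, h2, h3, h4, h5⟩
    exact ⟨h1, h2, h3, hgt_anti hV h h4, h5⟩
  · exact le_refl _

theorem qt_le_one (B : ℕ → Bin → ℂ) (T V : ℝ) (d : ℕ) : QT B T V d ≤ QT B T V 1 := by
  unfold QT
  refine ENNReal.tsum_le_tsum fun m => ?_
  by_cases hm : 1 ≤ m ∧ d ∣ m
  · rw [if_pos hm, if_pos ⟨hm.1, one_dvd m⟩]
  · rw [if_neg hm]
    exact zero_le

theorem qt_zero (B : ℕ → Bin → ℂ) {T V : ℝ} (hT : 0 ≤ T) (h : T < V) (d : ℕ) : QT B T V d = 0 := by
  unfold QT
  rw [ENNReal.tsum_eq_zero]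
  intro m
  split_ifs with hm
  · have he : dom T V m = ∅ := by
      rw [Set.eq_empty_iff_forall_notMem]
      rintro z ⟨h1, h2, h3, h4, h5⟩
      have h6 := h4 1 0 (Or.inl one_ne_zero)
      have h7 : bq z ((1 : ℤ) : ℝ) ((0 : ℤ) : ℝ) = z.1 := by
        unfold bq
        push_cast
        ring
      rw [h7] at h6
      have h8 : (1 : ℝ) ≤ (m : ℝ) ^ 2 := by
        have : (1 : ℝ) ≤ m := by exact_mod_cast hm.1
        nlinarith
      have h9 : 0 < z.1 := h1.1
      have h10 : T ^ 2 < V ^ 2 := pow_lt_pow_left₀ h hT two_ne_zero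
      nlinarith
    rw [he, Measure.restrict_empty, lintegral_zero_measure]
  · rfl

theorem qt_le_qi (B : ℕ → Bin → ℂ) (T V : ℝ) (d : ℕ) : QT B T V d ≤ QI B V := by
  unfold QT QI
  refine ENNReal.tsum_le_tsum fun m => ?_
  by_cases hm : 1 ≤ m ∧ d ∣ m
  · rw [if_pos hm, if_pos hm.1]
    refine lintegral_mono_set ?_
    rintro z ⟨h1, h2, h3, h4, h5⟩
    exact ⟨h1, h2, h3, h4⟩
  · rw [if_neg hm]
    exact zero_le

private theorem dom_mono (V : ℝ) (m : ℕ) : Monotone fun n : ℕ => dom (n : ℝ) V m := by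
  intro a b hab
  rintro z ⟨h1, h2, h3, h4, h5⟩
  refine ⟨h1, h2, h3, h4, h5.trans ?_⟩
  have : (a : ℝ) ≤ b := by exact_mod_cast hab
  exact pow_le_pow_left₀ (Nat.cast_nonneg a) this 2

private theorem dom'_eq (V : ℝ) (m : ℕ) : dom' V = ⋃ n : ℕ, dom (n : ℝ) V m := by
  ext z
  constructor
  · rintro ⟨h1, h2, h3, h4⟩
    obtain ⟨n, hn⟩ := exists_nat_ge ((m : ℝ) ^ 2 * z.1)
    refine Set.mem_iUnion.2 ⟨n, h1, h2, h3, h4, ?_⟩
    refine hn.trans ?_
    rcases Nat.eq_zero_or_pos n with h0 | h0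
    · subst h0
      simp
    · have : (1 : ℝ) ≤ n := by exact_mod_cast h0
      nlinarith
  · intro hz
    obtain ⟨n, h1, h2, h3, h4, h5⟩ := Set.mem_iUnion.1 hz
    exact ⟨h1, h2, h3, h4⟩

theorem qi_le (B : ℕ → Bin → ℂ) (hB : BFam B) {V : ℝ} {a : ℝ≥0∞} (h : ∀ T : ℝ, 0 ≤ T → QT B T V 1 ≤ a) : QI B V ≤ a := by
  unfold QI
  rw [ENNReal.tsum_eq_iSup_sum]
  refine iSup_le fun s => ?_
  have h1 : ∀ m ∈ s, (if 1 ≤ m then ∫⁻ z in dom' V, ‖B m z‖ₑ ^ 2 ∂nu else 0) =
      ⨆ n : ℕ, (if 1 ≤ m then ∫⁻ z in dom (n : ℝ) V m, ‖B m z‖ₑ ^ 2 ∂nu else 0) := by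
    intro m _
    by_cases hm : 1 ≤ m
    · simp only [if_pos hm]
      rw [dom'_eq V m, setLIntegral_iUnion_of_directed]
      exact (dom_mono V m).directed_le
    · simp only [if_neg hm, iSup_const]
  rw [Finset.sum_congr rfl h1, ENNReal.finsetSum_iSup_of_monotone]
  · refine iSup_le fun n => ?_
    refine le_trans ?_ (h n (Nat.cast_nonneg n))
    unfold QT
    refine le_trans (Finset.sum_le_sum fun m _ => ?_) (ENNReal.sum_le_tsum s)
    by_cases hm : 1 ≤ m
    · rw [if_pos hm, if_pos ⟨hm, one_dvd m⟩]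
    · rw [if_neg hm]
      exact zero_le
  · intro m n k hnk
    by_cases hm : 1 ≤ m
    · simp only [if_pos hm]
      exact lintegral_mono_set (dom_mono V m hnk)
    · simp only [if_neg hm]
      exact le_refl _

private theorem choose_ge (K : ℕ) (hK : 1 ≤ K) : ∀ n : ℕ, K + 1 ≤ n → n ≤ n.choose K := by
  intro n hn
  induction n, hn using Nat.le_induction with
  | base => rw [Nat.choose_succ_self_right]
  | succ n hn ih =>
    obtain ⟨k, rfl⟩ : ∃ k, K = k + 1 := ⟨K - 1, by omega⟩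
    rw [Nat.choose_succ_succ']
    have : 0 < n.choose k := Nat.choose_pos (by omega)
    omega

private theorem le_choose {K : ℕ} (hK : 2 ≤ K) (w : ℕ) : w ≤ 2 * K + w.choose K := by
  by_cases h : K + 1 ≤ w
  · have := choose_ge K (by omega) w h
    omega
  · omega

theorem qt_moment (B : ℕ → Bin → ℂ) (T V : ℝ) {K : ℕ} (hK : 2 ≤ K) (S : Finset ℕ) (n : ℕ → ℕ)
    (hn : ∀ p ∈ S, ∀ q ∈ S, p ≠ q → Nat.Coprime (n p) (n q)) :
    ∑ p ∈ S, QT B T V (n p) ≤ 2 * K * QT B T V 1 + ∑ D ∈ S.powersetCard K, QT B T V (∏ p ∈ D, n p) := by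
  unfold QT
  rw [← ENNReal.tsum_mul_left]
  rw [← Summable.tsum_finsetSum (fun _ _ => ENNReal.summable), ← Summable.tsum_finsetSum (fun _ _ => ENNReal.summable),
    ← ENNReal.summable.tsum_add ENNReal.summable]
  refine ENNReal.tsum_le_tsum fun m => ?_
  generalize (∫⁻ z in dom T V m, ‖B m z‖ₑ ^ 2 ∂nu) = q
  by_cases hm : 1 ≤ m
  · have e1 : ∑ p ∈ S, (if 1 ≤ m ∧ n p ∣ m then q else 0) = ((S.filter fun p => n p ∣ m).card : ℝ≥0∞) * q := by
      simp only [hm, true_and]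
      rw [← Finset.sum_filter, Finset.sum_const, nsmul_eq_mul]
    have e2 : ∑ D ∈ S.powersetCard K, (if 1 ≤ m ∧ (∏ p ∈ D, n p) ∣ m then q else 0) =
        (((S.powersetCard K).filter fun D => (∏ p ∈ D, n p) ∣ m).card : ℝ≥0∞) * q := by
      simp only [hm, true_and]
      rw [← Finset.sum_filter, Finset.sum_const, nsmul_eq_mul]
    have e3 : (S.filter fun p => n p ∣ m).powersetCard K ⊆
        (S.powersetCard K).filter fun D => (∏ p ∈ D, n p) ∣ m := by
      intro D hD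
      rw [Finset.mem_powersetCard] at hD
      rw [Finset.mem_filter, Finset.mem_powersetCard]
      refine ⟨⟨hD.1.trans (Finset.filter_subset _ _), hD.2⟩, ?_⟩
      refine Finset.prod_dvd_of_isRelPrime ?_ ?_
      · intro p hp q hq hpq
        have h1 := Finset.mem_filter.1 (hD.1 hp)
        have h2 := Finset.mem_filter.1 (hD.1 hq)
        exact Nat.coprime_iff_isRelPrime.1 (hn p h1.1 q h2.1 hpq)
      · intro p hp
        exact (Finset.mem_filter.1 (hD.1 hp)).2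
    have e4 : (S.filter fun p => n p ∣ m).card ≤
        2 * K + ((S.powersetCard K).filter fun D => (∏ p ∈ D, n p) ∣ m).card := by
      refine (le_choose hK _).trans ?_
      have := Finset.card_le_card e3
      rw [Finset.card_powersetCard] at this
      omega
    rw [e1, e2, if_pos ⟨hm, one_dvd m⟩, ← add_mul]
    refine mul_le_mul_left ?_ q
    exact_mod_cast e4
  · have e1 : ∑ p ∈ S, (if 1 ≤ m ∧ n p ∣ m then q else 0) = 0 := by
      refine Finset.sum_eq_zero fun p _ => ?_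
      rw [if_neg fun h => hm h.1]
    rw [e1]
    exact zero_le

end AQ3
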