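import Pool.Agent.Lib_MP_d358f8_ne.Lin2

/-!
# MP_d358f8_nt: Parseval's identity

* `parseval2`: one-dimensional Parseval (Mathlib: `tsum_sq_fourierCoeff` / `fourierCoeffOn`, `AddCircle`) twice:
  `∫ |g(x, y)|² dy = ∑_l |g_l(x)|²` for every `x`, `g_l(x) = ∫ g(x, y) e(-l y) dy` is continuous of period 1, then
  `∫ |g_l(x)|² dx = ∑_k |g_{k l}|²`; `lintegral_tsum`, `ENNReal.tsum_prod`, `ENNReal.tsum_comm`. (Or
  `UnitAddTorus`, `hasSum_sq_mFourierCoeff`.) Work with `‖·‖ₑ ^ 2` and `ENNReal.ofReal`.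
-/

namespace AQ3

open MeasureTheory Matrix
open scoped ENNReal MatrixGroups

private theorem Par_one {h : ℝ → ℂ} (hh : Continuous h) :
    ∫⁻ y in Set.Ioc (0 : ℝ) 1, ‖h y‖ₑ ^ 2 =
      ∑' l : ℤ, ‖∫ y in (0 : ℝ)..1, h y * Complex.exp (-(2 * Real.pi * Complex.I * (l * y)))‖ₑ ^ 2 := by
  have hL : MemLp h 2 (volume.restrict (Set.Ioc (0 : ℝ) 1)) := by
    have h1 : IntegrableOn (fun y => ‖h y‖ ^ 2) (Set.Ioc (0 : ℝ) 1) :=
      ((hh.norm.pow 2).integrableOn_Icc (a := 0) (b := 1)).mono_set Set.Ioc_subset_Icc_self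
    exact (memLp_two_iff_integrable_sq_norm hh.aestronglyMeasurable).mpr h1
  have hs := hasSum_sq_fourierCoeffOn zero_lt_one hL
  have hc : ∀ l : ℤ, fourierCoeffOn zero_lt_one h l =
      ∫ y in (0 : ℝ)..1, h y * Complex.exp (-(2 * Real.pi * Complex.I * (l * y))) := by
    intro l
    rw [fourierCoeffOn_eq_integral]
    simp only [sub_zero, div_one, one_smul]
    refine intervalIntegral.integral_congr fun y _ => ?_
    simp only [fourier_coe_apply, smul_eq_mul]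
    rw [mul_comm]
    congr 2
    push_cast
    ring
  have h2 : ∫⁻ y in Set.Ioc (0 : ℝ) 1, ‖h y‖ₑ ^ 2 =
      ENNReal.ofReal (∫ y in (0 : ℝ)..1, ‖h y‖ ^ 2) := by
    rw [intervalIntegral.integral_of_le zero_le_one, ofReal_integral_eq_lintegral_ofReal]
    · refine lintegral_congr fun y => ?_
      rw [← ofReal_norm, ENNReal.ofReal_pow (norm_nonneg _)]
    · exact (memLp_two_iff_integrable_sq_norm hh.aestronglyMeasurable).mp hL
    · exact Filter.Eventually.of_forall fun y => by positivity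
  rw [h2]
  simp only [sub_zero, inv_one, one_smul] at hs
  rw [← hs.tsum_eq, ENNReal.ofReal_tsum_of_nonneg (fun l => by positivity) hs.summable]
  refine tsum_congr fun l => ?_
  rw [hc, ENNReal.ofReal_pow (norm_nonneg _), ofReal_norm]

theorem parseval2 {g : ℝ → ℝ → ℂ} (hg : Continuous fun q : ℝ × ℝ => g q.1 q.2) (h1 : ∀ x y, g (x + 1) y = g x y)
    (h2 : ∀ x y, g x (y + 1) = g x y) :
    ∫⁻ x in Set.Ioc (0 : ℝ) 1, ∫⁻ y in Set.Ioc (0 : ℝ) 1, ‖g x y‖ₑ ^ 2 =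
      ∑' k : ℤ × ℤ, ‖∫ x in (0 : ℝ)..1, ∫ y in (0 : ℝ)..1,
        g x y * Complex.exp (-(2 * Real.pi * Complex.I * (k.1 * x + k.2 * y)))‖ₑ ^ 2 := by
  have hcont : ∀ l : ℤ, Continuous fun x : ℝ =>
      ∫ y in (0 : ℝ)..1, g x y * Complex.exp (-(2 * Real.pi * Complex.I * (l * y))) := by
    intro l
    refine intervalIntegral.continuous_parametric_intervalIntegral_of_continuous' ?_ 0 1
    have hg' : Continuous (Function.uncurry fun x y : ℝ => g x y) := hg
    fun_prop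
  have hx : ∀ x : ℝ, ∫⁻ y in Set.Ioc (0 : ℝ) 1, ‖g x y‖ₑ ^ 2 =
      ∑' l : ℤ, ‖∫ y in (0 : ℝ)..1, g x y * Complex.exp (-(2 * Real.pi * Complex.I * (l * y)))‖ₑ ^ 2 := by
    intro x
    refine Par_one (h := fun y => g x y) ?_
    exact hg.comp (by fun_prop : Continuous fun y : ℝ => ((x, y) : ℝ × ℝ))
  simp only [hx]
  rw [lintegral_tsum fun l => ((hcont l).measurable.enorm.pow_const 2).aemeasurable]
  rw [ENNReal.tsum_prod', ENNReal.tsum_comm]
  refine tsum_congr fun l => ?_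
  rw [Par_one (hcont l)]
  refine tsum_congr fun k => ?_
  congr 2
  refine intervalIntegral.integral_congr fun x _ => ?_
  rw [← intervalIntegral.integral_mul_const]
  refine intervalIntegral.integral_congr fun y _ => ?_
  dsimp only
  rw [mul_assoc, ← Complex.exp_add]
  congr 2
  ring

theorem parseval {f : ℝ → ℝ → Bin → ℂ} (hf : HecF f) (z : Bin) :
    ∫⁻ x₁ in Set.Ioc (0 : ℝ) 1, ∫⁻ x₂ in Set.Ioc (0 : ℝ) 1, ‖f x₁ x₂ z‖ₑ ^ 2 =
      ∑' k : ℤ × ℤ, ‖cf f k.1 k.2 z‖ₑ ^ 2 := by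
  by_cases hz : pd z
  · have hc : Continuous fun q : ℝ × ℝ => f q.1 q.2 z := by
      have h3 : Continuous fun q : ℝ × ℝ => ((q.1, q.2, z) : ℝ × ℝ × Bin) := by fun_prop
      exact hf.cont.comp_continuous h3 fun q => hz
    exact parseval2 (g := fun x y => f x y z) hc (fun x y => hf.per1 x y z) (fun x y => hf.per2 x y z)
  · have h0 : ∀ x y, f x y z = 0 := fun x y => hf.zero x y z hz
    simp [cf, h0]

end AQ3
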