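import Pool.Agent.Lib_MP_d358f8_ne.Defs

/-!
# MP_d358f8_nt: primes in `(P / 4, P]`

`primes_quarter`: for `η < 1` and all large `P` there are at least `P ^ η` primes in `(P / 4, P]`.

PROOF. Chebyshev's function (Mathlib.NumberTheory.Chebyshev): `Chebyshev.theta_ge'` gives
`θ(P) ≥ P log 2 - O(√P log P)` and `Chebyshev.theta_le_log4_mul_x` gives `θ(P / 4) ≤ (log 4) P / 4 = (log 2) P / 2`. So
`∑_{P/4 < p ≤ P} log p = θ(P) - θ(P / 4) ≥ (log 2) P / 2 - O(√P log P) ≥ (log 2) P / 4` for large `P`, every summand is at most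
`log P`, the number of the primes is at least `(log 2) P / (4 log P) ≥ P ^ η` for large `P`
(`isLittleO_log_rpow_atTop` or `Real.add_one_le_exp` type estimates; use `Filter.eventually_atTop`).
-/

namespace AQ3

open MeasureTheory Matrix
open scoped ENNReal MatrixGroups

private theorem Prm_theta (P : ℝ) (hP : 1 ≤ P) : Chebyshev.theta P ≤ Chebyshev.theta (P / 4) +
    (((Finset.range (⌊P⌋₊ + 1)).filter fun p : ℕ => p.Prime ∧ P / 4 < (p : ℝ)).card : ℝ) *
      Real.log P := by
  have hP0 : 0 ≤ P := by linarith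
  unfold Chebyshev.theta
  rw [← Finset.sum_filter_add_sum_filter_not ((Finset.Ioc 0 ⌊P⌋₊).filter Nat.Prime)
    (fun p : ℕ => (p : ℝ) ≤ P / 4)]
  refine add_le_add ?_ ?_
  · refine Finset.sum_le_sum_of_subset_of_nonneg ?_ fun p _ _ => Real.log_natCast_nonneg p
    intro p hp
    rw [Finset.mem_filter, Finset.mem_filter, Finset.mem_Ioc] at hp
    rw [Finset.mem_filter, Finset.mem_Ioc]
    exact ⟨⟨hp.1.1.1, Nat.le_floor hp.2⟩, hp.1.2⟩
  · rw [← nsmul_eq_mul]
    refine le_trans (Finset.sum_le_card_nsmul _ _ (Real.log P) ?_) ?_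
    · intro p hp
      rw [Finset.mem_filter, Finset.mem_filter, Finset.mem_Ioc] at hp
      refine Real.log_le_log (by exact_mod_cast hp.1.1.1) ?_
      exact (Nat.le_floor_iff hP0).1 hp.1.1.2
    · refine nsmul_le_nsmul_left (Real.log_nonneg hP) (Finset.card_le_card ?_)
      intro p hp
      rw [Finset.mem_filter, Finset.mem_filter, Finset.mem_Ioc] at hp
      rw [Finset.mem_filter, Finset.mem_range]
      exact ⟨Nat.lt_succ_of_le hp.1.1.2, hp.1.2, not_le.1 hp.2⟩

private theorem Prm_littleO (η : ℝ) (hη : η < 1) :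
    (fun x : ℝ => x ^ η * Real.log x) =o[Filter.atTop] fun x : ℝ => x := by
  have h1 : (fun x : ℝ => Real.log x) =o[Filter.atTop] fun x : ℝ => x ^ (1 - η) :=
    isLittleO_log_rpow_atTop (by linarith)
  have h2 : (fun x : ℝ => x ^ η * Real.log x) =o[Filter.atTop] fun x : ℝ => x ^ η * x ^ (1 - η) :=
    (Asymptotics.isBigO_refl _ _).mul_isLittleO h1
  refine h2.congr' (Filter.EventuallyEq.refl _ _) ?_
  filter_upwards [Filter.eventually_gt_atTop 0] with x hx
  rw [← Real.rpow_add hx]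
  simp

theorem primes_quarter (η : ℝ) (hη : η < 1) : ∃ P0 : ℝ, 1 ≤ P0 ∧ ∀ P : ℝ, P0 ≤ P →
    P ^ η ≤ (((Finset.range (⌊P⌋₊ + 1)).filter fun p : ℕ => p.Prime ∧ P / 4 < (p : ℝ)).card : ℝ) := by
  have h1 := Prm_littleO η hη
  have h2 := (Prm_littleO (1 / 2) (by norm_num)).const_mul_left 2
  have h3 : (fun x : ℝ => 2 * Real.log x) =o[Filter.atTop] fun x : ℝ => x :=
    Real.isLittleO_log_id_atTop.const_mul_left 2
  have h4 : (fun _ : ℝ => Real.log 2) =o[Filter.atTop] fun x : ℝ => x :=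
    Asymptotics.isLittleO_const_id_atTop (Real.log 2)
  have h5 := ((h1.add h2).add h3).add h4
  have hl2 : 0 < Real.log 2 := Real.log_pos (by norm_num)
  have h6 := h5.def (show 0 < Real.log 2 / 2 by positivity)
  obtain ⟨a, ha⟩ := Filter.eventually_atTop.1 h6
  refine ⟨max a 2, le_trans (by norm_num) (le_max_right _ _), fun P hP => ?_⟩
  have hPa : a ≤ P := (le_max_left _ _).trans hP
  have hP2 : 2 ≤ P := (le_max_right _ _).trans hP
  have h7 := ha P hPa
  rw [Real.norm_eq_abs, Real.norm_eq_abs, abs_of_pos (show 0 < P by linarith)] at h7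
  have h8 := (le_abs_self _).trans h7
  have hlog : 0 < Real.log P := Real.log_pos (by linarith)
  have h9 := Prm_theta P (by linarith)
  have h10 := Chebyshev.theta_ge' (x := P) (by linarith)
  have h11 := Chebyshev.theta_le_log4_mul_x (x := P / 4) (by linarith)
  have h12 : Real.log 4 = 2 * Real.log 2 := by
    rw [show (4 : ℝ) = 2 ^ 2 by norm_num, Real.log_pow]
    norm_num
  have h13 : Real.log (P + 2) ≤ 2 * Real.log P := by
    have e1 : 2 * Real.log P = Real.log (P ^ 2) := by
      rw [Real.log_pow]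
      norm_num
    rw [e1]
    exact Real.log_le_log (by linarith) (by nlinarith)
  have h14 : √P = P ^ (1 / 2 : ℝ) := Real.sqrt_eq_rpow P
  rw [h14] at h10
  rw [h12] at h11
  refine le_of_mul_le_mul_right ?_ hlog
  nlinarith

end AQ3
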