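import Pool.Agent.Lib_MP_d358f8_ne.SgM
import Pool.Agent.Lib_MP_d358f8_ne.Cos
import Pool.Agent.Lib_MP_d358f8_ne.MuInv

/-!
# MP_d358f8_nt: reduction of the ternary forms

* `frm_eq`: the definitions; `zof_scale`, `zof_frm3`: immediate.  `hgtF_iff`: divide by `y₁₁²`.
* `exists_min3`: the set of integral vectors with `y(m) ≤ M` is finite (positive definite: `y(m) ≥ ε |m|²`, e.g. by compactness of the sphere
  or an explicit estimate), so there is a nonzero `m` with the least value; it is primitive (else `m / k` is shorter).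
* `exists_col3`: a primitive vector `m ∈ ℤ³` is the first row of some `γ ∈ SL₃(ℤ)` (Bezout twice). The form `γ • y = γ Y γᵀ` has
  `(γ • y)₁₁ = y(first row of γ)`.
* `reduce3`: choose `γ₁` with first row the shortest vector; then `exists_min` for `zof (γ₁ • y)` and the block matrix
  `!![1, 0; 0, Aᵀ]` (it does not change `y₁₁` and acts on `zof` by `bact A`), at last a lower triangular unipotent matrix
  `!![1, 0, 0; k, 1, 0; l, 0, 1]` (it changes `y₁₂, y₁₃` by the multiples `k y₁₁, l y₁₁` and not `y₁₁`, `zof`).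
-/

namespace AQ3

open MeasureTheory Matrix
open scoped ENNReal MatrixGroups

theorem frm_eq {y : Frm} (hy : y.1 ≠ 0) :
    y = Frm.of (y.1 • (frm3 (y.2.1 / y.1) (y.2.2.1 / y.1) (zof y)).mat) := by
  obtain ⟨a, b, c, d, e, f⟩ := y
  have ha : a ≠ 0 := hy
  simp only [Frm.of, frm3, zof, Frm.mat, Matrix.smul_apply, smul_eq_mul]
  refine Prod.ext ?_ (Prod.ext ?_ (Prod.ext ?_ (Prod.ext ?_ (Prod.ext ?_ ?_))))
  · simp
  · simp
    field_simp
  · simp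
    field_simp
  · simp
    field_simp
  · simp
    field_simp
  · simp
    field_simp

theorem pd_zof {y : Frm} (hy : y ∈ Pos) : 0 < y.1 ∧ pd (zof y) := by
  have hp : y.mat.PosDef := hy
  have h1 : 0 < y.1 := hp.diag_pos (i := 0)
  refine ⟨h1, ?_⟩
  rw [← posDef_frm3 (y.2.1 / y.1) (y.2.2.1 / y.1) (zof y)]
  have h2 : y.mat = y.1 • (frm3 (y.2.1 / y.1) (y.2.2.1 / y.1) (zof y)).mat := by
    conv_lhs => rw [frm_eq h1.ne']
    exact Frm.mat_of (by rw [Matrix.transpose_smul, Frm.mat_transpose])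
  have h3 : (frm3 (y.2.1 / y.1) (y.2.2.1 / y.1) (zof y)).mat = y.1⁻¹ • y.mat := by
    rw [h2, smul_smul, inv_mul_cancel₀ h1.ne', one_smul]
  rw [h3]
  exact hp.smul (inv_pos.mpr h1)

theorem zof_scale {c : ℝ} (hc : c ≠ 0) (y : Frm) : zof (Frm.of (c • y.mat)) = zof y := by
  obtain ⟨a, b, d, e, f, g⟩ := y
  simp [zof, Frm.of, Frm.mat, mul_div_mul_left _ _ hc]

theorem zof_frm3 (x₁ x₂ : ℝ) (z : Bin) : zof (frm3 x₁ x₂ z) = z := by
  obtain ⟨a, b, d⟩ := z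
  simp [zof, frm3]

theorem hgtF_iff {y : Frm} (hy : 0 < y.1) (V : ℝ) : HgtF V y ↔ Hgt V (zof y) := by
  obtain ⟨a, b, d, e, f, g⟩ := y
  have ha : 0 < a := hy
  unfold HgtF Hgt
  refine forall_congr' fun s => forall_congr' fun t => imp_congr_right fun _ => ?_
  have h : bq (zof (a, b, d, e, f, g)) s t = ((a * e - b ^ 2) * s ^ 2 + 2 * (a * f - b * d) * s * t +
      (a * g - d ^ 2) * t ^ 2) / a ^ 2 := by
    simp only [bq, zof]
    field_simp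
  rw [h, le_div_iff₀ (by positivity)]

/-! ### Values at the integral vectors -/

/-- The value of the form at an integral vector. -/
private noncomputable def Rdc_val (y : Frm) (m : Fin 3 → ℤ) : ℝ :=
  (fun i => (m i : ℝ)) ⬝ᵥ y.mat.mulVec fun i => (m i : ℝ)

private theorem Rdc_val_smul (γ : SL(3, ℤ)) (y : Frm) (m : Fin 3 → ℤ) :
    Rdc_val (γ • y) m = Rdc_val y (m ᵥ* γ.1) := by
  have hw : (fun i => ((m ᵥ* γ.1) i : ℝ)) = (fun i => (m i : ℝ)) ᵥ* rl γ.1 := by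
    funext i
    simp [Matrix.vecMul, dotProduct, rl]
  unfold Rdc_val
  rw [hw, smul_def, mat_act, Matrix.transpose_transpose, Matrix.dotProduct_mulVec,
    Matrix.dotProduct_mulVec, ← Matrix.vecMul_vecMul, ← Matrix.vecMul_vecMul]
  rw [← Matrix.dotProduct_mulVec, Matrix.mulVec_transpose]

private theorem Rdc_fst (y : Frm) : y.1 = Rdc_val y (Pi.single 0 1) := by
  obtain ⟨a, b, d, e, f, g⟩ := y
  simp [Rdc_val, dotProduct, Matrix.mulVec, Fin.sum_univ_three, Frm.mat]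

private theorem Rdc_smul_fst (γ : SL(3, ℤ)) (y : Frm) : (γ • y).1 = Rdc_val y (γ.1 0) := by
  rw [Rdc_fst, Rdc_val_smul]
  congr 1
  funext i
  simp [Matrix.vecMul, dotProduct, Pi.single_apply]

private theorem Rdc_vecMul_ne (γ : SL(3, ℤ)) {m : Fin 3 → ℤ} (hm : m ≠ 0) : m ᵥ* γ.1 ≠ 0 := by
  intro h
  apply hm
  have h1 : m ᵥ* (γ.1 * (γ⁻¹).1) = 0 := by
    rw [← Matrix.vecMul_vecMul, h, Matrix.zero_vecMul]
  have h2 : γ.1 * (γ⁻¹).1 = 1 := by
    rw [← Matrix.SpecialLinearGroup.coe_mul, mul_inv_cancel, Matrix.SpecialLinearGroup.coe_one]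
  rwa [h2, Matrix.vecMul_one] at h1

/-- A positive definite form is bounded below by a multiple of the square of the norm. -/
private theorem Rdc_lower {y : Frm} (hy : y ∈ Pos) :
    ∃ ε > 0, ∀ m : Fin 3 → ℤ, ∀ i, ε * (m i : ℝ) ^ 2 ≤ Rdc_val y m := by
  have hp : y.mat.PosDef := hy
  have hcont : Continuous fun x : Fin 3 → ℝ => x ⬝ᵥ y.mat.mulVec x := by fun_prop
  have hpos : ∀ x : Fin 3 → ℝ, x ≠ 0 → 0 < x ⬝ᵥ y.mat.mulVec x := by
    intro x hx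
    have := hp.dotProduct_mulVec_pos hx
    simpa using this
  obtain ⟨x₀, hx₀, hmin⟩ := (isCompact_sphere (0 : Fin 3 → ℝ) 1).exists_isMinOn
    (NormedSpace.sphere_nonempty.mpr zero_le_one) hcont.continuousOn
  have hx₀0 : x₀ ≠ 0 := by
    rintro rfl
    simp at hx₀
  refine ⟨_, hpos x₀ hx₀0, fun m i => ?_⟩
  set x : Fin 3 → ℝ := fun i => (m i : ℝ) with hx
  show _ ≤ x ⬝ᵥ y.mat.mulVec x
  by_cases hx0 : x = 0
  · have h1 : (m i : ℝ) = 0 := congrFun hx0 i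
    rw [h1, hx0]
    simp
  · have hn : 0 < ‖x‖ := norm_pos_iff.mpr hx0
    have h1 : ‖x‖⁻¹ • x ∈ Metric.sphere (0 : Fin 3 → ℝ) 1 := by
      rw [mem_sphere_zero_iff_norm, norm_smul, norm_inv, norm_norm, inv_mul_cancel₀ hn.ne']
    have h2 := hmin h1
    simp only [Set.mem_ofPred_eq, Matrix.mulVec_smul, smul_dotProduct, dotProduct_smul,
      smul_eq_mul] at h2
    have h3 : (m i : ℝ) ^ 2 ≤ ‖x‖ ^ 2 := by
      rw [← sq_abs (m i : ℝ)]
      have := norm_le_pi_norm x i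
      rw [Real.norm_eq_abs] at this
      exact pow_le_pow_left₀ (abs_nonneg _) this 2
    have h4 : (x₀ ⬝ᵥ y.mat.mulVec x₀) * ‖x‖ ^ 2 ≤ x ⬝ᵥ y.mat.mulVec x := by
      have h5 : x ⬝ᵥ y.mat.mulVec x = ‖x‖⁻¹ * (‖x‖⁻¹ * (x ⬝ᵥ y.mat.mulVec x)) * ‖x‖ ^ 2 := by
        field_simp
      rw [h5]
      exact mul_le_mul_of_nonneg_right h2 (by positivity)
    exact (mul_le_mul_of_nonneg_left h3 (hpos x₀ hx₀0).le).trans h4

private theorem Rdc_pos {y : Frm} (hy : y ∈ Pos) {m : Fin 3 → ℤ} (hm : m ≠ 0) :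
    0 < Rdc_val y m := by
  obtain ⟨ε, hε, h⟩ := Rdc_lower hy
  obtain ⟨i, hi⟩ := Function.ne_iff.mp hm
  have h1 : (m i : ℝ) ≠ 0 := Int.cast_ne_zero.mpr hi
  exact lt_of_lt_of_le (by positivity) (h m i)

/-- There is a shortest nonzero vector. -/
private theorem Rdc_short {y : Frm} (hy : y ∈ Pos) : ∃ m : Fin 3 → ℤ, m ≠ 0 ∧
    ∀ m' : Fin 3 → ℤ, m' ≠ 0 → Rdc_val y m ≤ Rdc_val y m' := by
  obtain ⟨ε, hε, hlow⟩ := Rdc_lower hy
  set e : Fin 3 → ℤ := Pi.single 0 1 with he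
  have he0 : e ≠ 0 := by
    intro h
    have := congrFun h 0
    simp [he] at this
  set S : Set (Fin 3 → ℤ) := {m | m ≠ 0 ∧ Rdc_val y m ≤ Rdc_val y e} with hS
  have hfin : S.Finite := by
    obtain ⟨N, hN⟩ := exists_nat_gt (Rdc_val y e / ε + 1)
    refine (Set.finite_Icc (fun _ : Fin 3 => -(N : ℤ)) (fun _ => (N : ℤ))).subset ?_
    intro m hm
    have hb : ∀ i, |m i| ≤ N := by
      intro i
      by_contra hcon
      push Not at hcon
      have h1 : (N : ℝ) < |(m i : ℝ)| := by exact_mod_cast hcon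
      have h2 := (hlow m i).trans hm.2
      have h3 : (m i : ℝ) ^ 2 ≤ Rdc_val y e / ε := by
        rw [le_div_iff₀ hε]
        linarith
      have h4 : 0 ≤ Rdc_val y e / ε := (sq_nonneg _).trans h3
      have h5 : |(m i : ℝ)| ^ 2 ≤ Rdc_val y e / ε := by rwa [sq_abs]
      nlinarith [abs_nonneg (m i : ℝ)]
    exact ⟨fun i => (abs_le.mp (hb i)).1, fun i => (abs_le.mp (hb i)).2⟩
  obtain ⟨m, hm, hmin⟩ := Set.exists_min_image S (Rdc_val y) hfin ⟨e, he0, le_rfl⟩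
  refine ⟨m, hm.1, fun m' hm' => ?_⟩
  rcases le_or_gt (Rdc_val y m') (Rdc_val y e) with h | h
  · exact hmin m' ⟨hm', h⟩
  · exact hm.2.trans h.le

private theorem Rdc_val_mul (y : Frm) (d : ℤ) (m : Fin 3 → ℤ) :
    Rdc_val y (fun i => d * m i) = (d : ℝ) ^ 2 * Rdc_val y m := by
  have h : (fun i => ((d * m i : ℤ) : ℝ)) = (d : ℝ) • fun i => (m i : ℝ) := by
    funext i
    simp
  unfold Rdc_val
  rw [h, Matrix.mulVec_smul, smul_dotProduct, dotProduct_smul]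
  simp only [smul_eq_mul]
  ring

/-- Two integers as multiples of a common divisor. -/
private theorem Rdc_bez (a b : ℤ) : ∃ g a' b' u v : ℤ, a = g * a' ∧ b = g * b' ∧
    u * a' + v * b' = 1 := by
  rcases Nat.eq_zero_or_pos (Int.gcd a b) with h | h
  · rw [Int.gcd_eq_zero_iff] at h
    exact ⟨0, 1, 0, 1, 0, by simp [h.1], by simp [h.2], by simp⟩
  · obtain ⟨g, a', b', -, h1, h2, h3⟩ := Int.exists_gcd_one' h
    obtain ⟨u, v, huv⟩ := Int.isCoprime_iff_gcd_eq_one.mpr h1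
    exact ⟨g, a', b', u, v, by rw [h2, mul_comm], by rw [h3, mul_comm], huv⟩

/-- A primitive vector is the first row of a matrix of `SL₃(ℤ)`. -/
private theorem Rdc_row {m : Fin 3 → ℤ}
    (hm : ∀ d : ℤ, d ∣ m 0 → d ∣ m 1 → d ∣ m 2 → IsUnit d) : ∃ γ : SL(3, ℤ), γ.1 0 = m := by
  obtain ⟨g, a', b', u, v, h0, h1, huv⟩ := Rdc_bez (m 0) (m 1)
  have hcop : IsCoprime g (m 2) := by
    rw [Int.isCoprime_iff_gcd_eq_one]
    have h := hm (Int.gcd g (m 2)) (by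
        rw [h0]
        exact (Int.gcd_dvd_left ..).mul_right _) (by
        rw [h1]
        exact (Int.gcd_dvd_left ..).mul_right _) (Int.gcd_dvd_right ..)
    rw [Int.isUnit_iff] at h
    rcases h with h | h
    · exact_mod_cast h
    · omega
  obtain ⟨s, t, hst⟩ := hcop
  refine ⟨⟨!![m 0, m 1, m 2; -v, u, 0; -t * a', -t * b', s], ?_⟩, ?_⟩
  · rw [Matrix.det_fin_three]
    simp only [Matrix.of_apply, Matrix.cons_val', Matrix.cons_val_zero, Matrix.cons_val_one,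
      Matrix.cons_val]
    rw [h0, h1]
    linear_combination (s * g + t * m 2) * huv + hst
  · funext i
    fin_cases i <;> rfl

theorem exists_min3 {y : Frm} (hy : y ∈ Pos) : ∃ γ : SL(3, ℤ), ∀ m : Fin 3 → ℤ, m ≠ 0 →
    (γ • y).1 ≤ (fun i => (m i : ℝ)) ⬝ᵥ y.mat.mulVec fun i => (m i : ℝ) := by
  obtain ⟨m, hm, hmin⟩ := Rdc_short hy
  obtain ⟨γ, hγ⟩ := Rdc_row (m := m) (by
    intro d h0 h1 h2
    have hd : ∀ i, d ∣ m i := by
      intro i
      fin_cases i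
      · exact h0
      · exact h1
      · exact h2
    choose m' hm' using hd
    have hmm : m = fun i => d * m' i := funext hm'
    have hm'0 : m' ≠ 0 := by
      rintro rfl
      apply hm
      rw [hmm]
      funext i
      simp
    have hd0 : d ≠ 0 := by
      rintro rfl
      apply hm
      rw [hmm]
      funext i
      simp
    have h3 := hmin m' hm'0
    rw [hmm, Rdc_val_mul] at h3
    have h4 := Rdc_pos hy hm'0
    have h5 : (d : ℝ) ^ 2 ≤ 1 := by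
      by_contra hcon
      push Not at hcon
      nlinarith
    have h6 : d ^ 2 ≤ 1 := by exact_mod_cast h5
    rw [Int.isUnit_iff]
    have h7 : d ≤ 1 := by nlinarith
    have h8 : -1 ≤ d := by nlinarith
    omega)
  refine ⟨γ, fun m' hm' => ?_⟩
  rw [Rdc_smul_fst, hγ]
  exact hmin m' hm'

/-! ### The reduction -/

/-- The block matrix of `Aᵀ`. -/
private def Rdc_blk (A : SL(2, ℤ)) : SL(3, ℤ) :=
  ⟨!![1, 0, 0; 0, A.1 0 0, A.1 1 0; 0, A.1 0 1, A.1 1 1], by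
    have h := A.2
    rw [Matrix.det_fin_two] at h
    rw [Matrix.det_fin_three]
    simp only [Matrix.of_apply, Matrix.cons_val', Matrix.cons_val_zero, Matrix.cons_val_one,
      Matrix.cons_val]
    linear_combination h⟩

/-- The form with the given entries. -/
private def Rdc_mk (a b d e f g : ℝ) : Frm := (a, b, d, e, f, g)

private theorem Rdc_smul_mk (γ : SL(3, ℤ)) (a b d e f g : ℝ) : γ • Rdc_mk a b d e f g =
    Frm.of !![
      ∑ i, ∑ j, (γ.1 0 i : ℝ) * (Rdc_mk a b d e f g).mat i j * (γ.1 0 j : ℝ),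
      ∑ i, ∑ j, (γ.1 0 i : ℝ) * (Rdc_mk a b d e f g).mat i j * (γ.1 1 j : ℝ),
      ∑ i, ∑ j, (γ.1 0 i : ℝ) * (Rdc_mk a b d e f g).mat i j * (γ.1 2 j : ℝ);
      0,
      ∑ i, ∑ j, (γ.1 1 i : ℝ) * (Rdc_mk a b d e f g).mat i j * (γ.1 1 j : ℝ),
      ∑ i, ∑ j, (γ.1 1 i : ℝ) * (Rdc_mk a b d e f g).mat i j * (γ.1 2 j : ℝ);
      0, 0,
      ∑ i, ∑ j, (γ.1 2 i : ℝ) * (Rdc_mk a b d e f g).mat i j * (γ.1 2 j : ℝ)] := by
  have key : ∀ k l : Fin 3, ((rl γ.1)ᵀᵀ * (Rdc_mk a b d e f g).mat * (rl γ.1)ᵀ) k l =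
      ∑ i, ∑ j, (γ.1 k i : ℝ) * (Rdc_mk a b d e f g).mat i j * (γ.1 l j : ℝ) := by
    intro k l
    rw [Matrix.mul_apply, Finset.sum_comm]
    refine Finset.sum_congr rfl fun j _ => ?_
    rw [Matrix.mul_apply, Finset.sum_mul]
    rfl
  rw [smul_def]
  unfold act Frm.of
  rw [key 0 0, key 0 1, key 0 2, key 1 1, key 1 2, key 2 2]
  rfl

private theorem Rdc_blk_smul (A : SL(2, ℤ)) {y : Frm} (hy : y.1 ≠ 0) :
    (Rdc_blk A • y).1 = y.1 ∧ zof (Rdc_blk A • y) = bact (rl2 A.1) (zof y) := by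
  obtain ⟨a, b, d, e, f, g⟩ := y
  have ha : a ≠ 0 := hy
  have h : Rdc_blk A • Rdc_mk a b d e f g = Rdc_mk a (A.1 0 0 * b + A.1 1 0 * d)
      (A.1 0 1 * b + A.1 1 1 * d)
      (e * A.1 0 0 ^ 2 + 2 * f * A.1 0 0 * A.1 1 0 + g * A.1 1 0 ^ 2)
      (e * A.1 0 0 * A.1 0 1 + f * (A.1 0 0 * A.1 1 1 + A.1 1 0 * A.1 0 1) + g * A.1 1 0 * A.1 1 1)
      (e * A.1 0 1 ^ 2 + 2 * f * A.1 0 1 * A.1 1 1 + g * A.1 1 1 ^ 2) := by
    rw [Rdc_smul_mk]
    simp only [Rdc_blk, Fin.sum_univ_three, Rdc_mk, Frm.mat, Frm.of, Matrix.of_apply,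
      Matrix.cons_val', Matrix.cons_val_zero, Matrix.cons_val_one, Matrix.cons_val]
    refine Prod.ext ?_ (Prod.ext ?_ (Prod.ext ?_ (Prod.ext ?_ (Prod.ext ?_ ?_))))
    all_goals (push_cast; ring)
  change (Rdc_blk A • Rdc_mk a b d e f g).1 = a ∧ zof (Rdc_blk A • Rdc_mk a b d e f g) =
    bact (rl2 A.1) (zof (Rdc_mk a b d e f g))
  rw [h]
  refine ⟨rfl, ?_⟩
  simp only [zof, bact, bq, Rdc_mk, rl2, Matrix.map_apply]
  refine Prod.ext ?_ (Prod.ext ?_ ?_)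
  all_goals (simp only []; field_simp; ring)

/-- The unipotent matrix. -/
private def Rdc_uni (k l : ℤ) : SL(3, ℤ) :=
  ⟨!![1, 0, 0; k, 1, 0; l, 0, 1], by
    rw [Matrix.det_fin_three]
    simp⟩

private theorem Rdc_uni_smul (k l : ℤ) {y : Frm} (hy : y.1 ≠ 0) :
    (Rdc_uni k l • y).1 = y.1 ∧ (Rdc_uni k l • y).2.1 = y.2.1 + k * y.1 ∧
      (Rdc_uni k l • y).2.2.1 = y.2.2.1 + l * y.1 ∧ zof (Rdc_uni k l • y) = zof y := by
  obtain ⟨a, b, d, e, f, g⟩ := y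
  have ha : a ≠ 0 := hy
  have h : Rdc_uni k l • Rdc_mk a b d e f g = Rdc_mk a (b + k * a) (d + l * a)
      (e + 2 * k * b + k ^ 2 * a) (f + k * d + l * b + k * l * a) (g + 2 * l * d + l ^ 2 * a) := by
    rw [Rdc_smul_mk]
    simp only [Rdc_uni, Fin.sum_univ_three, Rdc_mk, Frm.mat, Frm.of, Matrix.of_apply,
      Matrix.cons_val', Matrix.cons_val_zero, Matrix.cons_val_one, Matrix.cons_val]
    refine Prod.ext ?_ (Prod.ext ?_ (Prod.ext ?_ (Prod.ext ?_ (Prod.ext ?_ ?_))))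
    all_goals (push_cast; ring)
  change (Rdc_uni k l • Rdc_mk a b d e f g).1 = a ∧ (Rdc_uni k l • Rdc_mk a b d e f g).2.1 =
    b + k * a ∧ (Rdc_uni k l • Rdc_mk a b d e f g).2.2.1 = d + l * a ∧
    zof (Rdc_uni k l • Rdc_mk a b d e f g) = zof (Rdc_mk a b d e f g)
  rw [h]
  refine ⟨rfl, rfl, rfl, ?_⟩
  simp only [zof, Rdc_mk]
  refine Prod.ext ?_ (Prod.ext ?_ ?_)
  all_goals (simp only []; field_simp; ring)

private theorem Rdc_round (a b : ℝ) (ha : 0 < a) : ∃ k : ℤ, |2 * (b + k * a)| ≤ a := by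
  refine ⟨-round (b / a), ?_⟩
  have h1 := abs_sub_round (b / a)
  have h2 : b + ((-round (b / a) : ℤ) : ℝ) * a = (b / a - round (b / a)) * a := by
    push_cast
    field_simp
    ring
  rw [h2, abs_mul, abs_mul, abs_of_pos ha, abs_of_pos (two_pos : (0 : ℝ) < 2)]
  nlinarith

theorem reduce3 {y : Frm} (hy : y ∈ Pos) : ∃ γ : SL(3, ℤ),
    (∀ m : Fin 3 → ℤ, m ≠ 0 → (γ • y).1 ≤ (fun i => (m i : ℝ)) ⬝ᵥ (γ • y).mat.mulVec fun i => (m i : ℝ)) ∧
    (∀ b c : ℤ, (b ≠ 0 ∨ c ≠ 0) → (zof (γ • y)).1 ≤ bq (zof (γ • y)) b c) ∧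
    |2 * (zof (γ • y)).2.1| ≤ (zof (γ • y)).1 ∧ |2 * (γ • y).2.1| ≤ (γ • y).1 ∧ |2 * (γ • y).2.2.1| ≤ (γ • y).1 := by
  obtain ⟨γ₁, h1⟩ := exists_min3 hy
  have hy1 : γ₁ • y ∈ Pos := (smul_mem_pos γ₁).mpr hy
  obtain ⟨hp1, hz1⟩ := pd_zof hy1
  obtain ⟨A, hA1, hA2⟩ := exists_min hz1
  obtain ⟨hb1, hb2⟩ := Rdc_blk_smul A hp1.ne'
  have hp2 : 0 < (Rdc_blk A • γ₁ • y).1 := by rw [hb1]; exact hp1
  obtain ⟨k, hk⟩ := Rdc_round (Rdc_blk A • γ₁ • y).1 (Rdc_blk A • γ₁ • y).2.1 hp2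
  obtain ⟨l, hl⟩ := Rdc_round (Rdc_blk A • γ₁ • y).1 (Rdc_blk A • γ₁ • y).2.2.1 hp2
  obtain ⟨hu1, hu2, hu3, hu4⟩ := Rdc_uni_smul k l hp2.ne'
  have hγ : (Rdc_uni k l * Rdc_blk A * γ₁) • y = Rdc_uni k l • Rdc_blk A • γ₁ • y := by
    rw [mul_smul, mul_smul]
  refine ⟨Rdc_uni k l * Rdc_blk A * γ₁, ?_, ?_, ?_, ?_, ?_⟩
  · intro m hm
    have h2 := h1 _ (Rdc_vecMul_ne (Rdc_uni k l * Rdc_blk A * γ₁) hm)
    have h3 := Rdc_val_smul (Rdc_uni k l * Rdc_blk A * γ₁) y m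
    have h4 : ((Rdc_uni k l * Rdc_blk A * γ₁) • y).1 = (γ₁ • y).1 := by
      rw [hγ, hu1, hb1]
    rw [h4]
    refine h2.trans (le_of_eq ?_)
    exact h3.symm
  · rw [hγ, hu4, hb2]
    exact hA1
  · rw [hγ, hu4, hb2]
    exact hA2
  · rw [hγ, hu2, hu1]
    exact hk
  · rw [hγ, hu3, hu1]
    exact hl

end AQ3
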