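import Pool.Agent.Lib_MP_d358f8_ne.Defs

/-!
# MP_d358f8_nt: representatives of the Hecke double cosets

`reps1`: the sublattices of `ℤ³` of index `p` (Hermite normal forms). PROOF.
(i) every element of `R1 p` is `γ g δ` with `g = diag(p, 1, 1)`: `!![p, i, j; 0, 1, 0; 0, 0, 1] = !![1, i, j; 0, 1, 0; 0, 0, 1] g`; the others with
permutation matrices (with a sign) and `!![1, 0, 0; 0, 1, j; 0, 0, 1]` on the left.
(ii) different elements `h, h'` of `R1 p` are not equivalent: `h' = h γ`; compare the entries.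
(iii) Let `r` be the first row of `γ⁻¹`; it is not `0` modulo `p`. There is `h` in `R1 p` whose columns are orthogonal to `r` modulo `p`;
then `γ⁻¹ h = g E` with `E` integral and `det E = 1`, so `γ g δ = h E⁻¹ δ`.
-/

namespace AQ3

open MeasureTheory Matrix
open scoped ENNReal MatrixGroups

private theorem key {p : ℕ} (hp : (p : ℤ) ≠ 0) (γ δ : SL(3, ℤ)) (h : Matrix (Fin 3) (Fin 3) ℤ) (hdet : h.det = p)
    (hdiv : ∀ k, (p : ℤ) ∣ ((γ⁻¹).1 * h) 0 k) :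
    ∃ ε : SL(3, ℤ), γ.1 * !![(p : ℤ), 0, 0; 0, 1, 0; 0, 0, 1] * δ.1 = h * ε.1 := by
  choose q hq using hdiv
  set N : Matrix (Fin 3) (Fin 3) ℤ := (γ⁻¹).1 * h with hN
  have hgN : γ.1 * N = h := by
    rw [hN, ← Matrix.mul_assoc, ← Matrix.SpecialLinearGroup.coe_mul, mul_inv_cancel]
    simp
  have hNdet : N.det = p := by
    rw [hN, Matrix.det_mul, hdet, (γ⁻¹).2, one_mul]
  set E : Matrix (Fin 3) (Fin 3) ℤ := !![q 0, q 1, q 2; N 1 0, N 1 1, N 1 2; N 2 0, N 2 1, N 2 2] with hE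
  have hgE : !![(p : ℤ), 0, 0; 0, 1, 0; 0, 0, 1] * E = N := by
    ext i k
    fin_cases i <;> fin_cases k <;>
      simp [hE, Matrix.mul_apply, Fin.sum_univ_three, hq]
  have hEdet : E.det = 1 := by
    have h1 : (!![(p : ℤ), 0, 0; 0, 1, 0; 0, 0, 1] : Matrix (Fin 3) (Fin 3) ℤ).det * E.det = p := by
      rw [← Matrix.det_mul, hgE, hNdet]
    have h2 : (!![(p : ℤ), 0, 0; 0, 1, 0; 0, 0, 1] : Matrix (Fin 3) (Fin 3) ℤ).det = p := by
      simp [Matrix.det_fin_three]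
    rw [h2] at h1
    exact mul_left_cancel₀ hp (by rw [h1, mul_one])
  have hh : h = γ.1 * !![(p : ℤ), 0, 0; 0, 1, 0; 0, 0, 1] * E := by
    rw [Matrix.mul_assoc, hgE, hgN]
  obtain ⟨E', hE'⟩ : ∃ E' : SL(3, ℤ), E'.1 = E := ⟨⟨E, hEdet⟩, rfl⟩
  refine ⟨E'⁻¹ * δ, ?_⟩
  rw [Matrix.SpecialLinearGroup.coe_mul, ← Matrix.mul_assoc]
  congr 1
  have h3 : E * (E'⁻¹).1 = 1 := by
    rw [← hE', ← Matrix.SpecialLinearGroup.coe_mul, mul_inv_cancel]
    simp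
  conv_rhs => rw [hh]
  rw [Matrix.mul_assoc _ E, h3, Matrix.mul_one]

private theorem memA {p i j : ℕ} (hi : i < p) (hj : j < p) :
    !![(p : ℤ), (i : ℤ), (j : ℤ); 0, 1, 0; 0, 0, 1] ∈ R1 p := by
  unfold R1
  refine Finset.mem_union_left _ (Finset.mem_image.2 ⟨(i, j), ?_, rfl⟩)
  simp [hi, hj]

private theorem memB {p j : ℕ} (hj : j < p) : !![1, 0, 0; 0, (p : ℤ), (j : ℤ); 0, 0, 1] ∈ R1 p := by
  unfold R1
  refine Finset.mem_union_right _ (Finset.mem_union_right _ (Finset.mem_image.2 ⟨j, ?_, rfl⟩))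
  simp [hj]

private theorem memC {p : ℕ} : !![1, 0, 0; 0, 1, 0; 0, 0, (p : ℤ)] ∈ R1 p := by
  unfold R1
  refine Finset.mem_union_right _ (Finset.mem_union_left _ ?_)
  simp

private theorem casesR {p : ℕ} {h : Matrix (Fin 3) (Fin 3) ℤ} (hh : h ∈ R1 p) :
    (∃ i j : ℕ, i < p ∧ j < p ∧ h = !![(p : ℤ), (i : ℤ), (j : ℤ); 0, 1, 0; 0, 0, 1]) ∨
    (∃ j : ℕ, j < p ∧ h = !![1, 0, 0; 0, (p : ℤ), (j : ℤ); 0, 0, 1]) ∨
    h = !![1, 0, 0; 0, 1, 0; 0, 0, (p : ℤ)] := by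
  unfold R1 at hh
  rcases Finset.mem_union.1 hh with h1 | h1
  · obtain ⟨ij, h2, rfl⟩ := Finset.mem_image.1 h1
    rw [Finset.mem_product] at h2
    exact Or.inl ⟨ij.1, ij.2, Finset.mem_range.1 h2.1, Finset.mem_range.1 h2.2, rfl⟩
  · rcases Finset.mem_union.1 h1 with h2 | h2
    · exact Or.inr (Or.inr (Finset.mem_singleton.1 h2))
    · obtain ⟨j, h3, rfl⟩ := Finset.mem_image.1 h2
      exact Or.inr (Or.inl ⟨j, Finset.mem_range.1 h3, rfl⟩)

private theorem invp {p : ℕ} (hp : p.Prime) {a : ℤ} (ha : ¬ (p : ℤ) ∣ a) (b : ℤ) :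
    ∃ i : ℕ, i < p ∧ (p : ℤ) ∣ a * i + b := by
  have hp' : Prime (p : ℤ) := Nat.prime_iff_prime_int.1 hp
  obtain ⟨u, v, huv⟩ := (hp'.coprime_iff_not_dvd.2 ha)
  -- u * p + v * a = 1
  have hp0 : (0 : ℤ) < p := by exact_mod_cast hp.pos
  refine ⟨((-(v * b)) % p).toNat, ?_, ?_⟩
  · have h1 := Int.emod_lt_of_pos (-(v * b)) hp0
    have h2 := Int.emod_nonneg (-(v * b)) hp0.ne'
    omega
  · rw [Int.toNat_of_nonneg (Int.emod_nonneg _ hp0.ne')]
    have h3 : (-(v * b)) % p = -(v * b) - p * ((-(v * b)) / p) := by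
      rw [Int.emod_def]
    rw [h3]
    refine ⟨u * b - a * ((-(v * b)) / p), ?_⟩
    linear_combination (-b) * huv

private theorem small {p : ℕ} {i i' : ℕ} (hi : i < p) (hi' : i' < p) {c : ℤ} (h : (i' : ℤ) = p * c + i) : i' = i := by
  have h1 : (i' : ℤ) % p = (i : ℤ) % p := by
    rw [h, Int.mul_add_emod_self_left]
  have h2 : i' % p = i % p := by exact_mod_cast h1
  rwa [Nat.mod_eq_of_lt hi, Nat.mod_eq_of_lt hi'] at h2

private theorem part1 {p : ℕ} {h : Matrix (Fin 3) (Fin 3) ℤ} (hh : h ∈ R1 p) :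
    ∃ γ δ : SL(3, ℤ), h = γ.1 * !![(p : ℤ), 0, 0; 0, 1, 0; 0, 0, 1] * δ.1 := by
  rcases casesR hh with ⟨i, j, -, -, rfl⟩ | ⟨j, -, rfl⟩ | rfl
  · refine ⟨⟨!![1, (i : ℤ), (j : ℤ); 0, 1, 0; 0, 0, 1], by simp [Matrix.det_fin_three]⟩, 1, ?_⟩
    ext a b
    fin_cases a <;> fin_cases b <;> simp [Matrix.mul_apply, Fin.sum_univ_three]
  · refine ⟨⟨!![0, 0, 1; 1, (j : ℤ), 0; 0, 1, 0], by simp [Matrix.det_fin_three]⟩,
      ⟨!![0, 1, 0; 0, 0, 1; 1, 0, 0], by simp [Matrix.det_fin_three]⟩, ?_⟩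
    ext a b
    fin_cases a <;> fin_cases b <;> simp [Matrix.mul_apply, Fin.sum_univ_three]
  · refine ⟨⟨!![0, 1, 0; 0, 0, 1; 1, 0, 0], by simp [Matrix.det_fin_three]⟩,
      ⟨!![0, 0, 1; 1, 0, 0; 0, 1, 0], by simp [Matrix.det_fin_three]⟩, ?_⟩
    ext a b
    fin_cases a <;> fin_cases b <;> simp [Matrix.mul_apply, Fin.sum_univ_three]

private theorem noone {p : ℕ} (hp : p.Prime) {c : ℤ} (h : (1 : ℤ) = p * c) : False := by
  have h1 : (p : ℤ) ∣ 1 := ⟨c, h⟩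
  have h2 : p ∣ 1 := by exact_mod_cast h1
  exact hp.one_lt.ne' (Nat.dvd_one.1 h2)

private theorem part2 {p : ℕ} (hp : p.Prime) {h h' : Matrix (Fin 3) (Fin 3) ℤ} (hh : h ∈ R1 p) (hh' : h' ∈ R1 p)
    (γ : SL(3, ℤ)) (hg : h' = h * γ.1) : h' = h := by
  have hp0 : (p : ℤ) ≠ 0 := by exact_mod_cast hp.ne_zero
  have e : ∀ a b, h' a b = h a 0 * γ.1 0 b + h a 1 * γ.1 1 b + h a 2 * γ.1 2 b := by
    intro a b
    rw [hg, Matrix.mul_apply, Fin.sum_univ_three]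
  have e00 := e 0 0
  have e01 := e 0 1
  have e02 := e 0 2
  have e10 := e 1 0
  have e11 := e 1 1
  have e12 := e 1 2
  have e20 := e 2 0
  have e21 := e 2 1
  have e22 := e 2 2
  clear hg e
  rcases casesR hh with ⟨i, j, hi, hj, rfl⟩ | ⟨j, hj, rfl⟩ | rfl <;>
    rcases casesR hh' with ⟨i', j', hi', hj', rfl⟩ | ⟨j', hj', rfl⟩ | rfl <;>
    simp at e00 e01 e02 e10 e11 e12 e20 e21 e22
  · have h1 := small hi hi' (c := γ.1 0 1) (by linear_combination e01 - i * e11 - j * e21)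
    have h2 := small hj hj' (c := γ.1 0 2) (by linear_combination e02 - i * e12 - j * e22)
    rw [h1, h2]
  · exact (noone hp (c := γ.1 0 0) (by linear_combination e00 - i * e10 - j * e20)).elim
  · exact (noone hp (c := γ.1 0 0) (by linear_combination e00 - i * e10 - j * e20)).elim
  · exact (noone hp (c := γ.1 1 1) (by linear_combination e11 - j * e21)).elim
  · have h1 := small hj hj' (c := γ.1 1 2) (by linear_combination e12 - j * e22)
    rw [h1]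
  · exact (noone hp (c := γ.1 1 1) (by linear_combination e11 - j * e21)).elim
  · exact (noone hp e22).elim
  · exact (noone hp e22).elim
  · rfl

private theorem part3 {p : ℕ} (hp : p.Prime) (γ δ : SL(3, ℤ)) :
    ∃ h ∈ R1 p, ∃ ε : SL(3, ℤ), γ.1 * !![(p : ℤ), 0, 0; 0, 1, 0; 0, 0, 1] * δ.1 = h * ε.1 := by
  have hp0 : (p : ℤ) ≠ 0 := by exact_mod_cast hp.ne_zero
  have hd : ((γ⁻¹).1).det = 1 := (γ⁻¹).2
  rw [Matrix.det_fin_three] at hd
  by_cases h0 : (p : ℤ) ∣ (γ⁻¹).1 0 0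
  · by_cases h1 : (p : ℤ) ∣ (γ⁻¹).1 0 1
    · refine ⟨_, memC, key hp0 γ δ _ (by simp [Matrix.det_fin_three]) ?_⟩
      intro k
      fin_cases k
      · simpa [Matrix.mul_apply, Fin.sum_univ_three] using h0
      · simpa [Matrix.mul_apply, Fin.sum_univ_three] using h1
      · simp [Matrix.mul_apply, Fin.sum_univ_three]
    · obtain ⟨j, hj, hj'⟩ := invp hp h1 ((γ⁻¹).1 0 2)
      refine ⟨_, memB hj, key hp0 γ δ _ (by simp [Matrix.det_fin_three]) ?_⟩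
      intro k
      fin_cases k
      · simpa [Matrix.mul_apply, Fin.sum_univ_three] using h0
      · simp [Matrix.mul_apply, Fin.sum_univ_three]
      · simpa [Matrix.mul_apply, Fin.sum_univ_three] using hj'
  · obtain ⟨i, hi, hi'⟩ := invp hp h0 ((γ⁻¹).1 0 1)
    obtain ⟨j, hj, hj'⟩ := invp hp h0 ((γ⁻¹).1 0 2)
    refine ⟨_, memA hi hj, key hp0 γ δ _ (by simp [Matrix.det_fin_three]) ?_⟩
    intro k
    fin_cases k
    · simp [Matrix.mul_apply, Fin.sum_univ_three]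
    · simpa [Matrix.mul_apply, Fin.sum_univ_three] using hi'
    · simpa [Matrix.mul_apply, Fin.sum_univ_three] using hj'

theorem reps1 {p : ℕ} (hp : p.Prime) : IsReps !![(p : ℤ), 0, 0; 0, 1, 0; 0, 0, 1] (R1 p) := by
  refine ⟨fun h hh => part1 hh, fun h hh h' hh' hg => ?_, fun γ δ => part3 hp γ δ⟩
  obtain ⟨γ, hγ⟩ := hg
  exact part2 hp hh hh' γ hγ

end AQ3
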