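import Mathlib

/-!
# MP_d358f8_nt: no escape of mass for `GL₃` (the definitions of the statement)

`M = K \ G / Γ` for `G = PGL₃(ℝ)`, `K = PO(3)`, `Γ = PGL₃(ℤ)` is the space of the positive definite real ternary
quadratic forms `Y` (symmetric matrices, `g ↦ gᵀ g`) modulo positive scalars and modulo `Y ↦ γᵀ Y γ`, `γ ∈ GL₃(ℤ) = ± SL₃(ℤ)`.
The invariant measure on the forms is `dY / (det Y)²` (`dY` the Lebesgue measure in the six entries).
-/

namespace AQ3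

open MeasureTheory Matrix
open scoped ENNReal MatrixGroups

/-- The entries `(y₁₁, y₁₂, y₁₃, y₂₂, y₂₃, y₃₃)` of a symmetric real `3 × 3` matrix. -/
def Frm : Type := ℝ × ℝ × ℝ × ℝ × ℝ × ℝ

noncomputable instance : MeasureSpace Frm := inferInstanceAs (MeasureSpace (ℝ × ℝ × ℝ × ℝ × ℝ × ℝ))
instance : TopologicalSpace Frm := inferInstanceAs (TopologicalSpace (ℝ × ℝ × ℝ × ℝ × ℝ × ℝ))
instance : BorelSpace Frm := inferInstanceAs (BorelSpace (ℝ × ℝ × ℝ × ℝ × ℝ × ℝ))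
instance : SecondCountableTopology Frm :=
  inferInstanceAs (SecondCountableTopology (ℝ × ℝ × ℝ × ℝ × ℝ × ℝ))

/-- The symmetric matrix with the entries `y`. -/
def Frm.mat (y : Frm) : Matrix (Fin 3) (Fin 3) ℝ :=
  !![y.1, y.2.1, y.2.2.1; y.2.1, y.2.2.2.1, y.2.2.2.2.1; y.2.2.1, y.2.2.2.2.1, y.2.2.2.2.2]

/-- The entries of a symmetric matrix. -/
def Frm.of (Y : Matrix (Fin 3) (Fin 3) ℝ) : Frm := (Y 0 0, Y 0 1, Y 0 2, Y 1 1, Y 1 2, Y 2 2)

/-- The form `Y` in the basis of the columns of `g`: `gᵀ Y g`. -/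
def act (g : Matrix (Fin 3) (Fin 3) ℝ) (y : Frm) : Frm := Frm.of (gᵀ * y.mat * g)

/-- An integral matrix as a real matrix. -/
def rl (g : Matrix (Fin 3) (Fin 3) ℤ) : Matrix (Fin 3) (Fin 3) ℝ := g.map (Int.cast : ℤ → ℝ)

theorem Frm.of_mat (y : Frm) : Frm.of y.mat = y := by
  obtain ⟨a, b, c, d, e, f⟩ := y
  rfl

theorem Frm.mat_of {Y : Matrix (Fin 3) (Fin 3) ℝ} (h : Yᵀ = Y) : (Frm.of Y).mat = Y := by
  have h1 : ∀ i j, Y j i = Y i j := fun i j => congrFun (congrFun h i) j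
  ext i j
  fin_cases i <;> fin_cases j <;> simp [Frm.mat, Frm.of, h1 1 0, h1 2 0, h1 2 1]

theorem Frm.mat_transpose (y : Frm) : y.matᵀ = y.mat := by
  ext i j
  fin_cases i <;> fin_cases j <;> simp [Frm.mat, Matrix.transpose_apply]

theorem mat_act (g : Matrix (Fin 3) (Fin 3) ℝ) (y : Frm) : (act g y).mat = gᵀ * y.mat * g := by
  refine Frm.mat_of ?_
  rw [Matrix.transpose_mul, Matrix.transpose_mul, Matrix.transpose_transpose, Frm.mat_transpose,
    Matrix.mul_assoc]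

theorem act_act (g h : Matrix (Fin 3) (Fin 3) ℝ) (y : Frm) : act h (act g y) = act (g * h) y := by
  show Frm.of (hᵀ * (act g y).mat * h) = Frm.of ((g * h)ᵀ * y.mat * (g * h))
  rw [mat_act, Matrix.transpose_mul]
  simp only [Matrix.mul_assoc]

theorem act_one (y : Frm) : act 1 y = y := by
  unfold act
  rw [Matrix.transpose_one, Matrix.one_mul, Matrix.mul_one, Frm.of_mat]

/-- `SL₃(ℤ)` acts on the forms: `γ • Y = γ Y γᵀ`. -/
noncomputable instance : MulAction SL(3, ℤ) Frm where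
  smul γ y := act (rl γ.1)ᵀ y
  one_smul y := by
    show act (rl (1 : SL(3, ℤ)).1)ᵀ y = y
    have h : rl (1 : SL(3, ℤ)).1 = 1 := by
      unfold rl
      rw [Matrix.SpecialLinearGroup.coe_one]
      exact Matrix.map_one _ Int.cast_zero Int.cast_one
    rw [h, Matrix.transpose_one, act_one]
  mul_smul γ δ y := by
    show act (rl (γ * δ).1)ᵀ y = act (rl γ.1)ᵀ (act (rl δ.1)ᵀ y)
    rw [act_act, ← Matrix.transpose_mul]
    congr 2
    unfold rl
    rw [Matrix.SpecialLinearGroup.coe_mul]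
    exact Matrix.map_mul (f := Int.castRingHom ℝ)

theorem smul_def (γ : SL(3, ℤ)) (y : Frm) : γ • y = act (rl γ.1)ᵀ y := rfl

/-- The positive definite forms. -/
def Pos : Set Frm := {y | y.mat.PosDef}

/-- The slab `1 < det Y < e` (one interval for each positive definite form modulo positive scalars). -/
def slab : Set Frm := {y | y.mat.PosDef ∧ 1 < y.mat.det ∧ y.mat.det < Real.exp 1}

/-- The invariant measure `dY / (det Y)²` on the slab `1 < det Y < e`. -/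
noncomputable def mu : Measure Frm :=
  (volume.restrict slab).withDensity fun y => ENNReal.ofReal (1 / y.mat.det ^ 2)

/-- `R` is a complete system of representatives of `Γ g Γ / Γ`, `Γ = SL₃(ℤ)`. -/
def IsReps (g : Matrix (Fin 3) (Fin 3) ℤ) (R : Finset (Matrix (Fin 3) (Fin 3) ℤ)) : Prop :=
  (∀ h ∈ R, ∃ γ δ : SL(3, ℤ), h = γ.1 * g * δ.1) ∧
  (∀ h ∈ R, ∀ h' ∈ R, (∃ γ : SL(3, ℤ), h' = h * γ.1) → h' = h) ∧
  ∀ γ δ : SL(3, ℤ), ∃ h ∈ R, ∃ ε : SL(3, ℤ), γ.1 * g * δ.1 = h * ε.1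

/-- `φ` is an eigenfunction of the Hecke operator `T_g`: `(T_g φ)(Y) = ∑ φ(hᵀ Y h)`, the sum over
`Γ g Γ = ⊔ h Γ`. -/
def IsEigen (φ : Frm → ℂ) (g : Matrix (Fin 3) (Fin 3) ℤ) : Prop :=
  ∃ l : ℂ, ∀ R, IsReps g R → ∀ y ∈ Pos, ∑ h ∈ R, φ (act (rl h) y) = l * φ y

/-- The continuous cuspidal joint eigenfunctions of the Hecke operators on `M`, as functions of the positive definite
forms. (Every Hecke-Maass cusp form is one; nothing is assumed about the Laplace operator.) -/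
structure IsCuspEigen (φ : Frm → ℂ) : Prop where
  cont : ContinuousOn φ Pos
  scale : ∀ c : ℝ, 0 < c → ∀ y ∈ Pos, φ (Frm.of (c • y.mat)) = φ y
  inv : ∀ γ : SL(3, ℤ), ∀ y ∈ Pos, φ (γ • y) = φ y
  hecke : ∀ g : Matrix (Fin 3) (Fin 3) ℤ, g.det ≠ 0 → IsEigen φ g
  cusp1 : ∀ y ∈ Pos, ∫ x₁ in (0 : ℝ)..1, ∫ x₂ in (0 : ℝ)..1,
    φ (act !![1, x₁, x₂; 0, 1, 0; 0, 0, 1] y) = 0
  cusp2 : ∀ y ∈ Pos, ∫ x₁ in (0 : ℝ)..1, ∫ x₂ in (0 : ℝ)..1,
    φ (act !![1, 0, x₁; 0, 1, x₂; 0, 0, 1] y) = 0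

/-- The lattice has a vector which is shorter than `1 / R` (for the scaled form with determinant `1`). -/
def Short (R : ℝ) : Set Frm :=
  {y | y ∈ Pos ∧ ∃ m : Fin 3 → ℤ, m ≠ 0 ∧
    R ^ 2 * ((fun i => (m i : ℝ)) ⬝ᵥ y.mat.mulVec fun i => (m i : ℝ)) < y.mat.det ^ (1 / 3 : ℝ)}

end AQ3
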