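import Pool.Agent.Lib_MP_d358f8_ne.Rdc

/-!
# MP_d358f8_nt: the multiplicity of the Siegel set

* `sv_mult`. Let `V > 1`. If `γ • y ∈ SV V` for some `γ` it is enough to bound the number of `δ` with `δ • y₁ ∈ SV V` for `y₁ = γ • y ∈ SV V`.
  Let `y₁ = t frm3 x z`, `y₂ = δ • y₁ = t' frm3 x' z'`, `g = δᵀ` (so `y₂ = gᵀ y₁ g`). `y₁(v) > t = y₁(e₁)` for every integral vector
  `v ∉ ℤ e₁`, because `y₁(v) ≥ t z(b, c) ≥ t V²`; the same for `y₂`. If `g e₁ ∉ ℤ e₁` then `t' = y₂(e₁) = y₁(g e₁) > t`, and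
  `v = g⁻¹ e₁ ∉ ℤ e₁`, `t = y₁(e₁) = y₂(v) > t'`, a contradiction. So `g e₁ = ± e₁`, `g = !![±1, a, b; 0, A]` with `A ∈ GL₂(ℤ)`, the sign is
  `det A`, `z' = bact A z`, so the entries of `A` are in `[-2, 2]` (`sg_bound`), and `x'` is determined by `A` up to `ℤ²` (`x' = ± (x A) + (a, b)` up to
  signs), so `(a, b)` is determined by `A` and `x` (`0 ≤ x'_i < 1`). So there are at most `625` matrices `δ`.
-/

namespace AQ3

open MeasureTheory Matrix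
open scoped ENNReal MatrixGroups

/-! ### Measurability -/

private lemma meas_SvM : Measurable (fun y : Frm => y.1) ∧ Measurable (fun y : Frm => y.2.1) ∧
    Measurable (fun y : Frm => y.2.2.1) ∧ Measurable (fun y : Frm => y.2.2.2.1) ∧
    Measurable (fun y : Frm => y.2.2.2.2.1) ∧ Measurable (fun y : Frm => y.2.2.2.2.2) := by
  have h1 : Measurable (fun y : ℝ × ℝ × ℝ × ℝ × ℝ × ℝ => y.1) := by fun_prop
  have h2 : Measurable (fun y : ℝ × ℝ × ℝ × ℝ × ℝ × ℝ => y.2.1) := by fun_prop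
  have h3 : Measurable (fun y : ℝ × ℝ × ℝ × ℝ × ℝ × ℝ => y.2.2.1) := by fun_prop
  have h4 : Measurable (fun y : ℝ × ℝ × ℝ × ℝ × ℝ × ℝ => y.2.2.2.1) := by fun_prop
  have h5 : Measurable (fun y : ℝ × ℝ × ℝ × ℝ × ℝ × ℝ => y.2.2.2.2.1) := by fun_prop
  have h6 : Measurable (fun y : ℝ × ℝ × ℝ × ℝ × ℝ × ℝ => y.2.2.2.2.2) := by fun_prop
  exact ⟨h1, h2, h3, h4, h5, h6⟩

theorem measurableSet_sv (V : ℝ) : MeasurableSet (SV V) := by
  obtain ⟨m1, m2, m3, m4, m5, m6⟩ := meas_SvM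
  have z1 : Measurable (fun y : Frm => (zof y).1) :=
    (m4.div m1).sub ((m2.div m1).pow_const 2)
  have z2 : Measurable (fun y : Frm => (zof y).2.1) :=
    (m5.div m1).sub ((m2.div m1).mul (m3.div m1))
  have z3 : Measurable (fun y : Frm => (zof y).2.2) :=
    (m6.div m1).sub ((m3.div m1).pow_const 2)
  have hd : Measurable (fun y : Frm => bdet (zof y)) :=
    (z1.mul z3).sub (z2.pow_const 2)
  have hq : ∀ b c : ℝ, Measurable (fun y : Frm => bq (zof y) b c) := fun b c =>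
    ((z1.mul_const _).add (((measurable_const.mul z2).mul_const _).mul_const _)).add
      (z3.mul_const _)
  have hpos : MeasurableSet Pos := isOpen_pos.measurableSet
  have hSg : MeasurableSet {y : Frm | zof y ∈ Sg} :=
    ((measurableSet_lt measurable_const z1).inter (measurableSet_lt measurable_const hd)).inter
      ((measurableSet_le ((measurable_const.mul z2).abs) z1).inter
        (measurableSet_le (measurable_const.mul (z1.pow_const 2)) hd))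
  have hH : MeasurableSet {y : Frm | Hgt V (zof y)} := by
    have : {y : Frm | Hgt V (zof y)} = ⋂ b : ℤ, ⋂ c : ℤ, ⋂ _ : (b ≠ 0 ∨ c ≠ 0),
        {y : Frm | V ^ 2 ≤ bq (zof y) b c} := by
      ext y
      simp only [Set.mem_ofPred_eq, Set.mem_iInter]
      rfl
    rw [this]
    exact MeasurableSet.iInter fun b => MeasurableSet.iInter fun c => MeasurableSet.iInter fun _ =>
      measurableSet_le measurable_const (hq b c)
  exact hpos.inter ((measurableSet_le measurable_const m2).inter ((measurableSet_lt m2 m1).inter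
    ((measurableSet_le measurable_const m3).inter ((measurableSet_lt m3 m1).inter (hSg.inter hH)))))

/-! ### The multiplicity -/

/-- The bilinear form. -/
private noncomputable def bfS (y : Frm) (u0 u1 u2 v0 v1 v2 : ℝ) : ℝ :=
  y.1 * u0 * v0 + y.2.1 * (u0 * v1 + u1 * v0) + y.2.2.1 * (u0 * v2 + u2 * v0) +
    y.2.2.2.1 * u1 * v1 + y.2.2.2.2.1 * (u1 * v2 + u2 * v1) + y.2.2.2.2.2 * u2 * v2

private lemma smul_SvM (γ : SL(3, ℤ)) (y : Frm) : γ • y =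
    (bfS y (γ.1 0 0) (γ.1 0 1) (γ.1 0 2) (γ.1 0 0) (γ.1 0 1) (γ.1 0 2),
      bfS y (γ.1 0 0) (γ.1 0 1) (γ.1 0 2) (γ.1 1 0) (γ.1 1 1) (γ.1 1 2),
      bfS y (γ.1 0 0) (γ.1 0 1) (γ.1 0 2) (γ.1 2 0) (γ.1 2 1) (γ.1 2 2),
      bfS y (γ.1 1 0) (γ.1 1 1) (γ.1 1 2) (γ.1 1 0) (γ.1 1 1) (γ.1 1 2),
      bfS y (γ.1 1 0) (γ.1 1 1) (γ.1 1 2) (γ.1 2 0) (γ.1 2 1) (γ.1 2 2),
      bfS y (γ.1 2 0) (γ.1 2 1) (γ.1 2 2) (γ.1 2 0) (γ.1 2 1) (γ.1 2 2)) := by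
  obtain ⟨a, b, c, d, e, f⟩ := y
  rw [smul_def]
  unfold act Frm.of
  simp only [Matrix.mul_apply, Fin.sum_univ_three, Matrix.transpose_apply, rl, Matrix.map_apply,
    Frm.mat, Matrix.of_apply, Matrix.cons_val', Matrix.cons_val_zero, Matrix.cons_val_one,
    Matrix.cons_val, bfS, Matrix.cons_val_fin_one]
  refine Prod.ext ?_ (Prod.ext ?_ (Prod.ext ?_ (Prod.ext ?_ (Prod.ext ?_ ?_)))) <;> ring

private lemma bf_eq_SvM {y : Frm} (hy : y.1 ≠ 0) (u0 u1 u2 v0 v1 v2 : ℝ) :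
    bfS y u0 u1 u2 v0 v1 v2 =
      (y.1 * u0 + y.2.1 * u1 + y.2.2.1 * u2) * (y.1 * v0 + y.2.1 * v1 + y.2.2.1 * v2) / y.1 +
      y.1 * ((zof y).1 * u1 * v1 + (zof y).2.1 * (u1 * v2 + u2 * v1) + (zof y).2.2 * u2 * v2) := by
  unfold bfS zof
  field_simp
  ring

private lemma low_SvM {V : ℝ} {y : Frm} (hy : y ∈ SV V) (a b c : ℤ) (h : b ≠ 0 ∨ c ≠ 0) :
    y.1 * V ^ 2 ≤ bfS y a b c a b c := by
  have ht := (pd_zof hy.1).1
  rw [bf_eq_SvM ht.ne']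
  have h1 := hy.2.2.2.2.2.2 b c h
  have h2 : 0 ≤ (y.1 * a + y.2.1 * b + y.2.2.1 * c) * (y.1 * a + y.2.1 * b + y.2.2.1 * c) / y.1 :=
    div_nonneg (mul_self_nonneg _) ht.le
  have h3 : bq (zof y) b c = (zof y).1 * b * b + (zof y).2.1 * (b * c + c * b) +
      (zof y).2.2 * c * c := by
    unfold bq
    ring
  rw [h3] at h1
  have h4 := mul_le_mul_of_nonneg_left h1 ht.le
  linarith

/-- The first row is `(± 1, 0, 0)`. -/
private lemma row_SvM {V : ℝ} (hV : 1 < V) {y : Frm} (hy : y ∈ SV V) {δ : SL(3, ℤ)}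
    (hδ : δ • y ∈ SV V) : δ.1 0 1 = 0 ∧ δ.1 0 2 = 0 := by
  by_contra hcon
  have hne : δ.1 0 1 ≠ 0 ∨ δ.1 0 2 ≠ 0 := by
    by_contra h
    push Not at h
    exact hcon h
  have ht := (pd_zof hy.1).1
  have ht' := (pd_zof hδ.1).1
  have hVV : 1 < V ^ 2 := by nlinarith
  have h1 : y.1 * V ^ 2 ≤ (δ • y).1 := by
    have := low_SvM hy (δ.1 0 0) (δ.1 0 1) (δ.1 0 2) hne
    rw [smul_SvM δ y]
    exact this
  have h2 : y.1 < (δ • y).1 := by nlinarith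
  by_cases hinv : (δ⁻¹).1 0 1 ≠ 0 ∨ (δ⁻¹).1 0 2 ≠ 0
  · have h3 : (δ • y).1 * V ^ 2 ≤ (δ⁻¹ • (δ • y)).1 := by
      have := low_SvM hδ ((δ⁻¹).1 0 0) ((δ⁻¹).1 0 1) ((δ⁻¹).1 0 2) hinv
      rw [smul_SvM δ⁻¹ (δ • y)]
      exact this
    rw [inv_smul_smul] at h3
    nlinarith
  · push Not at hinv
    have hmul : (δ⁻¹).1 * δ.1 = 1 := by
      rw [← Matrix.SpecialLinearGroup.coe_mul, inv_mul_cancel, Matrix.SpecialLinearGroup.coe_one]
    have e0 := congrFun (congrFun hmul 0) 0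
    have e1 := congrFun (congrFun hmul 0) 1
    have e2 := congrFun (congrFun hmul 0) 2
    rw [Matrix.mul_apply, Fin.sum_univ_three, hinv.1, hinv.2] at e0 e1 e2
    have hd0 : (δ⁻¹).1 0 0 ≠ 0 := by
      intro h
      rw [h] at e0
      simp at e0
    have f1 : (δ⁻¹).1 0 0 * δ.1 0 1 = 0 := by
      have : (1 : Matrix (Fin 3) (Fin 3) ℤ) 0 1 = 0 := rfl
      rw [this] at e1
      linarith
    have f2 : (δ⁻¹).1 0 0 * δ.1 0 2 = 0 := by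
      have : (1 : Matrix (Fin 3) (Fin 3) ℤ) 0 2 = 0 := rfl
      rw [this] at e2
      linarith
    exact hcon ⟨(mul_eq_zero.mp f1).resolve_left hd0, (mul_eq_zero.mp f2).resolve_left hd0⟩

/-- The determinant of the block. -/
private lemma det_SvM {V : ℝ} (hV : 1 < V) {y : Frm} (hy : y ∈ SV V) {δ : SL(3, ℤ)}
    (hδ : δ • y ∈ SV V) :
    δ.1 0 0 = δ.1 1 1 * δ.1 2 2 - δ.1 1 2 * δ.1 2 1 ∧ (δ.1 0 0 = 1 ∨ δ.1 0 0 = -1) := by
  obtain ⟨h1, h2⟩ := row_SvM hV hy hδ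
  have hdet := δ.2
  rw [Matrix.det_fin_three, h1, h2] at hdet
  have h3 : δ.1 0 0 * (δ.1 1 1 * δ.1 2 2 - δ.1 1 2 * δ.1 2 1) = 1 := by linarith
  have h4 := Int.eq_one_or_neg_one_of_mul_eq_one h3
  refine ⟨?_, h4⟩
  rcases h4 with h | h
  · rw [h] at h3 ⊢
    linarith
  · rw [h] at h3 ⊢
    linarith

private lemma zof_smul_SvM {V : ℝ} (hV : 1 < V) {y : Frm} (hy : y ∈ SV V) {δ : SL(3, ℤ)}
    (hδ : δ • y ∈ SV V) :
    (δ • y).1 = y.1 ∧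
    (δ • y).2.1 = δ.1 0 0 * (y.1 * δ.1 1 0 + y.2.1 * δ.1 1 1 + y.2.2.1 * δ.1 1 2) ∧
    (δ • y).2.2.1 = δ.1 0 0 * (y.1 * δ.1 2 0 + y.2.1 * δ.1 2 1 + y.2.2.1 * δ.1 2 2) ∧
    zof (δ • y) = bact (rl2 !![δ.1 1 1, δ.1 2 1; δ.1 1 2, δ.1 2 2]) (zof y) := by
  obtain ⟨h1, h2⟩ := row_SvM hV hy hδ
  have ht := (pd_zof hy.1).1
  have ha : ((δ.1 0 0 : ℤ) : ℝ) ^ 2 = 1 := by
    rcases (det_SvM hV hy hδ).2 with h | h <;> rw [h] <;> norm_num
  have e1 : (δ • y).1 = y.1 := by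
    rw [smul_SvM δ y, h1, h2]
    show bfS y _ _ _ _ _ _ = _
    unfold bfS
    push_cast
    linear_combination y.1 * ha
  have e2 : (δ • y).2.1 =
      δ.1 0 0 * (y.1 * δ.1 1 0 + y.2.1 * δ.1 1 1 + y.2.2.1 * δ.1 1 2) := by
    rw [smul_SvM δ y, h1, h2]
    show bfS y _ _ _ _ _ _ = _
    unfold bfS
    push_cast
    ring
  have e3 : (δ • y).2.2.1 =
      δ.1 0 0 * (y.1 * δ.1 2 0 + y.2.1 * δ.1 2 1 + y.2.2.1 * δ.1 2 2) := by
    rw [smul_SvM δ y, h1, h2]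
    show bfS y _ _ _ _ _ _ = _
    unfold bfS
    push_cast
    ring
  refine ⟨e1, e2, e3, ?_⟩
  have e4 : (δ • y).2.2.2.1 = bfS y (δ.1 1 0) (δ.1 1 1) (δ.1 1 2) (δ.1 1 0) (δ.1 1 1) (δ.1 1 2) := by
    rw [smul_SvM δ y]
  have e5 : (δ • y).2.2.2.2.1 =
      bfS y (δ.1 1 0) (δ.1 1 1) (δ.1 1 2) (δ.1 2 0) (δ.1 2 1) (δ.1 2 2) := by
    rw [smul_SvM δ y]
  have e6 : (δ • y).2.2.2.2.2 =
      bfS y (δ.1 2 0) (δ.1 2 1) (δ.1 2 2) (δ.1 2 0) (δ.1 2 1) (δ.1 2 2) := by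
    rw [smul_SvM δ y]
  have hz : zof (δ • y) = ((δ • y).2.2.2.1 / (δ • y).1 - ((δ • y).2.1 / (δ • y).1) ^ 2,
      (δ • y).2.2.2.2.1 / (δ • y).1 - (δ • y).2.1 / (δ • y).1 * ((δ • y).2.2.1 / (δ • y).1),
      (δ • y).2.2.2.2.2 / (δ • y).1 - ((δ • y).2.2.1 / (δ • y).1) ^ 2) := rfl
  rw [hz, e1, e2, e3, e4, e5, e6, bf_eq_SvM ht.ne', bf_eq_SvM ht.ne', bf_eq_SvM ht.ne']
  have hb : bact (rl2 !![δ.1 1 1, δ.1 2 1; δ.1 1 2, δ.1 2 2]) (zof y) =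
      (bq (zof y) (δ.1 1 1) (δ.1 1 2),
        (zof y).1 * δ.1 1 1 * δ.1 2 1 + (zof y).2.1 * (δ.1 1 1 * δ.1 2 2 + δ.1 1 2 * δ.1 2 1) +
          (zof y).2.2 * δ.1 1 2 * δ.1 2 2,
        bq (zof y) (δ.1 2 1) (δ.1 2 2)) := by
    simp [bact, rl2]
  rw [hb]
  have ht0 : y.1 ≠ 0 := ht.ne'
  generalize ((δ.1 0 0 : ℤ) : ℝ) = a at ha
  generalize ((δ.1 1 0 : ℤ) : ℝ) = k
  generalize ((δ.1 2 0 : ℤ) : ℝ) = l
  generalize ((δ.1 1 1 : ℤ) : ℝ) = p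
  generalize ((δ.1 1 2 : ℤ) : ℝ) = q
  generalize ((δ.1 2 1 : ℤ) : ℝ) = r
  generalize ((δ.1 2 2 : ℤ) : ℝ) = s
  have key : ∀ X Y Z : ℝ, (X * Y / y.1 + y.1 * Z) / y.1 - (a * X / y.1) * (a * Y / y.1) = Z := by
    intro X Y Z
    field_simp
    linear_combination (-(X * Y)) * ha
  refine Prod.ext ?_ (Prod.ext ?_ ?_)
  · show _ = bq (zof y) p q
    unfold bq
    linear_combination key (y.1 * k + y.2.1 * p + y.2.2.1 * q) (y.1 * k + y.2.1 * p + y.2.2.1 * q)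
      ((zof y).1 * p * p + (zof y).2.1 * (p * q + q * p) + (zof y).2.2 * q * q)
  · show _ = (zof y).1 * p * r + (zof y).2.1 * (p * s + q * r) + (zof y).2.2 * q * s
    linear_combination key (y.1 * k + y.2.1 * p + y.2.2.1 * q) (y.1 * l + y.2.1 * r + y.2.2.1 * s)
      ((zof y).1 * p * r + (zof y).2.1 * (p * s + q * r) + (zof y).2.2 * q * s)
  · show _ = bq (zof y) r s
    unfold bq
    linear_combination key (y.1 * l + y.2.1 * r + y.2.2.1 * s) (y.1 * l + y.2.1 * r + y.2.2.1 * s)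
      ((zof y).1 * r * r + (zof y).2.1 * (r * s + s * r) + (zof y).2.2 * s * s)

private lemma uniq_SvM {t c a : ℝ} (ht : 0 < t) (ha : a = 1 ∨ a = -1) {k k' : ℤ}
    (h1 : 0 ≤ a * (t * k + c)) (h2 : a * (t * k + c) < t) (h1' : 0 ≤ a * (t * k' + c))
    (h2' : a * (t * k' + c) < t) : k = k' := by
  have h : |((k : ℝ) - k')| < 1 := by
    rw [abs_lt]
    rcases ha with rfl | rfl
    · constructor
      · by_contra hcon
        push Not at hcon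
        nlinarith
      · by_contra hcon
        push Not at hcon
        nlinarith
    · constructor
      · by_contra hcon
        push Not at hcon
        nlinarith
      · by_contra hcon
        push Not at hcon
        nlinarith
  have h3 : |k - k'| < 1 := by
    have : ((|k - k'| : ℤ) : ℝ) < 1 := by
      push_cast
      exact h
    exact_mod_cast this
  have h4 := abs_lt.mp h3
  omega

private lemma inj_SvM {V : ℝ} (hV : 1 < V) {y : Frm} (hy : y ∈ SV V) {δ δ' : SL(3, ℤ)}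
    (hδ : δ • y ∈ SV V) (hδ' : δ' • y ∈ SV V) (h11 : δ.1 1 1 = δ'.1 1 1)
    (h12 : δ.1 1 2 = δ'.1 1 2) (h21 : δ.1 2 1 = δ'.1 2 1) (h22 : δ.1 2 2 = δ'.1 2 2) : δ = δ' := by
  obtain ⟨r1, r2⟩ := row_SvM hV hy hδ
  obtain ⟨r1', r2'⟩ := row_SvM hV hy hδ'
  obtain ⟨d1, d2⟩ := det_SvM hV hy hδ
  obtain ⟨d1', -⟩ := det_SvM hV hy hδ'
  have ha : δ.1 0 0 = δ'.1 0 0 := by rw [d1, d1', h11, h12, h21, h22]
  have ht := (pd_zof hy.1).1
  obtain ⟨e1, e2, e3, -⟩ := zof_smul_SvM hV hy hδ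
  obtain ⟨e1', e2', e3', -⟩ := zof_smul_SvM hV hy hδ'
  have haR : ((δ.1 0 0 : ℤ) : ℝ) = 1 ∨ ((δ.1 0 0 : ℤ) : ℝ) = -1 := by
    rcases d2 with h | h
    · left
      rw [h]
      norm_num
    · right
      rw [h]
      norm_num
  obtain ⟨-, g1, g2, g3, g4, -, -⟩ := hδ
  obtain ⟨-, g1', g2', g3', g4', -, -⟩ := hδ'
  rw [e2] at g1 g2
  rw [e3] at g3 g4
  rw [e2'] at g1' g2'
  rw [e3'] at g3' g4'
  rw [e1] at g2 g4
  rw [e1'] at g2' g4'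
  rw [← ha, ← h11, ← h12] at g1' g2'
  rw [← ha, ← h21, ← h22] at g3' g4'
  have k1 : δ.1 1 0 = δ'.1 1 0 := by
    refine uniq_SvM (c := y.2.1 * δ.1 1 1 + y.2.2.1 * δ.1 1 2) ht haR ?_ ?_ ?_ ?_
    · rw [← add_assoc]
      exact g1
    · rw [← add_assoc]
      exact g2
    · rw [← add_assoc]
      exact g1'
    · rw [← add_assoc]
      exact g2'
  have k2 : δ.1 2 0 = δ'.1 2 0 := by
    refine uniq_SvM (c := y.2.1 * δ.1 2 1 + y.2.2.1 * δ.1 2 2) ht haR ?_ ?_ ?_ ?_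
    · rw [← add_assoc]
      exact g3
    · rw [← add_assoc]
      exact g4
    · rw [← add_assoc]
      exact g3'
    · rw [← add_assoc]
      exact g4'
  refine Subtype.ext ?_
  ext i j
  fin_cases i <;> fin_cases j
  · exact ha
  · exact r1.trans r1'.symm
  · exact r2.trans r2'.symm
  · exact k1
  · exact h11
  · exact h12
  · exact k2
  · exact h21
  · exact h22

private lemma mem_SvM {V : ℝ} (hV : 1 < V) {y : Frm} (hy : y ∈ SV V) {δ : SL(3, ℤ)}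
    (hδ : δ • y ∈ SV V) : |δ.1 1 1| ≤ 2 ∧ |δ.1 1 2| ≤ 2 ∧ |δ.1 2 1| ≤ 2 ∧ |δ.1 2 2| ≤ 2 := by
  obtain ⟨-, -, -, e4⟩ := zof_smul_SvM hV hy hδ
  obtain ⟨d1, d2⟩ := det_SvM hV hy hδ
  have hz : zof y ∈ Sg := hy.2.2.2.2.2.1
  have hz' : zof (δ • y) ∈ Sg := hδ.2.2.2.2.2.1
  rw [e4] at hz'
  have hdet : (!![δ.1 1 1, δ.1 2 1; δ.1 1 2, δ.1 2 2] : Matrix (Fin 2) (Fin 2) ℤ).det = 1 ∨
      (!![δ.1 1 1, δ.1 2 1; δ.1 1 2, δ.1 2 2] : Matrix (Fin 2) (Fin 2) ℤ).det = -1 := by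
    rw [Matrix.det_fin_two_of]
    rcases d2 with h | h
    · left
      rw [h] at d1
      linarith
    · right
      rw [h] at d1
      linarith
  have hb := sg_bound hz hdet hz'
  exact ⟨hb 0 0, hb 1 0, hb 0 1, hb 1 1⟩

theorem sv_mult {V : ℝ} (hV : 1 < V) {y : Frm} (hy : y ∈ Pos) : {γ : SL(3, ℤ) | γ • y ∈ SV V}.encard ≤ 625 := by
  rcases Set.eq_empty_or_nonempty {γ : SL(3, ℤ) | γ • y ∈ SV V} with hE | ⟨γ₀, hγ₀⟩
  · rw [hE, Set.encard_empty]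
    exact zero_le
  · have hγ₀' : γ₀ • y ∈ SV V := hγ₀
    set T : Finset (ℤ × ℤ × ℤ × ℤ) := Finset.Icc (-2) 2 ×ˢ Finset.Icc (-2) 2 ×ˢ
      Finset.Icc (-2) 2 ×ˢ Finset.Icc (-2) 2 with hT
    have hcard : ((T : Set (ℤ × ℤ × ℤ × ℤ))).encard = 625 := by
      have hc : T.card = 625 := by
        rw [hT, Finset.card_product, Finset.card_product, Finset.card_product, Int.card_Icc]
        rfl
      rw [Set.encard_coe_eq_coe_finsetCard, hc]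
      rfl
    rw [← hcard]
    have hsh : ∀ γ : SL(3, ℤ), γ • y = (γ * γ₀⁻¹) • (γ₀ • y) := by
      intro γ
      rw [smul_smul, inv_mul_cancel_right]
    refine Set.encard_le_encard_of_injOn (f := fun γ : SL(3, ℤ) => ((γ * γ₀⁻¹).1 1 1,
      (γ * γ₀⁻¹).1 1 2, (γ * γ₀⁻¹).1 2 1, (γ * γ₀⁻¹).1 2 2)) ?_ ?_
    · intro γ hγ
      have hγ' : (γ * γ₀⁻¹) • (γ₀ • y) ∈ SV V := by
        rw [← hsh]
        exact hγ
      obtain ⟨b1, b2, b3, b4⟩ := mem_SvM hV hγ₀' hγ'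
      rw [abs_le] at b1 b2 b3 b4
      rw [hT, Finset.coe_product]
      simp only [Set.mem_prod, Finset.mem_coe, Finset.mem_product, Finset.mem_Icc]
      exact ⟨b1, b2, b3, b4⟩
    · intro γ hγ γ' hγ' hf
      have h1 : (γ * γ₀⁻¹) • (γ₀ • y) ∈ SV V := by
        rw [← hsh]
        exact hγ
      have h2 : (γ' * γ₀⁻¹) • (γ₀ • y) ∈ SV V := by
        rw [← hsh]
        exact hγ'
      simp only [Prod.mk.injEq] at hf
      obtain ⟨f1, f2, f3, f4⟩ := hf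
      exact mul_right_cancel (inj_SvM hV hγ₀' h1 h2 f1 f2 f3 f4)

end AQ3
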